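import Pool.Agent.Lib.MP_468ee0_co.Ric

set_option autoImplicit false

namespace Pool.Agent.Lib.MP_468ee0_co

open Finset Matrix Polynomial

variable {S I : Type} [Fintype S] [Fintype I] [DecidableEq S] [DecidableEq I]

/-- weighted Laplacian of the split graph -/
noncomputable def Lap (a : S → I → ℝ) : Matrix (S ⊕ I) (S ⊕ I) ℝ :=
  fromBlocks (diagonal (fun j => (Fintype.card S : ℝ) + ∑ m, a j m) - of fun _ _ => 1)
    (of fun j i => -a j i) (of fun i j => -a j i) (diagonal fun i => ∑ l, a l i)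

/-- rank one modification -/
noncomputable def Lt (a : S → I → ℝ) : Matrix (S ⊕ I) (S ⊕ I) ℝ :=
  fromBlocks (diagonal (fun j => (Fintype.card S : ℝ) + ∑ m, a j m))
    (of fun j i => 1 - a j i) (of fun i j => -a j i) (diagonal fun i => ∑ l, a l i)

lemma Lap_herm (a : S → I → ℝ) : (Lap a).IsHermitian := by
  ext x y
  rcases x with j | i <;> rcases y with j' | i' <;>
    simp [Lap, conjTranspose_apply, diagonal_apply, eq_comm]
  · split_ifs with h
    · rw [h]
    · rfl
  · split_ifs with h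
    · rw [h]
    · rfl

lemma Lap_colsum (a : S → I → ℝ) (y : S ⊕ I) : ∑ x, Lap a x y = 0 := by
  rcases y with j | i
  · simp [Lap, Fintype.sum_sum_type, diagonal_apply, Finset.sum_sub_distrib]
  · simp [Lap, Fintype.sum_sum_type, diagonal_apply]

lemma charpoly_Lt (a : S → I → ℝ) :
    X * (Lt a).charpoly = (X - C (Fintype.card S : ℝ)) * (Lap a).charpoly := by
  refine Polynomial.eq_of_infinite_eval_eq _ _ ?_
  refine Set.Infinite.mono (s := {z : ℝ | z ≠ 0}) (fun z hz => ?_) ?_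
  · have hz' : z ≠ 0 := hz
    let e : S ⊕ I → ℝ := Sum.elim (fun _ => -1 / z) (fun _ => 0)
    have key : (1 + replicateCol Unit e * replicateRow Unit (fun _ => (1 : ℝ)))
        * (Matrix.scalar _ z - Lap a) = Matrix.scalar _ z - Lt a := by
      ext x y
      rw [add_mul, one_mul, Matrix.add_apply, Matrix.mul_apply]
      have : ∀ w : S ⊕ I, (replicateCol Unit e * replicateRow Unit (fun _ : S ⊕ I => (1 : ℝ))) x w
          = e x := by
        intro w; simp [Matrix.mul_apply]
      simp_rw [this]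
      rw [← Finset.mul_sum]
      have h2 : ∑ w, (Matrix.scalar (S ⊕ I) z - Lap a) w y = z := by
        simp_rw [Matrix.sub_apply]
        rw [Finset.sum_sub_distrib, Lap_colsum]
        simp [diagonal_apply]
      rw [h2]
      rcases x with j | i <;> rcases y with j' | i' <;>
        simp [Lap, Lt, e, hz'] <;> ring
    have h3 := congrArg Matrix.det key
    rw [det_mul, det_one_add_replicateCol_mul_replicateRow] at h3
    have h4 : (fun _ => (1 : ℝ)) ⬝ᵥ e = -(Fintype.card S : ℝ) / z := by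
      simp [e, dotProduct, Fintype.sum_sum_type]; ring
    simp only [Set.mem_ofPred_eq, eval_mul, eval_X, eval_sub, eval_C, Matrix.eval_charpoly]
    rw [← h3, h4]
    field_simp
    ring
  · exact (Set.finite_singleton (0 : ℝ)).infinite_compl

lemma charpoly_split (a : S → I → ℝ) (U : I → S → ℝ)
    (hU : ∀ i j, U i j * (Fintype.card S + ∑ m, a j m) = ric a U i j) :
    (Lt a).charpoly
      = (diagonal (fun j => (Fintype.card S : ℝ) + ∑ m, a j m)
          - (of fun j i => 1 - a j i) * of U).charpoly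
        * (diagonal (fun i => ∑ l, a l i) + of U * of fun j i => 1 - a j i).charpoly := by
  set D1 : Matrix S S ℝ := diagonal (fun j => (Fintype.card S : ℝ) + ∑ m, a j m) with hD1
  set D2 : Matrix I I ℝ := diagonal (fun i => ∑ l, a l i) with hD2
  set B : Matrix S I ℝ := of fun j i => 1 - a j i with hB
  set At : Matrix I S ℝ := of fun i j => -a j i with hAt
  set W : Matrix I S ℝ := of U with hW
  have hR : W * D1 = -At + D2 * W + W * (B * W) := by
    ext i j
    simp only [hW, hD1, hD2, hAt, hB, mul_diagonal, diagonal_mul, of_apply, Matrix.add_apply,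
      Matrix.neg_apply, neg_neg, hU, ric]
    simp only [Matrix.mul_apply, of_apply]
  have hT : fromBlocks 1 0 (-W) 1 * fromBlocks 1 0 W 1 = (1 : Matrix (S ⊕ I) (S ⊕ I) ℝ) := by
    rw [fromBlocks_multiply]; simp
  have hc : fromBlocks 1 0 W 1 * (Lt a * fromBlocks 1 0 (-W) 1)
      = fromBlocks (D1 - B * W) B 0 (D2 + W * B) := by
    unfold Lt
    rw [fromBlocks_multiply, fromBlocks_multiply]
    simp only [← hD1, ← hD2, ← hB, ← hAt, Matrix.mul_one, Matrix.one_mul, Matrix.mul_zero,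
      Matrix.zero_mul, add_zero, zero_add, Matrix.mul_neg, Matrix.mul_add, hR]
    congr 1
    · abel
    · abel
    · abel
  rw [← charpoly_fromBlocks_zero₂₁, ← hc, charpoly_mul_comm, Matrix.mul_assoc, hT, Matrix.mul_one]

lemma exists_eigvec {n : Type} [Fintype n] [DecidableEq n] (M : Matrix n n ℝ) {μ : ℝ}
    (h : μ ∈ M.charpoly.roots) : ∃ x : n → ℝ, x ≠ 0 ∧ ∀ i, ∑ j, M i j * x j = μ * x i := by
  rw [Polynomial.mem_roots M.charpoly_monic.ne_zero, IsRoot.def, Matrix.eval_charpoly,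
    ← Matrix.exists_mulVec_eq_zero_iff] at h
  obtain ⟨x, hx0, hx⟩ := h
  refine ⟨x, hx0, fun i => ?_⟩
  have := congrFun hx i
  simp only [mulVec, dotProduct, Matrix.sub_apply, scalar_apply, diagonal_apply, sub_mul,
    Finset.sum_sub_distrib, ite_mul, zero_mul, Finset.sum_ite_eq, Finset.mem_univ, if_true,
    Pi.zero_apply] at this
  linarith

lemma root_ge {n : Type} [Fintype n] [DecidableEq n] (d : n → ℝ) (B : Matrix n n ℝ)
    (hB : ∀ i j, 0 ≤ B i j) (p : n → ℝ) (hp : ∀ i, 0 < p i) (N : ℝ)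
    (h : ∀ i, ∑ j, B i j * p j ≤ (d i - N) * p i) {μ : ℝ}
    (hμ : μ ∈ (diagonal d - B).charpoly.roots) : N ≤ μ := by
  obtain ⟨x, hx0, hx⟩ := exists_eigvec _ hμ
  obtain ⟨i0, hi0⟩ := Function.ne_iff.1 hx0
  obtain ⟨i, -, hi⟩ := Finset.exists_max_image Finset.univ (fun i => |x i| / p i)
    ⟨i0, Finset.mem_univ _⟩
  set θ := |x i| / p i with hθ
  have hθ0 : 0 < θ := lt_of_lt_of_le (div_pos (abs_pos.2 hi0) (hp i0)) (hi i0 (Finset.mem_univ _))
  have hxj : ∀ j, |x j| ≤ θ * p j := fun j => (div_le_iff₀ (hp j)).1 (hi j (Finset.mem_univ _))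
  have hxi : |x i| = θ * p i := (div_mul_cancel₀ _ (hp i).ne').symm
  have e := hx i
  simp only [Matrix.sub_apply, diagonal_apply, sub_mul, Finset.sum_sub_distrib, ite_mul, zero_mul,
    Finset.sum_ite_eq, Finset.mem_univ, if_true] at e
  have e' : (d i - μ) * x i = ∑ j, B i j * x j := by linarith
  have b1 : |∑ j, B i j * x j| ≤ θ * ∑ j, B i j * p j := by
    refine (Finset.abs_sum_le_sum_abs _ _).trans ?_
    rw [Finset.mul_sum]
    refine Finset.sum_le_sum fun j _ => ?_
    rw [abs_mul, abs_of_nonneg (hB i j)]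
    nlinarith [mul_le_mul_of_nonneg_left (hxj j) (hB i j)]
  rw [← e', abs_mul, hxi] at b1
  have b2 := mul_le_mul_of_nonneg_left (h i) hθ0.le
  have b3 := mul_pos hθ0 (hp i)
  have b4 := mul_le_mul_of_nonneg_right (le_abs_self (d i - μ)) b3.le
  by_contra hlt
  push Not at hlt
  nlinarith

lemma root_le {n : Type} [Fintype n] [DecidableEq n] (R : Matrix n n ℝ)
    (hR : ∀ i j, 0 ≤ R i j) (N : ℝ) (h : ∀ j, ∑ i, R i j ≤ N) {μ : ℝ}
    (hμ : μ ∈ R.charpoly.roots) : μ ≤ N := by
  obtain ⟨x, hx0, hx⟩ := exists_eigvec _ hμ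
  obtain ⟨i0, hi0⟩ := Function.ne_iff.1 hx0
  have hs : 0 < ∑ i, |x i| := Finset.sum_pos' (fun i _ => abs_nonneg _)
    ⟨i0, Finset.mem_univ _, abs_pos.2 hi0⟩
  have b1 : ∑ i, μ * |x i| ≤ ∑ i, ∑ j, R i j * |x j| := by
    refine Finset.sum_le_sum fun i _ => ?_
    calc μ * |x i| ≤ |μ| * |x i| := mul_le_mul_of_nonneg_right (le_abs_self _) (abs_nonneg _)
      _ = |∑ j, R i j * x j| := by rw [hx, abs_mul]
      _ ≤ _ := Finset.abs_sum_le_sum_abs _ _
      _ = _ := Finset.sum_congr rfl fun j _ => by rw [abs_mul, abs_of_nonneg (hR i j)]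
  have b2 : ∑ i, ∑ j, R i j * |x j| ≤ ∑ j, N * |x j| := by
    rw [Finset.sum_comm]
    refine Finset.sum_le_sum fun j _ => ?_
    rw [← Finset.sum_mul]
    exact mul_le_mul_of_nonneg_right (h j) (abs_nonneg _)
  rw [← Finset.mul_sum] at b1 b2
  exact le_of_mul_le_mul_right (b1.trans b2) hs

/-- the eigenvalue form of the split graph inequality -/
lemma excess_le (a : S → I → ℝ) (h0 : ∀ j i, 0 < a j i) (h1 : ∀ j i, a j i < 1) :
    ∑ x, max ((Lap_herm a).eigenvalues x - Fintype.card S) 0 ≤ ∑ j, ∑ i, a j i := by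
  obtain ⟨p, q, hp, hq, e1, e2⟩ := exists_v a h0 h1
  obtain ⟨U, u0, u1, u2, u3⟩ := exists_U a (fun j i => (h0 j i).le) (fun j i => (h1 j i).le) p q
    (fun j => (hp j).le) hq e1 e2
  have ha' : ∀ j i, 0 ≤ 1 - a j i := fun j i => sub_nonneg.2 (h1 j i).le
  have hc := charpoly_Lt a
  rw [charpoly_split a U u3] at hc
  set N : ℝ := (Fintype.card S : ℝ) with hN
  have hN0 : 0 ≤ N := Nat.cast_nonneg _
  set M := diagonal (fun j => N + ∑ m, a j m) - (of fun j i => 1 - a j i) * of U with hM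
  set R := diagonal (fun i => ∑ l, a l i) + of U * of fun j i => 1 - a j i with hR
  have hBU : ∀ j l, 0 ≤ ((of fun j i => 1 - a j i) * of U) j l := fun j l => by
    rw [Matrix.mul_apply]
    exact Finset.sum_nonneg fun i _ => mul_nonneg (ha' j i) (u0 i l)
  have hMr : ∀ μ ∈ M.charpoly.roots, N ≤ μ := by
    intro μ hμ
    refine root_ge _ _ hBU p hp N (fun j => ?_) hμ
    rw [add_sub_cancel_left]
    refine le_trans ?_ (e1 j)
    simp_rw [Matrix.mul_apply, of_apply, Finset.sum_mul]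
    rw [Finset.sum_comm]
    refine Finset.sum_le_sum fun i _ => ?_
    simp_rw [mul_assoc]
    rw [← Finset.mul_sum]
    exact mul_le_mul_of_nonneg_left (u2 i) (ha' j i)
  have hRr : ∀ μ ∈ R.charpoly.roots, μ ≤ N := by
    intro μ hμ
    refine root_le R (fun i m => ?_) N (fun m => ?_) hμ
    · rw [hR, Matrix.add_apply, Matrix.mul_apply, diagonal_apply]
      refine add_nonneg ?_ (Finset.sum_nonneg fun j _ => mul_nonneg (u0 i j) (ha' j m))
      split_ifs
      · exact Finset.sum_nonneg fun l _ => (h0 l i).le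
      · exact le_rfl
    · simp_rw [hR, Matrix.add_apply, Matrix.mul_apply, diagonal_apply, of_apply]
      rw [Finset.sum_add_distrib, Finset.sum_ite_eq', if_pos (Finset.mem_univ _), Finset.sum_comm]
      have : ∑ j, ∑ i, U i j * (1 - a j m) ≤ ∑ j, (1 - a j m) := by
        refine Finset.sum_le_sum fun j _ => ?_
        rw [← Finset.sum_mul]
        exact mul_le_of_le_one_left (ha' j m) (u1 j)
      rw [sum_one_sub] at this
      linarith
  have ne1 : (X - C N) * (Lap a).charpoly ≠ 0 :=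
    mul_ne_zero (X_sub_C_ne_zero _) (Lap a).charpoly_monic.ne_zero
  have hsp : M.charpoly.Splits := by
    refine Splits.of_dvd ((Splits.X_sub_C N).mul (Lap_herm a).splits_charpoly) ne1 ?_
    rw [← hc]
    exact Dvd.dvd.mul_left (dvd_mul_right _ _) _
  have hroots := congrArg Polynomial.roots hc
  rw [roots_mul ne1, roots_mul (hc ▸ ne1),
    roots_mul (mul_ne_zero M.charpoly_monic.ne_zero R.charpoly_monic.ne_zero), roots_X,
    roots_X_sub_C, (Lap_herm a).roots_charpoly_eq_eigenvalues] at hroots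
  have hs := congrArg (fun m : Multiset ℝ => (m.map fun x => max (x - N) 0).sum) hroots
  simp only [Multiset.map_add, Multiset.sum_add, Multiset.map_singleton, Multiset.sum_singleton,
    sub_self, max_self, zero_add, Multiset.map_map] at hs
  have s1 : max (0 - N) 0 = 0 := max_eq_right (by linarith)
  have s2 : (R.charpoly.roots.map fun x => max (x - N) 0).sum = 0 := by
    refine Multiset.sum_eq_zero fun y hy => ?_
    obtain ⟨x, hx, rfl⟩ := Multiset.mem_map.1 hy
    exact max_eq_right (sub_nonpos.2 (hRr x hx))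
  have s3 : (M.charpoly.roots.map fun x => max (x - N) 0).sum = M.trace - N * N := by
    rw [Multiset.map_congr rfl (fun x hx => max_eq_left (sub_nonneg.2 (hMr x hx))),
      Multiset.sum_map_sub, Multiset.map_id', Matrix.trace_eq_sum_roots_charpoly_of_splits hsp,
      Multiset.map_const', Multiset.sum_replicate, ← hsp.natDegree_eq_card_roots,
      Matrix.charpoly_natDegree_eq_dim, nsmul_eq_mul]
  have s4 : M.trace ≤ N * N + ∑ j, ∑ i, a j i := by
    rw [hM, Matrix.trace_sub, trace_diagonal, Finset.sum_add_distrib]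
    have : 0 ≤ ((of fun j i => 1 - a j i) * of U).trace := Finset.sum_nonneg fun j _ => hBU j j
    simp only [Finset.sum_const, Finset.card_univ, nsmul_eq_mul]
    linarith
  rw [s1, s2, s3] at hs
  have s5 : ∑ x, max ((Lap_herm a).eigenvalues x - N) 0 = M.trace - N * N := by
    rw [zero_add, add_zero] at hs
    rw [hs]; rfl
  linarith

lemma Lap_quad (a : S → I → ℝ) (z : S ⊕ I → ℝ) :
    ∑ x, ∑ y, z x * Lap a x y * z y = Fintype.card S * ∑ s, z (Sum.inl s) ^ 2
      - (∑ s, z (Sum.inl s)) ^ 2 + ∑ s, ∑ i, a s i * (z (Sum.inl s) - z (Sum.inr i)) ^ 2 := by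
  simp only [Fintype.sum_sum_type, Lap, fromBlocks_apply₁₁, fromBlocks_apply₁₂, fromBlocks_apply₂₁,
    fromBlocks_apply₂₂, Matrix.sub_apply, of_apply, diagonal_apply, mul_sub, sub_mul, mul_ite,
    ite_mul, mul_zero, zero_mul, Finset.sum_sub_distrib, Finset.sum_add_distrib,
    Finset.sum_ite_eq, Finset.mem_univ, if_true, mul_one]
  have e1 : (∑ s, z (Sum.inl s)) ^ 2 = ∑ s, ∑ t, z (Sum.inl s) * z (Sum.inl t) := by
    rw [sq, Finset.sum_mul_sum]
  have e2 : ∑ s, ∑ i, a s i * (z (Sum.inl s) - z (Sum.inr i)) ^ 2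
      = ∑ s, z (Sum.inl s) * (∑ i, a s i) * z (Sum.inl s)
        + ∑ s, ∑ i, z (Sum.inl s) * -a s i * z (Sum.inr i)
        + ∑ i, ∑ s, z (Sum.inr i) * -a s i * z (Sum.inl s)
        + ∑ i, z (Sum.inr i) * (∑ s, a s i) * z (Sum.inr i) := by
    simp_rw [Finset.mul_sum, Finset.sum_mul]
    rw [Finset.sum_comm (f := fun i s => z (Sum.inr i) * -a s i * z (Sum.inl s)),
      Finset.sum_comm (f := fun i s => z (Sum.inr i) * a s i * z (Sum.inr i))]
    simp_rw [← Finset.sum_add_distrib]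
    exact Finset.sum_congr rfl fun s _ => Finset.sum_congr rfl fun i _ => by ring
  have e3 : ∑ s, z (Sum.inl s) * ((Fintype.card S : ℝ) + ∑ i, a s i) * z (Sum.inl s)
      = Fintype.card S * ∑ s, z (Sum.inl s) ^ 2
        + ∑ s, z (Sum.inl s) * (∑ i, a s i) * z (Sum.inl s) := by
    rw [Finset.mul_sum, ← Finset.sum_add_distrib]
    exact Finset.sum_congr rfl fun s _ => by ring
  rw [e1, e2, e3]
  ring

variable {J : Type} [Fintype J]

lemma bai_open (a : S → I → ℝ) (h0 : ∀ j i, 0 < a j i) (h1 : ∀ j i, a j i < 1)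
    (z : J → S ⊕ I → ℝ) (hz : Bes Finset.univ z) :
    ∑ s, ∑ i, a s i * (∑ j, (z j (Sum.inl s) - z j (Sum.inr i)) ^ 2 - 1)
      ≤ Fintype.card S * ∑ j, ∑ i, z j (Sum.inr i) ^ 2 + ∑ j, (∑ s, z j (Sum.inl s)) ^ 2 := by
  have hH := Lap_herm a
  set N : ℝ := (Fintype.card S : ℝ) with hN
  have h2 : ∑ j, (∑ x, ∑ y, z j x * Lap a x y * z j y - N * ∑ x, z j x ^ 2)
      ≤ ∑ x, max (hH.eigenvalues x - N) 0 := by
    have : ∀ j, ∑ x, ∑ y, z j x * Lap a x y * z j y - N * ∑ x, z j x ^ 2
        = ∑ l, (hH.eigenvalues l - N) * (∑ x, z j x * hH.eigenvectorBasis l x) ^ 2 := by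
      intro j
      rw [quad_eq hH, ← sum_sq_of_col (fun l x => hH.eigenvectorBasis l x) (eig_col hH) (z j),
        Finset.mul_sum, ← Finset.sum_sub_distrib]
      refine Finset.sum_congr rfl fun l _ => ?_
      simp_rw [mul_comm (z j _)]
      ring
    simp_rw [this]
    rw [Finset.sum_comm]
    refine Finset.sum_le_sum fun l _ => ?_
    rw [← Finset.mul_sum]
    have p1 := hz.analysis (fun x => hH.eigenvectorBasis l x)
    have p2 := eig_row hH l l
    rw [if_pos rfl] at p2
    simp_rw [sq (hH.eigenvectorBasis l _)] at p1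
    rw [p2] at p1
    have p0 : 0 ≤ ∑ j, (∑ x, z j x * hH.eigenvectorBasis l x) ^ 2 :=
      Finset.sum_nonneg fun _ _ => sq_nonneg _
    have p3 := le_max_left (hH.eigenvalues l - N) 0
    have p4 := le_max_right (hH.eigenvalues l - N) 0
    nlinarith
  have h3 := h2.trans (excess_le a h0 h1)
  simp_rw [Lap_quad, Fintype.sum_sum_type] at h3
  have e1 : ∑ s, ∑ i, a s i * (∑ j, (z j (Sum.inl s) - z j (Sum.inr i)) ^ 2 - 1)
      = ∑ j, ∑ s, ∑ i, a s i * (z j (Sum.inl s) - z j (Sum.inr i)) ^ 2 - ∑ s, ∑ i, a s i := by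
    rw [Finset.sum_comm (s := (Finset.univ : Finset J)), ← Finset.sum_sub_distrib]
    refine Finset.sum_congr rfl fun s _ => ?_
    rw [Finset.sum_comm (s := (Finset.univ : Finset J)), ← Finset.sum_sub_distrib]
    refine Finset.sum_congr rfl fun i _ => ?_
    rw [mul_sub, Finset.mul_sum, mul_one]
  rw [e1]
  simp only [← hN, mul_add, Finset.sum_sub_distrib, Finset.sum_add_distrib,
    ← Finset.mul_sum] at h3 ⊢
  linarith

lemma bai (z : J → S ⊕ I → ℝ) (hz : Bes Finset.univ z) :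
    ∑ s, ∑ i, max (∑ j, (z j (Sum.inl s) - z j (Sum.inr i)) ^ 2 - 1) 0
      ≤ Fintype.card S * ∑ j, ∑ i, z j (Sum.inr i) ^ 2 + ∑ j, (∑ s, z j (Sum.inl s)) ^ 2 := by
  set g : S → I → ℝ := fun s i => ∑ j, (z j (Sum.inl s) - z j (Sum.inr i)) ^ 2 - 1 with hg
  set K := ∑ s, ∑ i, |g s i| with hK
  have hK0 : 0 ≤ K := Finset.sum_nonneg fun _ _ => Finset.sum_nonneg fun _ _ => abs_nonneg _
  refine le_of_forall_pos_le_add fun ε hε => ?_
  set η := min (1 / 2) (ε / (K + 1)) with hη
  have η0 : 0 < η := lt_min (by norm_num) (by positivity)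
  have η1 : η ≤ 1 / 2 := min_le_left _ _
  have η2 : η * (K + 1) ≤ ε := (le_div_iff₀ (by positivity)).1 (min_le_right _ _)
  have h := bai_open (fun s i => if 0 ≤ g s i then 1 - η else η)
    (fun s i => by split_ifs <;> linarith) (fun s i => by split_ifs <;> linarith) z hz
  have h2 : ∑ s, ∑ i, max (g s i) 0
      ≤ ∑ s, ∑ i, ((if 0 ≤ g s i then 1 - η else η) * g s i + η * |g s i|) := by
    refine Finset.sum_le_sum fun s _ => Finset.sum_le_sum fun i _ => ?_
    split_ifs with hh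
    · rw [max_eq_left hh, abs_of_nonneg hh]; linarith
    · push Not at hh
      rw [max_eq_right hh.le, abs_of_neg hh]; linarith
  simp_rw [Finset.sum_add_distrib, ← Finset.mul_sum] at h2
  change ∑ s, ∑ i, (if 0 ≤ g s i then 1 - η else η) * g s i ≤ _ at h
  change ∑ s, ∑ i, max (g s i) 0 ≤ _
  nlinarith

end Pool.Agent.Lib.MP_468ee0_co
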