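import Pool.Agent.Lib.MP_468ee0_co.Lin

set_option autoImplicit false

namespace Pool.Agent.Lib.MP_468ee0_co

open Finset

variable {α J : Type} [LinearOrder α] [Fintype J]

/-- sign of the vertex `x` in `τ` -/
noncomputable def sg (x : α) (τ : Finset α) : ℝ := ∏ y ∈ τ, if y < x then -1 else 1

/-- sign used to pass to the link of `v` -/
noncomputable def gs (v : α) (ρ : Finset α) : ℝ := ∏ y ∈ ρ, if v < y then -1 else 1

/-- coboundary of `w` at `τ` -/
noncomputable def D (w : Finset α → ℝ) (τ : Finset α) : ℝ := ∑ x ∈ τ, sg x τ * w (τ.erase x)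

/-- energy minus number of faces -/
noncomputable def F (X : Finset (Finset α)) (u : J → Finset α → ℝ) : ℝ :=
  ∑ τ ∈ X, (∑ j, D (u j) τ ^ 2 - 1)

/-- the link chain -/
noncomputable def lk (v : α) (w : Finset α → ℝ) : Finset α → ℝ := fun ρ => gs v ρ * w (insert v ρ)

lemma sg_sq (x : α) (τ : Finset α) : sg x τ ^ 2 = 1 := by
  unfold sg
  rw [← Finset.prod_pow]
  refine Finset.prod_eq_one fun y _ => ?_
  split_ifs <;> norm_num

lemma gs_sq (x : α) (τ : Finset α) : gs x τ ^ 2 = 1 := by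
  unfold gs
  rw [← Finset.prod_pow]
  refine Finset.prod_eq_one fun y _ => ?_
  split_ifs <;> norm_num

lemma D_insert (w : Finset α → ℝ) (v : α) (ρ : Finset α) (hv : v ∉ ρ) :
    D w (insert v ρ) = gs v ρ * D (lk v w) ρ + sg v (insert v ρ) * w ρ := by
  unfold D
  rw [Finset.sum_insert hv, Finset.erase_insert hv, add_comm, Finset.mul_sum]
  congr 1
  refine Finset.sum_congr rfl fun x hx => ?_
  have hxv : x ≠ v := fun h => hv (h ▸ hx)
  have h1 : sg x (insert v ρ) = (if v < x then -1 else 1) * sg x ρ := by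
    unfold sg; rw [Finset.prod_insert hv]
  have h2 : gs v ρ = (if v < x then -1 else 1) * gs v (ρ.erase x) := by
    unfold gs; rw [Finset.mul_prod_erase ρ (fun y => if v < y then (-1 : ℝ) else 1) hx]
  have h3 : (insert v ρ).erase x = insert v (ρ.erase x) := Finset.erase_insert_of_ne hxv.symm
  rw [h1, h2, h3]
  unfold lk
  have h4 := gs_sq v (ρ.erase x)
  linear_combination (-((if v < x then (-1 : ℝ) else 1) * sg x ρ * w (insert v (ρ.erase x)))) * h4

lemma D_smul (c : ℝ) (w : Finset α → ℝ) (τ : Finset α) :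
    D (fun σ => c * w σ) τ = c * D w τ := by
  unfold D
  rw [Finset.mul_sum]
  exact Finset.sum_congr rfl fun _ _ => by ring

lemma erase_mem {m : ℕ} {V τ : Finset α} (hτ : τ ∈ powersetCard (m + 1) V) {x : α} (hx : x ∈ τ) :
    τ.erase x ∈ powersetCard m V := by
  rw [Finset.mem_powersetCard] at hτ ⊢
  refine ⟨(Finset.erase_subset _ _).trans hτ.1, ?_⟩
  rw [Finset.card_erase_of_mem hx, hτ.2]; rfl

lemma D_zero {m : ℕ} {V τ : Finset α} (hτ : τ ∈ powersetCard (m + 1) V) {w : Finset α → ℝ}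
    (hw : nq (powersetCard m V) w = 0) : D w τ = 0 := by
  unfold D
  refine Finset.sum_eq_zero fun x hx => ?_
  have := (Finset.sum_eq_zero_iff_of_nonneg (fun _ _ => sq_nonneg _)).1 hw _ (erase_mem hτ hx)
  rw [pow_eq_zero_iff two_ne_zero] at this
  rw [this, mul_zero]

/-- faces of the link -/
def lkX (m : ℕ) (V : Finset α) (v : α) (X : Finset (Finset α)) : Finset (Finset α) :=
  (powersetCard m (V.erase v)).filter fun ρ => insert v ρ ∈ X

lemma lkX_sub (m : ℕ) (V : Finset α) (v : α) (X : Finset (Finset α)) :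
    lkX m V v X ⊆ powersetCard m (V.erase v) := Finset.filter_subset _ _

lemma del_sub {m : ℕ} {V : Finset α} (v : α) {X : Finset (Finset α)} (hX : X ⊆ powersetCard m V) :
    X.filter (fun τ => v ∉ τ) ⊆ powersetCard m (V.erase v) := by
  intro τ hτ
  rw [Finset.mem_filter] at hτ
  have := Finset.mem_powersetCard.1 (hX hτ.1)
  rw [Finset.mem_powersetCard, Finset.subset_erase]
  exact ⟨⟨this.1, hτ.2⟩, this.2⟩

lemma del_full (m : ℕ) (V : Finset α) (v : α) :
    (powersetCard m V).filter (fun τ => v ∉ τ) = powersetCard m (V.erase v) := by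
  ext τ
  simp only [Finset.mem_filter, Finset.mem_powersetCard, Finset.subset_erase]
  tauto

lemma sum_split {m : ℕ} {V : Finset α} (v : α) {X : Finset (Finset α)}
    (hX : X ⊆ powersetCard (m + 1) V) (g : Finset α → ℝ) :
    ∑ τ ∈ X, g τ = ∑ ρ ∈ lkX m V v X, g (insert v ρ) + ∑ τ ∈ X.filter (fun τ => v ∉ τ), g τ := by
  rw [← Finset.sum_filter_add_sum_filter_not X (fun τ => v ∈ τ)]
  congr 1
  refine Finset.sum_bij' (fun τ _ => τ.erase v) (fun ρ _ => insert v ρ) ?_ ?_ ?_ ?_ ?_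
  · intro τ hτ
    rw [Finset.mem_filter] at hτ
    have h1 := Finset.mem_powersetCard.1 (hX hτ.1)
    unfold lkX
    rw [Finset.mem_filter, Finset.insert_erase hτ.2, Finset.mem_powersetCard,
      Finset.card_erase_of_mem hτ.2, h1.2]
    exact ⟨⟨Finset.erase_subset_erase _ h1.1, rfl⟩, hτ.1⟩
  · intro ρ hρ
    unfold lkX at hρ
    rw [Finset.mem_filter] at hρ ⊢
    exact ⟨hρ.2, Finset.mem_insert_self _ _⟩
  · intro τ hτ
    rw [Finset.mem_filter] at hτ
    exact Finset.insert_erase hτ.2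
  · intro ρ hρ
    have := Finset.mem_powersetCard.1 (lkX_sub _ _ _ _ hρ)
    exact Finset.erase_insert (Finset.subset_erase.1 this.1).2
  · intro τ hτ
    rw [Finset.mem_filter] at hτ
    rw [Finset.insert_erase hτ.2]

lemma sum_split_full (m : ℕ) {V : Finset α} {v : α} (hv : v ∈ V) (g : Finset α → ℝ) :
    ∑ τ ∈ powersetCard (m + 1) V, g τ = ∑ ρ ∈ powersetCard m (V.erase v), g (insert v ρ)
      + ∑ τ ∈ powersetCard (m + 1) (V.erase v), g τ := by
  rw [sum_split v (subset_refl _) g, del_full]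
  congr 2
  unfold lkX
  refine Finset.filter_true_of_mem fun ρ hρ => ?_
  rw [Finset.mem_powersetCard] at hρ ⊢
  have h := Finset.subset_erase.1 hρ.1
  rw [Finset.card_insert_of_notMem h.2, hρ.2]
  exact ⟨Finset.insert_subset hv h.1, rfl⟩

lemma nq_split (m : ℕ) {V : Finset α} {v : α} (hv : v ∈ V) (w : Finset α → ℝ) :
    nq (powersetCard (m + 1) V) w = nq (powersetCard m (V.erase v)) (lk v w)
      + nq (powersetCard (m + 1) (V.erase v)) w := by
  unfold nq
  rw [sum_split_full m hv]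
  congr 1
  refine Finset.sum_congr rfl fun ρ _ => ?_
  unfold lk
  rw [mul_pow, gs_sq, one_mul]

lemma tr_split (m : ℕ) {V : Finset α} {v : α} (hv : v ∈ V) (u : J → Finset α → ℝ) :
    tr (powersetCard (m + 1) V) u = tr (powersetCard m (V.erase v)) (fun j => lk v (u j))
      + tr (powersetCard (m + 1) (V.erase v)) u := by
  unfold tr
  rw [← Finset.sum_add_distrib]
  exact Finset.sum_congr rfl fun j _ => nq_split m hv _

lemma comb_split (m : ℕ) {V : Finset α} {v : α} (hv : v ∈ V) (u : J → Finset α → ℝ)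
    (y : J → ℝ) :
    ∑ σ ∈ powersetCard (m + 1) V, (∑ j, y j * u j σ) ^ 2
      = ∑ ρ ∈ powersetCard m (V.erase v), (∑ j, y j * lk v (u j) ρ) ^ 2
        + ∑ σ ∈ powersetCard (m + 1) (V.erase v), (∑ j, y j * u j σ) ^ 2 := by
  have := nq_split m hv (fun σ => ∑ j, y j * u j σ)
  unfold nq at this
  rw [this]
  congr 1
  refine Finset.sum_congr rfl fun ρ _ => ?_
  unfold lk
  rw [Finset.mul_sum]
  congr 1
  exact Finset.sum_congr rfl fun _ _ => by ring

lemma sum_del {m : ℕ} {V : Finset α} {X : Finset (Finset α)} (hX : X ⊆ powersetCard m V)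
    (g : Finset α → ℝ) :
    ∑ v ∈ V, ∑ τ ∈ X.filter (fun τ => v ∉ τ), g τ = ((V.card : ℝ) - m) * ∑ τ ∈ X, g τ := by
  simp_rw [Finset.sum_filter]
  rw [Finset.sum_comm, Finset.mul_sum]
  refine Finset.sum_congr rfl fun τ hτ => ?_
  have h := Finset.mem_powersetCard.1 (hX hτ)
  rw [← Finset.sum_filter, Finset.sum_const, nsmul_eq_mul]
  congr 1
  have : V.filter (fun v => v ∉ τ) = V \ τ := by ext; simp
  rw [this, Finset.card_sdiff_of_subset h.1, Nat.cast_sub (Finset.card_le_card h.1), h.2]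

lemma sum_tr_del (m : ℕ) (V : Finset α) (u : J → Finset α → ℝ) :
    ∑ v ∈ V, tr (powersetCard m (V.erase v)) u = ((V.card : ℝ) - m) * tr (powersetCard m V) u := by
  unfold tr nq
  rw [Finset.sum_comm, Finset.mul_sum]
  refine Finset.sum_congr rfl fun j _ => ?_
  rw [← sum_del (subset_refl _)]
  simp_rw [del_full]

/-- `D w τ` as an inner product with a vector of squared norm `m + 1` -/
lemma D_as_ip {m : ℕ} {V τ : Finset α} (hτ : τ ∈ powersetCard (m + 1) V) :
    ∃ x : Finset α → ℝ, (∑ σ ∈ powersetCard m V, x σ ^ 2 = m + 1) ∧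
      ∀ w : Finset α → ℝ, D w τ = ∑ σ ∈ powersetCard m V, w σ * x σ := by
  have key : ∀ h : α → Finset α → ℝ,
      ∑ σ ∈ powersetCard m V, ∑ x ∈ τ, (if σ = τ.erase x then h x σ else 0)
        = ∑ x ∈ τ, h x (τ.erase x) := by
    intro h
    rw [Finset.sum_comm]
    refine Finset.sum_congr rfl fun x hx => ?_
    rw [Finset.sum_ite_eq', if_pos (erase_mem hτ hx)]
  refine ⟨fun σ => ∑ x ∈ τ, if σ = τ.erase x then sg x τ else 0, ?_, ?_⟩
  · have : ∀ σ, (∑ x ∈ τ, if σ = τ.erase x then sg x τ else 0) ^ 2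
        = ∑ x ∈ τ, if σ = τ.erase x then (1 : ℝ) else 0 := by
      intro σ
      by_cases h : ∃ x ∈ τ, σ = τ.erase x
      · obtain ⟨x, hx, rfl⟩ := h
        have inj : ∀ y ∈ τ, y ≠ x → ¬ τ.erase x = τ.erase y := by
          intro y hy hyx h
          have : y ∈ τ.erase x := Finset.mem_erase.2 ⟨hyx, hy⟩
          rw [h] at this
          exact Finset.notMem_erase _ _ this
        rw [Finset.sum_eq_single x (fun y hy hyx => if_neg (inj y hy hyx)) (fun h => absurd hx h),
          Finset.sum_eq_single x (fun y hy hyx => if_neg (inj y hy hyx)) (fun h => absurd hx h)]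
        simp [sg_sq]
      · push Not at h
        rw [Finset.sum_eq_zero (fun x hx => if_neg (h x hx)),
          Finset.sum_eq_zero (fun x hx => if_neg (h x hx))]
        simp
    simp_rw [this]
    rw [key (fun _ _ => 1)]
    simp [(Finset.mem_powersetCard.1 hτ).2]
  · intro w
    simp_rw [Finset.mul_sum, mul_ite, mul_zero]
    rw [key (fun x σ => w σ * sg x τ)]
    exact Finset.sum_congr rfl fun _ _ => mul_comm _ _

/-- if the operator norm is at most `κ`, every face has energy at most `κ (m+1)` -/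
lemma d_le {m : ℕ} {V τ : Finset α} (hτ : τ ∈ powersetCard (m + 1) V) {u : J → Finset α → ℝ}
    {κ : ℝ} (hκ : 0 ≤ κ)
    (h : ∀ y : J → ℝ, ∑ σ ∈ powersetCard m V, (∑ j, y j * u j σ) ^ 2 ≤ κ * ∑ j, y j ^ 2) :
    ∑ j, D (u j) τ ^ 2 ≤ κ * (m + 1) := by
  obtain ⟨x, hx, hD⟩ := D_as_ip hτ
  simp_rw [hD]
  rw [← hx]
  exact analysis_of hκ h x

lemma d_le_tr {m : ℕ} {V τ : Finset α} (hτ : τ ∈ powersetCard (m + 1) V)
    (u : J → Finset α → ℝ) :
    ∑ j, D (u j) τ ^ 2 ≤ tr (powersetCard m V) u * (m + 1) := by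
  refine d_le hτ (tr_nonneg _ _) fun y => ?_
  unfold tr nq
  rw [Finset.sum_comm, Finset.sum_mul]
  refine Finset.sum_le_sum fun σ _ => ?_
  rw [mul_comm]
  exact Finset.sum_mul_sq_le_sq_mul_sq _ _ _

lemma F_nonpos {X : Finset (Finset α)} {u : J → Finset α → ℝ}
    (h : ∀ τ ∈ X, ∑ j, D (u j) τ ^ 2 ≤ 1) : F X u ≤ 0 :=
  Finset.sum_nonpos fun τ hτ => sub_nonpos.2 (h τ hτ)

/-- averaging over vertex deletions -/
lemma avg {m : ℕ} {V : Finset α} {X : Finset (Finset α)} (hX : X ⊆ powersetCard (m + 1) V)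
    (u : J → Finset α → ℝ) {a b θ : ℝ} (ha : 0 ≤ a) (hb : (m : ℝ) + 1 ≤ b)
    (hdel : ∀ v ∈ V, F (X.filter fun τ => v ∉ τ) u ≤
      a * tr (powersetCard m (V.erase v)) u ^ 2 + b * tr (powersetCard m (V.erase v)) u)
    (hθ : ∀ v ∈ V, tr (powersetCard m V) u - tr (powersetCard m (V.erase v)) u ≤ θ)
    (hc : a * θ * m + b ≤ a * (m - 1) * tr (powersetCard m V) u) :
    F X u ≤ a * tr (powersetCard m V) u ^ 2 + b * tr (powersetCard m V) u := by
  set t := tr (powersetCard m V) u with ht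
  have ht0 : 0 ≤ t := tr_nonneg _ _
  have hm0 : (0 : ℝ) ≤ m := Nat.cast_nonneg _
  by_cases hn : V.card ≤ m + 1
  · have hcard : X.card ≤ 1 := by
      refine (Finset.card_le_card hX).trans ?_
      rw [Finset.card_powersetCard]
      rcases hn.eq_or_lt with h | h
      · rw [h, Nat.choose_self]
      · rw [Nat.choose_eq_zero_of_lt h]; exact zero_le_one
    have h1 : F X u ≤ ∑ _τ ∈ X, t * (m + 1) :=
      Finset.sum_le_sum fun τ hτ => by linarith [d_le_tr (hX hτ) u]
    rw [Finset.sum_const, nsmul_eq_mul] at h1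
    have h2 : (X.card : ℝ) ≤ 1 := by exact_mod_cast hcard
    have h3 : 0 ≤ t * (m + 1) := by positivity
    nlinarith [mul_nonneg ha (sq_nonneg t), mul_le_mul_of_nonneg_left hb ht0]
  · push Not at hn
    have hn' : (0 : ℝ) < (V.card : ℝ) - ((m + 1 : ℕ) : ℝ) := by
      have : ((m + 1 : ℕ) : ℝ) < V.card := by exact_mod_cast hn
      linarith
    have h1 := sum_del hX (fun τ => ∑ j, D (u j) τ ^ 2 - 1)
    have h2 := sum_tr_del m V u
    rw [← ht] at h2
    have h3 : ∑ v ∈ V, F (X.filter fun τ => v ∉ τ) u ≤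
        ∑ v ∈ V, (a * t ^ 2 + b * t
          - (2 * a * t - a * θ + b) * (t - tr (powersetCard m (V.erase v)) u)) := by
      refine Finset.sum_le_sum fun v hv => (hdel v hv).trans ?_
      have h4 := hθ v hv
      have h5 : tr (powersetCard m (V.erase v)) u ≤ t :=
        tr_mono (Finset.powersetCard_mono (Finset.erase_subset _ _)) u
      set δ := tr (powersetCard m (V.erase v)) u
      nlinarith [mul_nonneg ha (mul_nonneg (sub_nonneg.2 h5) (sub_nonneg.2 h4))]
    rw [Finset.sum_sub_distrib, ← Finset.mul_sum, Finset.sum_sub_distrib, h2, Finset.sum_const,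
      Finset.sum_const, nsmul_eq_mul, nsmul_eq_mul] at h3
    unfold F at h3 ⊢
    rw [h1] at h3
    refine le_of_mul_le_mul_left (h3.trans ?_) hn'
    push_cast
    nlinarith [mul_le_mul_of_nonneg_left hc ht0]

/-- the two-block bound at a vertex -/
lemma two_block {m : ℕ} {V : Finset α} (v : α) {X : Finset (Finset α)}
    (hX : X ⊆ powersetCard (m + 2) V) (u : J → Finset α → ℝ) (ρ κ : J → ℝ)
    (hρ : ∀ j, 0 ≤ ρ j) (hκ : ∀ j, 0 ≤ κ j)
    (h : ∀ j, (nq (powersetCard m (V.erase v)) (lk v (u j)) = 0 ∧ 1 ≤ κ j) ∨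
      (nq (powersetCard (m + 1) (V.erase v)) (u j) = 0 ∧ 1 ≤ ρ j) ∨
      (1 ≤ ρ j ∧ 1 ≤ κ j ∧ 1 ≤ (ρ j - 1) * (κ j - 1))) :
    F X u ≤ F (lkX (m + 1) V v X) (fun j σ => √(ρ j) * lk v (u j) σ)
      + ∑ j, κ j * nq (powersetCard (m + 1) (V.erase v)) (u j)
      + F (X.filter fun τ => v ∉ τ) u := by
  unfold F
  rw [sum_split v hX]
  refine add_le_add_left ?_ _
  have h1 : ∑ j, ∑ σ ∈ lkX (m + 1) V v X, κ j * u j σ ^ 2
      ≤ ∑ j, κ j * nq (powersetCard (m + 1) (V.erase v)) (u j) := by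
    refine Finset.sum_le_sum fun j _ => ?_
    rw [← Finset.mul_sum]
    exact mul_le_mul_of_nonneg_left (nq_mono (lkX_sub _ _ _ _) _) (hκ j)
  refine le_trans ?_ (add_le_add_right h1 _)
  rw [Finset.sum_comm, ← Finset.sum_add_distrib]
  refine Finset.sum_le_sum fun σ hσ => ?_
  have hσ' := lkX_sub _ _ _ _ hσ
  have hv : v ∉ σ := (Finset.subset_erase.1 (Finset.mem_powersetCard.1 hσ').1).2
  have : ∑ j, D (u j) (insert v σ) ^ 2
      ≤ ∑ j, (D (fun σ => √(ρ j) * lk v (u j) σ) σ ^ 2 + κ j * u j σ ^ 2) := by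
    refine Finset.sum_le_sum fun j _ => ?_
    rw [D_smul, D_insert _ _ _ hv, mul_pow, Real.sq_sqrt (hρ j)]
    have e1 : D (lk v (u j)) σ ^ 2 = (gs v σ * D (lk v (u j)) σ) ^ 2 := by
      rw [mul_pow, gs_sq, one_mul]
    have e2 : u j σ ^ 2 = (sg v (insert v σ) * u j σ) ^ 2 := by
      rw [mul_pow, sg_sq, one_mul]
    rw [e1, e2]
    rcases h j with ⟨h0, h1⟩ | ⟨h0, h1⟩ | ⟨h0, h1, h2⟩
    · rw [D_zero hσ' h0]
      nlinarith [sq_nonneg (sg v (insert v σ) * u j σ)]
    · have := (Finset.sum_eq_zero_iff_of_nonneg (fun _ _ => sq_nonneg _)).1 h0 _ hσ'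
      rw [pow_eq_zero_iff two_ne_zero] at this
      rw [this]
      nlinarith [sq_nonneg (gs v σ * D (lk v (u j)) σ)]
    · set x := gs v σ * D (lk v (u j)) σ
      set y := sg v (insert v σ) * u j σ
      have hp : 0 < ρ j - 1 := by
        rcases (sub_nonneg.2 h0).eq_or_lt with h | h
        · rw [← h] at h2; norm_num at h2
        · exact h
      have : 0 ≤ (ρ j - 1) * ((ρ j - 1) * x ^ 2 + (κ j - 1) * y ^ 2 - 2 * x * y) := by
        nlinarith [sq_nonneg ((ρ j - 1) * x - y), mul_nonneg (sub_nonneg.2 h2) (sq_nonneg y)]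
      have := nonneg_of_mul_nonneg_right this hp
      nlinarith
  rw [Finset.sum_add_distrib] at this
  linarith

lemma F_eq_of {u u' : J → Finset α → ℝ}
    (h : ∀ (ι : Type) (A : Finset ι) (c : ι → ℝ) (g : ι → Finset α),
        ∑ j, (∑ x ∈ A, c x * u' j (g x)) ^ 2 = ∑ j, (∑ x ∈ A, c x * u j (g x)) ^ 2)
    (X : Finset (Finset α)) : F X u' = F X u := by
  unfold F D
  refine Finset.sum_congr rfl fun τ _ => ?_
  rw [h α τ (fun x => sg x τ) (fun x => τ.erase x)]

end Pool.Agent.Lib.MP_468ee0_co
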