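import Pool.Agent.Lib.MP_468ee0_co.Cx

set_option autoImplicit false

namespace Pool.Agent.Lib.MP_468ee0_co

open Finset

/-- quadratic bound in the trace -/
def Apx (m : ℕ) (a b : ℝ) : Prop :=
  ∀ (α : Type) [LinearOrder α] (J : Type) [Fintype J] (V : Finset α) (X : Finset (Finset α))
    (u : J → Finset α → ℝ), X ⊆ powersetCard (m + 1) V → Bes (powersetCard m V) u →
    F X u ≤ a * tr (powersetCard m V) u ^ 2 + b * tr (powersetCard m V) u

/-- the sharp bound, linear in the trace, for at most `k` vectors -/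
def Shp (m k : ℕ) : Prop :=
  ∀ (α : Type) [LinearOrder α] (J : Type) [Fintype J] (V : Finset α) (X : Finset (Finset α))
    (u : J → Finset α → ℝ), Fintype.card J ≤ k → X ⊆ powersetCard (m + 1) V →
    Bes (powersetCard m V) u → F X u ≤ m * k + ((k : ℝ) - 1) / 2 * tr (powersetCard m V) u

section
variable {α J : Type} [LinearOrder α] [Fintype J]

omit [Fintype J] in
lemma orth_lk {m : ℕ} {V : Finset α} {v : α} (hv : v ∈ V) {u : J → Finset α → ℝ}
    (h : Orth ((powersetCard (m + 1) V).filter fun σ => v ∈ σ) u) :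
    Orth (powersetCard m (V.erase v)) (fun j => lk v (u j)) := by
  intro i j hij
  have h1 := h i j hij
  have h2 := sum_split_full m hv (fun σ => u i σ * u j σ)
  rw [← Finset.sum_filter_add_sum_filter_not _ (fun σ => v ∈ σ), del_full, h1, zero_add] at h2
  have h3 : ∑ ρ ∈ powersetCard m (V.erase v), u i (insert v ρ) * u j (insert v ρ) = 0 := by
    linarith
  rw [← h3]
  refine Finset.sum_congr rfl fun ρ _ => ?_
  unfold lk
  linear_combination (u i (insert v ρ) * u j (insert v ρ)) * gs_sq v ρ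

lemma nq_scale {β : Type} (P : Finset β) (w : β → ℝ) {c : ℝ} (hc : 0 ≤ c) :
    nq P (fun σ => √c * w σ) = c * nq P w := by
  unfold nq
  rw [Finset.mul_sum]
  exact Finset.sum_congr rfl fun _ _ => by rw [mul_pow, Real.sq_sqrt hc]

/-- two-block bound with the approximate inequality in the link -/
lemma tb_apx {m : ℕ} {b0 : ℝ} (hb0 : 0 ≤ b0) (h0 : Apx m (1 / 2) b0) {V : Finset α} {v : α}
    (hv : v ∈ V) {X : Finset (Finset α)} (hX : X ⊆ powersetCard (m + 2) V)
    {u : J → Finset α → ℝ} (hu : Bes (powersetCard (m + 1) V) u) {t δ : ℝ}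
    (ht : t = tr (powersetCard (m + 1) V) u) (hδ : δ = tr (powersetCard (m + 1) (V.erase v)) u) :
    F X u ≤ 1 / 2 * (t - δ + δ / 4) ^ 2 + b0 * (t - δ + δ / 4) + 4 * (t - δ) + δ
      + F (X.filter fun τ => v ∉ τ) u := by
  obtain ⟨u', ho, hB, hinv⟩ := exists_rot ((powersetCard (m + 1) V).filter fun σ => v ∈ σ) u
  rw [← F_eq_of hinv, ← F_eq_of hinv (X.filter _)]
  rw [← tr_eq_of hinv] at ht hδ
  have hu' := hB _ hu
  have ho' := orth_lk hv ho
  set c : J → ℝ := fun j => nq (powersetCard m (V.erase v)) (lk v (u' j)) with hc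
  set s : J → ℝ := fun j => nq (powersetCard (m + 1) (V.erase v)) (u' j) with hs
  have hc0 : ∀ j, 0 ≤ c j := fun j => nq_nonneg _ _
  have hs0 : ∀ j, 0 ≤ s j := fun j => nq_nonneg _ _
  have hcs : ∀ j, c j + s j ≤ 1 := fun j => by
    have := hu'.nq_le j
    rwa [nq_split m hv] at this
  have htv : ∑ j, c j = t - δ := by
    rw [ht, hδ, tr_split m hv]; simp only [tr, hc]; ring
  have hδ' : ∑ j, s j = δ := by rw [hδ]; rfl
  let ρ : J → ℝ := fun j => (c j + s j / 4) / c j
  let κ : J → ℝ := fun j => 1 + 4 * c j / s j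
  have hρ : ∀ j, 0 ≤ ρ j := fun j => div_nonneg (by linarith [hc0 j, hs0 j]) (hc0 j)
  have hκ1 : ∀ j, 1 ≤ κ j := fun j => by
    have := div_nonneg (by linarith [hc0 j] : 0 ≤ 4 * c j) (hs0 j)
    simp only [κ]; linarith
  have hρc : ∀ j, ρ j * c j ≤ c j + s j / 4 := fun j => by
    rcases (hc0 j).eq_or_lt with h | h
    · rw [← h]; linarith [hs0 j]
    · simp only [ρ]; rw [div_mul_cancel₀ _ h.ne']
  have hκs : ∀ j, κ j * s j ≤ s j + 4 * c j := fun j => by
    rcases (hs0 j).eq_or_lt with h | h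
    · rw [← h]; linarith [hc0 j]
    · simp only [κ]; rw [add_mul, div_mul_cancel₀ _ h.ne', one_mul]
  have h2 := two_block v hX u' ρ κ hρ (fun j => le_trans zero_le_one (hκ1 j)) (fun j => by
    rcases (hc0 j).eq_or_lt with h | h
    · exact Or.inl ⟨h.symm, hκ1 j⟩
    have hρ1 : 1 ≤ ρ j := by
      simp only [ρ]; rw [le_div_iff₀ h]; linarith [hs0 j]
    rcases (hs0 j).eq_or_lt with h' | h'
    · exact Or.inr (Or.inl ⟨h'.symm, hρ1⟩)
    refine Or.inr (Or.inr ⟨hρ1, hκ1 j, le_of_eq ?_⟩)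
    simp only [ρ, κ]
    field_simp
    ring)
  have hBw : Bes (powersetCard m (V.erase v)) (fun j σ => √(ρ j) * lk v (u' j) σ) := by
    intro y
    have := ho'.sum_sq (fun j => y j * √(ρ j))
    simp_rw [← mul_assoc]
    rw [this]
    refine Finset.sum_le_sum fun j _ => ?_
    rw [mul_pow, Real.sq_sqrt (hρ j), mul_assoc]
    refine mul_le_of_le_one_right (sq_nonneg _) ?_
    linarith [hρc j, hcs j, hs0 j]
  have h3 := h0 α J (V.erase v) _ _ (lkX_sub (m + 1) V v X) hBw
  have h4 : tr (powersetCard m (V.erase v)) (fun j σ => √(ρ j) * lk v (u' j) σ)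
      ≤ t - δ + δ / 4 := by
    rw [← htv, ← hδ', Finset.sum_div, ← Finset.sum_add_distrib]
    refine Finset.sum_le_sum fun j _ => ?_
    rw [nq_scale _ _ (hρ j)]
    exact hρc j
  have h5 : ∑ j, κ j * s j ≤ δ + 4 * (t - δ) := by
    rw [← htv, ← hδ', Finset.mul_sum, ← Finset.sum_add_distrib]
    exact Finset.sum_le_sum fun j _ => hκs j
  have h6 := tr_nonneg (powersetCard m (V.erase v)) (fun j σ => √(ρ j) * lk v (u' j) σ)
  set z := tr (powersetCard m (V.erase v)) (fun j σ => √(ρ j) * lk v (u' j) σ)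
  have h7 : z ^ 2 ≤ (t - δ + δ / 4) ^ 2 := pow_le_pow_left₀ h6 h4 2
  have h8 := mul_le_mul_of_nonneg_left h4 hb0
  change _ ≤ _ + ∑ j, κ j * s j + _ at h2
  linarith

/-- near-cone bound with the sharp inequality in the link -/
lemma tb_shp {m k : ℕ} (hk : 1 ≤ k) (h0 : Shp m k) (hJ : Fintype.card J ≤ k) {V : Finset α} {v : α}
    (hv : v ∈ V) {X : Finset (Finset α)} (hX : X ⊆ powersetCard (m + 2) V)
    {u : J → Finset α → ℝ} (hu : Bes (powersetCard (m + 1) V) u)
    (ho : Orth (powersetCard (m + 1) (V.erase v)) u) (θ : J → ℝ) (hθ0 : ∀ j, 0 < θ j)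
    (hθ1 : ∀ j, θ j ≤ 1) :
    F X u ≤ m * k + ((k : ℝ) - 1) / 2 * (tr (powersetCard (m + 1) V) u
      - ∑ j, (1 - θ j) * nq (powersetCard (m + 1) (V.erase v)) (u j)) + ∑ j, 1 / θ j
      + F (X.filter fun τ => v ∉ τ) u := by
  set c : J → ℝ := fun j => nq (powersetCard m (V.erase v)) (lk v (u j)) with hc
  set s : J → ℝ := fun j => nq (powersetCard (m + 1) (V.erase v)) (u j) with hs
  have hc0 : ∀ j, 0 ≤ c j := fun j => nq_nonneg _ _
  have hs0 : ∀ j, 0 ≤ s j := fun j => nq_nonneg _ _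
  have hcs : ∀ j, c j + s j ≤ 1 := fun j => by
    have := hu.nq_le j
    rwa [nq_split m hv] at this
  have hθs : ∀ j, θ j * s j ≤ s j := fun j => mul_le_of_le_one_left (hs0 j) (hθ1 j)
  have hθs0 : ∀ j, 0 ≤ θ j * s j := fun j => mul_nonneg (hθ0 j).le (hs0 j)
  have h1θ : ∀ j, 0 ≤ 1 - θ j * s j := fun j => by linarith [hθs j, hcs j, hc0 j]
  let ρ : J → ℝ := fun j => 1 / (1 - θ j * s j)
  let κ : J → ℝ := fun j => 1 / (θ j * s j)
  have hρ : ∀ j, 0 ≤ ρ j := fun j => div_nonneg zero_le_one (h1θ j)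
  have hκ : ∀ j, 0 ≤ κ j := fun j => div_nonneg zero_le_one (hθs0 j)
  have hρ1 : ∀ j, ρ j * (1 - θ j * s j) ≤ 1 := fun j => by
    rcases (h1θ j).eq_or_lt with h | h
    · rw [← h]; simp
    · simp only [ρ]; rw [div_mul_cancel₀ _ h.ne']
  have hρc : ∀ j, ρ j * c j ≤ c j + θ j * s j := fun j => by
    rcases (h1θ j).eq_or_lt with h | h
    · simp only [ρ]; rw [← h]; simp; linarith [hc0 j, hθs0 j]
    · simp only [ρ]
      rw [div_mul_eq_mul_div, one_mul, div_le_iff₀ h]
      nlinarith [mul_nonneg (hθs0 j) (by linarith [hθs j, hcs j] : 0 ≤ 1 - θ j * s j - c j)]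
  have hκs : ∀ j, κ j * s j ≤ 1 / θ j := fun j => by
    rcases (hs0 j).eq_or_lt with h | h
    · rw [← h, mul_zero]; exact div_nonneg zero_le_one (hθ0 j).le
    · simp only [κ]
      have := hθ0 j
      refine le_of_eq ?_
      field_simp
  have h2 := two_block v hX u ρ κ hρ hκ (fun j => by
    rcases (hs0 j).eq_or_lt with h' | h'
    · refine Or.inr (Or.inl ⟨h'.symm, ?_⟩)
      simp only [ρ]; rw [← h']; simp
    have hp : 0 < θ j * s j := mul_pos (hθ0 j) h'
    have hκ1 : 1 ≤ κ j := by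
      simp only [κ]; rw [le_div_iff₀ hp]; linarith [h1θ j]
    rcases (h1θ j).eq_or_lt with h | h
    · refine Or.inl ⟨?_, hκ1⟩
      have : c j = 0 := by linarith [hθs j, hcs j, hc0 j]
      exact this
    refine Or.inr (Or.inr ⟨?_, hκ1, le_of_eq ?_⟩)
    · simp only [ρ]; rw [le_div_iff₀ h]; linarith
    · simp only [ρ, κ]
      have := hθ0 j
      field_simp
      ring)
  have hBw : Bes (powersetCard m (V.erase v)) (fun j σ => √(ρ j) * lk v (u j) σ) := by
    intro y
    have h1 := hu (fun j => y j * √(ρ j))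
    rw [comb_split m hv, ho.sum_sq] at h1
    simp_rw [← mul_assoc]
    have h3 : ∑ j, (y j * √(ρ j)) ^ 2 - ∑ j, (y j * √(ρ j)) ^ 2 * s j ≤ ∑ j, y j ^ 2 := by
      rw [← Finset.sum_sub_distrib]
      refine Finset.sum_le_sum fun j _ => ?_
      rw [mul_pow, Real.sq_sqrt (hρ j)]
      have h4 : ρ j * (1 - s j) ≤ 1 :=
        le_trans (mul_le_mul_of_nonneg_left (by linarith [hθs j]) (hρ j)) (hρ1 j)
      nlinarith [mul_le_mul_of_nonneg_left h4 (sq_nonneg (y j))]
    change _ + ∑ j, (y j * √(ρ j)) ^ 2 * s j ≤ _ at h1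
    linarith
  have h3 := h0 α J (V.erase v) _ _ hJ (lkX_sub (m + 1) V v X) hBw
  have h4 : tr (powersetCard m (V.erase v)) (fun j σ => √(ρ j) * lk v (u j) σ)
      ≤ tr (powersetCard (m + 1) V) u - ∑ j, (1 - θ j) * s j := by
    rw [tr_split m hv]
    unfold tr
    rw [← Finset.sum_add_distrib, ← Finset.sum_sub_distrib]
    refine Finset.sum_le_sum fun j _ => ?_
    rw [nq_scale _ _ (hρ j)]
    have := hρc j
    simp only [hc, hs] at this ⊢
    linarith
  have h5 : ∑ j, κ j * s j ≤ ∑ j, 1 / θ j := Finset.sum_le_sum fun j _ => hκs j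
  have hk' : 0 ≤ ((k : ℝ) - 1) / 2 := by
    have : (1 : ℝ) ≤ k := by exact_mod_cast hk
    linarith
  have h8 := mul_le_mul_of_nonneg_left h4 hk'
  change _ ≤ _ + ∑ j, κ j * s j + _ at h2
  change _ ≤ _ + _ * (_ - ∑ j, (1 - θ j) * s j) + _ + _
  linarith

end

lemma step {m : ℕ} (hm : 1 ≤ m) {b0 a b T : ℝ} (hb0 : 0 ≤ b0) (h0 : Apx m (1 / 2) b0)
    (ha : 1 / 2 ≤ a) (hb : 2 * b0 + 7 ≤ b) (hbm : (m : ℝ) + 2 ≤ b) (hT : b ≤ a * T / 2)
    (small : ∀ (α : Type) [LinearOrder α] (J : Type) [Fintype J] (V : Finset α)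
      (X : Finset (Finset α)) (u : J → Finset α → ℝ), X ⊆ powersetCard (m + 2) V →
      Bes (powersetCard (m + 1) V) u → tr (powersetCard (m + 1) V) u ≤ T →
      F X u ≤ a * tr (powersetCard (m + 1) V) u ^ 2 + b * tr (powersetCard (m + 1) V) u) :
    Apx (m + 1) a b := by
  intro α _ J _ V X u
  induction V using Finset.strongInduction generalizing X with
  | H V ih =>
  intro hX hu
  have hdel : ∀ v ∈ V, F (X.filter fun τ => v ∉ τ) u ≤
      a * tr (powersetCard (m + 1) (V.erase v)) u ^ 2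
        + b * tr (powersetCard (m + 1) (V.erase v)) u := fun v hv =>
    ih _ (Finset.erase_ssubset hv) _ (del_sub v hX)
      (hu.mono (Finset.powersetCard_mono (Finset.erase_subset _ _)))
  by_cases hs : tr (powersetCard (m + 1) V) u ≤ T
  · exact small α J V X u hX hu hs
  push Not at hs
  have hm' : (1 : ℝ) ≤ m := by exact_mod_cast hm
  have ht0 := tr_nonneg (powersetCard (m + 1) V) u
  by_cases hall : ∀ v ∈ V, tr (powersetCard (m + 1) V) u - tr (powersetCard (m + 1) (V.erase v)) u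
      ≤ tr (powersetCard (m + 1) V) u / 4
  · refine avg hX u (by linarith) (by push_cast; linarith) hdel hall ?_
    set t := tr (powersetCard (m + 1) V) u
    push_cast
    have h1 : 0 ≤ a * t := mul_nonneg (by linarith) ht0
    have h2 : a * T ≤ a * t := mul_le_mul_of_nonneg_left hs.le (by linarith)
    nlinarith [mul_nonneg h1 (sub_nonneg.2 hm')]
  · push Not at hall
    obtain ⟨v, hv, hlt⟩ := hall
    have h1 := tb_apx hb0 h0 hv hX hu rfl rfl
    have h2 := hdel v hv
    have hδ0 := tr_nonneg (powersetCard (m + 1) (V.erase v)) u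
    set t := tr (powersetCard (m + 1) V) u
    set δ := tr (powersetCard (m + 1) (V.erase v)) u
    obtain ⟨p, hp⟩ : ∃ p, p = t - δ := ⟨_, rfl⟩
    have htp : t = p + δ := by linarith
    have hδp : δ ≤ 3 * p := by linarith
    have hp0 : 0 ≤ p := by linarith
    rw [← hp] at h1
    rw [htp]
    nlinarith [mul_nonneg (sub_nonneg.2 ha) (mul_nonneg hp0 hp0),
      mul_nonneg (sub_nonneg.2 ha) (mul_nonneg hp0 hδ0), mul_nonneg hδ0 (sub_nonneg.2 hδp),
      mul_nonneg hb0 (sub_nonneg.2 hδp), mul_nonneg hp0 (sub_nonneg.2 hb), mul_nonneg hp0 hδ0,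
      mul_nonneg hb0 hp0]

lemma apx_succ {m : ℕ} (hm : 1 ≤ m) {b0 : ℝ} (hb0 : 0 ≤ b0) (h0 : Apx m (1 / 2) b0) :
    ∃ b, b0 ≤ b ∧ (m : ℝ) + 2 ≤ b ∧ Apx (m + 1) (1 / 2) b := by
  set β := 2 * b0 + 7 + m with hβ
  have hm0 : (0 : ℝ) ≤ m := Nat.cast_nonneg _
  have crude : ∀ a, 2 * β * (m + 2) ≤ a → Apx (m + 1) a β := by
    intro a ha
    have ha' : 1 / 2 ≤ a := by nlinarith
    refine step (T := 1 / (m + 2)) hm hb0 h0 ha' (by linarith) (by linarith) ?_ ?_
    · rw [mul_one_div, le_div_iff₀ two_pos, le_div_iff₀ (by linarith)]; linarith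
    · intro α _ J _ V X u hX hu hT
      have h1 : F X u ≤ 0 := by
        refine F_nonpos fun τ hτ => (d_le_tr (hX hτ) u).trans ?_
        rw [le_div_iff₀ (by linarith)] at hT
        push_cast
        linarith
      have ht0 := tr_nonneg (powersetCard (m + 1) V) u
      have : 0 ≤ a * tr (powersetCard (m + 1) V) u ^ 2 := mul_nonneg (by linarith) (sq_nonneg _)
      have : 0 ≤ β * tr (powersetCard (m + 1) V) u := mul_nonneg (by linarith) ht0
      linarith
  have down : ∀ (N : ℕ) (b : ℝ), β ≤ b → Apx (m + 1) (1 / 2 * (5 / 4) ^ N) b →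
      ∃ b', β ≤ b' ∧ Apx (m + 1) (1 / 2) b' := by
    intro N
    induction N with
    | zero => intro b hb h; exact ⟨b, hb, by simpa using h⟩
    | succ N ih =>
      intro b hb h
      have hb' : 0 ≤ b := by linarith
      have h1 : (1 : ℝ) ≤ (5 / 4) ^ N := one_le_pow₀ (by norm_num)
      set q : ℝ := (5 / 4) ^ N with hq
      refine ih (2 * b) (by linarith) ?_
      refine step (T := 8 * b / q) hm hb0 h0 (by linarith) (by linarith) (by linarith) ?_ ?_
      · refine le_of_eq ?_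
        field_simp
        ring
      · intro α _ J _ V X u hX hu hT
        have h2 := h α J V X u hX hu
        have ht0 := tr_nonneg (powersetCard (m + 1) V) u
        rw [le_div_iff₀ (by linarith)] at hT
        rw [pow_succ, ← hq] at h2
        nlinarith [mul_le_mul_of_nonneg_left hT ht0]
  obtain ⟨N, hN⟩ := pow_unbounded_of_one_lt (4 * β * (m + 2)) (by norm_num : (1 : ℝ) < 5 / 4)
  obtain ⟨b, hb, h⟩ := down N β le_rfl (crude _ (by linarith))
  exact ⟨b, by linarith, by linarith, h⟩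

/-- spread-out case -/
lemma spread {m : ℕ} (hm : 1 ≤ m) {b θ : ℝ} (hb : (m : ℝ) + 2 ≤ b) (hθ : 0 ≤ θ)
    (h : Apx (m + 1) (1 / 2) b) {α J : Type} [LinearOrder α] [Fintype J] (V : Finset α)
    (X : Finset (Finset α)) (u : J → Finset α → ℝ) (hX : X ⊆ powersetCard (m + 2) V)
    (hu : Bes (powersetCard (m + 1) V) u)
    (hV : ∀ v ∈ V, tr (powersetCard m (V.erase v)) (fun j => lk v (u j)) ≤ θ) :
    F X u ≤ 2 / 5 * tr (powersetCard (m + 1) V) u ^ 2
      + 4 / 3 * (b + θ / 5) * tr (powersetCard (m + 1) V) u := by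
  induction V using Finset.strongInduction generalizing X with
  | H V ih =>
  have hm' : (1 : ℝ) ≤ m := by exact_mod_cast hm
  have ht0 := tr_nonneg (powersetCard (m + 1) V) u
  by_cases hs : tr (powersetCard (m + 1) V) u ≤ 2 * θ + 10 / 3 * (b + θ / 5)
  · have := h α J V X u hX hu
    nlinarith [mul_le_mul_of_nonneg_left hs ht0]
  push Not at hs
  refine avg (θ := θ) hX u (by norm_num) (by push_cast; linarith) (fun v hv => ?_)
    (fun v hv => ?_) ?_
  · refine ih _ (Finset.erase_ssubset hv) _ (del_sub v hX)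
      (hu.mono (Finset.powersetCard_mono (Finset.erase_subset _ _))) fun w hw => ?_
    exact le_trans (tr_mono (Finset.powersetCard_mono
      (Finset.erase_subset_erase _ (Finset.erase_subset _ _))) _) (hV w (Finset.mem_of_mem_erase hw))
  · rw [tr_split m hv]; linarith [hV v hv]
  · push_cast
    nlinarith [mul_nonneg (sub_nonneg.2 hm') (by linarith : 0 ≤ tr (powersetCard (m + 1) V) u - θ)]

lemma shp_succ {m : ℕ} (hm : 1 ≤ m) {b0 b : ℝ} (hb0 : 0 ≤ b0) (hb0b : b0 ≤ b)
    (hb : (m : ℝ) + 2 ≤ b) (h0 : Apx m (1 / 2) b0) (h1 : Apx (m + 1) (1 / 2) b) {k : ℕ}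
    (hk1 : 42 * b + 16 ≤ k)
    (hk2 : 4 * ((m : ℝ) + 2) * (1 + (10 * b + 18) ^ 2 / 2 + b * (10 * b + 18)) + 1 ≤ k)
    (hs : Shp m k) : Shp (m + 1) k := by
  classical
  intro α _ J _ V X u hJ hX hu
  have hm0 : (0 : ℝ) ≤ m := Nat.cast_nonneg _
  have hk0 : (1 : ℝ) ≤ k := by linarith
  have hk0' : 1 ≤ k := by exact_mod_cast hk0
  have hJ' : (Fintype.card J : ℝ) ≤ k := by exact_mod_cast hJ
  have htk : tr (powersetCard (m + 1) V) u ≤ k := hu.tr_le.trans hJ'
  have ht0 := tr_nonneg (powersetCard (m + 1) V) u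
  have hmk : 0 ≤ ((m : ℝ) + 1) * k := by positivity
  push_cast
  by_cases hsm : tr (powersetCard (m + 1) V) u ≤ k - 1 - 2 * b
  · have := h1 α J V X u hX hu
    nlinarith [mul_le_mul_of_nonneg_left hsm ht0]
  push Not at hsm
  by_cases hall : ∀ v ∈ V, tr (powersetCard m (V.erase v)) (fun j => lk v (u j))
      ≤ tr (powersetCard (m + 1) V) u / 4
  · have := spread hm hb (by linarith) h1 V X u hX hu hall
    set t := tr (powersetCard (m + 1) V) u
    have h2 : 40 * b + 15 ≤ t := by linarith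
    nlinarith [mul_le_mul_of_nonneg_left h2 ht0, mul_le_mul_of_nonneg_left htk ht0]
  push Not at hall
  obtain ⟨v, hv, hlt⟩ := hall
  have hsplit := tr_split m hv u
  have hdel := h1 α J (V.erase v) _ u (del_sub v hX)
    (hu.mono (Finset.powersetCard_mono (Finset.erase_subset _ _)))
  have hδ0 := tr_nonneg (powersetCard (m + 1) (V.erase v)) u
  by_cases hδ : 10 * b + 18 ≤ tr (powersetCard (m + 1) (V.erase v)) u
  · have h2 := tb_apx hb0 h0 hv hX hu rfl rfl
    set t := tr (powersetCard (m + 1) V) u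
    set δ := tr (powersetCard (m + 1) (V.erase v)) u
    set p := tr (powersetCard m (V.erase v)) (fun j => lk v (u j))
    have hp : t - δ = p := by linarith
    rw [hp] at h2
    have hδp : δ ≤ 3 * p := by linarith
    have hp0 : 0 ≤ p := by linarith
    have hb' : 0 ≤ b := by linarith
    have h3 : F X u ≤ (t - 1) / 2 * t := by
      rw [hsplit]
      nlinarith [mul_nonneg hδ0 (sub_nonneg.2 hδp), mul_nonneg hb0 (sub_nonneg.2 hδp),
        mul_nonneg hb' (sub_nonneg.2 hδp), mul_nonneg hp0 (sub_nonneg.2 hδ),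
        mul_nonneg hp0 (sub_nonneg.2 hb0b), mul_nonneg hb' hp0]
    nlinarith [mul_le_mul_of_nonneg_left htk ht0]
  push Not at hδ
  obtain ⟨u', ho, hB, hinv⟩ := exists_rot (powersetCard (m + 1) (V.erase v)) u
  rw [← F_eq_of hinv, ← tr_eq_of hinv]
  rw [← F_eq_of hinv] at hdel
  have hu' := hB _ hu
  by_cases hsmall : ∀ j, nq (powersetCard (m + 1) (V.erase v)) (u' j) ≤ 1 / (m + 2)
  · have h2 := tb_shp hk0' hs hJ hv hX hu' ho (fun _ => 1) (fun _ => one_pos) (fun _ => le_rfl)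
    have h3 : F (X.filter fun τ => v ∉ τ) u' ≤ 0 := by
      refine F_nonpos fun τ hτ => ?_
      refine (d_le (κ := 1 / (m + 2)) (del_sub v hX hτ) (by positivity) fun y => ?_).trans ?_
      · rw [ho.sum_sq, Finset.mul_sum]
        refine Finset.sum_le_sum fun j _ => ?_
        rw [mul_comm]
        exact mul_le_mul_of_nonneg_right (hsmall j) (sq_nonneg _)
      · push_cast
        refine le_of_eq ?_
        field_simp
        ring
    simp only [sub_self, zero_mul, Finset.sum_const_zero, sub_zero, div_one, Finset.sum_const,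
      Finset.card_univ, nsmul_eq_mul, mul_one] at h2
    linarith
  · push Not at hsmall
    obtain ⟨j0, hj0⟩ := hsmall
    have h2 := tb_shp hk0' hs hJ hv hX hu' ho (fun j => if j = j0 then 1 / 2 else 1)
      (fun j => by split_ifs <;> norm_num) (fun j => by split_ifs <;> norm_num)
    have e1 : ∑ j, (1 - if j = j0 then (1 / 2 : ℝ) else 1)
        * nq (powersetCard (m + 1) (V.erase v)) (u' j)
        = 1 / 2 * nq (powersetCard (m + 1) (V.erase v)) (u' j0) := by
      rw [Finset.sum_eq_single j0]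
      · rw [if_pos rfl]; norm_num
      · intro j _ hj; rw [if_neg hj]; simp
      · simp
    have e2 : ∑ j : J, 1 / (if j = j0 then (1 / 2 : ℝ) else 1) = Fintype.card J + 1 := by
      have : ∀ j : J, 1 / (if j = j0 then (1 / 2 : ℝ) else 1) = 1 + if j = j0 then 1 else 0 := by
        intro j; split_ifs <;> norm_num
      simp_rw [this]
      rw [Finset.sum_add_distrib]
      simp
    rw [e1, e2] at h2
    set s := nq (powersetCard (m + 1) (V.erase v)) (u' j0)
    set δ := tr (powersetCard (m + 1) (V.erase v)) u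
    have hb' : 0 ≤ b := by linarith
    have h3 : 1 / 2 * δ ^ 2 + b * δ ≤ (10 * b + 18) ^ 2 / 2 + b * (10 * b + 18) := by
      nlinarith [mul_le_mul_of_nonneg_left hδ.le hb']
    rw [div_lt_iff₀ (by linarith)] at hj0
    set C := (10 * b + 18) ^ 2 / 2 + b * (10 * b + 18)
    have hC : 0 ≤ C := by positivity
    have hs0 : 0 ≤ s := nq_nonneg _ _
    have h4 : 1 + C ≤ ((k : ℝ) - 1) / 2 * (1 / 2 * s) := by
      have h5 : 4 * ((m : ℝ) + 2) * (1 + C) ≤ k - 1 := by
        simp only [C]; linarith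
      nlinarith [mul_le_mul_of_nonneg_left h5 hs0, mul_le_mul_of_nonneg_left hj0.le
        (by linarith : 0 ≤ 1 + C)]
    nlinarith

lemma all_dims (h1 : Apx 1 (1 / 2) (1 / 2)) (m : ℕ) :
    ∃ b : ℝ, 0 ≤ b ∧ Apx (m + 1) (1 / 2) b ∧ ∃ k0 : ℕ, ∀ k, k0 ≤ k → Shp (m + 1) k := by
  induction m with
  | zero =>
    refine ⟨1 / 2, by norm_num, h1, 1, fun k hk => ?_⟩
    intro α _ J _ V X u hJ hX hu
    have h2 := h1 α J V X u hX hu
    have hJ' : (Fintype.card J : ℝ) ≤ k := by exact_mod_cast hJ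
    have htk : tr (powersetCard 1 V) u ≤ k := hu.tr_le.trans hJ'
    have ht0 := tr_nonneg (powersetCard 1 V) u
    simp only [zero_add, Nat.cast_one, one_mul]
    nlinarith [mul_le_mul_of_nonneg_left htk ht0]
  | succ m ih =>
    obtain ⟨b0, hb0, h0, k0, hk0⟩ := ih
    obtain ⟨b, hb1, hb2, hb3⟩ := apx_succ (Nat.succ_le_succ (Nat.zero_le m)) hb0 h0
    refine ⟨b, by linarith, hb3, ?_⟩
    obtain ⟨k1, hk1⟩ := exists_nat_ge (42 * b + 16)
    obtain ⟨k2, hk2⟩ := exists_nat_ge
      (4 * (((m + 1 : ℕ) : ℝ) + 2) * (1 + (10 * b + 18) ^ 2 / 2 + b * (10 * b + 18)) + 1)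
    refine ⟨k0 + k1 + k2, fun k hk => ?_⟩
    have e1 : (k1 : ℝ) ≤ k := by exact_mod_cast (by omega : k1 ≤ k)
    have e2 : (k2 : ℝ) ≤ k := by exact_mod_cast (by omega : k2 ≤ k)
    exact shp_succ (Nat.succ_le_succ (Nat.zero_le m)) hb0 hb1 hb2 h0 hb3 (by linarith)
      (by linarith) (hk0 k (by omega))

end Pool.Agent.Lib.MP_468ee0_co
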