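import Pool.Agent.Lib.MP_468ee0_co.Bai

set_option autoImplicit false

namespace Pool.Agent.Lib.MP_468ee0_co

open Finset

variable {W J : Type} [Fintype W] [DecidableEq W] [Fintype J]

lemma bai_set (z : J → W → ℝ) (hz : Bes Finset.univ z) (S : Finset W) :
    ∑ a ∈ S, ∑ b ∈ Sᶜ, max (∑ j, (z j a - z j b) ^ 2 - 1) 0
      ≤ S.card * ∑ j, ∑ b ∈ Sᶜ, z j b ^ 2 + ∑ j, (∑ a ∈ S, z j a) ^ 2 := by
  have hS : ∀ f : W → ℝ, ∑ s : {x // x ∈ S}, f s = ∑ a ∈ S, f a := fun f =>
    Finset.sum_coe_sort S f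
  have hI : ∀ f : W → ℝ, ∑ s : {x // x ∈ Sᶜ}, f s = ∑ a ∈ Sᶜ, f a := fun f =>
    Finset.sum_coe_sort Sᶜ f
  have h := bai (S := {x // x ∈ S}) (I := {x // x ∈ Sᶜ})
    (fun j => Sum.elim (fun s => z j s) (fun s => z j s)) (fun y => by
      refine le_trans (le_of_eq ?_) (hz y)
      rw [Fintype.sum_sum_type]
      simp only [Sum.elim_inl, Sum.elim_inr]
      rw [hS (fun s => (∑ j, y j * z j s) ^ 2), hI (fun s => (∑ j, y j * z j s) ^ 2),
        Finset.sum_add_sum_compl])
  simp only [Sum.elim_inl, Sum.elim_inr, Fintype.card_coe] at h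
  rw [← hS (fun a => ∑ b ∈ Sᶜ, max (∑ j, (z j a - z j b) ^ 2 - 1) 0)]
  simp_rw [← hI, ← hS]
  exact h

lemma layer_nonneg (w : W → ℝ) (c : W → W → ℝ)
    (hcut : ∀ S : Finset W, ∑ a ∈ S, w a ≤ ∑ a ∈ S, ∑ b ∈ Sᶜ, c a b) (n : ℕ) :
    ∀ x : W → ℝ, (∀ a, 0 ≤ x a) → (Finset.univ.filter fun a => 0 < x a).card = n →
      ∑ a, w a * x a ≤ ∑ a, ∑ b, c a b * max (x a - x b) 0 := by
  induction n using Nat.strong_induction_on with
  | _ n ih =>
  intro x hx hn
  set S := Finset.univ.filter fun a => 0 < x a with hS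
  have hmem : ∀ a, a ∈ S ↔ 0 < x a := fun a => by simp [hS]
  have hz : ∀ a, a ∉ S → x a = 0 := fun a ha =>
    le_antisymm (not_lt.1 fun h => ha ((hmem a).2 h)) (hx a)
  rcases S.eq_empty_or_nonempty with h | h
  · have : ∀ a, x a = 0 := fun a => hz a (by rw [h]; exact Finset.notMem_empty a)
    simp [this]
  obtain ⟨a0, ha0, hmin⟩ := Finset.exists_min_image S x h
  have hμ : 0 < x a0 := (hmem a0).1 ha0
  let x' : W → ℝ := fun a => if a ∈ S then x a - x a0 else 0
  have hx' : ∀ a, 0 ≤ x' a := fun a => by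
    simp only [x']
    split_ifs with ha
    · exact sub_nonneg.2 (hmin a ha)
    · exact le_rfl
  have hlt : (Finset.univ.filter fun a => 0 < x' a).card < n := by
    rw [← hn]
    refine Finset.card_lt_card ⟨fun a ha => ?_, fun hh => ?_⟩
    · rw [Finset.mem_filter] at ha
      by_contra hc
      simp only [x', if_neg hc] at ha
      exact lt_irrefl _ ha.2
    · have := (Finset.mem_filter.1 (hh ha0)).2
      simp only [x', if_pos ha0, sub_self] at this
      exact lt_irrefl _ this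
  have h1 := ih _ hlt x' hx' rfl
  have h2 := mul_le_mul_of_nonneg_left (hcut S) hμ.le
  have e1 : ∑ a, w a * x a = x a0 * ∑ a ∈ S, w a + ∑ a, w a * x' a := by
    rw [← Finset.sum_ite_mem_eq S w, Finset.mul_sum, ← Finset.sum_add_distrib]
    refine Finset.sum_congr rfl fun a _ => ?_
    simp only [x']
    split_ifs with ha
    · ring
    · rw [hz a ha]; ring
  have e2 : ∑ a, ∑ b, c a b * max (x a - x b) 0
      = x a0 * ∑ a ∈ S, ∑ b ∈ Sᶜ, c a b + ∑ a, ∑ b, c a b * max (x' a - x' b) 0 := by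
    rw [← Finset.sum_ite_mem_eq S (fun a => ∑ b ∈ Sᶜ, c a b), Finset.mul_sum,
      ← Finset.sum_add_distrib]
    refine Finset.sum_congr rfl fun a _ => ?_
    rw [← Finset.sum_ite_mem_eq Sᶜ (fun b => c a b)]
    by_cases ha : a ∈ S
    · rw [if_pos ha, Finset.mul_sum, ← Finset.sum_add_distrib]
      refine Finset.sum_congr rfl fun b _ => ?_
      by_cases hb : b ∈ S
      · simp only [x', if_pos ha, if_pos hb, Finset.mem_compl, hb, not_true, if_false]
        rw [mul_zero, zero_add, sub_sub_sub_cancel_right]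
      · simp only [x', if_pos ha, if_neg hb, Finset.mem_compl, hb, not_false_iff, if_true]
        rw [hz b hb, sub_zero, sub_zero, max_eq_left (hx a),
          max_eq_left (sub_nonneg.2 (hmin a ha))]
        ring
    · rw [if_neg ha, mul_zero, zero_add]
      refine Finset.sum_congr rfl fun b _ => ?_
      have : x' a = 0 := by simp only [x', if_neg ha]
      rw [this, hz a ha, max_eq_right (by linarith [hx b]), max_eq_right (by linarith [hx' b])]
  rw [e1, e2]
  linarith

lemma layer (w : W → ℝ) (c : W → W → ℝ) (hw : ∑ a, w a = 0)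
    (hcut : ∀ S : Finset W, ∑ a ∈ S, w a ≤ ∑ a ∈ S, ∑ b ∈ Sᶜ, c a b) (x : W → ℝ) :
    ∑ a, w a * x a ≤ ∑ a, ∑ b, c a b * max (x a - x b) 0 := by
  have h := layer_nonneg w c hcut _ (fun a => x a + ∑ b, |x b|) (fun a => by
    have := Finset.single_le_sum (f := fun b => |x b|) (fun b _ => abs_nonneg _)
      (Finset.mem_univ a)
    linarith [neg_abs_le (x a)]) rfl
  simp only [mul_add, Finset.sum_add_distrib, ← Finset.sum_mul, hw, zero_mul, add_zero,
    add_sub_add_right_eq_sub] at h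
  exact h

lemma kt_centered (z : J → W → ℝ) (hz : Bes Finset.univ z) (h0 : ∀ j, ∑ a, z j a = 0) :
    ∑ a, ∑ b, max (∑ j, (z j a - z j b) ^ 2 - 1) 0
      ≤ tr Finset.univ z * (tr Finset.univ z + 1) := by
  rcases isEmpty_or_nonempty W with hW | hW
  · simp [tr, nq]
  set n : ℝ := (Fintype.card W : ℝ) with hn
  have hn0 : 0 < n := by rw [hn]; exact_mod_cast Fintype.card_pos
  set t := tr Finset.univ z with ht
  set G : W → W → ℝ := fun a b => ∑ j, z j a * z j b with hG
  set d : W → W → ℝ := fun a b => ∑ j, (z j a - z j b) ^ 2 with hd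
  set c : W → W → ℝ := fun a b => 1 - |d a b - 1| with hc
  set w : W → ℝ := fun a => n * G a a - t with hw
  have hGs : ∀ a b, G a b = G b a := fun a b => Finset.sum_congr rfl fun _ _ => mul_comm _ _
  have hdG : ∀ a b, d a b = G a a + G b b - 2 * G a b := fun a b => by
    simp only [hd, hG]
    rw [Finset.mul_sum, ← Finset.sum_add_distrib, ← Finset.sum_sub_distrib]
    exact Finset.sum_congr rfl fun _ _ => by ring
  have hcs : ∀ a b, c a b = c b a := fun a b => by
    simp only [hc]; rw [hdG, hdG, hGs a b, add_comm]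
  have hG0 : ∀ a, ∑ b, G a b = 0 := fun a => by
    simp only [hG]
    rw [Finset.sum_comm]
    simp_rw [← Finset.mul_sum, h0]
    simp
  have hG0' : ∀ b, ∑ a, G a b = 0 := fun b => by simp_rw [hGs _ b, hG0]
  have htG : ∑ a, G a a = t := by
    simp only [hG, ht, tr, nq, sq]
    rw [Finset.sum_comm]
  have hG2 : ∑ a, ∑ b, G a b ^ 2 ≤ t := by
    rw [← htG]
    refine Finset.sum_le_sum fun a _ => ?_
    simpa only [hG, sq] using hz (fun j => z j a)
  have hmax : ∀ a b, max (d a b - 1) 0 = (d a b - c a b) / 2 := fun a b => by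
    simp only [hc]
    rcases le_total (d a b - 1) 0 with h | h
    · rw [max_eq_right h, abs_of_nonpos h]; ring
    · rw [max_eq_left h, abs_of_nonneg h]; ring
  have hw0 : ∑ a, w a = 0 := by
    simp only [hw]
    rw [Finset.sum_sub_distrib, ← Finset.mul_sum, htG]
    simp [hn]
  have hcut : ∀ S : Finset W, ∑ a ∈ S, w a ≤ ∑ a ∈ S, ∑ b ∈ Sᶜ, c a b := by
    intro S
    have h := bai_set z hz S
    change ∑ a ∈ S, ∑ b ∈ Sᶜ, max (d a b - 1) 0 ≤ _ at h
    have e1 : ∑ j, ∑ b ∈ Sᶜ, z j b ^ 2 = ∑ b ∈ Sᶜ, G b b := by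
      rw [Finset.sum_comm]; simp only [hG, sq]
    have e2 : ∑ j, (∑ a ∈ S, z j a) ^ 2 = ∑ a ∈ S, ∑ b ∈ S, G a b := by
      simp_rw [sq, Finset.sum_mul_sum]
      rw [Finset.sum_comm]
      refine Finset.sum_congr rfl fun a _ => ?_
      rw [Finset.sum_comm]
    have e3 : ∑ a ∈ S, ∑ b ∈ Sᶜ, G a b = -∑ a ∈ S, ∑ b ∈ S, G a b := by
      rw [← Finset.sum_neg_distrib]
      refine Finset.sum_congr rfl fun a _ => ?_
      have := Finset.sum_add_sum_compl S (G a)
      rw [hG0] at this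
      linarith
    have e4 : ∑ a ∈ S, G a a + ∑ a ∈ Sᶜ, G a a = t := by
      rw [Finset.sum_add_sum_compl, htG]
    have e5 : (S.card : ℝ) + (Sᶜ.card : ℝ) = n := by
      rw [hn]; exact_mod_cast Finset.card_add_card_compl S
    simp_rw [hmax, hdG] at h
    simp only [← Finset.sum_div, Finset.sum_sub_distrib, Finset.sum_add_distrib, Finset.sum_const,
      nsmul_eq_mul, ← Finset.mul_sum] at h
    rw [e1, e2, e3] at h
    simp only [hw, Finset.sum_sub_distrib, ← Finset.mul_sum, Finset.sum_const, nsmul_eq_mul]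
    rw [← e4, ← e5]
    linarith
  have h1 := layer w c hw0 hcut w
  have h2 : 2 * ∑ a, ∑ b, c a b * max (w a - w b) 0 = ∑ a, ∑ b, c a b * |w a - w b| := by
    rw [two_mul]
    nth_rewrite 2 [Finset.sum_comm]
    simp_rw [← Finset.sum_add_distrib]
    refine Finset.sum_congr rfl fun a _ => Finset.sum_congr rfl fun b _ => ?_
    rw [hcs b a]
    rcases le_total (w a - w b) 0 with h | h
    · rw [max_eq_right h, max_eq_left (by linarith), abs_of_nonpos h]; ring
    · rw [max_eq_left h, max_eq_right (by linarith), abs_of_nonneg h]; ring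
  have h3 : n * ∑ a, ∑ b, c a b * |w a - w b|
      ≤ ∑ a, ∑ b, (n ^ 2 / 2 * c a b ^ 2 + (w a - w b) ^ 2 / 2) := by
    simp_rw [Finset.mul_sum]
    refine Finset.sum_le_sum fun a _ => Finset.sum_le_sum fun b _ => ?_
    rw [← sq_abs (w a - w b)]
    nlinarith [sq_nonneg (n * c a b - |w a - w b|)]
  have h4 : ∑ a, ∑ b, (w a - w b) ^ 2 / 2 = n * ∑ a, w a * w a := by
    have : ∀ a b, (w a - w b) ^ 2 / 2 = w a * w a / 2 + w b * w b / 2 - w a * w b := fun a b => by
      ring
    simp_rw [this]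
    simp only [Finset.sum_sub_distrib, Finset.sum_add_distrib, Finset.sum_const, nsmul_eq_mul,
      ← Finset.mul_sum, ← Finset.sum_div, hw0, mul_zero, Finset.card_univ, ← hn]
    ring
  simp only [Finset.sum_add_distrib, ← Finset.mul_sum] at h3
  rw [h4, ← h2] at h3
  set C2 := ∑ a, ∑ b, c a b ^ 2 with hC2
  set W2 := ∑ a, w a * w a with hW2
  have h5 : W2 ≤ n / 2 * C2 := by
    refine le_of_mul_le_mul_left ?_ hn0
    nlinarith [mul_le_mul_of_nonneg_left h1 hn0.le]
  set Q := ∑ a, G a a ^ 2 with hQ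
  have h6 : W2 = n ^ 2 * Q - n * t ^ 2 := by
    have : ∀ a, w a * w a = n ^ 2 * G a a ^ 2 - 2 * n * t * G a a + t ^ 2 := fun a => by
      simp only [hw]; ring
    simp only [hW2, this, Finset.sum_sub_distrib, Finset.sum_add_distrib, Finset.sum_const,
      nsmul_eq_mul, ← Finset.mul_sum, htG, Finset.card_univ, ← hn, ← hQ]
    ring
  have h7 : ∑ a, ∑ b, d a b = 2 * n * t := by
    simp only [hdG, Finset.sum_sub_distrib, Finset.sum_add_distrib, Finset.sum_const,
      nsmul_eq_mul, ← Finset.mul_sum, htG, Finset.card_univ, ← hn, hG0]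
    ring
  have h8 : ∑ a, ∑ b, d a b ^ 2 ≤ 2 * n * Q + 2 * t ^ 2 + 4 * t := by
    have : ∀ a b, d a b ^ 2 = G a a ^ 2 + G b b ^ 2 + 2 * (G a a * G b b) - 4 * (G a a * G a b)
        - 4 * (G b b * G a b) + 4 * G a b ^ 2 := fun a b => by rw [hdG]; ring
    have e : ∑ a, ∑ b, G b b * G a b = 0 := by
      rw [Finset.sum_comm]
      simp_rw [← Finset.mul_sum, hG0']
      simp
    simp only [this, Finset.sum_sub_distrib, Finset.sum_add_distrib, Finset.sum_const,
      nsmul_eq_mul, ← Finset.mul_sum, ← Finset.sum_mul, htG, Finset.card_univ, ← hn, hG0, ← hQ, e,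
      mul_zero]
    nlinarith
  have h9 : 2 * ∑ a, ∑ b, c a b = 2 * ∑ a, ∑ b, d a b - ∑ a, ∑ b, d a b ^ 2 + C2 := by
    simp only [hC2, Finset.mul_sum, ← Finset.sum_sub_distrib, ← Finset.sum_add_distrib]
    refine Finset.sum_congr rfl fun a _ => Finset.sum_congr rfl fun b _ => ?_
    simp only [hc]
    nlinarith [sq_abs (d a b - 1)]
  have h10 : 2 * n * Q - 2 * t ^ 2 ≤ C2 := by
    refine le_of_mul_le_mul_left ?_ hn0
    nlinarith
  change ∑ a, ∑ b, max (d a b - 1) 0 ≤ _
  simp_rw [hmax]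
  simp only [← Finset.sum_div, Finset.sum_sub_distrib]
  nlinarith

lemma kt (z : J → W → ℝ) (hz : Bes Finset.univ z) :
    ∑ a, ∑ b, max (∑ j, (z j a - z j b) ^ 2 - 1) 0
      ≤ tr Finset.univ z * (tr Finset.univ z + 1) := by
  rcases isEmpty_or_nonempty W with hW | hW
  · simp [tr, nq]
  set n : ℝ := (Fintype.card W : ℝ) with hn
  have hn0 : 0 < n := by rw [hn]; exact_mod_cast Fintype.card_pos
  have cen : ∀ x : W → ℝ, ∑ a, (x a - (∑ b, x b) / n) ^ 2 ≤ ∑ a, x a ^ 2 := by
    intro x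
    have : ∀ a, (x a - (∑ b, x b) / n) ^ 2
        = x a ^ 2 - 2 * ((∑ b, x b) / n) * x a + ((∑ b, x b) / n) ^ 2 := fun a => by ring
    simp only [this, Finset.sum_sub_distrib, Finset.sum_add_distrib, Finset.sum_const,
      nsmul_eq_mul, ← Finset.mul_sum, Finset.card_univ, ← hn]
    have h2 : n * ((∑ b, x b) / n) ^ 2 = (∑ b, x b) / n * ∑ b, x b := by field_simp
    have h3 : 0 ≤ n * ((∑ b, x b) / n) ^ 2 := by positivity
    linarith
  have h := kt_centered (fun j a => z j a - (∑ b, z j b) / n) (fun y => by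
    refine le_trans (le_of_eq ?_) ((cen (fun a => ∑ j, y j * z j a)).trans (hz y))
    refine Finset.sum_congr rfl fun a _ => ?_
    congr 1
    rw [Finset.sum_comm, Finset.sum_div, ← Finset.sum_sub_distrib]
    refine Finset.sum_congr rfl fun j _ => ?_
    rw [← Finset.mul_sum]; ring) (fun j => by
    rw [Finset.sum_sub_distrib]
    simp only [Finset.sum_const, nsmul_eq_mul, Finset.card_univ, ← hn]
    field_simp
    ring)
  simp only [sub_sub_sub_cancel_right] at h
  have h1 : tr Finset.univ (fun j a => z j a - (∑ b, z j b) / n) ≤ tr Finset.univ z :=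
    Finset.sum_le_sum fun j _ => cen (z j)
  have h2 := tr_nonneg Finset.univ (fun j a => z j a - (∑ b, z j b) / n)
  nlinarith

end Pool.Agent.Lib.MP_468ee0_co
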