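import Mathlib

set_option autoImplicit false

namespace Pool.Agent.Lib.MP_468ee0_co

open Finset Matrix

section spec
variable {n : Type} [Fintype n] [DecidableEq n] {A : Matrix n n ℝ}

lemma eig_row (hA : A.IsHermitian) (j l : n) :
    ∑ i, hA.eigenvectorBasis j i * hA.eigenvectorBasis l i = if j = l then 1 else 0 := by
  have h := hA.eigenvectorUnitary.2.1
  have h2 := congrFun (congrFun h j) l
  simp only [Matrix.mul_apply, Matrix.star_apply, star_trivial, Matrix.one_apply] at h2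
  simpa using h2

lemma eig_col (hA : A.IsHermitian) (i i' : n) :
    ∑ j, hA.eigenvectorBasis j i * hA.eigenvectorBasis j i' = if i = i' then 1 else 0 := by
  have h := hA.eigenvectorUnitary.2.2
  have h2 := congrFun (congrFun h i) i'
  simp only [Matrix.mul_apply, Matrix.star_apply, star_trivial, Matrix.one_apply] at h2
  simpa using h2

lemma eig_app (hA : A.IsHermitian) (j i : n) :
    ∑ i', A i i' * hA.eigenvectorBasis j i' = hA.eigenvalues j * hA.eigenvectorBasis j i := by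
  have h := congrFun (hA.mulVec_eigenvectorBasis j) i
  simpa [Matrix.mulVec, dotProduct] using h

/-- an orthogonal change of variables preserves sums of squares -/
lemma sum_sq_of_col {m : Type} [Fintype m] (e : m → n → ℝ)
    (he : ∀ i i', ∑ j, e j i * e j i' = if i = i' then 1 else 0) (a : n → ℝ) :
    ∑ j, (∑ i, e j i * a i) ^ 2 = ∑ i, a i ^ 2 := by
  have : ∀ j, (∑ i, e j i * a i) ^ 2 = ∑ i, ∑ i', (a i * a i') * (e j i * e j i') := by
    intro j
    rw [sq, Finset.sum_mul_sum]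
    refine Finset.sum_congr rfl fun i _ => Finset.sum_congr rfl fun i' _ => by ring
  simp_rw [this]
  rw [Finset.sum_comm]
  refine Finset.sum_congr rfl fun i _ => ?_
  rw [Finset.sum_comm]
  simp_rw [← Finset.mul_sum, he]
  simp [sq]

/-- quadratic form through the eigenbasis -/
lemma quad_eq (hA : A.IsHermitian) (z : n → ℝ) :
    ∑ i, ∑ i', z i * A i i' * z i'
      = ∑ j, hA.eigenvalues j * (∑ i, hA.eigenvectorBasis j i * z i) ^ 2 := by
  have hz : ∀ i', z i' = ∑ j, hA.eigenvectorBasis j i' * (∑ i, hA.eigenvectorBasis j i * z i) := by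
    intro i'
    simp_rw [Finset.mul_sum]
    rw [Finset.sum_comm]
    simp_rw [← mul_assoc, ← Finset.sum_mul, eig_col hA]
    simp
  have h1 : ∀ i, ∑ i', z i * A i i' * z i'
      = ∑ j, hA.eigenvalues j * (∑ i, hA.eigenvectorBasis j i * z i)
          * (hA.eigenvectorBasis j i * z i) := by
    intro i
    have : ∑ i', z i * A i i' * z i' = ∑ i', ∑ j, z i * (∑ i, hA.eigenvectorBasis j i * z i)
        * (A i i' * hA.eigenvectorBasis j i') := by
      refine Finset.sum_congr rfl fun i' _ => ?_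
      conv_lhs => rw [hz i', Finset.mul_sum]
      refine Finset.sum_congr rfl fun j _ => by ring
    rw [this, Finset.sum_comm]
    refine Finset.sum_congr rfl fun j _ => ?_
    rw [← Finset.mul_sum, eig_app hA]; ring
  simp_rw [h1]
  rw [Finset.sum_comm]
  refine Finset.sum_congr rfl fun j _ => ?_
  rw [← Finset.mul_sum]; ring

end spec

variable {β J : Type} [Fintype J]

/-- squared norm on the coordinates in `P` -/
def nq (P : Finset β) (w : β → ℝ) : ℝ := ∑ σ ∈ P, w σ ^ 2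

/-- Bessel family (contraction) on the coordinates in `P` -/
def Bes (P : Finset β) (u : J → β → ℝ) : Prop :=
  ∀ y : J → ℝ, ∑ σ ∈ P, (∑ j, y j * u j σ) ^ 2 ≤ ∑ j, y j ^ 2

/-- trace -/
def tr (P : Finset β) (u : J → β → ℝ) : ℝ := ∑ j, nq P (u j)

/-- pairwise orthogonal on `Q` -/
def Orth (Q : Finset β) (u : J → β → ℝ) : Prop :=
  ∀ i j, i ≠ j → ∑ σ ∈ Q, u i σ * u j σ = 0

lemma nq_nonneg (P : Finset β) (w : β → ℝ) : 0 ≤ nq P w :=
  Finset.sum_nonneg fun _ _ => sq_nonneg _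

lemma tr_nonneg (P : Finset β) (u : J → β → ℝ) : 0 ≤ tr P u :=
  Finset.sum_nonneg fun _ _ => nq_nonneg _ _

lemma nq_mono {P Q : Finset β} (h : Q ⊆ P) (w : β → ℝ) : nq Q w ≤ nq P w :=
  Finset.sum_le_sum_of_subset_of_nonneg h fun _ _ _ => sq_nonneg _

lemma tr_mono {P Q : Finset β} (h : Q ⊆ P) (u : J → β → ℝ) : tr Q u ≤ tr P u :=
  Finset.sum_le_sum fun _ _ => nq_mono h _

lemma Bes.mono {P Q : Finset β} {u : J → β → ℝ} (h : Bes P u) (hQ : Q ⊆ P) : Bes Q u :=
  fun y => le_trans (Finset.sum_le_sum_of_subset_of_nonneg hQ fun _ _ _ => sq_nonneg _) (h y)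

lemma Bes.nq_le {P : Finset β} {u : J → β → ℝ} (h : Bes P u) (j : J) : nq P (u j) ≤ 1 := by
  classical
  have := h (Pi.single j 1)
  simpa [Pi.single_apply, nq] using this

lemma Bes.tr_le {P : Finset β} {u : J → β → ℝ} (h : Bes P u) : tr P u ≤ Fintype.card J := by
  have : tr P u ≤ ∑ _j : J, (1 : ℝ) := Finset.sum_le_sum fun j _ => h.nq_le j
  simpa using this

/-- analysis form, with an operator-norm bound `κ` -/
lemma analysis_of {P : Finset β} {u : J → β → ℝ} {κ : ℝ} (hκ : 0 ≤ κ)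
    (h : ∀ y : J → ℝ, ∑ σ ∈ P, (∑ j, y j * u j σ) ^ 2 ≤ κ * ∑ j, y j ^ 2) (x : β → ℝ) :
    ∑ j, (∑ σ ∈ P, u j σ * x σ) ^ 2 ≤ κ * ∑ σ ∈ P, x σ ^ 2 := by
  set y : J → ℝ := fun j => ∑ σ ∈ P, u j σ * x σ with hy
  set Q := ∑ j, y j ^ 2 with hQ
  have hQ0 : 0 ≤ Q := Finset.sum_nonneg fun _ _ => sq_nonneg _
  have h1 : Q = ∑ σ ∈ P, (∑ j, y j * u j σ) * x σ := by
    simp_rw [Finset.sum_mul]
    rw [Finset.sum_comm, hQ]
    refine Finset.sum_congr rfl fun j _ => ?_
    rw [sq]
    conv_lhs => rw [hy]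
    simp only [Finset.mul_sum]
    refine Finset.sum_congr rfl fun σ _ => by ring
  have h2 := Finset.sum_mul_sq_le_sq_mul_sq P (fun σ => ∑ j, y j * u j σ) x
  rw [← h1] at h2
  have h3 := h y
  have hx : 0 ≤ ∑ σ ∈ P, x σ ^ 2 := Finset.sum_nonneg fun _ _ => sq_nonneg _
  have h4 : Q ^ 2 ≤ Q * (κ * ∑ σ ∈ P, x σ ^ 2) := by
    calc Q ^ 2 ≤ _ := h2
      _ ≤ (κ * Q) * ∑ σ ∈ P, x σ ^ 2 := mul_le_mul_of_nonneg_right h3 hx
      _ = _ := by ring
  rcases hQ0.eq_or_lt with h0 | h0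
  · rw [← h0]; positivity
  · rw [sq] at h4; exact le_of_mul_le_mul_left h4 h0

lemma Bes.analysis {P : Finset β} {u : J → β → ℝ} (h : Bes P u) (x : β → ℝ) :
    ∑ j, (∑ σ ∈ P, u j σ * x σ) ^ 2 ≤ ∑ σ ∈ P, x σ ^ 2 := by
  have := analysis_of (P := P) (u := u) (κ := 1) zero_le_one (fun y => by simpa using h y) x
  simpa using this

lemma Orth.sum_sq {Q : Finset β} {u : J → β → ℝ} (h : Orth Q u) (y : J → ℝ) :
    ∑ σ ∈ Q, (∑ j, y j * u j σ) ^ 2 = ∑ j, y j ^ 2 * nq Q (u j) := by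
  classical
  have : ∀ σ, (∑ j, y j * u j σ) ^ 2 = ∑ i, ∑ j, (y i * y j) * (u i σ * u j σ) := by
    intro σ
    rw [sq, Finset.sum_mul_sum]
    refine Finset.sum_congr rfl fun i _ => Finset.sum_congr rfl fun i' _ => by ring
  simp_rw [this]
  rw [Finset.sum_comm]
  refine Finset.sum_congr rfl fun i _ => ?_
  rw [Finset.sum_comm]
  simp_rw [← Finset.mul_sum]
  rw [Finset.sum_eq_single i]
  · simp [nq, sq]
  · intro j _ hj; rw [h i j (Ne.symm hj), mul_zero]
  · simp

/-- rotation of a family making it orthogonal on `Q` -/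
lemma exists_rot (Q : Finset β) (u : J → β → ℝ) :
    ∃ u' : J → β → ℝ, Orth Q u' ∧ (∀ P, Bes P u → Bes P u') ∧
      ∀ (ι : Type) (A : Finset ι) (c : ι → ℝ) (g : ι → β),
        ∑ j, (∑ x ∈ A, c x * u' j (g x)) ^ 2 = ∑ j, (∑ x ∈ A, c x * u j (g x)) ^ 2 := by
  classical
  let G : Matrix J J ℝ := Matrix.of fun i j => ∑ σ ∈ Q, u i σ * u j σ
  have hG : G.IsHermitian := by
    ext i j
    simp only [G, conjTranspose_apply, of_apply, star_trivial]
    exact Finset.sum_congr rfl fun σ _ => mul_comm _ _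
  refine ⟨fun j σ => ∑ i, hG.eigenvectorBasis j i * u i σ, ?_, ?_, ?_⟩
  · intro j l hjl
    have : ∑ σ ∈ Q, (∑ i, hG.eigenvectorBasis j i * u i σ) * (∑ i, hG.eigenvectorBasis l i * u i σ)
        = ∑ i, hG.eigenvectorBasis j i * ∑ i', G i i' * hG.eigenvectorBasis l i' := by
      simp_rw [Finset.sum_mul_sum, Finset.mul_sum]
      rw [Finset.sum_comm]
      refine Finset.sum_congr rfl fun i _ => ?_
      rw [Finset.sum_comm]
      refine Finset.sum_congr rfl fun i' _ => ?_
      simp only [G, of_apply, Finset.sum_mul, Finset.mul_sum]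
      refine Finset.sum_congr rfl fun σ _ => by ring
    rw [this]
    simp_rw [eig_app hG]
    have h2 := eig_row hG j l
    rw [if_neg hjl] at h2
    calc _ = hG.eigenvalues l * ∑ i, hG.eigenvectorBasis j i * hG.eigenvectorBasis l i := by
          rw [Finset.mul_sum]; exact Finset.sum_congr rfl fun i _ => by ring
      _ = 0 := by rw [h2, mul_zero]
  · intro P hP y
    have h1 := hP (fun i => ∑ j, hG.eigenvectorBasis j i * y j)
    have h2 := sum_sq_of_col (fun i j => hG.eigenvectorBasis j i) (eig_row hG) y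
    rw [h2] at h1
    refine le_trans (le_of_eq ?_) h1
    refine Finset.sum_congr rfl fun σ _ => ?_
    congr 1
    simp_rw [Finset.mul_sum, Finset.sum_mul]
    rw [Finset.sum_comm]
    refine Finset.sum_congr rfl fun i _ => Finset.sum_congr rfl fun j _ => by ring
  · intro ι A c g
    rw [← sum_sq_of_col (fun j i => hG.eigenvectorBasis j i) (eig_col hG)
      (fun j => ∑ x ∈ A, c x * u j (g x))]
    refine Finset.sum_congr rfl fun j _ => ?_
    congr 1
    simp_rw [Finset.mul_sum]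
    rw [Finset.sum_comm]
    refine Finset.sum_congr rfl fun i _ => Finset.sum_congr rfl fun x _ => by ring

lemma tr_eq_of {u u' : J → β → ℝ}
    (h : ∀ (ι : Type) (A : Finset ι) (c : ι → ℝ) (g : ι → β),
        ∑ j, (∑ x ∈ A, c x * u' j (g x)) ^ 2 = ∑ j, (∑ x ∈ A, c x * u j (g x)) ^ 2)
    (P : Finset β) : tr P u' = tr P u := by
  unfold tr nq
  rw [Finset.sum_comm, Finset.sum_comm (s := Finset.univ)]
  refine Finset.sum_congr rfl fun σ _ => ?_
  simpa using h Unit Finset.univ (fun _ => 1) (fun _ => σ)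

end Pool.Agent.Lib.MP_468ee0_co
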