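import Pool.Agent.Lib.MP_468ee0_co.KT
import Pool.Agent.Lib.MP_468ee0_co.Ind

set_option autoImplicit false

namespace Pool.Agent.Lib.MP_468ee0_co

open Finset

lemma sum_one {α : Type} (V : Finset α) (g : Finset α → ℝ) :
    ∑ σ ∈ powersetCard 1 V, g σ = ∑ a ∈ V, g {a} := by
  rw [Finset.powersetCard_one, Finset.sum_map]; rfl

lemma D_pair {α : Type} [LinearOrder α] (w : Finset α → ℝ) {a b : α} (h : b ≠ a) :
    D w (insert a {b}) ^ 2 = (w {a} - w {b}) ^ 2 := by
  unfold D sg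
  rw [Finset.sum_pair h.symm, Finset.prod_pair h.symm, Finset.prod_pair h.symm,
    Finset.erase_insert (by simpa using h.symm), Finset.pair_comm,
    Finset.erase_insert (by simpa using h)]
  rcases lt_or_gt_of_ne h with h1 | h1
  · simp only [lt_irrefl, if_false, h1, if_true, not_lt.2 h1.le]; ring
  · simp only [lt_irrefl, if_false, h1, if_true, not_lt.2 h1.le]; ring

lemma apx_one : Apx 1 (1 / 2) (1 / 2) := by
  intro α _ J _ V X u hX hu
  have hz : Bes Finset.univ (fun j (a : {x // x ∈ V}) => u j {a.1}) := by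
    intro y
    have := hu y
    rw [sum_one, ← Finset.sum_coe_sort] at this
    exact this
  have ht : tr Finset.univ (fun j (a : {x // x ∈ V}) => u j {a.1}) = tr (powersetCard 1 V) u := by
    unfold tr nq
    refine Finset.sum_congr rfl fun j _ => ?_
    rw [sum_one, ← Finset.sum_coe_sort V]
  have h := kt _ hz
  rw [ht] at h
  set g : Finset α → ℝ := fun τ => max (∑ j, D (u j) τ ^ 2 - 1) 0 with hg
  have h1 : F X u ≤ ∑ τ ∈ powersetCard 2 V, g τ :=
    le_trans (Finset.sum_le_sum fun τ _ => le_max_left _ _)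
      (Finset.sum_le_sum_of_subset_of_nonneg hX fun τ _ _ => le_max_right _ _)
  have h2 : 2 * ∑ τ ∈ powersetCard 2 V, g τ = ∑ a ∈ V, ∑ b ∈ V.erase a, g (insert a {b}) := by
    have e1 := sum_del (subset_refl (powersetCard 2 V)) g
    simp_rw [del_full] at e1
    have e2 : ∑ a ∈ V, ∑ τ ∈ powersetCard 2 V, g τ
        = ∑ a ∈ V, (∑ b ∈ V.erase a, g (insert a {b}) + ∑ τ ∈ powersetCard 2 (V.erase a), g τ) :=
      Finset.sum_congr rfl fun a ha => by rw [sum_split_full 1 ha, sum_one]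
    rw [Finset.sum_add_distrib, e1, Finset.sum_const, nsmul_eq_mul] at e2
    push_cast at e2
    linarith
  have h3 : ∑ a ∈ V, ∑ b ∈ V.erase a, g (insert a {b})
      ≤ ∑ a ∈ V, ∑ b ∈ V, max (∑ j, (u j {a} - u j {b}) ^ 2 - 1) 0 := by
    refine Finset.sum_le_sum fun a _ => le_trans (le_of_eq ?_)
      (Finset.sum_le_sum_of_subset_of_nonneg (Finset.erase_subset a V)
        fun b _ _ => le_max_right _ _)
    refine Finset.sum_congr rfl fun b hb => ?_
    simp only [hg]
    simp_rw [D_pair _ (Finset.ne_of_mem_erase hb)]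
  rw [← Finset.sum_coe_sort V (fun a => ∑ b ∈ V, max (∑ j, (u j {a} - u j {b}) ^ 2 - 1) 0)] at h3
  simp_rw [← Finset.sum_coe_sort V] at h3
  rw [← Finset.sum_coe_sort V] at h2
  linarith

lemma sg_eq {α : Type} [LinearOrder α] (x : α) (τ : Finset α) :
    sg x τ = (-1) ^ (τ.filter fun w => w < x).card := by
  unfold sg
  rw [Finset.prod_ite]; simp

theorem main (r : ℕ) (hr : 1 ≤ r) : ∃ k0 : ℕ, ∀ (n : ℕ) (X : Finset (Finset (Fin n))),
    (∀ s ∈ X, ∀ t : Finset (Fin n), t ⊆ s → t.Nonempty → t ∈ X) →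
    ∀ S : Finset {σ : Finset (Fin n) // σ ∈ X ∧ σ.card = r}, k0 ≤ S.card →
      ∑ i ∈ S, (Matrix.isHermitian_mul_conjTranspose_self
        (Matrix.of (fun (σ : {σ : Finset (Fin n) // σ ∈ X ∧ σ.card = r})
            (τ : {τ : Finset (Fin n) // τ ∈ X ∧ τ.card = r + 1}) =>
            if σ.1 ⊆ τ.1 then
              ((-1 : ℝ) ^ (∑ v ∈ τ.1 \ σ.1, (τ.1.filter (fun w => w < v)).card))
            else 0))).eigenvalues i
      ≤ ((X.filter (fun s => s.card = r + 1)).card : ℝ)
          + ((S.card.choose 2 : ℕ) : ℝ) + (r : ℝ) * (S.card : ℝ) := by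
  obtain ⟨m, rfl⟩ : ∃ m, r = m + 1 := ⟨r - 1, by omega⟩
  obtain ⟨-, -, -, k0, hk0⟩ := all_dims apx_one m
  refine ⟨k0, fun n X hX S hS => ?_⟩
  set B := (Matrix.of (fun (σ : {σ : Finset (Fin n) // σ ∈ X ∧ σ.card = m + 1})
            (τ : {τ : Finset (Fin n) // τ ∈ X ∧ τ.card = m + 1 + 1}) =>
            if σ.1 ⊆ τ.1 then
              ((-1 : ℝ) ^ (∑ v ∈ τ.1 \ σ.1, (τ.1.filter (fun w => w < v)).card))
            else 0)) with hB
  set hH := Matrix.isHermitian_mul_conjTranspose_self B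
  let ext : ({σ : Finset (Fin n) // σ ∈ X ∧ σ.card = m + 1} → ℝ) → Finset (Fin n) → ℝ :=
    fun e σ => if h : σ ∈ X ∧ σ.card = m + 1 then e ⟨σ, h⟩ else 0
  have hsum : ∀ (g : Finset (Fin n) → ℝ), (∀ σ, ¬ (σ ∈ X ∧ σ.card = m + 1) → g σ = 0) →
      ∑ σ ∈ powersetCard (m + 1) Finset.univ, g σ
        = ∑ σ : {σ : Finset (Fin n) // σ ∈ X ∧ σ.card = m + 1}, g σ := by
    intro g hg
    rw [← Finset.sum_subtype (X.filter fun σ => σ.card = m + 1) (fun σ => Finset.mem_filter) g]
    symm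
    refine Finset.sum_subset (fun σ hσ => ?_) (fun σ _ hσ => hg σ ?_)
    · rw [Finset.mem_powersetCard]
      exact ⟨Finset.subset_univ _, (Finset.mem_filter.1 hσ).2⟩
    · rwa [Finset.mem_filter] at hσ
  let u : {i // i ∈ S} → Finset (Fin n) → ℝ := fun i => ext (hH.eigenvectorBasis i.1)
  have hu0 : ∀ i σ, ¬ (σ ∈ X ∧ σ.card = m + 1) → u i σ = 0 := fun i σ h => dif_neg h
  have hu1 : ∀ i (σ : {σ : Finset (Fin n) // σ ∈ X ∧ σ.card = m + 1}),
      u i σ = hH.eigenvectorBasis i.1 σ := fun i σ => dif_pos σ.2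
  have hip : ∀ i j, ∑ σ ∈ powersetCard (m + 1) Finset.univ, u i σ * u j σ
      = if i.1 = j.1 then 1 else 0 := by
    intro i j
    rw [hsum _ (fun σ h => by rw [hu0 i σ h, zero_mul])]
    simp_rw [hu1]
    exact eig_row hH i.1 j.1
  have hnq : ∀ i, nq (powersetCard (m + 1) Finset.univ) (u i) = 1 := fun i => by
    have := hip i i
    rw [if_pos rfl] at this
    simpa only [nq, sq] using this
  have hO : Orth (powersetCard (m + 1) Finset.univ) u := fun i j hij => by
    rw [hip, if_neg (fun h => hij (Subtype.ext h))]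
  have hBes : Bes (powersetCard (m + 1) Finset.univ) u := fun y => by
    rw [hO.sum_sq]; simp [hnq]
  have htr : tr (powersetCard (m + 1) Finset.univ) u = S.card := by
    simp [tr, hnq]
  have h := hk0 S.card hS (Fin n) {i // i ∈ S} Finset.univ (X.filter fun s => s.card = m + 1 + 1) u
    (by simp) (fun τ hτ => by
      rw [Finset.mem_powersetCard]
      exact ⟨Finset.subset_univ _, (Finset.mem_filter.1 hτ).2⟩) hBes
  have hD : ∀ (e : {σ : Finset (Fin n) // σ ∈ X ∧ σ.card = m + 1} → ℝ)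
      (τ : {τ : Finset (Fin n) // τ ∈ X ∧ τ.card = m + 1 + 1}),
      ∑ σ, e σ * B σ τ = D (ext e) τ.1 := by
    intro e τ
    have e1 : ∑ σ, e σ * B σ τ = ∑ σ ∈ powersetCard (m + 1) Finset.univ, ext e σ *
        (if σ ⊆ τ.1 then ((-1 : ℝ) ^ (∑ v ∈ τ.1 \ σ, (τ.1.filter (fun w => w < v)).card))
          else 0) := by
      rw [hsum _ (fun σ h => by simp only [ext, dif_neg h, zero_mul])]
      refine Finset.sum_congr rfl fun σ _ => ?_
      simp only [ext, dif_pos σ.2, hB, Matrix.of_apply]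
    rw [e1]
    simp_rw [mul_ite, mul_zero]
    rw [← Finset.sum_filter]
    unfold D
    symm
    refine Finset.sum_bij (fun x _ => τ.1.erase x) (fun x hx => ?_) (fun x hx y hy hxy => ?_)
      (fun σ hσ => ?_) (fun x hx => ?_)
    · rw [Finset.mem_filter, Finset.mem_powersetCard, Finset.card_erase_of_mem hx, τ.2.2]
      exact ⟨⟨Finset.subset_univ _, rfl⟩, Finset.erase_subset _ _⟩
    · exact Finset.erase_injOn _ hx hy hxy
    · rw [Finset.mem_filter, Finset.mem_powersetCard] at hσ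
      have hc : (τ.1 \ σ).card = 1 := by
        rw [Finset.card_sdiff_of_subset hσ.2, τ.2.2, hσ.1.2]; omega
      obtain ⟨x, hx⟩ := Finset.card_eq_one.1 hc
      have hx' : x ∈ τ.1 \ σ := by rw [hx]; exact Finset.mem_singleton_self x
      refine ⟨x, (Finset.mem_sdiff.1 hx').1, ?_⟩
      rw [Finset.erase_eq, ← hx, Finset.sdiff_sdiff_eq_self hσ.2]
    · rw [Finset.sdiff_erase_self hx, Finset.sum_singleton, sg_eq, mul_comm]
  have hE : ∀ i : {i // i ∈ S}, hH.eigenvalues i.1
      = ∑ τ ∈ X.filter (fun s => s.card = m + 1 + 1), D (u i) τ ^ 2 := by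
    intro i
    rw [Finset.sum_subtype (X.filter fun σ => σ.card = m + 1 + 1) (fun σ => Finset.mem_filter)
      (fun τ => D (u i) τ ^ 2)]
    simp only [u]
    simp_rw [← hD]
    have q1 := quad_eq hH (fun σ => hH.eigenvectorBasis i.1 σ)
    simp_rw [eig_row hH] at q1
    simp only [ite_pow, one_pow, mul_ite, mul_one, ne_eq, OfNat.ofNat_ne_zero, not_false_eq_true,
      zero_pow, mul_zero, Finset.sum_ite_eq', Finset.mem_univ, if_true] at q1
    rw [← q1]
    simp_rw [sq, Finset.sum_mul_sum, Matrix.mul_apply, Matrix.conjTranspose_apply, star_trivial,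
      Finset.mul_sum, Finset.sum_mul]
    rw [Finset.sum_comm (s := (Finset.univ : Finset {τ : Finset (Fin n) // τ ∈ X ∧ τ.card = m + 1 + 1}))]
    refine Finset.sum_congr rfl fun σ _ => ?_
    rw [Finset.sum_comm]
    refine Finset.sum_congr rfl fun σ' _ => Finset.sum_congr rfl fun τ _ => by ring
  rw [← Finset.sum_coe_sort S]
  simp_rw [hE]
  rw [Finset.sum_comm]
  unfold F at h
  rw [Finset.sum_sub_distrib, Finset.sum_const, nsmul_eq_mul, mul_one, htr] at h
  rw [Nat.cast_choose_two]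
  linarith

end Pool.Agent.Lib.MP_468ee0_co
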