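import Pool.Agent.Lib.MP_468ee0_co.Lin

set_option autoImplicit false

namespace Pool.Agent.Lib.MP_468ee0_co

open Finset Matrix Filter Topology

variable {S I : Type} [Fintype S] [Fintype I]

omit [Fintype I] in
lemma sum_one_sub (a : S → I → ℝ) (i : I) :
    ∑ j, (1 - a j i) = (Fintype.card S : ℝ) - ∑ j, a j i := by
  rw [Finset.sum_sub_distrib]; simp

lemma exists_v (a : S → I → ℝ) (h0 : ∀ j i, 0 < a j i) (h1 : ∀ j i, a j i < 1) :
    ∃ (p : S → ℝ) (q : I → ℝ), (∀ j, 0 < p j) ∧ (∀ i, 0 ≤ q i) ∧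
      (∀ j, ∑ i, (1 - a j i) * q i ≤ (∑ i, a j i) * p j) ∧
      (∀ i, ∑ j, a j i * p j ≤ ((Fintype.card S : ℝ) - ∑ j, a j i) * q i) := by
  classical
  rcases isEmpty_or_nonempty I with hI | hI
  · exact ⟨fun _ => 1, fun _ => 0, fun _ => one_pos, fun _ => le_rfl, fun j => by simp,
      fun i => isEmptyElim i⟩
  rcases isEmpty_or_nonempty S with hS | hS
  · exact ⟨fun _ => 1, fun _ => 0, fun _ => one_pos, fun _ => le_rfl, fun j => isEmptyElim j,
      fun i => by simp⟩
  let K : Matrix (S ⊕ I) (S ⊕ I) ℝ := fromBlocks (diagonal fun j => ∑ i, a j i)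
    (of fun j i => -(1 - a j i)) (of fun i j => -a j i)
    (diagonal fun i => (Fintype.card S : ℝ) - ∑ j, a j i)
  have hdet : K.det = 0 := by
    rw [← Matrix.exists_vecMul_eq_zero_iff]
    refine ⟨fun _ => 1, fun h => ?_, ?_⟩
    · have := congrFun h (Sum.inr hI.some); simp at this
    · ext x
      rcases x with j | i
      · simp [K, vecMul, dotProduct, Fintype.sum_sum_type, diagonal_apply]
      · simp [K, vecMul, dotProduct, Fintype.sum_sum_type, diagonal_apply,
          Finset.sum_sub_distrib]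
  obtain ⟨v, hv0, hv⟩ := Matrix.exists_mulVec_eq_zero_iff.2 hdet
  have e1 : ∀ j, (∑ i, a j i) * v (Sum.inl j) = ∑ i, (1 - a j i) * v (Sum.inr i) := by
    intro j
    have := congrFun hv (Sum.inl j)
    simp only [K, mulVec, dotProduct, Fintype.sum_sum_type, fromBlocks_apply₁₁, fromBlocks_apply₁₂,
      diagonal_apply, of_apply, ite_mul, zero_mul, Finset.sum_ite_eq, Finset.mem_univ, if_true,
      Pi.zero_apply, neg_mul, Finset.sum_neg_distrib] at this
    linarith
  have e2 : ∀ i, ((Fintype.card S : ℝ) - ∑ j, a j i) * v (Sum.inr i)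
      = ∑ j, a j i * v (Sum.inl j) := by
    intro i
    have := congrFun hv (Sum.inr i)
    simp only [K, mulVec, dotProduct, Fintype.sum_sum_type, fromBlocks_apply₂₁, fromBlocks_apply₂₂,
      diagonal_apply, of_apply, ite_mul, zero_mul, Finset.sum_ite_eq, Finset.mem_univ, if_true,
      Pi.zero_apply, neg_mul, Finset.sum_neg_distrib] at this
    linarith
  set p : S → ℝ := fun j => |v (Sum.inl j)| with hp
  set q : I → ℝ := fun i => |v (Sum.inr i)| with hq
  have hp0 : ∀ j, 0 ≤ p j := fun j => abs_nonneg _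
  have hq0 : ∀ i, 0 ≤ q i := fun i => abs_nonneg _
  have g1 : ∀ j, 0 ≤ ∑ i, (1 - a j i) * q i - (∑ i, a j i) * p j := by
    intro j
    have hd : 0 ≤ ∑ i, a j i := Finset.sum_nonneg fun i _ => (h0 j i).le
    have : (∑ i, a j i) * p j = |∑ i, (1 - a j i) * v (Sum.inr i)| := by
      rw [← e1, abs_mul, abs_of_nonneg hd]
    rw [this, sub_nonneg]
    refine (Finset.abs_sum_le_sum_abs _ _).trans (le_of_eq ?_)
    refine Finset.sum_congr rfl fun i _ => ?_
    rw [abs_mul, abs_of_nonneg (by linarith [h1 j i])]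
  have g2 : ∀ i, 0 ≤ ∑ j, a j i * p j - ((Fintype.card S : ℝ) - ∑ j, a j i) * q i := by
    intro i
    have hd : 0 ≤ (Fintype.card S : ℝ) - ∑ j, a j i := by
      rw [← sum_one_sub]; exact Finset.sum_nonneg fun j _ => by linarith [h1 j i]
    have : ((Fintype.card S : ℝ) - ∑ j, a j i) * q i = |∑ j, a j i * v (Sum.inl j)| := by
      rw [← e2, abs_mul, abs_of_nonneg hd]
    rw [this, sub_nonneg]
    refine (Finset.abs_sum_le_sum_abs _ _).trans (le_of_eq ?_)
    refine Finset.sum_congr rfl fun j _ => ?_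
    rw [abs_mul, abs_of_nonneg (h0 j i).le]
  have tot : ∑ j, (∑ i, (1 - a j i) * q i - (∑ i, a j i) * p j)
      + ∑ i, (∑ j, a j i * p j - ((Fintype.card S : ℝ) - ∑ j, a j i) * q i) = 0 := by
    simp_rw [Finset.sum_sub_distrib, ← sum_one_sub, Finset.sum_mul]
    rw [Finset.sum_comm (s := Finset.univ) (t := Finset.univ) (f := fun j i => (1 - a j i) * q i),
      Finset.sum_comm (s := Finset.univ) (t := Finset.univ) (f := fun j i => a j i * p j)]
    ring
  have s1 := Finset.sum_nonneg (s := Finset.univ) fun j _ => g1 j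
  have s2 := Finset.sum_nonneg (s := Finset.univ) fun i _ => g2 i
  have z1 := (Finset.sum_eq_zero_iff_of_nonneg fun j _ => g1 j).1 (by linarith)
  have z2 := (Finset.sum_eq_zero_iff_of_nonneg fun i _ => g2 i).1 (by linarith)
  refine ⟨p, q, fun j => ?_, hq0, fun j => by linarith [z1 j (Finset.mem_univ _)],
    fun i => by linarith [z2 i (Finset.mem_univ _)]⟩
  refine lt_of_le_of_ne (hp0 j) fun hj => hv0 ?_
  have hq' : ∀ i, q i = 0 := by
    intro i
    have h := z1 j (Finset.mem_univ _)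
    rw [← hj, mul_zero, sub_zero] at h
    have := (Finset.sum_eq_zero_iff_of_nonneg fun i _ =>
      mul_nonneg (by linarith [h1 j i]) (hq0 i)).1 h i (Finset.mem_univ _)
    rcases mul_eq_zero.1 this with h | h
    · linarith [h1 j i]
    · exact h
  have hp' : ∀ l, p l = 0 := by
    intro l
    obtain ⟨i⟩ := hI
    have h := z2 i (Finset.mem_univ _)
    rw [hq' i, mul_zero, sub_zero] at h
    have := (Finset.sum_eq_zero_iff_of_nonneg fun j _ =>
      mul_nonneg (h0 j i).le (hp0 j)).1 h l (Finset.mem_univ _)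
    rcases mul_eq_zero.1 this with h | h
    · linarith [h0 l i]
    · exact h
  ext x
  rcases x with l | i
  · exact abs_eq_zero.1 (hp' l)
  · exact abs_eq_zero.1 (hq' i)

/-- right-hand side of the Riccati equation -/
def ric (a : S → I → ℝ) (U : I → S → ℝ) (i : I) (j : S) : ℝ :=
  a j i + (∑ l, a l i) * U i j + ∑ l, U i l * ∑ m, (1 - a l m) * U m j

lemma exists_U (a : S → I → ℝ) (h0 : ∀ j i, 0 ≤ a j i) (h1 : ∀ j i, a j i ≤ 1)
    (p : S → ℝ) (q : I → ℝ) (hp : ∀ j, 0 ≤ p j) (hq : ∀ i, 0 ≤ q i)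
    (e1 : ∀ j, ∑ i, (1 - a j i) * q i ≤ (∑ i, a j i) * p j)
    (e2 : ∀ i, ∑ j, a j i * p j ≤ ((Fintype.card S : ℝ) - ∑ j, a j i) * q i) :
    ∃ U : I → S → ℝ, (∀ i j, 0 ≤ U i j) ∧ (∀ j, ∑ i, U i j ≤ 1) ∧
      (∀ i, ∑ j, U i j * p j ≤ q i) ∧
      ∀ i j, U i j * (Fintype.card S + ∑ m, a j m) = ric a U i j := by
  set N : ℝ := (Fintype.card S : ℝ) with hN
  have hN1 : ∀ _j : S, 1 ≤ N := fun j => by
    have : 0 < Fintype.card S := Fintype.card_pos_iff.2 ⟨j⟩
    rw [hN]; exact_mod_cast this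
  have hd : ∀ j, 0 ≤ ∑ m, a j m := fun j => Finset.sum_nonneg fun m _ => h0 j m
  have hf : ∀ i, 0 ≤ ∑ l, a l i := fun i => Finset.sum_nonneg fun l _ => h0 l i
  have hden : ∀ j, 0 < N + ∑ m, a j m := fun j => by linarith [hN1 j, hd j]
  have ha' : ∀ j i, 0 ≤ 1 - a j i := fun j i => sub_nonneg.2 (h1 j i)
  let Φ : (I → S → ℝ) → I → S → ℝ := fun U i j => ric a U i j / (N + ∑ m, a j m)
  have hΦ : ∀ U i j, Φ U i j * (N + ∑ m, a j m) = ric a U i j := fun U i j =>
    div_mul_cancel₀ _ (hden j).ne'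
  have mono : ∀ U W : I → S → ℝ, (∀ i j, 0 ≤ U i j) → (∀ i j, U i j ≤ W i j) →
      ∀ i j, Φ U i j ≤ Φ W i j := by
    intro U W hU hUW i j
    refine div_le_div_of_nonneg_right ?_ (hden j).le
    unfold ric
    refine add_le_add (add_le_add le_rfl (mul_le_mul_of_nonneg_left (hUW i j) (hf i))) ?_
    refine Finset.sum_le_sum fun l _ => mul_le_mul (hUW i l) ?_ ?_ ((hU i l).trans (hUW i l))
    · exact Finset.sum_le_sum fun m _ => mul_le_mul_of_nonneg_left (hUW m j) (ha' l m)
    · exact Finset.sum_nonneg fun m _ => mul_nonneg (ha' l m) (hU m j)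
  let good : (I → S → ℝ) → Prop := fun U => (∀ i j, 0 ≤ U i j) ∧ (∀ i j, U i j ≤ Φ U i j) ∧
    (∀ j, ∑ i, U i j ≤ 1) ∧ (∀ i, ∑ j, U i j * p j ≤ q i)
  have good0 : good (fun _ _ => 0) := by
    refine ⟨fun _ _ => le_rfl, fun i j => div_nonneg ?_ (hden j).le, fun j => by simp,
      fun i => by simpa using hq i⟩
    simpa [ric] using h0 j i
  have goodS : ∀ U, good U → good (Φ U) := by
    rintro U ⟨u0, u1, u2, u3⟩
    refine ⟨fun i j => (u0 i j).trans (u1 i j), mono _ _ u0 u1, fun j => ?_, fun i => ?_⟩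
    · refine le_of_mul_le_mul_right ?_ (hden j)
      rw [Finset.sum_mul]
      simp_rw [hΦ]
      unfold ric
      rw [Finset.sum_add_distrib, Finset.sum_add_distrib, Finset.sum_comm]
      have b1 : ∑ l, ∑ i, U i l * ∑ m, (1 - a l m) * U m j ≤ ∑ l, ∑ m, (1 - a l m) * U m j := by
        refine Finset.sum_le_sum fun l _ => ?_
        rw [← Finset.sum_mul]
        exact mul_le_of_le_one_left
          (Finset.sum_nonneg fun m _ => mul_nonneg (ha' l m) (u0 m j)) (u2 l)
      have b2 : ∑ l, ∑ m, (1 - a l m) * U m j = N * ∑ m, U m j - ∑ m, (∑ l, a l m) * U m j := by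
        rw [Finset.sum_comm, Finset.mul_sum, ← Finset.sum_sub_distrib]
        refine Finset.sum_congr rfl fun m _ => ?_
        rw [← Finset.sum_mul, sum_one_sub]; ring
      have b3 := mul_le_mul_of_nonneg_left (u2 j) (by linarith [hN1 j] : 0 ≤ N)
      linarith
    · rcases isEmpty_or_nonempty S with hS | hS
      · simpa using hq i
      have hN0 : 0 < N := by linarith [hN1 hS.some]
      refine le_of_mul_le_mul_left ?_ hN0
      have c1 : ∑ j, ric a U i j * p j
          = N * ∑ j, Φ U i j * p j + ∑ j, Φ U i j * ((∑ m, a j m) * p j) := by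
        rw [Finset.mul_sum, ← Finset.sum_add_distrib]
        refine Finset.sum_congr rfl fun j _ => ?_
        rw [← hΦ]; ring
      have c2 : ∑ j, ric a U i j * p j = ∑ j, a j i * p j + (∑ l, a l i) * ∑ j, U i j * p j
          + ∑ l, U i l * ∑ m, (1 - a l m) * ∑ j, U m j * p j := by
        unfold ric
        simp_rw [add_mul]
        rw [Finset.sum_add_distrib, Finset.sum_add_distrib, Finset.mul_sum]
        congr 1
        · congr 1
          exact Finset.sum_congr rfl fun j _ => by ring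
        · simp_rw [Finset.sum_mul, Finset.mul_sum, Finset.sum_mul]
          rw [Finset.sum_comm]
          refine Finset.sum_congr rfl fun l _ => ?_
          rw [Finset.sum_comm]
          refine Finset.sum_congr rfl fun m _ => Finset.sum_congr rfl fun j _ => by ring
      have c3 : ∑ l, U i l * ∑ m, (1 - a l m) * ∑ j, U m j * p j
          ≤ ∑ j, Φ U i j * ((∑ m, a j m) * p j) := by
        refine Finset.sum_le_sum fun l _ => mul_le_mul (u1 i l) (le_trans ?_ (e1 l)) ?_
          ((u0 i l).trans (u1 i l))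
        · exact Finset.sum_le_sum fun m _ => mul_le_mul_of_nonneg_left (u3 m) (ha' l m)
        · exact Finset.sum_nonneg fun m _ => mul_nonneg (ha' l m)
            (Finset.sum_nonneg fun j _ => mul_nonneg (u0 m j) (hp j))
      have c4 := mul_le_mul_of_nonneg_left (u3 i) (hf i)
      have c5 := e2 i
      linarith
  let Us : ℕ → I → S → ℝ := fun n => Φ^[n] (fun _ _ => 0)
  have hUs : ∀ n, Us (n + 1) = Φ (Us n) := fun n => Function.iterate_succ_apply' _ _ _
  have hg : ∀ n, good (Us n) := by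
    intro n
    induction n with
    | zero => exact good0
    | succ n ih => rw [hUs]; exact goodS _ ih
  have hlim : ∀ i j, Tendsto (fun n => Us n i j) atTop (𝓝 (⨆ n, Us n i j)) := by
    intro i j
    refine tendsto_atTop_ciSup (monotone_nat_of_le_succ fun n => ?_) ⟨1, ?_⟩
    · rw [hUs]; exact (hg n).2.1 i j
    · rintro _ ⟨n, rfl⟩
      exact le_trans (Finset.single_le_sum (f := fun i => Us n i j)
        (fun i _ => (hg n).1 i j) (Finset.mem_univ i)) ((hg n).2.2.1 j)
  refine ⟨fun i j => ⨆ n, Us n i j, fun i j => ge_of_tendsto' (hlim i j) fun n => (hg n).1 i j,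
    fun j => le_of_tendsto' (tendsto_finsetSum _ fun i _ => hlim i j) fun n => (hg n).2.2.1 j,
    fun i => le_of_tendsto' (tendsto_finsetSum _ fun j _ => (hlim i j).mul_const _)
      fun n => (hg n).2.2.2 i, fun i j => ?_⟩
  have t1 : Tendsto (fun n => Us (n + 1) i j * (N + ∑ m, a j m)) atTop
      (𝓝 ((⨆ n, Us n i j) * (N + ∑ m, a j m))) :=
    ((hlim i j).comp (tendsto_add_atTop_nat 1)).mul_const _
  have t2 : Tendsto (fun n => ric a (Us n) i j) atTop (𝓝 (ric a (fun i j => ⨆ n, Us n i j) i j)) := by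
    unfold ric
    exact (tendsto_const_nhds.add ((hlim i j).const_mul _)).add
      (tendsto_finsetSum _ fun l _ => (hlim i l).mul
        (tendsto_finsetSum _ fun m _ => (hlim m j).const_mul _))
  simp_rw [hUs, hΦ] at t1
  exact tendsto_nhds_unique t1 t2

end Pool.Agent.Lib.MP_468ee0_co
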