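import Pool.Agent.Lib.MP_468ee0_co.Cx

set_option autoImplicit false
set_option linter.unusedSectionVars false

namespace Pool.Agent.Lib.MP_468ee0_co

open Finset

/-- filter with the classical decision procedure -/
noncomputable def fl {β : Type} (T : Finset β) (p : β → Prop) : Finset β :=
  @Finset.filter β p (Classical.decPred p) T

@[simp] lemma mem_fl {β : Type} {T : Finset β} {p : β → Prop} {x : β} :
    x ∈ fl T p ↔ x ∈ T ∧ p x := by
  unfold fl; exact @Finset.mem_filter β p (Classical.decPred p) T x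

lemma fl_subset {β : Type} (T : Finset β) (p : β → Prop) : fl T p ⊆ T :=
  fun _ hx => (mem_fl.1 hx).1

open Classical in
lemma sum_fl {β : Type} (T : Finset β) (p : β → Prop) (f : β → ℝ) :
    ∑ t ∈ fl T p, f t = ∑ t ∈ T, if p t then f t else 0 := by
  unfold fl
  rw [Finset.sum_filter]

/-- number of elements of `T` with property `p`, as a real number -/
noncomputable def cn {β : Type} (T : Finset β) (p : β → Prop) : ℝ := ((fl T p).card : ℝ)

lemma cn_nonneg {β : Type} (T : Finset β) (p : β → Prop) : 0 ≤ cn T p := Nat.cast_nonneg _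

lemma cn_eq_sum {β : Type} (T : Finset β) (p : β → Prop) : cn T p = ∑ _t ∈ fl T p, (1 : ℝ) := by
  simp [cn]

lemma cn_le_card {β : Type} (T : Finset β) (p : β → Prop) : cn T p ≤ T.card := by
  unfold cn; exact_mod_cast Finset.card_le_card (fl_subset T p)

lemma cn_le_of_sub {β : Type} {T : Finset β} {p : β → Prop} {Y : Finset β}
    (h : ∀ x ∈ T, p x → x ∈ Y) : cn T p ≤ Y.card := by
  unfold cn
  exact_mod_cast Finset.card_le_card fun x hx => h x (mem_fl.1 hx).1 (mem_fl.1 hx).2

lemma cn_mono {β : Type} {T Y : Finset β} {p q : β → Prop}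
    (h : ∀ x ∈ T, p x → x ∈ Y ∧ q x) : cn T p ≤ cn Y q :=
  cn_le_of_sub fun x hx hp => mem_fl.2 (h x hx hp)

lemma cn_le_of_inj {β γ : Type} {T : Finset β} {p : β → Prop} {Y : Finset γ} (g : β → γ)
    (h : ∀ x ∈ T, p x → g x ∈ Y)
    (hi : ∀ x ∈ T, ∀ x' ∈ T, p x → p x' → g x = g x' → x = x') : cn T p ≤ Y.card := by
  unfold cn
  exact_mod_cast Finset.card_le_card_of_injOn g
    (fun x hx => h x (mem_fl.1 hx).1 (mem_fl.1 hx).2)
    (fun x hx x' hx' e => hi x (mem_fl.1 hx).1 x' (mem_fl.1 hx').1 (mem_fl.1 hx).2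
      (mem_fl.1 hx').2 e)

lemma cn_le_one {β : Type} {T : Finset β} {p : β → Prop}
    (hi : ∀ x ∈ T, ∀ x' ∈ T, p x → p x' → x = x') : cn T p ≤ 1 := by
  have := cn_le_of_inj (T := T) (p := p) (Y := ({()} : Finset Unit)) (fun _ => ())
    (fun _ _ _ => Finset.mem_singleton_self _) (fun x hx x' hx' h h' _ => hi x hx x' hx' h h')
  simpa using this

lemma cn_eq_zero {β : Type} {T : Finset β} {p : β → Prop} (h : ∀ x ∈ T, ¬ p x) : cn T p = 0 := by
  have : fl T p = ∅ := Finset.eq_empty_of_forall_notMem fun x hx => h x (mem_fl.1 hx).1 (mem_fl.1 hx).2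
  simp [cn, this]

lemma cn_or_le {β : Type} {T : Finset β} {p q r : β → Prop} (h : ∀ x ∈ T, p x → q x ∨ r x) :
    cn T p ≤ cn T q + cn T r := by
  classical
  unfold cn
  have : fl T p ⊆ fl T q ∪ fl T r := fun x hx => by
    rw [Finset.mem_union, mem_fl, mem_fl]
    rcases h x (mem_fl.1 hx).1 (mem_fl.1 hx).2 with h1 | h1
    · exact Or.inl ⟨(mem_fl.1 hx).1, h1⟩
    · exact Or.inr ⟨(mem_fl.1 hx).1, h1⟩
  exact_mod_cast (Finset.card_le_card this).trans (Finset.card_union_le _ _)

/-- union bound -/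
lemma cn_le_sum {β γ : Type} {T : Finset β} {p : β → Prop} (Y : Finset γ) (q : γ → β → Prop)
    (h : ∀ x ∈ T, p x → ∃ c ∈ Y, q c x) : cn T p ≤ ∑ c ∈ Y, cn T (q c) := by
  classical
  unfold cn
  have : fl T p ⊆ Y.biUnion fun c => fl T (q c) := fun x hx => by
    obtain ⟨c, hc, hq⟩ := h x (mem_fl.1 hx).1 (mem_fl.1 hx).2
    exact Finset.mem_biUnion.2 ⟨c, hc, mem_fl.2 ⟨(mem_fl.1 hx).1, hq⟩⟩
  exact_mod_cast (Finset.card_le_card this).trans Finset.card_biUnion_le

lemma cn_le_mul {β γ : Type} {T : Finset β} {p : β → Prop} (Y : Finset γ) (q : γ → β → Prop)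
    (h : ∀ x ∈ T, p x → ∃ c ∈ Y, q c x) {B : ℝ} (hB : ∀ c ∈ Y, cn T (q c) ≤ B) :
    cn T p ≤ Y.card * B := by
  refine (cn_le_sum Y q h).trans ?_
  have := Finset.sum_le_sum hB
  simpa using this

lemma sum_fl_comm {β γ : Type} (X : Finset β) (Y : Finset γ) (r : β → γ → Prop) (f : β → γ → ℝ) :
    ∑ s ∈ X, ∑ t ∈ fl Y (r s), f s t = ∑ t ∈ Y, ∑ s ∈ fl X (fun s => r s t), f s t := by
  simp_rw [sum_fl]
  exact Finset.sum_comm

lemma sum_cn_comm {β γ : Type} (X : Finset β) (Y : Finset γ) (r : β → γ → Prop) :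
    ∑ s ∈ X, cn Y (r s) = ∑ t ∈ Y, cn X (fun s => r s t) := by
  simp_rw [cn_eq_sum]
  exact sum_fl_comm X Y r fun _ _ => 1

lemma cn_add_not {β : Type} (T : Finset β) (p : β → Prop) :
    cn T p + cn T (fun x => ¬ p x) = T.card := by
  rw [cn_eq_sum, cn_eq_sum, sum_fl, sum_fl, ← Finset.sum_add_distrib]
  rw [Finset.card_eq_sum_ones]
  push_cast
  refine Finset.sum_congr rfl fun x _ => ?_
  by_cases h : p x <;> simp [h]

lemma sum_fl_add_not {β : Type} (T : Finset β) (p : β → Prop) (f : β → ℝ) :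
    ∑ t ∈ fl T p, f t + ∑ t ∈ fl T (fun x => ¬ p x), f t = ∑ t ∈ T, f t := by
  rw [sum_fl, sum_fl, ← Finset.sum_add_distrib]
  refine Finset.sum_congr rfl fun x _ => ?_
  by_cases h : p x <;> simp [h]

variable {α : Type} [LinearOrder α]

/-- incidence sign of the set `t` with its subset `ρ` -/
noncomputable def si (t ρ : Finset α) : ℝ := ∏ x ∈ t \ ρ, sg x t

/-- sign of the pair of adjacent sets -/
noncomputable def aa (s t : Finset α) : ℝ := si s (s ∩ t) * si t (s ∩ t)

/-- adjacency in the Johnson graph -/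
def Adj (s t : Finset α) : Prop := s.card = t.card ∧ (s ∩ t).card + 1 = s.card

lemma si_sq (t ρ : Finset α) : si t ρ ^ 2 = 1 := by
  unfold si
  rw [← Finset.prod_pow]
  exact Finset.prod_eq_one fun x _ => sg_sq x t

lemma si_mul_self (t ρ : Finset α) : si t ρ * si t ρ = 1 := by rw [← sq, si_sq]

lemma aa_sq (s t : Finset α) : aa s t ^ 2 = 1 := by
  unfold aa; rw [mul_pow, si_sq, si_sq, mul_one]

lemma abs_of_sq_one {x : ℝ} (h : x ^ 2 = 1) : |x| = 1 := by
  have h1 : |x| ^ 2 = 1 := by rw [sq_abs, h]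
  have h2 := abs_nonneg x
  nlinarith

lemma abs_aa (s t : Finset α) : |aa s t| = 1 := abs_of_sq_one (aa_sq s t)

lemma aa_symm (s t : Finset α) : aa s t = aa t s := by
  unfold aa; rw [Finset.inter_comm t s, mul_comm]

lemma Adj.symm {s t : Finset α} (h : Adj s t) : Adj t s :=
  ⟨h.1.symm, by rw [Finset.inter_comm, h.2, h.1]⟩

lemma Adj.ne {s t : Finset α} (h : Adj s t) : s ≠ t := by
  rintro rfl
  have := h.2
  rw [Finset.inter_self] at this
  omega

lemma Adj.card_union {s t : Finset α} (h : Adj s t) : (s ∪ t).card = s.card + 1 := by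
  have := Finset.card_union_add_card_inter s t
  have h1 := h.1
  have h2 := h.2
  omega

lemma inter_lt {s t : Finset α} (hc : s.card = t.card) (hne : s ≠ t) : (s ∩ t).card < s.card := by
  refine Finset.card_lt_card ⟨Finset.inter_subset_left, fun h => hne ?_⟩
  exact Finset.eq_of_subset_of_card_le (h.trans Finset.inter_subset_right) hc.ge

lemma adj_of_row {s t ρ : Finset α} (hs : s.card = ρ.card + 1) (ht : t.card = ρ.card + 1)
    (h1 : ρ ⊆ s) (h2 : ρ ⊆ t) (hne : s ≠ t) : Adj s t ∧ s ∩ t = ρ := by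
  have h3 := inter_lt (hs.trans ht.symm) hne
  have h4 : ρ ⊆ s ∩ t := Finset.subset_inter h1 h2
  have h5 := Finset.card_le_card h4
  exact ⟨⟨hs.trans ht.symm, by omega⟩, (Finset.eq_of_subset_of_card_le h4 (by omega)).symm⟩

lemma adj_of_col {s t γ : Finset α} (hs : γ.card = s.card + 1) (ht : γ.card = t.card + 1)
    (h1 : s ⊆ γ) (h2 : t ⊆ γ) (hne : s ≠ t) : Adj s t ∧ s ∪ t = γ := by
  have hc : s.card = t.card := by omega
  have h3 := inter_lt hc hne
  have h4 : s ∪ t ⊆ γ := Finset.union_subset h1 h2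
  have h5 := Finset.card_le_card h4
  have h6 := Finset.card_union_add_card_inter s t
  exact ⟨⟨hc, by omega⟩, Finset.eq_of_subset_of_card_le h4 (by omega)⟩

lemma eq_union_of {a η t : Finset α} (h1 : a ⊆ t) (h2 : η ⊆ t) (h3 : ¬ η ⊆ a)
    (hc : t.card = a.card + 1) : t = a ∪ η := by
  have h4 : a ⊂ a ∪ η := ⟨Finset.subset_union_left, fun h => h3 (Finset.subset_union_right.trans h)⟩
  have h5 := Finset.card_lt_card h4
  exact (Finset.eq_of_subset_of_card_le (Finset.union_subset h1 h2) (by omega)).symm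

lemma eq_inter_of {γ δ t : Finset α} (h1 : t ⊆ γ) (h2 : t ⊆ δ) (h3 : ¬ γ ⊆ δ)
    (hc : γ.card = t.card + 1) : t = γ ∩ δ := by
  have h4 : γ ∩ δ ⊂ γ := ⟨Finset.inter_subset_left, fun h => h3 (h.trans Finset.inter_subset_right)⟩
  have h5 := Finset.card_lt_card h4
  exact Finset.eq_of_subset_of_card_le (Finset.subset_inter h1 h2) (by omega)

lemma not_sub_of_ne {a b : Finset α} (hc : a.card = b.card) (hne : a ≠ b) : ¬ a ⊆ b :=
  fun h => hne (Finset.eq_of_subset_of_card_le h hc.ge)

lemma exists_erase {t γ : Finset α} (h : t ⊆ γ) (hc : γ.card = t.card + 1) :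
    ∃ x ∈ γ, x ∉ t ∧ t = γ.erase x ∧ γ = insert x t ∧ γ \ t = {x} := by
  have h1 : (γ \ t).card = 1 := by rw [Finset.card_sdiff_of_subset h]; omega
  obtain ⟨x, hx⟩ := Finset.card_eq_one.1 h1
  have hx' : x ∈ γ \ t := by rw [hx]; exact Finset.mem_singleton_self x
  have h2 : γ = insert x t := by
    rw [Finset.insert_eq, ← hx, Finset.sdiff_union_of_subset h]
  refine ⟨x, (Finset.mem_sdiff.1 hx').1, (Finset.mem_sdiff.1 hx').2, ?_, h2, hx⟩
  rw [h2, Finset.erase_insert (Finset.mem_sdiff.1 hx').2]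

lemma between_top (X : Finset (Finset α)) (A B : Finset α) :
    cn X (fun t => A ⊆ t ∧ t ⊆ B ∧ B.card = t.card + 1) ≤ ((B \ A).card : ℝ) := by
  classical
  refine le_trans (cn_le_of_sub (Y := (B \ A).image fun x => B.erase x) ?_) ?_
  · rintro t - ⟨h1, h2, h3⟩
    obtain ⟨x, hx, hxt, e, -, -⟩ := exists_erase h2 h3
    exact Finset.mem_image.2 ⟨x, Finset.mem_sdiff.2 ⟨hx, fun h => hxt (h1 h)⟩, e.symm⟩
  · exact_mod_cast Finset.card_image_le

lemma between_bot (X : Finset (Finset α)) (A B : Finset α) :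
    cn X (fun t => A ⊆ t ∧ t ⊆ B ∧ t.card = A.card + 1) ≤ ((B \ A).card : ℝ) := by
  classical
  refine le_trans (cn_le_of_sub (Y := (B \ A).image fun x => insert x A) ?_) ?_
  · rintro t - ⟨h1, h2, h3⟩
    obtain ⟨x, hx, hxt, -, e, -⟩ := exists_erase h1 h3
    exact Finset.mem_image.2 ⟨x, Finset.mem_sdiff.2 ⟨h2 hx, hxt⟩, e.symm⟩
  · exact_mod_cast Finset.card_image_le

/-- a set off the row `a` has at most two neighbours on it -/
lemma gm1 (X : Finset (Finset α)) {a t : Finset α} (hc : t.card = a.card + 1) (h : ¬ a ⊆ t) :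
    cn X (fun u => a ⊆ u ∧ Adj t u) ≤ 2 := by
  by_cases hne : ∃ u, a ⊆ u ∧ Adj t u
  · obtain ⟨u0, h1, h2⟩ := hne
    have h3 : (t \ a).card ≤ 2 := by
      have e1 : t \ a ⊆ (t \ u0) ∪ (u0 \ a) := fun x hx => by
        rw [Finset.mem_union, Finset.mem_sdiff, Finset.mem_sdiff]
        rw [Finset.mem_sdiff] at hx
        by_cases hxu : x ∈ u0
        · exact Or.inr ⟨hxu, hx.2⟩
        · exact Or.inl ⟨hx.1, hxu⟩
      have e2 := (Finset.card_le_card e1).trans (Finset.card_union_le _ _)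
      have e3 := Finset.card_sdiff_add_card_inter t u0
      have e4 := Finset.card_sdiff_of_subset h1
      have := h2.1
      have := h2.2
      omega
    refine le_trans (cn_mono (Y := X)
      (q := fun u => a ⊆ u ∧ u ⊆ a ∪ t ∧ u.card = a.card + 1) ?_) ?_
    · rintro u hu ⟨h4, h5⟩
      refine ⟨hu, h4, ?_, h5.1 ▸ hc⟩
      obtain ⟨x, hx, hxa, -, e, -⟩ := exists_erase h4 (h5.1 ▸ hc)
      have hxt : x ∈ t := by
        by_contra hxt
        have e5 : t ∩ u ⊆ a ∩ t := fun z hz => by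
          rw [Finset.mem_inter] at hz ⊢
          refine ⟨?_, hz.1⟩
          have := hz.2
          rw [e, Finset.mem_insert] at this
          rcases this with rfl | h6
          · exact absurd hz.1 hxt
          · exact h6
        have e6 : a ∩ t ⊂ a := ⟨Finset.inter_subset_left, fun h7 => h (h7.trans Finset.inter_subset_right)⟩
        have := Finset.card_le_card e5
        have := Finset.card_lt_card e6
        have := h5.2
        omega
      rw [e]
      exact Finset.insert_subset (Finset.mem_union_right _ hxt) Finset.subset_union_left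
    · refine (between_bot X a (a ∪ t)).trans ?_
      rw [Finset.union_sdiff_left]
      exact_mod_cast h3
  · rw [cn_eq_zero fun u _ hu => hne ⟨u, hu⟩]; norm_num

/-- a set not containing `η` has at most three neighbours containing it -/
lemma gm2 (X : Finset (Finset α)) {η t : Finset α} (hc : t.card = η.card + 2) (h : ¬ η ⊆ t) :
    cn X (fun u => η ⊆ u ∧ Adj t u) ≤ 3 := by
  by_cases hne : ∃ u, η ⊆ u ∧ Adj t u
  · obtain ⟨u0, h1, h2⟩ := hne
    have key : ∀ u, η ⊆ u → Adj t u → t ∪ u = t ∪ η := fun u h3 h4 =>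
      eq_union_of Finset.subset_union_left (h3.trans Finset.subset_union_right) h h4.card_union
    have hcard : (t ∪ η).card = t.card + 1 := by rw [← key u0 h1 h2, h2.card_union]
    refine le_trans (cn_mono (Y := X)
      (q := fun u => η ⊆ u ∧ u ⊆ t ∪ η ∧ (t ∪ η).card = u.card + 1) ?_) ?_
    · rintro u hu ⟨h3, h4⟩
      exact ⟨hu, h3, key u h3 h4 ▸ Finset.subset_union_right, by rw [hcard, h4.1]⟩
    · refine (between_top X η (t ∪ η)).trans ?_
      rw [Finset.card_sdiff_of_subset Finset.subset_union_right]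
      have : (t ∪ η).card - η.card ≤ 3 := by omega
      exact_mod_cast this
  · rw [cn_eq_zero fun u _ hu => hne ⟨u, hu⟩]; norm_num

lemma g3 {t u v : Finset α} (h1 : t ∩ u = t ∩ v) (h2 : t ∪ u = t ∪ v) : u = v := by
  ext x
  have e1 := Finset.ext_iff.1 h1 x
  have e2 := Finset.ext_iff.1 h2 x
  simp only [Finset.mem_inter, Finset.mem_union] at e1 e2
  tauto

lemma sdiff_le_two {u s v : Finset α} (h1 : Adj s u) (h2 : Adj s v) : (u \ v).card ≤ 2 := by
  have e1 : u \ v ⊆ (u \ s) ∪ (s \ v) := fun x hx => by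
    rw [Finset.mem_union, Finset.mem_sdiff, Finset.mem_sdiff]
    rw [Finset.mem_sdiff] at hx
    by_cases hxu : x ∈ s
    · exact Or.inr ⟨hxu, hx.2⟩
    · exact Or.inl ⟨hx.1, hxu⟩
  have e2 := (Finset.card_le_card e1).trans (Finset.card_union_le _ _)
  have e3 := Finset.card_sdiff_add_card_inter u s
  have e4 := Finset.card_sdiff_add_card_inter s v
  have := h1.symm.2
  have := h2.2
  omega

/-- at most four middle points of two-walks changing both row and column -/
lemma gm5 (X : Finset (Finset α)) (u v : Finset α) :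
    cn X (fun s => Adj s u ∧ Adj s v ∧ s ∩ u ≠ s ∩ v ∧ s ∪ u ≠ s ∪ v) ≤ 4 := by
  classical
  by_cases hne : ∃ s, Adj s u ∧ Adj s v
  · obtain ⟨s0, h1, h2⟩ := hne
    have a1 := sdiff_le_two h1 h2
    have a2 := sdiff_le_two h2 h1
    refine le_trans (cn_le_of_sub
      (Y := ((u \ v) ×ˢ (v \ u)).image fun p => u.erase p.1 ∪ v.erase p.2) ?_) ?_
    · rintro s - ⟨h3, h4, h5, h6⟩
      have c1 : (s ∩ u).card = (s ∩ v).card := by have := h3.2; have := h4.2; omega
      have c2 : (s ∪ u).card = (s ∪ v).card := by rw [h3.card_union, h4.card_union]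
      have b1 : s = (s ∩ u) ∪ (s ∩ v) :=
        eq_union_of Finset.inter_subset_left Finset.inter_subset_left
          (not_sub_of_ne c1.symm h5.symm) h3.2.symm
      have b2 : s = (s ∪ u) ∩ (s ∪ v) :=
        eq_inter_of Finset.subset_union_left Finset.subset_union_left
          (not_sub_of_ne c2 h6) h3.card_union
      have b3 : ∀ x, x ∈ u → x ∈ v → x ∈ s := fun x hu hv => by
        rw [b2]
        exact Finset.mem_inter.2 ⟨Finset.mem_union_right _ hu, Finset.mem_union_right _ hv⟩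
      obtain ⟨x, hx, hxs, e, -, -⟩ := exists_erase (Finset.inter_subset_right (s₁ := s) (s₂ := u))
        (by have := h3.1; have := h3.2; omega)
      obtain ⟨x', hx', hxs', e', -, -⟩ := exists_erase (Finset.inter_subset_right (s₁ := s) (s₂ := v))
        (by have := h4.1; have := h4.2; omega)
      refine Finset.mem_image.2 ⟨(x, x'), Finset.mem_product.2 ⟨Finset.mem_sdiff.2 ⟨hx, fun hv => ?_⟩,
        Finset.mem_sdiff.2 ⟨hx', fun hu => ?_⟩⟩, ?_⟩
      · exact hxs (Finset.mem_inter.2 ⟨b3 x hx hv, hx⟩)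
      · exact hxs' (Finset.mem_inter.2 ⟨b3 x' hu hx', hx'⟩)
      · simp only
        rw [← e, ← e', ← b1]
    · have := (Finset.card_image_le (s := (u \ v) ×ˢ (v \ u))
        (f := fun p => u.erase p.1 ∪ v.erase p.2)).trans (Finset.card_product _ _).le
      have h7 : (u \ v).card * (v \ u).card ≤ 2 * 2 := Nat.mul_le_mul a1 a2
      exact_mod_cast this.trans h7
  · rw [cn_eq_zero fun s _ hs => hne ⟨s, hs.1, hs.2.1⟩]; norm_num

lemma sg_insert {x y : α} {c : Finset α} (hy : y ∉ c) :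
    sg x (insert y c) = (if y < x then -1 else 1) * sg x c := by
  unfold sg; rw [Finset.prod_insert hy]

/-- the sign rule: the two ways through a square have opposite signs -/
lemma sign_sq {a b : Finset α} (h : Adj a b) :
    si a (a ∩ b) * si b (a ∩ b) = - (si (a ∪ b) a * si (a ∪ b) b) := by
  obtain ⟨x, hx, hxc, -, ea, da⟩ := exists_erase (Finset.inter_subset_left (s₁ := a) (s₂ := b))
    h.2.symm
  obtain ⟨y, hy, hyc, -, eb, db⟩ := exists_erase (Finset.inter_subset_right (s₁ := a) (s₂ := b))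
    (by have := h.1; have := h.2; omega)
  have hxb : x ∉ b := fun hb => hxc (Finset.mem_inter.2 ⟨hx, hb⟩)
  have hya : y ∉ a := fun ha => hyc (Finset.mem_inter.2 ⟨ha, hy⟩)
  have hxy : x ≠ y := fun e => hxb (e ▸ hy)
  have d1 : (a ∪ b) \ a = {y} := by
    rw [← db, Finset.union_sdiff_left, Finset.sdiff_inter_self_right]
  have d2 : (a ∪ b) \ b = {x} := by
    rw [← da, Finset.union_sdiff_right, Finset.sdiff_inter_self_left]
  have u1 : a ∪ b = insert x b := by
    rw [Finset.insert_eq, ← d2, Finset.sdiff_union_of_subset Finset.subset_union_right]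
  have u2 : a ∪ b = insert y a := by
    rw [Finset.insert_eq, ← d1, Finset.sdiff_union_of_subset Finset.subset_union_left]
  unfold si
  rw [da, db, d1, d2, Finset.prod_singleton, Finset.prod_singleton, Finset.prod_singleton,
    Finset.prod_singleton]
  have s1 : sg y (a ∪ b) = (if x < y then -1 else 1) * sg y b := by rw [u1, sg_insert hxb]
  have s2 : sg x (a ∪ b) = (if y < x then -1 else 1) * sg x a := by rw [u2, sg_insert hya]
  rw [s1, s2]
  rcases lt_or_gt_of_ne hxy with h1 | h1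
  · rw [if_pos h1, if_neg (not_lt.2 h1.le)]; ring
  · rw [if_pos h1, if_neg (not_lt.2 h1.le)]; ring

lemma aa_col {s t : Finset α} (h : Adj s t) : aa s t = - (si (s ∪ t) s * si (s ∪ t) t) :=
  sign_sq h

end Pool.Agent.Lib.MP_468ee0_co
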