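import Pool.Agent.Lib.MP_468ee0_co.U1Geo

set_option autoImplicit false
set_option linter.unusedSectionVars false

namespace Pool.Agent.Lib.MP_468ee0_co

open Finset

section gen
variable {β J : Type} [Fintype J]

/-- Gram entry -/
def G (y : J → β → ℝ) (s t : β) : ℝ := ∑ j, y j s * y j t

/-- weight of a point -/
def wq (y : J → β → ℝ) (t : β) : ℝ := ∑ j, y j t ^ 2

/-- absolute edge sum -/
noncomputable def AS (y : J → β → ℝ) (T : Finset β) (r : β → β → Prop) : ℝ :=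
  ∑ s ∈ T, ∑ t ∈ fl T (r s), |G y s t|

/-- number of edges -/
noncomputable def NE (T : Finset β) (r : β → β → Prop) : ℝ := ∑ s ∈ T, cn T (r s)

lemma wq_nonneg (y : J → β → ℝ) (t : β) : 0 ≤ wq y t := Finset.sum_nonneg fun _ _ => sq_nonneg _

lemma G_self (y : J → β → ℝ) (t : β) : G y t t = wq y t := by simp [G, wq, sq]

lemma G_symm (y : J → β → ℝ) (s t : β) : G y s t = G y t s :=
  Finset.sum_congr rfl fun _ _ => mul_comm _ _

lemma tr_eq_wq (T : Finset β) (y : J → β → ℝ) : tr T y = ∑ t ∈ T, wq y t := by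
  unfold tr nq wq; exact Finset.sum_comm

lemma AS_nonneg (y : J → β → ℝ) (T : Finset β) (r : β → β → Prop) : 0 ≤ AS y T r :=
  Finset.sum_nonneg fun _ _ => Finset.sum_nonneg fun _ _ => abs_nonneg _

lemma NE_nonneg (T : Finset β) (r : β → β → Prop) : 0 ≤ NE T r :=
  Finset.sum_nonneg fun _ _ => cn_nonneg _ _

lemma Bes.ana_sub {T A : Finset β} {y : J → β → ℝ} (h : Bes T y) (hA : A ⊆ T) (x : β → ℝ) :
    ∑ j, (∑ t ∈ A, x t * y j t) ^ 2 ≤ ∑ t ∈ A, x t ^ 2 := by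
  have := (h.mono hA).analysis x
  simpa only [mul_comm] using this

lemma Bes.wq_le {T : Finset β} {y : J → β → ℝ} (h : Bes T y) {t : β} (ht : t ∈ T) :
    wq y t ≤ 1 := by
  have := h.ana_sub (A := {t}) (by simpa using ht) (fun _ => 1)
  simpa [wq] using this

lemma G_sq_le (y : J → β → ℝ) (s t : β) : G y s t ^ 2 ≤ wq y s * wq y t :=
  Finset.sum_mul_sq_le_sq_mul_sq _ _ _

lemma abs_G_le (y : J → β → ℝ) (s t : β) : |G y s t| ≤ √(wq y s) * √(wq y t) := by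
  rw [← Real.sqrt_mul (wq_nonneg y s)]
  exact Real.abs_le_sqrt (G_sq_le y s t)

lemma Bes.sum_G_sq {T : Finset β} {y : J → β → ℝ} (h : Bes T y) :
    ∑ s ∈ T, ∑ t ∈ T, G y s t ^ 2 ≤ tr T y := by
  rw [tr_eq_wq]
  exact Finset.sum_le_sum fun s _ => h fun j => y j s

lemma cs_double {γ : Type} (T : Finset β) (N : β → Finset γ) (f g : β → γ → ℝ) :
    (∑ s ∈ T, ∑ t ∈ N s, f s t * g s t) ^ 2
      ≤ (∑ s ∈ T, ∑ t ∈ N s, f s t ^ 2) * ∑ s ∈ T, ∑ t ∈ N s, g s t ^ 2 := by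
  rw [Finset.sum_sigma', Finset.sum_sigma', Finset.sum_sigma']
  exact Finset.sum_mul_sq_le_sq_mul_sq _ _ _

lemma L1 {T : Finset β} {y : J → β → ℝ} (h : Bes T y) (r : β → β → Prop) :
    AS y T r ^ 2 ≤ Fintype.card J * NE T r := by
  have h1 := cs_double T (fun s => fl T (r s)) (fun s t => |G y s t|) (fun _ _ => 1)
  simp only [mul_one, sq_abs, one_pow] at h1
  have h2 : ∑ s ∈ T, ∑ t ∈ fl T (r s), G y s t ^ 2 ≤ Fintype.card J :=
    le_trans (Finset.sum_le_sum fun s _ => Finset.sum_le_sum_of_subset_of_nonneg (fl_subset _ _)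
      fun _ _ _ => sq_nonneg _) (h.sum_G_sq.trans h.tr_le)
  have h3 : ∑ s ∈ T, ∑ t ∈ fl T (r s), (1 : ℝ) = NE T r := by
    unfold NE; simp_rw [cn_eq_sum]
  rw [h3] at h1
  exact h1.trans (mul_le_mul_of_nonneg_right h2 (NE_nonneg _ _))

lemma Sch (T : Finset β) (y : J → β → ℝ) (r : β → β → Prop) {A B : ℝ}
    (hA : ∀ s ∈ T, cn T (r s) ≤ A) (hB : ∀ t ∈ T, cn T (fun s => r s t) ≤ B) :
    AS y T r ^ 2 ≤ A * B * tr T y ^ 2 := by
  have h1 := cs_double T (fun s => fl T (r s)) (fun s _ => √(wq y s)) (fun _ t => √(wq y t))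
  simp only [Real.sq_sqrt (wq_nonneg y _)] at h1
  have h0 : AS y T r ≤ ∑ s ∈ T, ∑ t ∈ fl T (r s), √(wq y s) * √(wq y t) :=
    Finset.sum_le_sum fun s _ => Finset.sum_le_sum fun t _ => abs_G_le y s t
  have h2 : ∑ s ∈ T, ∑ _t ∈ fl T (r s), wq y s ≤ A * tr T y := by
    rw [tr_eq_wq, Finset.mul_sum]
    refine Finset.sum_le_sum fun s hs => ?_
    rw [Finset.sum_const, nsmul_eq_mul]
    exact mul_le_mul_of_nonneg_right (hA s hs) (wq_nonneg _ _)
  have h3 : ∑ s ∈ T, ∑ t ∈ fl T (r s), wq y t ≤ B * tr T y := by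
    rw [sum_fl_comm T T r (fun _ t => wq y t), tr_eq_wq, Finset.mul_sum]
    refine Finset.sum_le_sum fun s hs => ?_
    rw [Finset.sum_const, nsmul_eq_mul]
    exact mul_le_mul_of_nonneg_right (hB s hs) (wq_nonneg _ _)
  have h4 : 0 ≤ ∑ s ∈ T, ∑ _t ∈ fl T (r s), wq y s :=
    Finset.sum_nonneg fun _ _ => Finset.sum_nonneg fun _ _ => wq_nonneg _ _
  have h5 : 0 ≤ ∑ s ∈ T, ∑ t ∈ fl T (r s), wq y t :=
    Finset.sum_nonneg fun _ _ => Finset.sum_nonneg fun _ _ => wq_nonneg _ _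
  calc AS y T r ^ 2 ≤ _ := pow_le_pow_left₀ (AS_nonneg _ _ _) h0 2
    _ ≤ _ := h1
    _ ≤ (A * tr T y) * (B * tr T y) := mul_le_mul h2 h3 h5 (h4.trans h2)
    _ = _ := by ring

lemma Sch1 (T : Finset β) (y : J → β → ℝ) (r : β → β → Prop) {A : ℝ} (h0 : 0 ≤ A)
    (hA : ∀ s ∈ T, cn T (r s) ≤ A) (hB : ∀ t ∈ T, cn T (fun s => r s t) ≤ A) :
    AS y T r ≤ A * tr T y := by
  have := Sch T y r hA hB
  refine abs_le_of_sq_le_sq' (by linarith [this, (by ring : A * A * tr T y ^ 2 = (A * tr T y) ^ 2)])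
    (mul_nonneg h0 (tr_nonneg _ _)) |>.2

lemma sum_walk {γ : Type} (X : Finset β) (Y : Finset γ) (r : β → γ → Prop) (f : γ → γ → ℝ) :
    ∑ s ∈ X, ∑ t ∈ fl Y (r s), ∑ u ∈ fl Y (r s), f t u
      = ∑ t ∈ Y, ∑ u ∈ Y, cn X (fun s => r s t ∧ r s u) * f t u := by
  rw [sum_fl_comm X Y r (fun s t => ∑ u ∈ fl Y (r s), f t u)]
  refine Finset.sum_congr rfl fun t _ => ?_
  rw [sum_fl_comm (fl X fun s => r s t) Y r (fun _ u => f t u)]
  refine Finset.sum_congr rfl fun u _ => ?_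
  rw [Finset.sum_const, nsmul_eq_mul]
  unfold cn
  congr 3
  ext s
  simp only [mem_fl]
  tauto

lemma sum_cn_sq {γ : Type} (X : Finset β) (Y : Finset γ) (r : β → γ → Prop) :
    ∑ s ∈ X, cn Y (r s) ^ 2 = ∑ t ∈ Y, ∑ u ∈ Y, cn X (fun s => r s t ∧ r s u) := by
  have := sum_walk X Y r (fun _ _ => 1)
  simp only [mul_one] at this
  rw [← this]
  refine Finset.sum_congr rfl fun s _ => ?_
  simp [cn, sq]

/-- two-walk bound -/
lemma W0 (T : Finset β) (y : J → β → ℝ) (r : β → β → Prop) :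
    AS y T r ^ 2 ≤ tr T y * ∑ t ∈ T, ∑ u ∈ T, cn T (fun s => r s t ∧ r s u) * |G y t u| := by
  classical
  let σ : β → β → ℝ := fun s t => if 0 ≤ G y s t then 1 else -1
  have hσ : ∀ s t, |G y s t| = σ s t * G y s t := fun s t => by
    simp only [σ]
    split_ifs with h
    · rw [abs_of_nonneg h, one_mul]
    · rw [abs_of_neg (not_le.1 h)]; ring
  have hσ1 : ∀ s t, |σ s t| = 1 := fun s t => by
    simp only [σ]; split_ifs <;> simp
  have h1 := cs_double T (fun _ => (Finset.univ : Finset J)) (fun s j => y j s)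
    (fun s j => ∑ t ∈ fl T (r s), σ s t * y j t)
  have h2 : AS y T r = ∑ s ∈ T, ∑ j, y j s * ∑ t ∈ fl T (r s), σ s t * y j t := by
    refine Finset.sum_congr rfl fun s _ => ?_
    simp_rw [Finset.mul_sum]
    rw [Finset.sum_comm]
    refine Finset.sum_congr rfl fun t _ => ?_
    rw [hσ, G, Finset.mul_sum]
    exact Finset.sum_congr rfl fun j _ => by ring
  have h3 : ∑ s ∈ T, ∑ j, (∑ t ∈ fl T (r s), σ s t * y j t) ^ 2
      ≤ ∑ t ∈ T, ∑ u ∈ T, cn T (fun s => r s t ∧ r s u) * |G y t u| := by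
    rw [← sum_walk]
    refine Finset.sum_le_sum fun s _ => ?_
    simp_rw [sq, Finset.sum_mul_sum]
    rw [Finset.sum_comm]
    refine Finset.sum_le_sum fun t _ => ?_
    rw [Finset.sum_comm]
    refine Finset.sum_le_sum fun u _ => ?_
    have : ∑ j, σ s t * y j t * (σ s u * y j u) = σ s t * σ s u * G y t u := by
      rw [G, Finset.mul_sum]; exact Finset.sum_congr rfl fun j _ => by ring
    rw [this]
    refine (le_abs_self _).trans (le_of_eq ?_)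
    rw [abs_mul, abs_mul, hσ1, hσ1, one_mul, one_mul]
  rw [← h2] at h1
  refine h1.trans ?_
  have h4 : ∑ s ∈ T, ∑ j, y j s ^ 2 = tr T y := by rw [tr_eq_wq]; rfl
  rw [h4]
  exact mul_le_mul_of_nonneg_left h3 (tr_nonneg _ _)

lemma W4 {T : Finset β} {y : J → β → ℝ} (h : Bes T y) (r : β → β → Prop) :
    AS y T r ^ 4 ≤ (Fintype.card J : ℝ) ^ 3
      * ∑ t ∈ T, ∑ u ∈ T, cn T (fun s => r s t ∧ r s u) ^ 2 := by
  have h1 := W0 T y r
  have h2 := cs_double T (fun _ => T) (fun t u => cn T (fun s => r s t ∧ r s u))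
    (fun t u => |G y t u|)
  simp only [sq_abs] at h2
  set W := ∑ t ∈ T, ∑ u ∈ T, cn T (fun s => r s t ∧ r s u) ^ 2
  set Θ := ∑ t ∈ T, ∑ u ∈ T, cn T (fun s => r s t ∧ r s u) * |G y t u|
  have hW : 0 ≤ W := Finset.sum_nonneg fun _ _ => Finset.sum_nonneg fun _ _ => sq_nonneg _
  have h3 := h.sum_G_sq.trans h.tr_le
  have h4 := h.tr_le
  have h5 := tr_nonneg T y
  have h6 : Θ ^ 2 ≤ W * Fintype.card J := h2.trans (mul_le_mul_of_nonneg_left h3 hW)
  calc AS y T r ^ 4 = (AS y T r ^ 2) ^ 2 := by ring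
    _ ≤ (tr T y * Θ) ^ 2 := pow_le_pow_left₀ (sq_nonneg _) h1 2
    _ = tr T y ^ 2 * Θ ^ 2 := by ring
    _ ≤ (Fintype.card J : ℝ) ^ 2 * (W * Fintype.card J) :=
        mul_le_mul (pow_le_pow_left₀ h5 h4 2) h6 (sq_nonneg _) (sq_nonneg _)
    _ = _ := by ring

lemma sum_w_sq (T : Finset β) (r : β → β → Prop) {B : ℝ} (hB0 : 0 ≤ B)
    (hB : ∀ t ∈ T, ∀ u ∈ T, t ≠ u → cn T (fun s => r s t ∧ r s u) ≤ B) :
    ∑ t ∈ T, ∑ u ∈ T, cn T (fun s => r s t ∧ r s u) ^ 2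
      ≤ ∑ t ∈ T, cn T (fun s => r s t) ^ 2 + B * ∑ s ∈ T, cn T (r s) ^ 2 := by
  classical
  rw [sum_cn_sq T T r, Finset.mul_sum, ← Finset.sum_add_distrib]
  refine Finset.sum_le_sum fun t ht => ?_
  rw [← Finset.add_sum_erase T _ ht, Finset.mul_sum]
  refine add_le_add (le_of_eq ?_) ?_
  · simp only [and_self]
  · refine le_trans (Finset.sum_le_sum fun u hu => ?_)
      (Finset.sum_le_sum_of_subset_of_nonneg (Finset.erase_subset t T)
        fun _ _ _ => mul_nonneg hB0 (cn_nonneg _ _))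
    rw [sq]
    exact mul_le_mul_of_nonneg_right
      (hB t ht u (Finset.mem_of_mem_erase hu) (Finset.ne_of_mem_erase hu).symm) (cn_nonneg _ _)

lemma Wsm (T : Finset β) (y : J → β → ℝ) (r : β → β → Prop) {B : ℝ} (hB0 : 0 ≤ B)
    (hB : ∀ t ∈ T, ∀ u ∈ T, t ≠ u → cn T (fun s => r s t ∧ r s u) ≤ B) :
    AS y T r ^ 2 ≤ T.card * (B + 1) * tr T y ^ 2 := by
  classical
  have h1 := W0 T y r
  have h2 : ∑ t ∈ T, ∑ u ∈ T, cn T (fun s => r s t ∧ r s u) * |G y t u|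
      ≤ ∑ t ∈ T, (T.card * wq y t + B * ∑ u ∈ T, |G y t u|) := by
    refine Finset.sum_le_sum fun t ht => ?_
    rw [← Finset.add_sum_erase T _ ht, Finset.mul_sum]
    refine add_le_add ?_ ?_
    · rw [G_self, abs_of_nonneg (wq_nonneg _ _)]
      exact mul_le_mul_of_nonneg_right (cn_le_card _ _) (wq_nonneg _ _)
    · refine le_trans (Finset.sum_le_sum fun u hu => ?_)
        (Finset.sum_le_sum_of_subset_of_nonneg (Finset.erase_subset t T)
          fun _ _ _ => mul_nonneg hB0 (abs_nonneg _))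
      exact mul_le_mul_of_nonneg_right
        (hB t ht u (Finset.mem_of_mem_erase hu) (Finset.ne_of_mem_erase hu).symm) (abs_nonneg _)
  have h3 := Sch1 T y (fun _ _ => True) (Nat.cast_nonneg T.card) (fun _ _ => cn_le_card _ _)
    (fun _ _ => cn_le_card _ _)
  have h4 : AS y T (fun _ _ => True) = ∑ t ∈ T, ∑ u ∈ T, |G y t u| := by
    unfold AS
    refine Finset.sum_congr rfl fun s _ => ?_
    congr 1
    ext x; simp
  rw [Finset.sum_add_distrib, ← Finset.mul_sum, ← Finset.mul_sum, ← tr_eq_wq, ← h4] at h2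
  have h5 := tr_nonneg T y
  have h6 := mul_le_mul_of_nonneg_left h3 hB0
  calc AS y T r ^ 2 ≤ _ := h1
    _ ≤ tr T y * (T.card * tr T y + B * (T.card * tr T y)) :=
        mul_le_mul_of_nonneg_left (by linarith) h5
    _ = _ := by ring

lemma cn_cases {γ : Type} (T : Finset γ) (p : γ → Prop) : cn T p = 0 ∨ 1 ≤ cn T p := by
  unfold cn
  rcases Nat.eq_zero_or_pos (fl T p).card with h | h
  · left; exact_mod_cast h
  · right; exact_mod_cast h

lemma cn_cc_nonneg {γ : Type} (T : Finset γ) (p : γ → Prop) : 0 ≤ cn T p * (cn T p - 1) := by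
  rcases cn_cases T p with h | h
  · rw [h]; simp
  · exact mul_nonneg (by linarith) (by linarith)

lemma I3 (Z : Finset β) (q c : β → ℝ) (hq : ∀ t ∈ Z, 0 ≤ q t ∧ q t ≤ 1)
    (hc : ∀ t ∈ Z, c t = 0 ∨ 1 ≤ c t) {X : ℝ} (hX : 0 ≤ X)
    (h : (∑ t ∈ Z, q t) * ∑ t ∈ Z, c t * (c t - 1) ≤ X ^ 2) :
    ∑ t ∈ Z, q t * c t ≤ ∑ t ∈ Z, q t + X := by
  have h1 := Finset.sum_mul_sq_le_sq_mul_sq Z q (fun t => max (c t - 1) 0)
  have h2 : ∑ t ∈ Z, q t ^ 2 ≤ ∑ t ∈ Z, q t :=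
    Finset.sum_le_sum fun t ht => by have := hq t ht; nlinarith
  have h3 : ∑ t ∈ Z, max (c t - 1) 0 ^ 2 ≤ ∑ t ∈ Z, c t * (c t - 1) :=
    Finset.sum_le_sum fun t ht => by
      rcases hc t ht with h4 | h4
      · rw [h4]; norm_num
      · rw [max_eq_left (by linarith)]; nlinarith
  have h4 : (∑ t ∈ Z, q t * max (c t - 1) 0) ^ 2 ≤ X ^ 2 :=
    h1.trans (le_trans (mul_le_mul h2 h3 (Finset.sum_nonneg fun _ _ => sq_nonneg _)
      (Finset.sum_nonneg fun t ht => (hq t ht).1)) h)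
  have h5 := (abs_le_of_sq_le_sq' h4 hX).2
  have h6 : ∑ t ∈ Z, q t * c t ≤ ∑ t ∈ Z, (q t + q t * max (c t - 1) 0) :=
    Finset.sum_le_sum fun t ht => by
      have := le_max_left (c t - 1) 0
      have := (hq t ht).1
      nlinarith
  rw [Finset.sum_add_distrib] at h6
  linarith

lemma I2 (Z : Finset β) (c : β → ℝ) (hc : ∀ t ∈ Z, c t = 0 ∨ 1 ≤ c t) {X : ℝ} (hX : 0 ≤ X)
    (h : (Z.card : ℝ) * ∑ t ∈ Z, c t * (c t - 1) ≤ X ^ 2) : ∑ t ∈ Z, c t ≤ Z.card + X := by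
  have := I3 Z (fun _ => 1) c (fun _ _ => by norm_num) hc hX (by simpa using h)
  simpa using this

lemma I1 {γ : Type} (Z : Finset β) (B : Finset γ) (inc : β → γ → Prop)
    (h : ∀ b ∈ B, ∀ b' ∈ B, b ≠ b' → cn Z (fun t => inc t b ∧ inc t b') ≤ 1) :
    ∑ t ∈ Z, cn B (inc t) * (cn B (inc t) - 1) ≤ (B.card : ℝ) ^ 2 := by
  classical
  have h1 := sum_cn_sq Z B inc
  have h2 := sum_cn_comm Z B inc
  have h3 : ∑ t ∈ B, ∑ u ∈ B, cn Z (fun s => inc s t ∧ inc s u)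
      ≤ ∑ t ∈ B, (cn Z (fun s => inc s t) + B.card) := by
    refine Finset.sum_le_sum fun t ht => ?_
    rw [← Finset.add_sum_erase B _ ht]
    refine add_le_add (le_of_eq (by simp only [and_self])) ?_
    refine le_trans (Finset.sum_le_sum fun u hu =>
      h t ht u (Finset.mem_of_mem_erase hu) (Finset.ne_of_mem_erase hu).symm) ?_
    rw [Finset.sum_const, nsmul_eq_mul, mul_one]
    exact_mod_cast Finset.card_erase_le
  rw [Finset.sum_add_distrib, Finset.sum_const, nsmul_eq_mul] at h3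
  have h4 : ∑ t ∈ Z, cn B (inc t) * (cn B (inc t) - 1)
      = ∑ t ∈ Z, cn B (inc t) ^ 2 - ∑ t ∈ Z, cn B (inc t) := by
    rw [← Finset.sum_sub_distrib]; exact Finset.sum_congr rfl fun _ _ => by ring
  rw [h4]; nlinarith

lemma pack {γ : Type} (Z : Finset β) (B : Finset γ) (inc : β → γ → Prop)
    (h : ∀ b ∈ B, ∀ b' ∈ B, b ≠ b' → cn Z (fun t => inc t b ∧ inc t b') ≤ 1) {D : ℝ} (hD0 : 0 ≤ D)
    (hD : ∀ b ∈ B, D ≤ cn Z (fun t => inc t b)) (hZ : 4 * (Z.card : ℝ) ≤ D ^ 2) :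
    B.card * D ≤ 2 * Z.card := by
  have h1 := I1 Z B inc h
  have hZ0 : (0 : ℝ) ≤ Z.card := Nat.cast_nonneg _
  have hB0 : (0 : ℝ) ≤ B.card := Nat.cast_nonneg _
  have h2 := I2 Z (fun t => cn B (inc t)) (fun t _ => cn_cases _ _) (X := B.card * D / 2)
    (by positivity) (by
      refine (mul_le_mul_of_nonneg_left h1 hZ0).trans ?_
      nlinarith [mul_le_mul_of_nonneg_left hZ (sq_nonneg (B.card : ℝ))])
  rw [sum_cn_comm] at h2
  have h3 := Finset.sum_le_sum hD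
  rw [Finset.sum_const, nsmul_eq_mul] at h3
  linarith

lemma NE_sq_le (T X : Finset β) (r : β → β → Prop) (h : ∀ s ∈ T, ∀ t ∈ T, r s t → s ∈ X) :
    NE T r ^ 2 ≤ X.card * ∑ s ∈ T, cn T (r s) ^ 2 := by
  have h1 : NE T r = ∑ s ∈ fl T (· ∈ X), cn T (r s) := by
    unfold NE
    refine (Finset.sum_subset (fl_subset _ _) fun s hs hs' => cn_eq_zero fun t ht hr => ?_).symm
    exact hs' (mem_fl.2 ⟨hs, h s hs t ht hr⟩)
  have h2 := Finset.sum_mul_sq_le_sq_mul_sq (fl T (· ∈ X)) (fun _ => (1 : ℝ)) (fun s => cn T (r s))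
  simp only [one_mul, one_pow, Finset.sum_const, nsmul_eq_mul, mul_one] at h2
  rw [h1]
  refine h2.trans (mul_le_mul (cn_le_of_sub (T := T) (p := (· ∈ X)) fun _ _ h => h) ?_
    (Finset.sum_nonneg fun _ _ => sq_nonneg _) (Nat.cast_nonneg _))
  exact Finset.sum_le_sum_of_subset_of_nonneg (fl_subset _ _) fun _ _ _ => sq_nonneg _

lemma NE_le_out (T X : Finset β) (r : β → β → Prop) (h : ∀ s ∈ T, ∀ t ∈ T, r s t → s ∈ X)
    {A : ℝ} (hA0 : 0 ≤ A) (hA : ∀ s ∈ T, cn T (r s) ≤ A) : NE T r ≤ X.card * A := by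
  have h1 : NE T r = ∑ s ∈ fl T (· ∈ X), cn T (r s) := by
    unfold NE
    refine (Finset.sum_subset (fl_subset _ _) fun s hs hs' => cn_eq_zero fun t ht hr => ?_).symm
    exact hs' (mem_fl.2 ⟨hs, h s hs t ht hr⟩)
  rw [h1]
  refine (Finset.sum_le_sum fun s hs => hA s (mem_fl.1 hs).1).trans ?_
  rw [Finset.sum_const, nsmul_eq_mul]
  exact mul_le_mul_of_nonneg_right (cn_le_of_sub (T := T) (p := (· ∈ X)) fun _ _ h => h) hA0

lemma sum_sq_le_out (T X : Finset β) (r : β → β → Prop) (h : ∀ s ∈ T, ∀ t ∈ T, r s t → s ∈ X)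
    {A : ℝ} (hA : ∀ s ∈ T, cn T (r s) ≤ A) : ∑ s ∈ T, cn T (r s) ^ 2 ≤ X.card * A ^ 2 := by
  have h1 : ∑ s ∈ T, cn T (r s) ^ 2 = ∑ s ∈ fl T (· ∈ X), cn T (r s) ^ 2 := by
    refine (Finset.sum_subset (fl_subset _ _) fun s hs hs' => ?_).symm
    rw [cn_eq_zero fun t ht hr => hs' (mem_fl.2 ⟨hs, h s hs t ht hr⟩)]
    norm_num
  rw [h1]
  refine (Finset.sum_le_sum fun s hs =>
    pow_le_pow_left₀ (cn_nonneg _ _) (hA s (mem_fl.1 hs).1) 2).trans ?_
  rw [Finset.sum_const, nsmul_eq_mul]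
  exact mul_le_mul_of_nonneg_right (cn_le_of_sub (T := T) (p := (· ∈ X)) fun _ _ h => h)
    (sq_nonneg _)

lemma NE_flip (T : Finset β) (r : β → β → Prop) : NE T (fun s t => r t s) = NE T r :=
  (sum_cn_comm T T r).symm

lemma AS_flip (y : J → β → ℝ) (T : Finset β) (r : β → β → Prop) :
    AS y T (fun s t => r t s) = AS y T r := by
  unfold AS
  rw [sum_fl_comm T T r (fun s t => |G y s t|)]
  simp_rw [G_symm y]

lemma AS_mono (y : J → β → ℝ) (T : Finset β) {r r' : β → β → Prop}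
    (h : ∀ s ∈ T, ∀ t ∈ T, r s t → r' s t) : AS y T r ≤ AS y T r' :=
  Finset.sum_le_sum fun s hs => Finset.sum_le_sum_of_subset_of_nonneg
    (fun t ht => mem_fl.2 ⟨(mem_fl.1 ht).1, h s hs t (mem_fl.1 ht).1 (mem_fl.1 ht).2⟩)
    fun _ _ _ => abs_nonneg _

/-- counting edges through a key -/
lemma NE_le_key {γ : Type} (T : Finset β) (r : β → β → Prop) (K : Finset γ) (q : γ → β → β → Prop)
    (h : ∀ s ∈ T, ∀ t ∈ T, r s t → ∃ c ∈ K, q c s t) {B : ℝ} (hB : ∀ c ∈ K, NE T (q c) ≤ B) :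
    NE T r ≤ K.card * B := by
  have h1 : NE T r ≤ ∑ s ∈ T, ∑ c ∈ K, cn T (q c s) :=
    Finset.sum_le_sum fun s hs => cn_le_sum K (fun c => q c s) (h s hs)
  rw [Finset.sum_comm] at h1
  have h2 := Finset.sum_le_sum hB
  rw [Finset.sum_const, nsmul_eq_mul] at h2
  exact h1.trans h2

lemma NE_le_prod (T : Finset β) (p p' : β → Prop) {A B : ℝ} (hA : cn T p ≤ A) (hB : cn T p' ≤ B) :
    NE T (fun s t => p s ∧ p' t) ≤ A * B := by
  have hB0 := (cn_nonneg _ _).trans hB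
  refine (NE_le_out T (fl T p) _ (fun s hs _ _ h => mem_fl.2 ⟨hs, h.1⟩) hB0
    (fun s _ => le_trans (cn_mono fun t ht h => ⟨ht, h.2⟩) hB)).trans ?_
  exact mul_le_mul_of_nonneg_right hA hB0

lemma cn_ge_fiber {γ : Type} (P : Finset β) (p : β → Prop) (g : β → γ) (A : Finset γ) {B : ℝ}
    (h : ∀ o ∈ A, B ≤ cn P (fun v => p v ∧ g v = o)) : A.card * B ≤ cn P p := by
  have h1 := Finset.sum_le_sum h
  rw [Finset.sum_const, nsmul_eq_mul, sum_cn_comm A P (fun o v => p v ∧ g v = o)] at h1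
  refine h1.trans ?_
  rw [cn_eq_sum P p, sum_fl]
  refine Finset.sum_le_sum fun v _ => ?_
  split_ifs with hp
  · exact cn_le_one fun o _ o' _ h1 h2 => h1.2.symm.trans h2.2
  · exact (cn_eq_zero fun o _ h1 => hp h1.1).le

lemma clique_id (y : J → β → ℝ) (K : Finset β) (e : β → ℝ) (he : ∀ t, e t * e t = 1) :
    ∑ s ∈ K, ∑ t ∈ fl K (fun t => s ≠ t), e s * e t * G y s t
      = ∑ j, (∑ t ∈ K, e t * y j t) ^ 2 - ∑ t ∈ K, wq y t := by
  classical
  have h1 : ∑ j, (∑ t ∈ K, e t * y j t) ^ 2 = ∑ s ∈ K, ∑ t ∈ K, e s * e t * G y s t := by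
    simp_rw [sq, Finset.sum_mul_sum]
    rw [Finset.sum_comm]
    refine Finset.sum_congr rfl fun s _ => ?_
    rw [Finset.sum_comm]
    refine Finset.sum_congr rfl fun t _ => ?_
    rw [G, Finset.mul_sum]; exact Finset.sum_congr rfl fun j _ => by ring
  rw [h1, ← Finset.sum_sub_distrib]
  refine Finset.sum_congr rfl fun s hs => ?_
  have : fl K (fun t => s ≠ t) = K.erase s := by
    ext t; simp only [mem_fl, Finset.mem_erase]; tauto
  rw [this, ← Finset.add_sum_erase K _ hs, he, G_self]; ring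

end gen

end Pool.Agent.Lib.MP_468ee0_co
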