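import Pool.Agent.Lib.MP_468ee0_co.U2Sum
import Pool.Agent.Lib.MP_468ee0_co.KT

set_option autoImplicit false
set_option linter.unusedSectionVars false

namespace Pool.Agent.Lib.MP_468ee0_co

open Finset Matrix

section rot
variable {β J : Type} [Fintype J]

/-- rotated family -/
def rt (e : J → J → ℝ) (u : J → β → ℝ) : J → β → ℝ := fun j σ => ∑ i, e j i * u i σ

open Classical in
/-- orthogonal matrix -/
def IsRot (e : J → J → ℝ) : Prop :=
  (∀ i i', ∑ j, e j i * e j i' = if i = i' then 1 else 0) ∧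
    ∀ j l, ∑ i, e j i * e l i = if j = l then 1 else 0

lemma exists_rot2 (Q : Finset β) (u : J → β → ℝ) : ∃ e : J → J → ℝ, IsRot e ∧ Orth Q (rt e u) := by
  classical
  let M : Matrix J J ℝ := Matrix.of fun i j => ∑ σ ∈ Q, u i σ * u j σ
  have hG : M.IsHermitian := by
    ext i j
    simp only [M, conjTranspose_apply, of_apply, star_trivial]
    exact Finset.sum_congr rfl fun σ _ => mul_comm _ _
  refine ⟨fun j i => hG.eigenvectorBasis j i, ⟨fun i i' => ?_, fun j l => ?_⟩, ?_⟩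
  · convert eig_col hG i i'
  · convert eig_row hG j l
  · intro j l hjl
    unfold rt
    have : ∑ σ ∈ Q, (∑ i, hG.eigenvectorBasis j i * u i σ) * (∑ i, hG.eigenvectorBasis l i * u i σ)
        = ∑ i, hG.eigenvectorBasis j i * ∑ i', M i i' * hG.eigenvectorBasis l i' := by
      simp_rw [Finset.sum_mul_sum, Finset.mul_sum]
      rw [Finset.sum_comm]
      refine Finset.sum_congr rfl fun i _ => ?_
      rw [Finset.sum_comm]
      refine Finset.sum_congr rfl fun i' _ => ?_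
      simp only [M, of_apply, Finset.sum_mul, Finset.mul_sum]
      refine Finset.sum_congr rfl fun σ _ => by ring
    rw [this]
    simp_rw [eig_app hG]
    have h2 := eig_row hG j l
    rw [if_neg hjl] at h2
    calc _ = hG.eigenvalues l * ∑ i, hG.eigenvectorBasis j i * hG.eigenvectorBasis l i := by
          rw [Finset.mul_sum]; exact Finset.sum_congr rfl fun i _ => by ring
      _ = 0 := by rw [h2, mul_zero]

lemma IsRot.inner {e : J → J → ℝ} (he : IsRot e) (a b : J → ℝ) :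
    ∑ j, (∑ i, e j i * a i) * (∑ i, e j i * b i) = ∑ i, a i * b i := by
  classical
  have : ∀ j, (∑ i, e j i * a i) * (∑ i, e j i * b i)
      = ∑ i, ∑ i', (a i * b i') * (e j i * e j i') := by
    intro j
    rw [Finset.sum_mul_sum]
    refine Finset.sum_congr rfl fun i _ => Finset.sum_congr rfl fun i' _ => by ring
  simp_rw [this]
  rw [Finset.sum_comm]
  refine Finset.sum_congr rfl fun i _ => ?_
  rw [Finset.sum_comm]
  simp_rw [← Finset.mul_sum, he.1]
  simp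

lemma IsRot.G_eq {e : J → J → ℝ} (he : IsRot e) (u : J → β → ℝ) (s t : β) :
    G (rt e u) s t = G u s t := he.inner _ _

lemma IsRot.wq_eq {e : J → J → ℝ} (he : IsRot e) (u : J → β → ℝ) (t : β) :
    wq (rt e u) t = wq u t := by rw [← G_self, ← G_self, he.G_eq]

lemma IsRot.tr_eq {e : J → J → ℝ} (he : IsRot e) (u : J → β → ℝ) (T : Finset β) :
    tr T (rt e u) = tr T u := by
  rw [tr_eq_wq, tr_eq_wq]; simp_rw [he.wq_eq]

lemma IsRot.bes {e : J → J → ℝ} (he : IsRot e) {u : J → β → ℝ} {P : Finset β} (hP : Bes P u) :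
    Bes P (rt e u) := by
  classical
  intro y
  have h1 := hP (fun i => ∑ j, e j i * y j)
  have h2 := sum_sq_of_col (fun i j => e j i) (fun j l => by convert he.2 j l) y
  rw [h2] at h1
  refine le_trans (le_of_eq ?_) h1
  refine Finset.sum_congr rfl fun σ _ => ?_
  congr 1
  unfold rt
  simp_rw [Finset.mul_sum, Finset.sum_mul]
  rw [Finset.sum_comm]
  refine Finset.sum_congr rfl fun i _ => Finset.sum_congr rfl fun j _ => by ring

lemma Orth.bes {Q : Finset β} {u : J → β → ℝ} (h : Orth Q u) (h1 : ∀ j, nq Q (u j) ≤ 1) :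
    Bes Q u := fun y => by
  rw [h.sum_sq]
  exact Finset.sum_le_sum fun j _ => by nlinarith [h1 j, sq_nonneg (y j)]

lemma nq_div_sqrt (Q : Finset β) (w : β → ℝ) : nq Q (fun o => w o / √(nq Q w)) ≤ 1 := by
  unfold nq
  simp_rw [div_pow]
  rw [← Finset.sum_div, Real.sq_sqrt (Finset.sum_nonneg fun _ _ => sq_nonneg _)]
  exact div_self_le_one _

/-- ridge transfer -/
lemma RT0 {ι : Type} (T : Finset β) (O : Finset ι) (b : ι → β → ℝ) (y : J → β → ℝ)
    (hy : Bes T y) : ∃ (u : J → ι → ℝ) (j' : ℕ), j' ≤ Fintype.card J ∧ Bes O u ∧ tr O u ≤ j' ∧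
      ∑ o ∈ O, ∑ j, (∑ t ∈ T, b o t * y j t) ^ 2 - tr T y
        ≤ ∑ t ∈ T, ∑ j, (∑ o ∈ O, b o t * u j o) ^ 2 - j' := by
  classical
  obtain ⟨e, he, hO⟩ := exists_rot2 O (fun j o => ∑ t ∈ T, b o t * y j t)
  set h := rt e (fun j o => ∑ t ∈ T, b o t * y j t) with hh
  have hy' := he.bes hy
  have hh' : ∀ j o, h j o = ∑ t ∈ T, b o t * rt e y j t := by
    intro j o
    simp only [hh, rt, Finset.mul_sum]
    rw [Finset.sum_comm]
    exact Finset.sum_congr rfl fun _ _ => Finset.sum_congr rfl fun _ _ => by ring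
  let u0 : J → ι → ℝ := fun j o => h j o / √(nq O (h j))
  let V : J → ℝ := fun j => ∑ t ∈ T, (∑ o ∈ O, b o t * u0 j o) ^ 2
  have hV : ∀ j, nq O (h j) ≤ nq T (rt e y j) * V j := by
    intro j
    have e1 : ∑ o ∈ O, u0 j o * h j o = √(nq O (h j)) := by
      simp only [u0]
      have : ∀ o, h j o / √(nq O (h j)) * h j o = h j o ^ 2 / √(nq O (h j)) := fun o => by ring
      simp_rw [this]
      rw [← Finset.sum_div]
      exact Real.div_sqrt
    have e2 : ∑ o ∈ O, u0 j o * h j o = ∑ t ∈ T, rt e y j t * ∑ o ∈ O, b o t * u0 j o := by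
      simp_rw [Finset.mul_sum]
      rw [Finset.sum_comm]
      refine Finset.sum_congr rfl fun o _ => ?_
      rw [hh' j o, Finset.mul_sum]
      exact Finset.sum_congr rfl fun _ _ => by ring
    have e3 := Finset.sum_mul_sq_le_sq_mul_sq T (rt e y j) (fun t => ∑ o ∈ O, b o t * u0 j o)
    rw [← e2, e1, Real.sq_sqrt (nq_nonneg _ _)] at e3
    exact e3
  let u : J → ι → ℝ := fun j o => if 1 ≤ V j then u0 j o else 0
  have hu1 : ∀ j, nq O (u j) ≤ if 1 ≤ V j then 1 else 0 := by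
    intro j
    by_cases hj : 1 ≤ V j
    · simp only [u, if_pos hj]; exact nq_div_sqrt O (h j)
    · simp [u, if_neg hj, nq]
  refine ⟨u, (Finset.univ.filter fun j => 1 ≤ V j).card, Finset.card_le_univ _, ?_, ?_, ?_⟩
  · refine Orth.bes (fun i j hij => ?_) fun j => (hu1 j).trans (by split_ifs <;> norm_num)
    simp only [u, u0]
    split_ifs
    · have : ∀ σ, h i σ / √(nq O (h i)) * (h j σ / √(nq O (h j)))
          = h i σ * h j σ / (√(nq O (h i)) * √(nq O (h j))) := fun σ => by ring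
      simp_rw [this]
      rw [← Finset.sum_div, hO i j hij, zero_div]
    all_goals simp
  · refine (Finset.sum_le_sum fun j _ => hu1 j).trans (le_of_eq ?_)
    simp
  · have e1 : ∑ o ∈ O, ∑ j, (∑ t ∈ T, b o t * y j t) ^ 2 = ∑ j, nq O (h j) := by
      have := he.tr_eq (fun j o => ∑ t ∈ T, b o t * y j t) O
      rw [tr_eq_wq O (fun j o => ∑ t ∈ T, b o t * y j t)] at this
      exact this.symm
    have e2 : ((Finset.univ.filter fun j => 1 ≤ V j).card : ℝ) = ∑ j, if 1 ≤ V j then (1 : ℝ) else 0 := by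
      simp
    rw [e1, ← he.tr_eq y T, e2, Finset.sum_comm, tr, ← Finset.sum_sub_distrib,
      ← Finset.sum_sub_distrib]
    refine Finset.sum_le_sum fun j _ => ?_
    have a1 := hV j
    have a2 := hy'.nq_le j
    have a3 := nq_nonneg T (rt e y j)
    by_cases hj : 1 ≤ V j
    · simp only [u, if_pos hj]
      change _ ≤ V j - 1
      nlinarith
    · simp only [u, if_neg hj]
      simp only [mul_zero, Finset.sum_const_zero, ne_eq, OfNat.ofNat_ne_zero, not_false_eq_true,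
        zero_pow, sub_zero]
      nlinarith [not_le.1 hj]

lemma RT {ι : Type} (T : Finset β) (O : Finset ι) (inc : ι → β → Prop) (c : ι → β → ℝ)
    (y : J → β → ℝ) (hy : Bes T y) :
    ∃ (u : J → ι → ℝ) (j' : ℕ), j' ≤ Fintype.card J ∧ Bes O u ∧ tr O u ≤ j' ∧
      ∑ o ∈ O, ∑ j, (∑ t ∈ fl T (inc o), c o t * y j t) ^ 2 - tr T y
        ≤ ∑ t ∈ T, ∑ j, (∑ o ∈ fl O (fun o => inc o t), c o t * u j o) ^ 2 - j' := by
  classical
  obtain ⟨u, j', h1, h2, h3, h4⟩ := RT0 T O (fun o t => if inc o t then c o t else 0) y hy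
  refine ⟨u, j', h1, h2, h3, ?_⟩
  simp only [ite_mul, zero_mul] at h4
  simp_rw [sum_fl]
  convert h4

end rot

variable {α J : Type} [LinearOrder α] [Fintype J]

/-- signed edge sum -/
noncomputable def ES (y : J → Finset α → ℝ) (T : Finset (Finset α))
    (r : Finset α → Finset α → Prop) : ℝ :=
  ∑ s ∈ T, ∑ t ∈ fl T (r s), aa s t * G y s t

/-- the quadratic form of identity plus signed adjacency, summed over the family -/
noncomputable def QF (T : Finset (Finset α)) (y : J → Finset α → ℝ) : ℝ := tr T y + ES y T Adj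

lemma aaG_le (y : J → Finset α → ℝ) (s t : Finset α) : aa s t * G y s t ≤ |G y s t| :=
  (le_abs_self _).trans (by rw [abs_mul, abs_aa, one_mul])

lemma neg_aaG_le (y : J → Finset α → ℝ) (s t : Finset α) : - (aa s t * G y s t) ≤ |G y s t| :=
  (neg_le_abs _).trans (by rw [abs_mul, abs_aa, one_mul])

lemma ES_le_AS (y : J → Finset α → ℝ) (T : Finset (Finset α)) (r : Finset α → Finset α → Prop) :
    ES y T r ≤ AS y T r :=
  Finset.sum_le_sum fun s _ => Finset.sum_le_sum fun t _ => aaG_le y s t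

lemma neg_ES_le_AS (y : J → Finset α → ℝ) (T : Finset (Finset α))
    (r : Finset α → Finset α → Prop) : - ES y T r ≤ AS y T r := by
  unfold ES AS
  rw [← Finset.sum_neg_distrib]
  refine Finset.sum_le_sum fun s _ => ?_
  rw [← Finset.sum_neg_distrib]
  exact Finset.sum_le_sum fun t _ => neg_aaG_le y s t

lemma ES_flip (y : J → Finset α → ℝ) (T : Finset (Finset α)) (r : Finset α → Finset α → Prop) :
    ES y T (fun s t => r t s) = ES y T r := by
  unfold ES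
  rw [sum_fl_comm T T r (fun s t => aa s t * G y s t)]
  refine Finset.sum_congr rfl fun s _ => Finset.sum_congr rfl fun t _ => ?_
  rw [aa_symm, G_symm]

lemma fl_congr {β : Type} {T : Finset β} {p q : β → Prop} (h : ∀ x ∈ T, p x ↔ q x) :
    fl T p = fl T q := by
  ext x; simp only [mem_fl]; exact and_congr_right (h x)

lemma ES_congr (y : J → Finset α → ℝ) (T : Finset (Finset α)) {r r' : Finset α → Finset α → Prop}
    (h : ∀ s ∈ T, ∀ t ∈ T, r s t ↔ r' s t) : ES y T r = ES y T r' :=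
  Finset.sum_congr rfl fun s hs => by rw [fl_congr (h s hs)]

lemma fl_fl {β : Type} (T : Finset β) (p q : β → Prop) :
    fl (fl T p) q = fl T (fun x => p x ∧ q x) := by
  ext x; simp only [mem_fl]; tauto

lemma ES_split (y : J → Finset α → ℝ) (T : Finset (Finset α)) (r p : Finset α → Finset α → Prop) :
    ES y T r = ES y T (fun s t => r s t ∧ p s t) + ES y T (fun s t => r s t ∧ ¬ p s t) := by
  unfold ES
  rw [← Finset.sum_add_distrib]
  refine Finset.sum_congr rfl fun s _ => ?_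
  rw [← sum_fl_add_not (fl T (r s)) (p s), fl_fl, fl_fl]

lemma ES_sub (y : J → Finset α → ℝ) {T X : Finset (Finset α)} (hX : X ⊆ T)
    (r : Finset α → Finset α → Prop) :
    ES y T (fun s t => s ∈ X ∧ t ∈ X ∧ r s t) = ES y X r := by
  unfold ES
  symm
  refine Finset.sum_subset_zero_on_sdiff hX (fun s hs => ?_) fun s hs => ?_
  · refine Finset.sum_eq_zero fun t ht => ?_
    exact absurd (mem_fl.1 ht).2.1 (Finset.mem_sdiff.1 hs).2
  · congr 1
    ext t; simp only [mem_fl]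
    exact ⟨fun h => ⟨hX h.1, hs, h⟩, fun h => h.2.2⟩

lemma ES_key {γ : Type} (y : J → Finset α → ℝ) (T : Finset (Finset α))
    (r : Finset α → Finset α → Prop) (key : Finset α → Finset α → γ) (K : Finset γ)
    (h : ∀ s ∈ T, ∀ t ∈ T, r s t → key s t ∈ K) :
    ES y T r = ∑ c ∈ K, ES y T (fun s t => r s t ∧ key s t = c) := by
  classical
  unfold ES
  rw [Finset.sum_comm]
  refine Finset.sum_congr rfl fun s hs => ?_
  rw [← Finset.sum_fiberwise_of_maps_to (s := fl T (r s)) (t := K) (g := key s)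
    (fun t ht => h s hs t (mem_fl.1 ht).1 (mem_fl.1 ht).2)]
  refine Finset.sum_congr rfl fun c _ => ?_
  congr 1
  ext t; simp only [mem_fl, Finset.mem_filter]; tauto

lemma PC0 (y : J → Finset α → ℝ) (T : Finset (Finset α)) (p : Finset α → Prop) (ρ : Finset α)
    (hp : ∀ t ∈ T, p t → ρ ⊆ t ∧ t.card = ρ.card + 1) {r : Finset α → Finset α → Prop}
    (hr : ∀ s ∈ T, ∀ t ∈ T, r s t ↔ p s ∧ p t ∧ s ≠ t) :
    ES y T r = ∑ j, (∑ t ∈ fl T p, si t ρ * y j t) ^ 2 - ∑ t ∈ fl T p, wq y t := by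
  rw [← clique_id y (fl T p) (fun t => si t ρ) (fun t => si_mul_self t ρ),
    ES_congr y T (r' := fun s t => s ∈ fl T p ∧ t ∈ fl T p ∧ s ≠ t)
      (fun s hs t ht => by rw [hr s hs t ht]; simp only [mem_fl]; tauto), ES_sub y (fl_subset T p)]
  refine Finset.sum_congr rfl fun s hs => Finset.sum_congr rfl fun t ht => ?_
  have h1 := hp s (mem_fl.1 hs).1 (mem_fl.1 hs).2
  have h2 := hp t (mem_fl.1 (mem_fl.1 ht).1).1 (mem_fl.1 (mem_fl.1 ht).1).2
  unfold aa
  rw [(adj_of_row h1.2 h2.2 h1.1 h2.1 (mem_fl.1 ht).2).2]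

lemma NC0 (y : J → Finset α → ℝ) (T : Finset (Finset α)) (p : Finset α → Prop) (γ : Finset α)
    (hp : ∀ t ∈ T, p t → t ⊆ γ ∧ γ.card = t.card + 1) {r : Finset α → Finset α → Prop}
    (hr : ∀ s ∈ T, ∀ t ∈ T, r s t ↔ p s ∧ p t ∧ s ≠ t) :
    ES y T r ≤ ∑ t ∈ fl T p, wq y t := by
  have h0 := clique_id y (fl T p) (fun t => si γ t) (fun t => si_mul_self γ t)
  have h3 : ES y T r = - ∑ s ∈ fl T p, ∑ t ∈ fl (fl T p) (fun t => s ≠ t),
      si γ s * si γ t * G y s t := by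
    rw [ES_congr y T (r' := fun s t => s ∈ fl T p ∧ t ∈ fl T p ∧ s ≠ t)
      (fun s hs t ht => by rw [hr s hs t ht]; simp only [mem_fl]; tauto), ES_sub y (fl_subset T p),
      ← Finset.sum_neg_distrib]
    refine Finset.sum_congr rfl fun s hs => ?_
    rw [← Finset.sum_neg_distrib]
    refine Finset.sum_congr rfl fun t ht => ?_
    have h1 := hp s (mem_fl.1 hs).1 (mem_fl.1 hs).2
    have h2 := hp t (mem_fl.1 (mem_fl.1 ht).1).1 (mem_fl.1 (mem_fl.1 ht).1).2
    have h4 := adj_of_col h1.2 h2.2 h1.1 h2.1 (mem_fl.1 ht).2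
    rw [aa_col h4.1, h4.2]; ring
  have h5 : 0 ≤ ∑ j, (∑ t ∈ fl T p, si γ t * y j t) ^ 2 := Finset.sum_nonneg fun _ _ => sq_nonneg _
  linarith

/-- edges on a set of rows -/
lemma PC (y : J → Finset α → ℝ) {n : ℕ} {T S : Finset (Finset α)} (hT : ∀ t ∈ T, t.card = n + 2)
    (hS : ∀ a ∈ S, a.card = n + 1) :
    ES y T (fun s t => Adj s t ∧ s ∩ t ∈ S)
      = ∑ a ∈ S, ∑ j, (∑ t ∈ fl T (fun t => a ⊆ t), si t a * y j t) ^ 2
        - ∑ t ∈ T, wq y t * cn S (fun a => a ⊆ t) := by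
  rw [ES_key y T _ (fun s t => s ∩ t) S (fun _ _ _ _ h => h.2)]
  have h1 : ∑ t ∈ T, wq y t * cn S (fun a => a ⊆ t)
      = ∑ a ∈ S, ∑ t ∈ fl T (fun t => a ⊆ t), wq y t := by
    rw [sum_fl_comm S T (fun a t => a ⊆ t) (fun _ t => wq y t)]
    refine Finset.sum_congr rfl fun t _ => ?_
    rw [Finset.sum_const, nsmul_eq_mul, mul_comm]; rfl
  rw [h1, ← Finset.sum_sub_distrib]
  refine Finset.sum_congr rfl fun a ha => ?_
  refine PC0 y T _ a (fun t ht h => ⟨h, by rw [hT t ht, hS a ha]⟩) fun s hs t ht => ?_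
  constructor
  · rintro ⟨⟨h1, -⟩, rfl⟩
    exact ⟨Finset.inter_subset_left, Finset.inter_subset_right, h1.ne⟩
  · rintro ⟨h1, h2, h3⟩
    have := adj_of_row (by rw [hT s hs, hS a ha]) (by rw [hT t ht, hS a ha]) h1 h2 h3
    exact ⟨⟨this.1, by rw [this.2]; exact ha⟩, this.2⟩

/-- edges on a set of columns -/
lemma NC (y : J → Finset α → ℝ) {n : ℕ} {T C : Finset (Finset α)} (hT : ∀ t ∈ T, t.card = n)
    (hC : ∀ γ ∈ C, γ.card = n + 1) (p : Finset α → Prop) :
    ES y T (fun s t => Adj s t ∧ p s ∧ p t ∧ s ∪ t ∈ C)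
      ≤ ∑ t ∈ T, wq y t * cn C (fun γ => t ⊆ γ) := by
  rw [ES_key y T _ (fun s t => s ∪ t) C (fun _ _ _ _ h => h.2.2.2)]
  have h1 : ∑ t ∈ T, wq y t * cn C (fun γ => t ⊆ γ)
      = ∑ γ ∈ C, ∑ t ∈ fl T (fun t => t ⊆ γ), wq y t := by
    rw [sum_fl_comm C T (fun γ t => t ⊆ γ) (fun _ t => wq y t)]
    refine Finset.sum_congr rfl fun t _ => ?_
    rw [Finset.sum_const, nsmul_eq_mul, mul_comm]; rfl
  rw [h1]
  refine Finset.sum_le_sum fun γ hγ => ?_
  refine le_trans (NC0 y T (fun t => p t ∧ t ⊆ γ) γ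
    (fun t ht h => ⟨h.2, by rw [hT t ht, hC γ hγ]⟩) fun s hs t ht => ?_) ?_
  · constructor
    · rintro ⟨⟨h1, h2, h3, -⟩, rfl⟩
      exact ⟨⟨h2, Finset.subset_union_left⟩, ⟨h3, Finset.subset_union_right⟩, h1.ne⟩
    · rintro ⟨h1, h2, h3⟩
      have := adj_of_col (by rw [hT s hs, hC γ hγ]) (by rw [hT t ht, hC γ hγ]) h1.2 h2.2 h3
      exact ⟨⟨this.1, h1.1, h2.1, by rw [this.2]; exact hγ⟩, this.2⟩
  · exact Finset.sum_le_sum_of_subset_of_nonneg
      (fun t ht => mem_fl.2 ⟨(mem_fl.1 ht).1, (mem_fl.1 ht).2.2⟩) fun _ _ _ => wq_nonneg _ _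

lemma codeg (T : Finset (Finset α)) (r : Finset α → Finset α → Prop)
    (hr : ∀ s ∈ T, ∀ t ∈ T, r s t → Adj s t) {D : ℝ}
    (h1 : ∀ t ∈ T, ∀ ρ, cn T (fun s => r s t ∧ s ∩ t = ρ) ≤ D)
    (h2 : ∀ t ∈ T, ∀ γ, cn T (fun s => r s t ∧ s ∪ t = γ) ≤ D) :
    ∀ t ∈ T, ∀ u ∈ T, t ≠ u → cn T (fun s => r s t ∧ r s u) ≤ 2 * D + 4 := by
  intro t ht u hu hne
  have a1 := h1 t ht (t ∩ u)
  have a2 := h2 t ht (t ∪ u)
  have a3 := gm5 T t u
  have a4 : cn T (fun s => r s t ∧ r s u) ≤ cn T (fun s => r s t ∧ s ∩ t = t ∩ u)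
      + cn T (fun s => (r s t ∧ s ∪ t = t ∪ u) ∨
        (Adj s t ∧ Adj s u ∧ s ∩ t ≠ s ∩ u ∧ s ∪ t ≠ s ∪ u)) := by
    refine cn_or_le fun s hs h => ?_
    have b1 := hr s hs t ht h.1
    have b2 := hr s hs u hu h.2
    have hc : t.card = u.card := b1.1.symm.trans b2.1
    have b3 := inter_lt hc hne
    by_cases c1 : s ∩ t = s ∩ u
    · left
      refine ⟨h.1, Finset.eq_of_subset_of_card_le (Finset.subset_inter Finset.inter_subset_right
        (c1 ▸ Finset.inter_subset_right)) ?_⟩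
      have := b1.1; have := b1.2; omega
    · right
      by_cases c2 : s ∪ t = s ∪ u
      · left
        refine ⟨h.1, (Finset.eq_of_subset_of_card_le (Finset.union_subset Finset.subset_union_right
          (c2 ▸ Finset.subset_union_right)) ?_).symm⟩
        have := b1.card_union
        have := Finset.card_union_add_card_inter t u
        have := b1.1
        omega
      · exact Or.inr ⟨b1, b2, c1, c2⟩
  have a5 := cn_or_le (T := T) (p := fun s => (r s t ∧ s ∪ t = t ∪ u) ∨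
        (Adj s t ∧ Adj s u ∧ s ∩ t ≠ s ∩ u ∧ s ∪ t ≠ s ∪ u)) (fun _ _ h => h)
  linarith

lemma L3 (T Y : Finset (Finset α)) (r : Finset α → Finset α → Prop)
    (hr : ∀ s ∈ T, ∀ t ∈ T, r s t → Adj s t ∧ t ∈ Y) {D : ℝ}
    (h1 : ∀ s ∈ T, ∀ ρ, cn T (fun t => r s t ∧ s ∩ t = ρ) ≤ D)
    (h2 : ∀ s ∈ T, ∀ γ, cn T (fun t => r s t ∧ s ∪ t = γ) ≤ D) :
    ∑ s ∈ T, cn T (r s) ^ 2 ≤ 4 * (Y.card : ℝ) ^ 2 + 2 * D * NE T r := by
  let far : Finset α → Finset α → Finset α → Prop := fun s t u =>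
    Adj s t ∧ Adj s u ∧ s ∩ t ≠ s ∩ u ∧ s ∪ t ≠ s ∪ u
  have a1 : ∀ s ∈ T, cn T (r s) ^ 2 ≤ 2 * D * cn T (r s) + ∑ t ∈ Y, cn Y (far s t) := by
    intro s hs
    have b1 : ∀ t ∈ fl T (r s), cn T (r s) ≤ 2 * D + cn Y (far s t) := by
      intro t ht
      have c1 := h1 s hs (s ∩ t)
      have c2 := h2 s hs (s ∪ t)
      have c3 : cn T (r s) ≤ cn T (fun u => r s u ∧ s ∩ u = s ∩ t)
          + cn T (fun u => (r s u ∧ s ∪ u = s ∪ t) ∨ (u ∈ Y ∧ far s t u)) := by
        refine cn_or_le fun u hu h => ?_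
        by_cases d1 : s ∩ u = s ∩ t
        · exact Or.inl ⟨h, d1⟩
        · by_cases d2 : s ∪ u = s ∪ t
          · exact Or.inr (Or.inl ⟨h, d2⟩)
          · exact Or.inr (Or.inr ⟨(hr s hs u hu h).2, (hr s hs t (mem_fl.1 ht).1 (mem_fl.1 ht).2).1,
              (hr s hs u hu h).1, Ne.symm d1, Ne.symm d2⟩)
      have c4 := cn_or_le (T := T) (p := fun u => (r s u ∧ s ∪ u = s ∪ t) ∨ (u ∈ Y ∧ far s t u))
        (fun _ _ h => h)
      have c5 : cn T (fun u => u ∈ Y ∧ far s t u) ≤ cn Y (far s t) := cn_mono fun _ _ h => h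
      linarith
    have b2 := Finset.sum_le_sum b1
    rw [Finset.sum_add_distrib, Finset.sum_const, Finset.sum_const, nsmul_eq_mul, nsmul_eq_mul] at b2
    have b3 : ∑ t ∈ fl T (r s), cn Y (far s t) ≤ ∑ t ∈ Y, cn Y (far s t) :=
      Finset.sum_le_sum_of_subset_of_nonneg
        (fun t ht => (hr s hs t (mem_fl.1 ht).1 (mem_fl.1 ht).2).2) fun _ _ _ => cn_nonneg _ _
    change cn T (r s) * cn T (r s) ≤ cn T (r s) * (2 * D) + _ at b2
    nlinarith
  have a2 := Finset.sum_le_sum a1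
  rw [Finset.sum_add_distrib, ← Finset.mul_sum, Finset.sum_comm] at a2
  have a3 : ∑ t ∈ Y, ∑ s ∈ T, cn Y (far s t) ≤ ∑ _t ∈ Y, ∑ _u ∈ Y, (4 : ℝ) := by
    refine Finset.sum_le_sum fun t _ => ?_
    rw [sum_cn_comm T Y (fun s u => far s t u)]
    exact Finset.sum_le_sum fun u _ => gm5 T t u
  simp only [Finset.sum_const, nsmul_eq_mul] at a3
  unfold NE
  nlinarith

lemma L5g (T P H : Finset (Finset α)) (k1 k2 : Finset α → Finset α → Finset α)
    (inc : Finset α → Finset α → Prop)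
    (g3' : ∀ t u v, k1 t u = k1 t v → k2 t u = k2 t v → u = v)
    (g5 : ∀ u v, cn T (fun s => Adj s u ∧ Adj s v ∧ k1 s u ≠ k1 s v ∧ k2 s u ≠ k2 s v) ≤ 4)
    {D : ℝ} (hD : 2 ≤ D)
    (h : ∀ t ∈ T, ∀ o ∈ H, inc t o → D - 1 ≤ cn P (fun u => Adj t u ∧ k1 t u = o)) :
    (∑ t ∈ T, cn H (inc t) * (cn H (inc t) - 1)) * (D - 2) ^ 2 ≤ 4 * (P.card : ℝ) ^ 2 := by
  classical
  let far : Finset α → Finset α → Finset α → Prop := fun s u v =>
    Adj s u ∧ Adj s v ∧ k1 s u ≠ k1 s v ∧ k2 s u ≠ k2 s v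
  have a1 : ∀ t ∈ T, cn H (inc t) * (cn H (inc t) - 1) * (D - 2) ^ 2
      ≤ ∑ u ∈ P, cn P (far t u) := by
    intro t ht
    rcases cn_cases H (inc t) with h0 | h0
    · rw [h0]; simp only [zero_mul]; exact Finset.sum_nonneg fun _ _ => cn_nonneg _ _
    have b1 : ∀ u ∈ fl P (fun u => Adj t u ∧ k1 t u ∈ fl H (inc t)),
        (cn H (inc t) - 1) * (D - 2) ≤ cn P (far t u) := by
      intro u hu
      obtain ⟨-, hu1, hu2⟩ := mem_fl.1 hu
      have c1 := cn_ge_fiber P (far t u) (k1 t) ((fl H (inc t)).erase (k1 t u)) (B := D - 2)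
        (fun o ho => by
          have d1 := h t ht o (mem_fl.1 (Finset.mem_of_mem_erase ho)).1
            (mem_fl.1 (Finset.mem_of_mem_erase ho)).2
          have d2 : cn P (fun v => Adj t v ∧ k1 t v = o)
              ≤ cn P (fun v => far t u v ∧ k1 t v = o) + cn P (fun v => k1 t v = o ∧ k2 t v = k2 t u) := by
            refine cn_or_le fun v _ hv => ?_
            by_cases e : k2 t v = k2 t u
            · exact Or.inr ⟨hv.2, e⟩
            · exact Or.inl ⟨⟨hu1, hv.1, by rw [hv.2]; exact (Finset.ne_of_mem_erase ho).symm,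
                Ne.symm e⟩, hv.2⟩
          have d3 : cn P (fun v => k1 t v = o ∧ k2 t v = k2 t u) ≤ 1 :=
            cn_le_one fun v _ v' _ e e' => g3' t v v' (e.1.trans e'.1.symm) (e.2.trans e'.2.symm)
          linarith)
      rw [Finset.card_erase_of_mem hu2, Nat.cast_sub (Finset.card_pos.2 ⟨_, hu2⟩)] at c1
      simpa [cn] using c1
    have b2 := Finset.sum_le_sum b1
    rw [Finset.sum_const, nsmul_eq_mul] at b2
    have b3 := cn_ge_fiber P (fun u => Adj t u ∧ k1 t u ∈ fl H (inc t)) (k1 t) (fl H (inc t))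
      (B := D - 2) (fun o ho => by
        have d1 := h t ht o (mem_fl.1 ho).1 (mem_fl.1 ho).2
        have d2 : cn P (fun v => Adj t v ∧ k1 t v = o)
            ≤ cn P (fun v => (Adj t v ∧ k1 t v ∈ fl H (inc t)) ∧ k1 t v = o) :=
          cn_mono fun v hv e => ⟨hv, ⟨e.1, e.2 ▸ ho⟩, e.2⟩
        linarith)
    have b4 : ∑ u ∈ fl P (fun u => Adj t u ∧ k1 t u ∈ fl H (inc t)), cn P (far t u)
        ≤ ∑ u ∈ P, cn P (far t u) :=
      Finset.sum_le_sum_of_subset_of_nonneg (fl_subset _ _) fun _ _ _ => cn_nonneg _ _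
    have b5 : 0 ≤ (cn H (inc t) - 1) * (D - 2) := mul_nonneg (by linarith) (by linarith)
    have b6 := mul_le_mul_of_nonneg_right b3 b5
    change cn H (inc t) * (D - 2) * _ ≤ _ at b6
    change cn P _ * _ ≤ _ at b2
    nlinarith
  have a2 := Finset.sum_le_sum a1
  rw [← Finset.sum_mul, Finset.sum_comm] at a2
  have a3 : ∑ u ∈ P, ∑ s ∈ T, cn P (far s u) ≤ ∑ _t ∈ P, ∑ _u ∈ P, (4 : ℝ) := by
    refine Finset.sum_le_sum fun u _ => ?_
    rw [sum_cn_comm T P (fun s v => far s u v)]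
    exact Finset.sum_le_sum fun v _ => g5 u v
  simp only [Finset.sum_const, nsmul_eq_mul] at a3
  nlinarith

lemma L5r {n : ℕ} {T P H : Finset (Finset α)} (hT : ∀ t ∈ T, t.card = n + 1)
    (hP : ∀ t ∈ P, t.card = n + 1) (hH : ∀ a ∈ H, a.card = n) {D : ℝ} (hD : 2 ≤ D)
    (h : ∀ a ∈ H, D ≤ cn P (fun u => a ⊆ u)) :
    (∑ t ∈ T, cn H (fun a => a ⊆ t) * (cn H (fun a => a ⊆ t) - 1)) * (D - 2) ^ 2
      ≤ 4 * (P.card : ℝ) ^ 2 := by
  refine L5g T P H (fun s t => s ∩ t) (fun s t => s ∪ t) (fun t a => a ⊆ t)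
    (fun _ _ _ => g3) (gm5 T) hD fun t ht a ha hat => ?_
  have d1 := h a ha
  have d2 : cn P (fun u => a ⊆ u) ≤ cn P (fun u => Adj t u ∧ t ∩ u = a) + cn P (fun u => t = u) := by
    refine cn_or_le fun u hu e => ?_
    by_cases e1 : t = u
    · exact Or.inr e1
    · exact Or.inl (adj_of_row (by rw [hT t ht, hH a ha]) (by rw [hP u hu, hH a ha]) hat e e1)
  have d3 : cn P (fun u => t = u) ≤ 1 := cn_le_one fun _ _ _ _ e e' => e.symm.trans e'
  linarith

lemma L5c {n : ℕ} {T P H : Finset (Finset α)} (hT : ∀ t ∈ T, t.card = n)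
    (hP : ∀ t ∈ P, t.card = n) (hH : ∀ a ∈ H, a.card = n + 1) {D : ℝ} (hD : 2 ≤ D)
    (h : ∀ a ∈ H, D ≤ cn P (fun u => u ⊆ a)) :
    (∑ t ∈ T, cn H (fun a => t ⊆ a) * (cn H (fun a => t ⊆ a) - 1)) * (D - 2) ^ 2
      ≤ 4 * (P.card : ℝ) ^ 2 := by
  refine L5g T P H (fun s t => s ∪ t) (fun s t => s ∩ t) (fun t a => t ⊆ a)
    (fun _ _ _ h1 h2 => g3 h2 h1)
    (fun u v => le_trans (cn_mono fun s hs h => ⟨hs, h.1, h.2.1, h.2.2.2, h.2.2.1⟩) (gm5 T u v))
    hD fun t ht a ha hat => ?_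
  have d1 := h a ha
  have d2 : cn P (fun u => u ⊆ a) ≤ cn P (fun u => Adj t u ∧ t ∪ u = a) + cn P (fun u => t = u) := by
    refine cn_or_le fun u hu e => ?_
    by_cases e1 : t = u
    · exact Or.inr e1
    · exact Or.inl (adj_of_col (by rw [hT t ht, hH a ha]) (by rw [hP u hu, hH a ha]) hat e e1)
  have d3 : cn P (fun u => t = u) ≤ 1 := cn_le_one fun _ _ _ _ e e' => e.symm.trans e'
  linarith

lemma rows_one {n : ℕ} {T H : Finset (Finset α)} (hT : ∀ t ∈ T, t.card = n + 1)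
    (hH : ∀ a ∈ H, a.card = n) :
    ∀ b ∈ H, ∀ b' ∈ H, b ≠ b' → cn T (fun t => b ⊆ t ∧ b' ⊆ t) ≤ 1 := by
  intro b hb b' hb' hne
  have h1 : ¬ b' ⊆ b := not_sub_of_ne (by rw [hH b hb, hH b' hb']) hne.symm
  refine cn_le_one fun t ht t' ht' e e' => ?_
  rw [eq_union_of e.1 e.2 h1 (by rw [hT t ht, hH b hb]),
    eq_union_of e'.1 e'.2 h1 (by rw [hT t' ht', hH b hb])]

lemma cols_one {n : ℕ} {T H : Finset (Finset α)} (hT : ∀ t ∈ T, t.card = n)
    (hH : ∀ a ∈ H, a.card = n + 1) :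
    ∀ b ∈ H, ∀ b' ∈ H, b ≠ b' → cn T (fun t => t ⊆ b ∧ t ⊆ b') ≤ 1 := by
  intro b hb b' hb' hne
  have h1 : ¬ b ⊆ b' := not_sub_of_ne (by rw [hH b hb, hH b' hb']) hne
  refine cn_le_one fun t ht t' ht' e e' => ?_
  rw [eq_inter_of e.1 e.2 h1 (by rw [hT t ht, hH b hb]),
    eq_inter_of e'.1 e'.2 h1 (by rw [hT t' ht', hH b hb])]

lemma I1r {n : ℕ} {T H : Finset (Finset α)} (hT : ∀ t ∈ T, t.card = n + 1)
    (hH : ∀ a ∈ H, a.card = n) :
    ∑ t ∈ T, cn H (fun a => a ⊆ t) * (cn H (fun a => a ⊆ t) - 1) ≤ (H.card : ℝ) ^ 2 :=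
  I1 T H (fun t a => a ⊆ t) (rows_one hT hH)

/-- neighbours lying on one of the rows of `S`, along a row not in `S` -/
lemma deg_lines {n : ℕ} {T S : Finset (Finset α)} (hS : ∀ a ∈ S, a.card = n) {s : Finset α}
    (hs : s.card = n + 1) :
    cn T (fun t => Adj s t ∧ s ∩ t ∉ S ∧ ∃ a ∈ S, a ⊆ t) ≤ 2 * S.card := by
  have := cn_le_mul (T := T) (p := fun t => Adj s t ∧ s ∩ t ∉ S ∧ ∃ a ∈ S, a ⊆ t) S
    (fun a t => ¬ a ⊆ s ∧ a ⊆ t ∧ Adj s t) (fun t _ ⟨h1, h2, a, ha, h3⟩ => ⟨a, ha, fun h4 => h2 (by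
      have e := Finset.eq_of_subset_of_card_le (Finset.subset_inter h4 h3)
        (by have := h1.2; have := hS a ha; omega)
      rwa [← e]), h3, h1⟩) (B := 2) (fun a ha => by
      by_cases h4 : a ⊆ s
      · rw [cn_eq_zero fun t _ h => h.1 h4]; norm_num
      · exact le_trans (cn_mono fun t ht h => ⟨ht, h.2⟩) (gm1 T (by rw [hs, hS a ha]) h4))
  linarith

end Pool.Agent.Lib.MP_468ee0_co
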