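import Pool.Agent.Lib.MP_468ee0_co.U3RT

set_option autoImplicit false
set_option linter.unusedSectionVars false

namespace Pool.Agent.Lib.MP_468ee0_co

open Finset

lemma cn_le_of_ex {β : Type} {T : Finset β} {p : β → Prop} {B : ℝ} (hB : 0 ≤ B)
    (h : ∀ x ∈ T, p x → cn T p ≤ B) : cn T p ≤ B := by
  by_cases h1 : ∃ x ∈ T, p x
  · obtain ⟨x, hx, hp⟩ := h1; exact h x hx hp
  · rw [cn_eq_zero fun x hx hp => h1 ⟨x, hx, hp⟩]; exact hB

lemma AS_or {β J : Type} [Fintype J] (y : J → β → ℝ) (T : Finset β) {r : β → β → Prop}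
    (r1 r2 : β → β → Prop) (h : ∀ s ∈ T, ∀ t ∈ T, r s t → r1 s t ∨ r2 s t) :
    AS y T r ≤ AS y T r1 + AS y T r2 := by
  unfold AS
  rw [← Finset.sum_add_distrib]
  refine Finset.sum_le_sum fun s hs => ?_
  rw [sum_fl, sum_fl, sum_fl, ← Finset.sum_add_distrib]
  refine Finset.sum_le_sum fun t ht => ?_
  have := abs_nonneg (G y s t)
  have := h s hs t ht
  split_ifs <;> first | linarith | tauto

lemma e_bound {e f D : ℝ} (he : 0 ≤ e) (h : e ^ 2 ≤ f * (4 * f ^ 2 + 2 * D * e)) :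
    e ≤ 4 * D * f ∨ e ^ 2 ≤ 8 * f ^ 3 := by
  by_cases h1 : e ≤ 4 * D * f
  · exact Or.inl h1
  · right
    have := mul_le_mul_of_nonneg_left (not_le.1 h1).le he
    nlinarith

lemma le_of_sq {a b : ℝ} (h : a ^ 2 ≤ b ^ 2) (hb : 0 ≤ b) : a ≤ b := (abs_le_of_sq_le_sq' h hb).2

lemma le_of_four {a b : ℝ} (h : a ^ 4 ≤ b ^ 4) (hb : 0 ≤ b) : a ≤ b :=
  le_of_sq (le_of_sq (by nlinarith) (sq_nonneg _)) hb

variable {α J : Type} [LinearOrder α] [Fintype α] [Fintype J]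

lemma two_rows {η t : Finset α} (h : η ⊆ t) (hc : t.card = η.card + 2) :
    ∃ x x', x ≠ x' ∧ x ∉ η ∧ x' ∉ η ∧ t = insert x (insert x' η) ∧
      ∀ ρ, η ⊆ ρ → ρ ⊆ t → ρ.card = η.card + 1 → ρ = insert x η ∨ ρ = insert x' η := by
  have h1 : (t \ η).card = 2 := by rw [Finset.card_sdiff_of_subset h]; omega
  obtain ⟨x, x', hne, e⟩ := Finset.card_eq_two.1 h1
  have hx : x ∈ t \ η := by rw [e]; simp
  have hx' : x' ∈ t \ η := by rw [e]; simp
  refine ⟨x, x', hne, (Finset.mem_sdiff.1 hx).2, (Finset.mem_sdiff.1 hx').2, ?_, ?_⟩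
  · rw [← Finset.sdiff_union_of_subset h, e]; ext z; simp [or_assoc]
  · intro ρ h2 h3 h4
    obtain ⟨z, hz, hzη, -, e2, -⟩ := exists_erase h2 h4
    have : z ∈ t \ η := Finset.mem_sdiff.2 ⟨h3 hz, hzη⟩
    rw [e, Finset.mem_insert, Finset.mem_singleton] at this
    rcases this with rfl | rfl
    · exact Or.inl e2
    · exact Or.inr e2

lemma kt_pencil (η : Finset α) (R : Finset (Finset α)) (hR : ∀ ρ ∈ R, η ⊆ ρ ∧ ρ.card = η.card + 1)
    (u : J → Finset α → ℝ) (hu : Bes R u) (T : Finset (Finset α))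
    (hT : ∀ t ∈ T, η ⊆ t ∧ t.card = η.card + 2) :
    2 * ∑ t ∈ T, max (∑ j, (∑ ρ ∈ fl R (fun ρ => ρ ⊆ t), si t ρ * u j ρ) ^ 2 - 1) 0
      ≤ tr R u * (tr R u + 1) := by
  classical
  let z : J → α → ℝ := fun j x =>
    if insert x η ∈ R then si (insert x η) η * u j (insert x η) else 0
  have hnot : ∀ x, insert x η ∈ R → x ∉ η := fun x hx hxη => by
    have := (hR _ hx).2
    rw [Finset.insert_eq_of_mem hxη] at this
    omega
  have hs : ∀ g : Finset α → ℝ, ∑ x, (if insert x η ∈ R then g (insert x η) else 0) = ∑ ρ ∈ R, g ρ := by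
    intro g
    rw [← Finset.sum_filter]
    refine Finset.sum_bij (fun x _ => insert x η) (fun x hx => (Finset.mem_filter.1 hx).2)
      (fun x hx x' _ e => ?_) (fun ρ hρ => ?_) fun _ _ => rfl
    · have : x ∈ insert x' η := e ▸ Finset.mem_insert_self x η
      rcases Finset.mem_insert.1 this with h | h
      · exact h
      · exact absurd h (hnot x (Finset.mem_filter.1 hx).2)
    · obtain ⟨x, -, -, -, e, -⟩ := exists_erase (hR ρ hρ).1 (hR ρ hρ).2
      exact ⟨x, Finset.mem_filter.2 ⟨Finset.mem_univ _, e ▸ hρ⟩, e.symm⟩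
  have hz : Bes Finset.univ z := fun c => by
    refine le_trans (le_of_eq ?_) (hu c)
    rw [← hs]
    refine Finset.sum_congr rfl fun x _ => ?_
    simp only [z]
    split_ifs
    · have : ∑ j, c j * (si (insert x η) η * u j (insert x η))
          = si (insert x η) η * ∑ j, c j * u j (insert x η) := by
        rw [Finset.mul_sum]; exact Finset.sum_congr rfl fun _ _ => by ring
      rw [this, mul_pow, si_sq, one_mul]
    · simp
  have ht : tr Finset.univ z = tr R u := by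
    refine Finset.sum_congr rfl fun j _ => ?_
    unfold nq
    rw [← hs]
    refine Finset.sum_congr rfl fun x _ => ?_
    simp only [z]
    split_ifs
    · rw [mul_pow, si_sq, one_mul]
    · simp
  have hk := kt z hz
  rw [ht, ← Finset.sum_product'] at hk
  set f : α × α → ℝ := fun p => max (∑ j, (z j p.1 - z j p.2) ^ 2 - 1) 0 with hf
  have hf0 : ∀ p, 0 ≤ f p := fun p => le_max_right _ _
  have h1 : ∀ t ∈ T, 2 * max (∑ j, (∑ ρ ∈ fl R (fun ρ => ρ ⊆ t), si t ρ * u j ρ) ^ 2 - 1) 0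
      ≤ ∑ p ∈ fl (Finset.univ ×ˢ Finset.univ) (fun p : α × α => insert p.1 (insert p.2 η) = t),
        f p := by
    intro t ht
    obtain ⟨x, x', hne, hx, hx', e, hrow⟩ := two_rows (hT t ht).1 (hT t ht).2
    have c1 : (insert x η).card = η.card + 1 := Finset.card_insert_of_notMem hx
    have c2 : (insert x' η).card = η.card + 1 := Finset.card_insert_of_notMem hx'
    have s1 : insert x η ⊆ t := by
      rw [e]; exact Finset.insert_subset_insert _ (Finset.subset_insert _ _)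
    have s2 : insert x' η ⊆ t := by rw [e]; exact Finset.subset_insert _ _
    have hne' : insert x η ≠ insert x' η := fun h => by
      have : x ∈ insert x' η := h ▸ Finset.mem_insert_self x η
      rcases Finset.mem_insert.1 this with h | h
      · exact hne h
      · exact hx h
    have a1 := adj_of_row c1 c2 (Finset.subset_insert _ _) (Finset.subset_insert _ _) hne'
    have a2 := adj_of_col (γ := t) (by rw [c1, (hT t ht).2]) (by rw [c2, (hT t ht).2]) s1 s2 hne'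
    have sgn := sign_sq a1.1
    rw [a1.2, a2.2] at sgn
    have hfl : fl R (fun ρ => ρ ⊆ t)
        = ({insert x η, insert x' η} : Finset (Finset α)).filter (· ∈ R) := by
      ext ρ
      simp only [mem_fl, Finset.mem_filter, Finset.mem_insert, Finset.mem_singleton]
      constructor
      · rintro ⟨h1, h2⟩
        exact ⟨hrow ρ (hR ρ h1).1 h2 (hR ρ h1).2, h1⟩
      · rintro ⟨rfl | rfl, h1⟩
        · exact ⟨h1, s1⟩
        · exact ⟨h1, s2⟩
    have hd : ∀ j, (∑ ρ ∈ fl R (fun ρ => ρ ⊆ t), si t ρ * u j ρ) ^ 2 = (z j x - z j x') ^ 2 := by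
      intro j
      rw [hfl, Finset.sum_filter, Finset.sum_pair hne']
      simp only [z]
      have q1 := si_sq t (insert x η)
      have q2 := si_sq t (insert x' η)
      have q3 := si_sq (insert x η) η
      have q4 := si_sq (insert x' η) η
      split_ifs
      · linear_combination (u j (insert x η)) ^ 2 * (q1 - q3) + (u j (insert x' η)) ^ 2 * (q2 - q4)
          + 2 * u j (insert x η) * u j (insert x' η) * sgn
      · linear_combination (u j (insert x η)) ^ 2 * (q1 - q3)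
      · linear_combination (u j (insert x' η)) ^ 2 * (q2 - q4)
      · simp
    have hp : ((x, x') : α × α) ≠ (x', x) := fun h => hne (Prod.ext_iff.1 h).1
    have hsub : ({(x, x'), (x', x)} : Finset (α × α)) ⊆
        fl (Finset.univ ×ˢ Finset.univ) (fun p : α × α => insert p.1 (insert p.2 η) = t) := by
      intro p hp'
      rw [Finset.mem_insert, Finset.mem_singleton] at hp'
      rcases hp' with rfl | rfl
      · exact mem_fl.2 ⟨by simp, e.symm⟩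
      · exact mem_fl.2 ⟨by simp, by rw [e, Finset.insert_comm]⟩
    refine le_trans (le_of_eq ?_) (Finset.sum_le_sum_of_subset_of_nonneg hsub fun p _ _ => hf0 p)
    rw [Finset.sum_pair hp]
    simp only [hf]
    simp_rw [hd]
    have : ∀ j, (z j x' - z j x) ^ 2 = (z j x - z j x') ^ 2 := fun j => by ring
    simp_rw [this]
    ring
  have h2 := Finset.sum_le_sum h1
  rw [← Finset.mul_sum, sum_fl_comm T (Finset.univ ×ˢ Finset.univ)
    (fun t (p : α × α) => insert p.1 (insert p.2 η) = t) (fun _ p => f p)] at h2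
  refine h2.trans (le_trans (Finset.sum_le_sum fun p _ => ?_) hk)
  rw [Finset.sum_const, nsmul_eq_mul]
  have : cn T (fun t => insert p.1 (insert p.2 η) = t) ≤ 1 :=
    cn_le_one fun _ _ _ _ e e' => e.symm.trans e'
  exact mul_le_of_le_one_left (hf0 p) this

/-- the graph case in the picture of faces -/
lemma kt_face (η : Finset α) (T : Finset (Finset α)) (hT : ∀ t ∈ T, η ⊆ t ∧ t.card = η.card + 2)
    (y : J → Finset α → ℝ) (hy : Bes T y) :
    QF T y ≤ T.card + (Fintype.card J : ℝ) * (Fintype.card J - 1) / 2 := by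
  set R := fl Finset.univ (fun ρ : Finset α => η ⊆ ρ ∧ ρ.card = η.card + 1) with hR
  have hR' : ∀ ρ ∈ R, η ⊆ ρ ∧ ρ.card = η.card + 1 := fun ρ h => (mem_fl.1 h).2
  have h1 := PC y (T := T) (S := R) (fun t ht => (hT t ht).2) (fun a ha => (hR' a ha).2)
  have h2 : ES y T Adj = ES y T (fun s t => Adj s t ∧ s ∩ t ∈ R) :=
    ES_congr y T fun s hs t ht => ⟨fun h => ⟨h, mem_fl.2 ⟨Finset.mem_univ _,
      Finset.subset_inter (hT s hs).1 (hT t ht).1, by have := h.2; have := (hT s hs).2; omega⟩⟩,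
      fun h => h.1⟩
  have h3 : 2 * tr T y ≤ ∑ t ∈ T, wq y t * cn R (fun a => a ⊆ t) := by
    rw [tr_eq_wq, Finset.mul_sum]
    refine Finset.sum_le_sum fun t ht => ?_
    obtain ⟨x, x', hne, hx, hx', e, -⟩ := two_rows (hT t ht).1 (hT t ht).2
    have hne' : insert x η ≠ insert x' η := fun h => by
      have : x ∈ insert x' η := h ▸ Finset.mem_insert_self x η
      rcases Finset.mem_insert.1 this with h | h
      · exact hne h
      · exact hx h
    have hsub : ({insert x η, insert x' η} : Finset (Finset α)) ⊆ fl R (fun a => a ⊆ t) := by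
      intro ρ hρ
      rw [Finset.mem_insert, Finset.mem_singleton] at hρ
      rcases hρ with rfl | rfl
      · exact mem_fl.2 ⟨mem_fl.2 ⟨Finset.mem_univ _, Finset.subset_insert _ _,
          Finset.card_insert_of_notMem hx⟩,
          by rw [e]; exact Finset.insert_subset_insert _ (Finset.subset_insert _ _)⟩
      · exact mem_fl.2 ⟨mem_fl.2 ⟨Finset.mem_univ _, Finset.subset_insert _ _,
          Finset.card_insert_of_notMem hx'⟩, by rw [e]; exact Finset.subset_insert _ _⟩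
    have := Finset.card_le_card hsub
    rw [Finset.card_pair hne'] at this
    have h4 : (2 : ℝ) ≤ cn R (fun a => a ⊆ t) := by unfold cn; exact_mod_cast this
    nlinarith [wq_nonneg y t]
  obtain ⟨u, j', a1, a2, a3, a4⟩ := RT T R (fun a t => a ⊆ t) (fun a t => si t a) y hy
  have h5 := kt_pencil η R hR' u a2 T hT
  have h6 : ∑ t ∈ T, ∑ j, (∑ ρ ∈ fl R (fun ρ => ρ ⊆ t), si t ρ * u j ρ) ^ 2
      ≤ ∑ t ∈ T, (max (∑ j, (∑ ρ ∈ fl R (fun ρ => ρ ⊆ t), si t ρ * u j ρ) ^ 2 - 1) 0 + 1) :=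
    Finset.sum_le_sum fun t _ => by
      have := le_max_left (∑ j, (∑ ρ ∈ fl R (fun ρ => ρ ⊆ t), si t ρ * u j ρ) ^ 2 - 1) 0
      linarith
  rw [Finset.sum_add_distrib, Finset.sum_const, nsmul_eq_mul, mul_one] at h6
  have h7 := tr_nonneg R u
  have h8 : tr R u * (tr R u + 1) ≤ j' * (j' + 1) := by nlinarith
  have h9 : (j' : ℝ) * (j' - 1) ≤ (Fintype.card J : ℝ) * (Fintype.card J - 1) := by
    rcases a1.eq_or_lt with h | h
    · rw [h]
    · have b1 : (j' : ℝ) + 1 ≤ Fintype.card J := by exact_mod_cast h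
      have b2 : (0 : ℝ) ≤ j' := Nat.cast_nonneg _
      nlinarith
  unfold QF
  linarith

lemma d_le_cn {ι : Type} {O : Finset ι} {u : J → ι → ℝ} (hu : Bes O u) (p : ι → Prop) (c : ι → ℝ)
    (hc : ∀ o, c o ^ 2 = 1) : ∑ j, (∑ o ∈ fl O p, c o * u j o) ^ 2 ≤ cn O p := by
  have := hu.ana_sub (fl_subset O p) c
  simp_rw [hc] at this
  rwa [cn_eq_sum]

lemma d_le_mul {ι : Type} (A : Finset ι) (u : J → ι → ℝ) (c : ι → ℝ) (hc : ∀ o, c o ^ 2 = 1) :
    ∑ j, (∑ o ∈ A, c o * u j o) ^ 2 ≤ A.card * ∑ o ∈ A, wq u o := by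
  unfold wq
  rw [Finset.sum_comm, Finset.mul_sum]
  refine Finset.sum_le_sum fun j _ => ?_
  have := Finset.sum_mul_sq_le_sq_mul_sq A c (u j)
  simp_rw [hc] at this
  simpa using this

lemma lemA0 {n : ℕ} {T S : Finset (Finset α)} (hT : ∀ t ∈ T, t.card = n + 2)
    (hS : ∀ a ∈ S, a.card = n + 1) (y : J → Finset α → ℝ) (hy : Bes T y)
    {j m f0 L1' L2 X1 X3 : ℝ} (hj : j = Fintype.card J) (hj1 : 1 ≤ j) (hm : m = S.card)
    (hf0 : f0 = cn T (fun t => ¬ ∃ a ∈ S, a ⊆ t)) (hL1 : 0 ≤ L1') (hL2 : 0 ≤ L2)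
    (h1 : ∀ a ∈ S, L1' ≤ cn T (fun t => a ⊆ t))
    (h2 : ∀ ρ : Finset α, ρ.card = n + 1 → ρ ∉ S → cn T (fun t => ρ ⊆ t) ≤ L2)
    (hX1 : 0 ≤ X1) (hX1' : 2 * j * m * f0 ≤ X1 ^ 2) (hX3 : 0 ≤ X3)
    (hX3a : 8 * f0 ^ 3 * j ^ 2 ≤ X3 ^ 4) (hX3b : 4 * (L2 + 18 * j) * f0 * j ≤ X3 ^ 2) :
    QF T y ≤ T.card - f0 + 3 * j + 2 * m ^ 2 - L1' * (m - j) + 2 * j * m + 2 * X1 + f0 / 8 + X3 := by
  classical
  set P := fl T (fun t => ¬ ∃ a ∈ S, a ⊆ t) with hP
  have hPc : (P.card : ℝ) = f0 := hf0.symm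
  have hP' : ∀ t ∈ P, t.card = n + 2 := fun t ht => hT t (mem_fl.1 ht).1
  set C := fl Finset.univ (fun γ : Finset α => γ.card = n + 3 ∧ 18 * j ≤ cn P (fun t => t ⊆ γ))
    with hC
  have htr : tr T y ≤ j := hj ▸ hy.tr_le
  have htr0 := tr_nonneg T y
  have hm0 : 0 ≤ m := hm ▸ Nat.cast_nonneg _
  have hf00 : 0 ≤ f0 := hf0 ▸ cn_nonneg _ _
  -- rows of S
  have a1 := PC y hT hS
  have a2 : 0 ≤ ∑ t ∈ T, wq y t * cn S (fun a => a ⊆ t) :=
    Finset.sum_nonneg fun _ _ => mul_nonneg (wq_nonneg _ _) (cn_nonneg _ _)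
  obtain ⟨u, j', -, b2, -, b4⟩ := RT T S (fun a t => a ⊆ t) (fun a t => si t a) y hy
  have b5 : ∀ t ∈ T, ∑ j, (∑ a ∈ fl S (fun a => a ⊆ t), si t a * u j a) ^ 2
      ≤ (if ∃ a ∈ S, a ⊆ t then 1 else 0) + ∑ a ∈ fl S (fun a => a ⊆ t), (wq u a - 1)
        + 2 * (cn S (fun a => a ⊆ t) * (cn S (fun a => a ⊆ t) - 1)) := by
    intro t _
    have c1 := d_le_cn b2 (fun a => a ⊆ t) (si t) (si_sq t)
    have c2 := d_le_mul (fl S (fun a => a ⊆ t)) u (si t) (si_sq t)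
    have c3 : 0 ≤ ∑ a ∈ fl S (fun a => a ⊆ t), wq u a := Finset.sum_nonneg fun _ _ => wq_nonneg _ _
    rw [Finset.sum_sub_distrib, ← cn_eq_sum]
    change _ ≤ cn S (fun a => a ⊆ t) * _ at c2
    split_ifs with h
    · obtain ⟨a, ha, hat⟩ := h
      have c4 : 1 ≤ (fl S (fun a => a ⊆ t)).card := Finset.card_pos.2 ⟨a, mem_fl.2 ⟨ha, hat⟩⟩
      rcases c4.eq_or_lt with c5 | c5
      · have : cn S (fun a => a ⊆ t) = 1 := by unfold cn; exact_mod_cast c5.symm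
        rw [this] at c2 ⊢
        linarith
      · have : 2 ≤ cn S (fun a => a ⊆ t) := by unfold cn; exact_mod_cast c5
        have := mul_le_mul_of_nonneg_left this (cn_nonneg S (fun a => a ⊆ t))
        linarith
    · have : cn S (fun a => a ⊆ t) = 0 := cn_eq_zero fun a ha hat => h ⟨a, ha, hat⟩
      rw [this] at c1 ⊢
      linarith
  have b6 := Finset.sum_le_sum b5
  rw [Finset.sum_add_distrib, Finset.sum_add_distrib, ← Finset.mul_sum] at b6
  have b7 := I1r hT hS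
  have b8 : ∑ t ∈ T, (if ∃ a ∈ S, a ⊆ t then (1 : ℝ) else 0) = T.card - f0 := by
    have := cn_add_not T (fun t => ∃ a ∈ S, a ⊆ t)
    rw [cn_eq_sum, sum_fl, ← hf0] at this
    rw [← this]
    simp only [add_sub_cancel_right]
    exact Finset.sum_congr rfl fun t _ => by congr
  have b9 : ∑ t ∈ T, ∑ a ∈ fl S (fun a => a ⊆ t), (wq u a - 1) ≤ - (L1' * (m - j)) := by
    rw [sum_fl_comm T S (fun t a => a ⊆ t) (fun _ a => wq u a - 1)]
    have c1 : ∀ a ∈ S, ∑ _t ∈ fl T (fun t => a ⊆ t), (wq u a - 1) ≤ L1' * (wq u a - 1) := by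
      intro a ha
      rw [Finset.sum_const, nsmul_eq_mul]
      exact mul_le_mul_of_nonpos_right (h1 a ha) (by linarith [b2.wq_le ha])
    refine (Finset.sum_le_sum c1).trans ?_
    rw [← Finset.mul_sum, Finset.sum_sub_distrib, ← tr_eq_wq, Finset.sum_const, nsmul_eq_mul,
      mul_one, ← hm]
    have := b2.tr_le
    rw [← hj] at this
    have := mul_le_mul_of_nonneg_left this hL1
    linarith
  rw [← hm] at b7
  -- long columns
  have c1 := NC y hT (C := C) (fun γ hγ => (mem_fl.1 hγ).2.1) (fun t => t ∈ P)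
  have c2 := L5c (H := C) hT hP' (fun γ hγ => (mem_fl.1 hγ).2.1) (D := 18 * j) (by linarith)
    (fun γ hγ => (mem_fl.1 hγ).2.2)
  have c3 := I3 T (wq y) (fun t => cn C (fun γ => t ⊆ γ))
    (fun t ht => ⟨wq_nonneg _ _, hy.wq_le ht⟩) (fun t _ => cn_cases _ _) (X := f0 / 8)
    (by positivity) (by
      rw [← tr_eq_wq]
      rw [hPc] at c2
      set W := ∑ t ∈ T, cn C (fun γ => t ⊆ γ) * (cn C (fun γ => t ⊆ γ) - 1)
      have hW : 0 ≤ W := Finset.sum_nonneg fun _ _ => cn_cc_nonneg _ _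
      have e1 : W * (16 * j) ^ 2 ≤ W * (18 * j - 2) ^ 2 :=
        mul_le_mul_of_nonneg_left (pow_le_pow_left₀ (by linarith) (by linarith) 2) hW
      have e3 : j * 1 ≤ j * j := mul_le_mul_of_nonneg_left hj1 (by linarith)
      have e2 : tr T y * W ≤ j ^ 2 * W := mul_le_mul_of_nonneg_right (by linarith) hW
      linarith)
  rw [← tr_eq_wq] at c3
  -- the remaining edges
  have d1 : AS y T (fun s t => Adj s t ∧ s ∩ t ∉ S ∧ s ∉ P ∧ t ∉ P) ≤ 2 * m * tr T y := by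
    refine Sch1 T y _ (by linarith) (fun s hs => ?_) fun t ht => ?_
    · refine le_trans (cn_mono fun t ht h => ⟨ht, h.1, h.2.1, ?_⟩) (hm ▸ deg_lines hS (hT s hs))
      by_contra h3; exact h.2.2.2 (mem_fl.2 ⟨ht, h3⟩)
    · refine le_trans (cn_mono fun s hs h => ⟨hs, h.1.symm, Finset.inter_comm s t ▸ h.2.1, ?_⟩)
        (hm ▸ deg_lines hS (hT t ht))
      by_contra h3; exact h.2.2.1 (mem_fl.2 ⟨hs, h3⟩)
  have d2 : AS y T (fun s t => Adj s t ∧ s ∩ t ∉ S ∧ s ∈ P ∧ t ∉ P) ≤ X1 := by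
    refine le_of_sq ((L1 hy _).trans (le_trans ?_ hX1')) hX1
    have e1 := NE_le_out T P (fun s t => Adj s t ∧ s ∩ t ∉ S ∧ s ∈ P ∧ t ∉ P)
      (fun _ _ _ _ h => h.2.2.1) (A := 2 * m) (by linarith) (fun s hs => by
        refine le_trans (cn_mono fun t ht h => ⟨ht, h.1, h.2.1, ?_⟩) (hm ▸ deg_lines hS (hT s hs))
        by_contra h3; exact h.2.2.2 (mem_fl.2 ⟨ht, h3⟩))
    rw [hPc] at e1
    rw [← hj]
    have := mul_le_mul_of_nonneg_left e1 (by linarith : 0 ≤ j)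
    linarith
  have d3 : AS y T (fun s t => Adj t s ∧ t ∩ s ∉ S ∧ t ∈ P ∧ s ∉ P) ≤ X1 := by
    rw [AS_flip y T (fun s t => Adj s t ∧ s ∩ t ∉ S ∧ s ∈ P ∧ t ∉ P)]; exact d2
  have d4 : AS y T (fun s t => Adj s t ∧ s ∈ P ∧ t ∈ P ∧ s ∪ t ∉ C) ≤ X3 := by
    refine le_of_sq ((L1 hy _).trans ?_) hX3
    have e1 := L3 T P (fun s t => Adj s t ∧ s ∈ P ∧ t ∈ P ∧ s ∪ t ∉ C) (fun _ _ _ _ h => ⟨h.1, h.2.2.1⟩)
      (D := L2 + 18 * j) (fun s hs ρ => by
        refine cn_le_of_ex (by linarith) fun t _ h => ?_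
        have g1 : ρ.card = n + 1 := by have := h.1.1.2; have := hT s hs; rw [← h.2]; omega
        have g2 : ρ ∉ S := fun g => (mem_fl.1 h.1.2.1).2 ⟨ρ, g, h.2 ▸ Finset.inter_subset_left⟩
        have g3 : cn T (fun t => (Adj s t ∧ s ∈ P ∧ t ∈ P ∧ s ∪ t ∉ C) ∧ s ∩ t = ρ)
            ≤ cn T (fun t => ρ ⊆ t) := cn_mono fun t ht h => ⟨ht, h.2 ▸ Finset.inter_subset_right⟩
        linarith [h2 ρ g1 g2]) (fun s hs γ => by
        refine cn_le_of_ex (by linarith) fun t _ h => ?_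
        have g1 : γ.card = n + 3 := by rw [← h.2, h.1.1.card_union, hT s hs]
        have g2 : ¬ 18 * j ≤ cn P (fun t => t ⊆ γ) := fun g =>
          h.1.2.2.2 (h.2 ▸ mem_fl.2 ⟨Finset.mem_univ _, g1, g⟩)
        have g3 : cn T (fun t => (Adj s t ∧ s ∈ P ∧ t ∈ P ∧ s ∪ t ∉ C) ∧ s ∪ t = γ)
            ≤ cn P (fun t => t ⊆ γ) :=
          cn_mono fun t _ h => ⟨h.1.2.2.1, h.2 ▸ Finset.subset_union_right⟩
        linarith [not_le.1 g2])
    have e2 := NE_sq_le T P (fun s t => Adj s t ∧ s ∈ P ∧ t ∈ P ∧ s ∪ t ∉ C) (fun _ _ _ _ h => h.2.1)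
    rw [hPc] at e1 e2
    have e3 := NE_nonneg T (fun s t => Adj s t ∧ s ∈ P ∧ t ∈ P ∧ s ∪ t ∉ C)
    set e := NE T (fun s t => Adj s t ∧ s ∈ P ∧ t ∈ P ∧ s ∪ t ∉ C)
    rw [← hj]
    rcases e_bound e3 (e2.trans (mul_le_mul_of_nonneg_left e1 hf00)) with g | g
    · have := mul_le_mul_of_nonneg_left g (by linarith : 0 ≤ j)
      linarith
    · refine le_of_sq ?_ (sq_nonneg _)
      have := mul_le_mul_of_nonneg_left g (sq_nonneg j)
      linarith
  have s1 := ES_split y T Adj (fun s t => s ∩ t ∈ S)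
  have s2 := ES_split y T (fun s t => Adj s t ∧ s ∩ t ∉ S) (fun s t => s ∈ P ∧ t ∈ P ∧ s ∪ t ∈ C)
  have s3 : ES y T (fun s t => (Adj s t ∧ s ∩ t ∉ S) ∧ s ∈ P ∧ t ∈ P ∧ s ∪ t ∈ C)
      = ES y T (fun s t => Adj s t ∧ s ∈ P ∧ t ∈ P ∧ s ∪ t ∈ C) :=
    ES_congr y T fun s _ t _ => ⟨fun h => ⟨h.1.1, h.2⟩, fun h => ⟨⟨h.1, fun g =>
      (mem_fl.1 h.2.1).2 ⟨_, g, Finset.inter_subset_left⟩⟩, h.2⟩⟩
  have s4 := ES_le_AS y T (fun s t => (Adj s t ∧ s ∩ t ∉ S) ∧ ¬ (s ∈ P ∧ t ∈ P ∧ s ∪ t ∈ C))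
  have s5 := AS_or y T (r := fun s t => (Adj s t ∧ s ∩ t ∉ S) ∧ ¬ (s ∈ P ∧ t ∈ P ∧ s ∪ t ∈ C))
    (fun s t => Adj s t ∧ s ∩ t ∉ S ∧ s ∉ P ∧ t ∉ P)
    (fun s t => (Adj s t ∧ s ∩ t ∉ S ∧ s ∈ P ∧ t ∉ P) ∨ (Adj t s ∧ t ∩ s ∉ S ∧ t ∈ P ∧ s ∉ P)
      ∨ (Adj s t ∧ s ∈ P ∧ t ∈ P ∧ s ∪ t ∉ C)) (fun s _ t _ h => by
      have := h.1.1.symm
      rw [Finset.inter_comm t s]
      tauto)
  have s6 := AS_or y T (r := fun s t => (Adj s t ∧ s ∩ t ∉ S ∧ s ∈ P ∧ t ∉ P) ∨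
      (Adj t s ∧ t ∩ s ∉ S ∧ t ∈ P ∧ s ∉ P) ∨ (Adj s t ∧ s ∈ P ∧ t ∈ P ∧ s ∪ t ∉ C)) _ _
      (fun _ _ _ _ h => h)
  have s7 := AS_or y T (r := fun s t =>
      (Adj t s ∧ t ∩ s ∉ S ∧ t ∈ P ∧ s ∉ P) ∨ (Adj s t ∧ s ∈ P ∧ t ∈ P ∧ s ∪ t ∉ C)) _ _
      (fun _ _ _ _ h => h)
  have s8 : (0 : ℝ) ≤ j' := Nat.cast_nonneg _
  have s9 : 2 * m * tr T y ≤ 2 * j * m := by
    have := mul_le_mul_of_nonneg_left htr hm0
    linarith
  unfold QF
  linarith

lemma lemA {n : ℕ} {T S : Finset (Finset α)} (hT : ∀ t ∈ T, t.card = n + 2)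
    (hS : ∀ a ∈ S, a.card = n + 1) (y : J → Finset α → ℝ) (hy : Bes T y)
    {j m f0 L1' L2 : ℝ} (hj : j = Fintype.card J) (hj1 : 1 ≤ j) (hm : m = S.card)
    (hf0 : f0 = cn T (fun t => ¬ ∃ a ∈ S, a ⊆ t)) (hL1 : 0 ≤ L1') (hL2 : 0 ≤ L2)
    (h1 : ∀ a ∈ S, L1' ≤ cn T (fun t => a ⊆ t))
    (h2 : ∀ ρ : Finset α, ρ.card = n + 1 → ρ ∉ S → cn T (fun t => ρ ⊆ t) ≤ L2) :
    QF T y ≤ T.card - f0 / 2 + 3 * j + 2 * m ^ 2 - L1' * (m - j) + 18 * j * m
      + 16 * j * (L2 + 18 * j) := by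
  have hm0 : 0 ≤ m := hm ▸ Nat.cast_nonneg _
  have hf00 : 0 ≤ f0 := hf0 ▸ cn_nonneg _ _
  have hj0 : 0 ≤ j := by linarith
  have hb : 0 ≤ 16 * j * (L2 + 18 * j) := by positivity
  have := lemA0 hT hS y hy hj hj1 hm hf0 hL1 hL2 h1 h2 (X1 := f0 / 16 + 8 * j * m)
    (X3 := f0 / 4 + 16 * j * (L2 + 18 * j)) (by positivity)
    (by nlinarith [sq_nonneg (f0 / 16 - 8 * j * m)]) (by positivity)
    (by
      set a := f0 / 4 with ha
      set b := 16 * j * (L2 + 18 * j) with hb'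
      have ha0 : 0 ≤ a := by positivity
      have e1 : 288 * j ^ 2 ≤ b := by rw [hb']; nlinarith [mul_nonneg hj0 hL2]
      have e2 : 4 * a ^ 3 * b ≤ (a + b) ^ 4 := by
        have : (a + b) ^ 4 = 4 * a ^ 3 * b + (a ^ 4 + 6 * a ^ 2 * b ^ 2 + 4 * a * b ^ 3 + b ^ 4) := by
          ring
        rw [this]
        exact le_add_of_nonneg_right (by positivity)
      have e3 : 4 * a ^ 3 * (288 * j ^ 2) ≤ 4 * a ^ 3 * b :=
        mul_le_mul_of_nonneg_left e1 (by positivity)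
      have e4 : 4 * a ^ 3 * (288 * j ^ 2) = 18 * (f0 ^ 3 * j ^ 2) := by rw [ha]; ring
      have e5 : 0 ≤ f0 ^ 3 * j ^ 2 := by positivity
      linarith)
    (by nlinarith [sq_nonneg (f0 / 4 - 16 * j * (L2 + 18 * j)), mul_nonneg hf00 hb])
  linarith

/-- rows carrying at least `L` faces -/
noncomputable def sup' (n : ℕ) (T : Finset (Finset α)) (L : ℝ) : Finset (Finset α) :=
  fl Finset.univ (fun ρ : Finset α => ρ.card = n + 1 ∧ L ≤ cn T (fun t => ρ ⊆ t))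

lemma thmA_few {n : ℕ} {T : Finset (Finset α)} (hT : ∀ t ∈ T, t.card = n + 2)
    (y : J → Finset α → ℝ) (hy : Bes T y) {j : ℝ} (hj : j = Fintype.card J) (hj1 : 1 ≤ j)
    (hm : ((sup' n T (200 * j)).card : ℝ) ≤ 40 * j) :
    QF T y ≤ T.card - cn T (fun t => ¬ ∃ a ∈ sup' n T (200 * j), a ⊆ t) / 2 + 4000 * j ^ 2 := by
  have := lemA hT (S := sup' n T (200 * j)) (fun a ha => (mem_fl.1 ha).2.1) y hy hj hj1 rfl rfl
    (L1' := 200 * j) (L2 := 200 * j) (by linarith) (by linarith) (fun a ha => (mem_fl.1 ha).2.2)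
    (fun ρ h1 h2 => le_of_not_ge fun h => h2 (mem_fl.2 ⟨Finset.mem_univ _, h1, h⟩))
  have hm0 : (0 : ℝ) ≤ (sup' n T (200 * j)).card := Nat.cast_nonneg _
  nlinarith [mul_le_mul_of_nonneg_left hm hm0, mul_nonneg hm0 (by linarith : 0 ≤ j)]

lemma thmA_many {n : ℕ} {T : Finset (Finset α)} (hT : ∀ t ∈ T, t.card = n + 2)
    (y : J → Finset α → ℝ) (hy : Bes T y) {j : ℝ} (hj : j = Fintype.card J) (hj1 : 1 ≤ j)
    (hm : 40 * j < ((sup' n T (200 * j)).card : ℝ)) : QF T y ≤ T.card := by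
  classical
  have hanti : ∀ a b : ℝ, a ≤ b → sup' n T b ⊆ sup' n T a := fun a b h ρ hρ =>
    mem_fl.2 ⟨Finset.mem_univ _, (mem_fl.1 hρ).2.1, h.trans (mem_fl.1 hρ).2.2⟩
  have hJ : 1 ≤ Fintype.card J := by rw [hj] at hj1; exact_mod_cast hj1
  have hex : ∃ l : ℕ, (sup' n T ((l : ℝ) + 1)).card < 40 * Fintype.card J := by
    refine ⟨T.card, ?_⟩
    have : sup' n T ((T.card : ℝ) + 1) = ∅ := Finset.eq_empty_of_forall_notMem fun ρ hρ => by
      have := (mem_fl.1 hρ).2.2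
      linarith [cn_le_card T (fun t => ρ ⊆ t)]
    rw [this, Finset.card_empty]; omega
  set l := Nat.find hex with hl
  have h1 := Nat.find_spec hex
  rw [← hl] at h1
  have h2 : 200 * Fintype.card J ≤ l := by
    by_contra h
    have h3 : (l : ℝ) + 1 ≤ 200 * j := by rw [hj]; exact_mod_cast not_le.1 h
    have h4 := Finset.card_le_card (hanti _ _ h3)
    have h5 : 40 * Fintype.card J < (sup' n T (200 * j)).card := by
      rw [hj] at hm ⊢; exact_mod_cast hm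
    omega
  have h3 : 40 * Fintype.card J ≤ (sup' n T l).card := by
    have := Nat.find_min hex (m := l - 1) (by omega)
    rw [Nat.cast_sub (by omega : 1 ≤ l)] at this
    simpa using this
  obtain ⟨S, s1, s2, s3⟩ := Finset.exists_subsuperset_card_eq (hanti l (l + 1) (by linarith))
    h1.le h3
  have h4 : 200 * j ≤ l := by rw [hj]; exact_mod_cast h2
  have := lemA hT (S := S) (fun a ha => (mem_fl.1 (s2 ha)).2.1) y hy hj hj1 (m := 40 * j)
    (by rw [s3, hj]; push_cast; ring) rfl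
    (L1' := l) (L2 := l) (Nat.cast_nonneg _) (Nat.cast_nonneg _) (fun a ha => (mem_fl.1 (s2 ha)).2.2)
    (fun ρ g1 g2 => by
      by_contra g
      refine g2 (s1 (mem_fl.2 ⟨Finset.mem_univ _, g1, ?_⟩))
      unfold cn at g ⊢
      exact_mod_cast not_le.1 g)
  have h5 := cn_nonneg T (fun t => ¬ ∃ a ∈ S, a ⊆ t)
  nlinarith [mul_le_mul_of_nonneg_left h4 (by linarith : 0 ≤ j)]

lemma QF_empty (T : Finset (Finset α)) (y : J → Finset α → ℝ) (h : Fintype.card J = 0) :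
    QF T y = 0 := by
  have := Fintype.card_eq_zero_iff.1 h
  simp [QF, tr, ES, G]

theorem thmA {n : ℕ} {T : Finset (Finset α)} (hT : ∀ t ∈ T, t.card = n + 2)
    (y : J → Finset α → ℝ) (hy : Bes T y) :
    QF T y ≤ T.card + 4000 * (Fintype.card J : ℝ) ^ 2 := by
  rcases Nat.eq_zero_or_pos (Fintype.card J) with h | h
  · rw [QF_empty T y h]; positivity
  have hj1 : (1 : ℝ) ≤ Fintype.card J := by exact_mod_cast h
  by_cases hm : ((sup' n T (200 * (Fintype.card J : ℝ))).card : ℝ) ≤ 40 * Fintype.card J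
  · have := thmA_few hT y hy rfl hj1 hm
    linarith [cn_nonneg T (fun t => ¬ ∃ a ∈ sup' n T (200 * (Fintype.card J : ℝ)), a ⊆ t)]
  · have := thmA_many hT y hy rfl hj1 (not_le.1 hm)
    nlinarith

end Pool.Agent.Lib.MP_468ee0_co
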