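import Pool.Agent.Lib.MP_468ee0_co.U4A

set_option autoImplicit false
set_option linter.unusedSectionVars false

namespace Pool.Agent.Lib.MP_468ee0_co

open Finset

variable {α J : Type} [LinearOrder α] [Fintype α] [Fintype J]

/-- identity plus signed adjacency applied to a vector -/
noncomputable def Mv (T : Finset (Finset α)) (v : Finset α → ℝ) (t : Finset α) : ℝ :=
  v t + ∑ u ∈ fl T (Adj t), aa t u * v u

/-- a single vector as a family -/
def one {β : Type} (v : β → ℝ) : Unit → β → ℝ := fun _ => v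

lemma G_one {β : Type} (v : β → ℝ) (s t : β) : G (one v) s t = v s * v t := by simp [G, one]

lemma wq_one {β : Type} (v : β → ℝ) (t : β) : wq (one v) t = v t ^ 2 := by simp [wq, one]

lemma tr_one {β : Type} (T : Finset β) (v : β → ℝ) : tr T (one v) = nq T v := by simp [tr, one]

lemma QF_one (T : Finset (Finset α)) (v : Finset α → ℝ) :
    QF T (one v) = ∑ t ∈ T, v t * Mv T v t := by
  unfold QF ES Mv
  rw [tr_one, nq, ← Finset.sum_add_distrib]
  refine Finset.sum_congr rfl fun t _ => ?_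
  rw [mul_add, Finset.mul_sum, sq]
  congr 1
  exact Finset.sum_congr rfl fun u _ => by rw [G_one]; ring

lemma QF_sum (T : Finset (Finset α)) (y : J → Finset α → ℝ) :
    QF T y = ∑ i, QF T (one (y i)) := by
  unfold QF ES
  rw [Finset.sum_add_distrib]
  congr 1
  · simp_rw [tr_one]; rfl
  · rw [Finset.sum_comm]
    refine Finset.sum_congr rfl fun s _ => ?_
    rw [Finset.sum_comm]
    refine Finset.sum_congr rfl fun t _ => ?_
    simp_rw [G_one]
    rw [G, Finset.mul_sum]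

lemma QF_scale (T : Finset (Finset α)) {v w : Finset α → ℝ} {c : ℝ} (h : ∀ t ∈ T, v t = c * w t) :
    QF T (one v) = c ^ 2 * QF T (one w) := by
  unfold QF ES
  rw [tr_one, tr_one, mul_add, nq, nq, Finset.mul_sum, Finset.mul_sum]
  congr 1
  · exact Finset.sum_congr rfl fun t ht => by rw [h t ht]; ring
  · refine Finset.sum_congr rfl fun s hs => ?_
    rw [Finset.mul_sum]
    refine Finset.sum_congr rfl fun t ht => ?_
    rw [G_one, G_one, h s hs, h t (mem_fl.1 ht).1]; ring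

lemma QF_rot {e : J → J → ℝ} (he : IsRot e) (T : Finset (Finset α)) (y : J → Finset α → ℝ) :
    QF T (rt e y) = QF T y := by
  unfold QF ES
  rw [he.tr_eq]
  simp_rw [he.G_eq]

lemma Bes.sub {β : Type} {T : Finset β} {y : J → β → ℝ} (h : Bes T y) (I : Finset J) :
    Bes T (fun i : {i // i ∈ I} => y i) := by
  classical
  intro c
  have h1 := h (fun j => if hj : j ∈ I then c ⟨j, hj⟩ else 0)
  have h2 : ∀ g : J → ℝ → ℝ, (∀ j, g j 0 = 0) →
      ∑ j, g j (if hj : j ∈ I then c ⟨j, hj⟩ else 0) = ∑ i : {i // i ∈ I}, g i (c i) := by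
    intro g hg
    rw [← Finset.sum_subset (Finset.subset_univ I) (fun j _ hj => by rw [dif_neg hj, hg]),
      ← Finset.sum_coe_sort I]
    exact Finset.sum_congr rfl fun i _ => by rw [dif_pos i.2]
  rw [h2 (fun _ x => x ^ 2) (fun _ => by simp)] at h1
  refine le_trans (le_of_eq ?_) h1
  refine Finset.sum_congr rfl fun σ _ => ?_
  rw [h2 (fun j x => x * y j σ) (fun _ => by simp)]

lemma QF_sub (T : Finset (Finset α)) (y : J → Finset α → ℝ) (I : Finset J) :
    ∑ i ∈ I, QF T (one (y i)) = QF T (fun i : {i // i ∈ I} => y i) := by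
  rw [QF_sum, ← Finset.sum_coe_sort I]

lemma rows_le_QF {n : ℕ} {T S : Finset (Finset α)} (hT : ∀ t ∈ T, t.card = n + 2)
    (hS : ∀ a ∈ S, a.card = n + 1) {Δ : ℝ} (hΔ0 : 0 ≤ Δ)
    (hΔ : ∀ s ∈ T, cn T (fun t => Adj s t ∧ s ∩ t ∉ S) ≤ Δ) (v : Finset α → ℝ) :
    ∑ a ∈ S, (∑ t ∈ fl T (fun t => a ⊆ t), si t a * v t) ^ 2
      ≤ QF T (one v) + (S.card + Δ) * nq T v := by
  have h1 := PC (one v) hT hS
  have h2 := ES_split (one v) T Adj (fun s t => s ∩ t ∈ S)
  have h3 := neg_ES_le_AS (one v) T (fun s t => Adj s t ∧ s ∩ t ∉ S)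
  have h4 := Sch1 T (one v) (fun s t => Adj s t ∧ s ∩ t ∉ S) hΔ0 hΔ (fun t ht =>
    le_trans (cn_mono fun s hs h => ⟨hs, h.1.symm, Finset.inter_comm s t ▸ h.2⟩) (hΔ t ht))
  have h5 : ∑ t ∈ T, wq (one v) t * cn S (fun a => a ⊆ t) ≤ S.card * tr T (one v) := by
    rw [tr_eq_wq, Finset.mul_sum]
    refine Finset.sum_le_sum fun t _ => ?_
    rw [mul_comm]
    exact mul_le_mul_of_nonneg_right (cn_le_card _ _) (wq_nonneg _ _)
  have h6 := tr_nonneg T (one v)
  have h7 : ∑ a ∈ S, ∑ j, (∑ t ∈ fl T (fun t => a ⊆ t), si t a * one v j t) ^ 2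
      = ∑ a ∈ S, (∑ t ∈ fl T (fun t => a ⊆ t), si t a * v t) ^ 2 := by
    simp [one]
  unfold QF
  rw [← tr_one]
  linarith

lemma row_part {n : ℕ} {T S : Finset (Finset α)} (hT : ∀ t ∈ T, t.card = n + 2)
    (hS : ∀ a ∈ S, a.card = n + 1) {t : Finset α} (ht : t ∈ T) (v : Finset α → ℝ) :
    ∑ u ∈ fl T (fun u => Adj t u ∧ t ∩ u ∈ S), aa t u * v u
      = ∑ a ∈ fl S (fun a => a ⊆ t), si t a * ∑ u ∈ fl T (fun u => a ⊆ u), si u a * v u
        - cn S (fun a => a ⊆ t) * v t := by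
  classical
  rw [← Finset.sum_fiberwise_of_maps_to (s := fl T (fun u => Adj t u ∧ t ∩ u ∈ S))
    (t := fl S (fun a => a ⊆ t)) (g := fun u => t ∩ u)
    (fun u hu => mem_fl.2 ⟨(mem_fl.1 hu).2.2, Finset.inter_subset_left⟩), cn_eq_sum,
    Finset.sum_mul, ← Finset.sum_sub_distrib]
  refine Finset.sum_congr rfl fun a ha => ?_
  obtain ⟨haS, hat⟩ := mem_fl.1 ha
  have h1 : (fl T (fun u => Adj t u ∧ t ∩ u ∈ S)).filter (fun u => t ∩ u = a)
      = (fl T (fun u => a ⊆ u)).erase t := by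
    ext u
    simp only [Finset.mem_filter, mem_fl, Finset.mem_erase]
    constructor
    · rintro ⟨⟨h1, h2, -⟩, h3⟩
      exact ⟨h2.ne.symm, h1, h3 ▸ Finset.inter_subset_right⟩
    · rintro ⟨h1, h2, h3⟩
      have := adj_of_row (by rw [hT t ht, hS a haS]) (by rw [hT u h2, hS a haS]) hat h3 (Ne.symm h1)
      exact ⟨⟨h2, this.1, by rw [this.2]; exact haS⟩, this.2⟩
  have h2 : ∑ u ∈ (fl T (fun u => Adj t u ∧ t ∩ u ∈ S)).filter (fun u => t ∩ u = a), aa t u * v u
      = ∑ u ∈ (fl T (fun u => Adj t u ∧ t ∩ u ∈ S)).filter (fun u => t ∩ u = a),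
        si t a * (si u a * v u) := by
    refine Finset.sum_congr rfl fun u hu => ?_
    unfold aa
    rw [(Finset.mem_filter.1 hu).2]; ring
  rw [h2, h1, ← Finset.mul_sum, ← Finset.add_sum_erase _ _ (mem_fl.2 ⟨ht, hat⟩ :
    t ∈ fl T (fun u => a ⊆ u))]
  have := si_mul_self t a
  linear_combination (- v t) * this

open Classical in
/-- orthonormal family of eigenvectors -/
def Eig (T : Finset (Finset α)) (y : J → Finset α → ℝ) (ν : J → ℝ) : Prop :=
  (∀ i j, ∑ t ∈ T, y i t * y j t = if i = j then 1 else 0) ∧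
    ∀ i, ∀ t ∈ T, Mv T (y i) t = ν i * y i t

lemma Eig.nq_eq {T : Finset (Finset α)} {y : J → Finset α → ℝ} {ν : J → ℝ} (h : Eig T y ν)
    (i : J) : nq T (y i) = 1 := by
  have := h.1 i i
  rw [if_pos rfl] at this
  simpa only [nq, sq] using this

lemma Eig.orth {T : Finset (Finset α)} {y : J → Finset α → ℝ} {ν : J → ℝ} (h : Eig T y ν) :
    Orth T y := fun i j hij => by rw [h.1, if_neg hij]

lemma Eig.bes {T : Finset (Finset α)} {y : J → Finset α → ℝ} {ν : J → ℝ} (h : Eig T y ν) :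
    Bes T y := h.orth.bes fun j => (h.nq_eq j).le

lemma Eig.QF_eq {T : Finset (Finset α)} {y : J → Finset α → ℝ} {ν : J → ℝ} (h : Eig T y ν) :
    QF T y = ∑ i, ν i := by
  rw [QF_sum]
  refine Finset.sum_congr rfl fun i _ => ?_
  rw [QF_one, Finset.sum_congr rfl fun t ht => by rw [h.2 i t ht]]
  have := h.nq_eq i
  unfold nq at this
  calc _ = ν i * ∑ t ∈ T, y i t ^ 2 := by
        rw [Finset.mul_sum]; exact Finset.sum_congr rfl fun _ _ => by ring
    _ = _ := by rw [this, mul_one]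

lemma Eig.comb {T : Finset (Finset α)} {y : J → Finset α → ℝ} {ν : J → ℝ} (h : Eig T y ν)
    (c : J → ℝ) : QF T (one fun t => ∑ i, c i * y i t) = ∑ i, c i ^ 2 * ν i := by
  classical
  rw [QF_one]
  have h1 : ∀ t ∈ T, Mv T (fun t => ∑ i, c i * y i t) t = ∑ i, c i * ν i * y i t := by
    intro t ht
    have : ∀ i, c i * ν i * y i t = c i * Mv T (y i) t := fun i => by rw [h.2 i t ht]; ring
    simp_rw [this]
    unfold Mv
    simp_rw [mul_add, Finset.sum_add_distrib, Finset.mul_sum]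
    congr 1
    rw [Finset.sum_comm]
    exact Finset.sum_congr rfl fun _ _ => Finset.sum_congr rfl fun _ _ => by ring
  rw [Finset.sum_congr rfl fun t ht => by rw [h1 t ht]]
  simp_rw [Finset.sum_mul_sum]
  rw [Finset.sum_comm]
  refine Finset.sum_congr rfl fun i _ => ?_
  rw [Finset.sum_comm]
  have : ∀ l, ∑ t ∈ T, c i * y i t * (c l * ν l * y l t)
      = c i * (c l * ν l) * ∑ t ∈ T, y i t * y l t := fun l => by
    rw [Finset.mul_sum]; exact Finset.sum_congr rfl fun _ _ => by ring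
  simp_rw [this, h.1]
  simp only [mul_ite, mul_one, mul_zero, Finset.sum_ite_eq, Finset.mem_univ, if_true]
  ring

lemma zbound {n : ℕ} {T S : Finset (Finset α)} (hT : ∀ t ∈ T, t.card = n + 2)
    (hS : ∀ a ∈ S, a.card = n + 1) {Δ : ℝ} (hΔ0 : 0 ≤ Δ)
    (hΔ : ∀ s ∈ T, cn T (fun t => Adj s t ∧ s ∩ t ∉ S) ≤ Δ) {y : J → Finset α → ℝ} {ν : J → ℝ}
    (h : Eig T y ν) {ν0 : ℝ} (h0 : 0 < ν0) (hν : ∀ i, ν0 ≤ ν i) {t : Finset α} (ht : t ∈ T)
    (hκ : 1 ≤ cn S (fun a => a ⊆ t)) :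
    ∑ i, ν i * y i t ^ 2 ≤ 2 * cn S (fun a => a ⊆ t) * (1 + (S.card + Δ) / ν0) + 2 * Δ / ν0 := by
  set κ := cn S (fun a => a ⊆ t) with hκ'
  set g : J → ℝ := fun i => ∑ a ∈ fl S (fun a => a ⊆ t),
    si t a * ∑ u ∈ fl T (fun u => a ⊆ u), si u a * y i u with hg
  set ρ : J → ℝ := fun i => ∑ u ∈ fl T (fun u => Adj t u ∧ t ∩ u ∉ S), aa t u * y i u with hρ
  have hpos : ∀ i, 0 < ν i := fun i => h0.trans_le (hν i)
  have e1 : ∀ i, (ν i + κ - 1) * y i t = g i + ρ i := by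
    intro i
    have a1 := h.2 i t ht
    unfold Mv at a1
    rw [← sum_fl_add_not (fl T (Adj t)) (fun u => t ∩ u ∈ S), fl_fl, fl_fl, row_part hT hS ht] at a1
    simp only [hg, hρ]
    linarith
  have e2 : ∑ i, ρ i ^ 2 ≤ Δ :=
    (d_le_cn h.bes _ (aa t) (aa_sq t)).trans (hΔ t ht)
  set P := ∑ i, g i ^ 2 / ν i with hP
  have hP0 : 0 ≤ P := Finset.sum_nonneg fun i _ => div_nonneg (sq_nonneg _) (hpos i).le
  have e3 : P ≤ κ * (1 + (S.card + Δ) / ν0) := by
    set v : Finset α → ℝ := fun t => ∑ i, g i / ν i * y i t with hv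
    have a1 : QF T (one v) = P := by
      rw [hv, h.comb]
      refine Finset.sum_congr rfl fun i _ => ?_
      have := (hpos i).ne'
      field_simp
    have a2 : nq T v ≤ P / ν0 := by
      refine (h.bes fun i => g i / ν i).trans ?_
      rw [hP, Finset.sum_div]
      refine Finset.sum_le_sum fun i _ => ?_
      rw [div_pow, div_div]
      exact div_le_div_of_nonneg_left (sq_nonneg _) (mul_pos (hpos i) h0)
        (by rw [sq]; exact mul_le_mul_of_nonneg_left (hν i) (hpos i).le)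
    have a3 : P = ∑ a ∈ fl S (fun a => a ⊆ t),
        si t a * ∑ u ∈ fl T (fun u => a ⊆ u), si u a * v u := by
      have : ∀ i, g i ^ 2 / ν i = g i / ν i * g i := fun i => by ring
      rw [hP]
      simp_rw [this]
      have b1 : ∀ i, g i / ν i * g i = ∑ a ∈ fl S (fun a => a ⊆ t),
          ∑ u ∈ fl T (fun u => a ⊆ u), si t a * (si u a * (g i / ν i * y i u)) := by
        intro i
        conv_lhs => rhs; rw [hg]
        simp only [Finset.mul_sum]
        exact Finset.sum_congr rfl fun _ _ => Finset.sum_congr rfl fun _ _ => by ring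
      simp_rw [b1]
      rw [Finset.sum_comm]
      refine Finset.sum_congr rfl fun a _ => ?_
      rw [Finset.sum_comm, Finset.mul_sum]
      refine Finset.sum_congr rfl fun u _ => ?_
      simp only [hv, Finset.mul_sum]
    have a4 := Finset.sum_mul_sq_le_sq_mul_sq (fl S (fun a => a ⊆ t)) (si t)
      (fun a => ∑ u ∈ fl T (fun u => a ⊆ u), si u a * v u)
    simp_rw [si_sq] at a4
    rw [← a3, ← cn_eq_sum, ← hκ'] at a4
    have a5 : ∑ a ∈ fl S (fun a => a ⊆ t), (∑ u ∈ fl T (fun u => a ⊆ u), si u a * v u) ^ 2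
        ≤ P + (S.card + Δ) * (P / ν0) := by
      refine (Finset.sum_le_sum_of_subset_of_nonneg (fl_subset _ _) fun _ _ _ => sq_nonneg _).trans
        ((rows_le_QF hT hS hΔ0 hΔ v).trans ?_)
      rw [a1]
      have := mul_le_mul_of_nonneg_left a2 (by positivity : (0 : ℝ) ≤ S.card + Δ)
      linarith
    have a6 : P * P ≤ P * (κ * (1 + (S.card + Δ) / ν0)) := by
      have := mul_le_mul_of_nonneg_left a5 (by linarith : 0 ≤ κ)
      calc P * P = P ^ 2 := by ring
        _ ≤ κ * (P + (S.card + Δ) * (P / ν0)) := a4.trans this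
        _ = _ := by ring
    rcases hP0.eq_or_lt with h1 | h1
    · rw [← h1]; positivity
    · exact le_of_mul_le_mul_left a6 h1
  have e4 : ∀ i, ν i * y i t ^ 2 ≤ 2 * (g i ^ 2 / ν i) + 2 * (ρ i ^ 2 / ν0) := by
    intro i
    have a1 : ρ i ^ 2 / ν i ≤ ρ i ^ 2 / ν0 := div_le_div_of_nonneg_left (sq_nonneg _) h0 (hν i)
    have a2 : ν i ^ 2 * y i t ^ 2 ≤ (ν i + κ - 1) ^ 2 * y i t ^ 2 :=
      mul_le_mul_of_nonneg_right (pow_le_pow_left₀ (hpos i).le (by linarith) 2) (sq_nonneg _)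
    rw [← mul_pow (ν i + κ - 1), e1 i] at a2
    have a3 : ν i * y i t ^ 2 ≤ (2 * g i ^ 2 + 2 * ρ i ^ 2) / ν i := by
      rw [le_div_iff₀ (hpos i)]
      nlinarith [sq_nonneg (g i - ρ i)]
    have a4 : (2 * g i ^ 2 + 2 * ρ i ^ 2) / ν i = 2 * (g i ^ 2 / ν i) + 2 * (ρ i ^ 2 / ν i) := by ring
    linarith
  have e5 := Finset.sum_le_sum fun i (_ : i ∈ Finset.univ) => e4 i
  rw [Finset.sum_add_distrib, ← Finset.mul_sum, ← Finset.mul_sum, ← Finset.sum_div, ← hP] at e5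
  have e6 := div_le_div_of_nonneg_right e2 h0.le
  have e7 : 2 * Δ / ν0 = 2 * (Δ / ν0) := by ring
  linarith

lemma remove_faces {T E : Finset (Finset α)} (hE : E ⊆ T) {y : J → Finset α → ℝ} {ν : J → ℝ}
    (h : Eig T y ν) {ν0 : ℝ} (hν : ∀ i, ν0 ≤ ν i) (hc : (E.card : ℝ) ≤ ν0) :
    QF T y ≤ QF (fl T (fun t => t ∉ E)) y + 3 * ∑ t ∈ E, ∑ i, ν i * y i t ^ 2 := by
  set Z := ∑ t ∈ E, ∑ i, ν i * y i t ^ 2 with hZ
  have h1 := ES_split y T Adj (fun s _ => s ∈ E)
  have h2 := ES_split y T (fun s t => Adj s t ∧ s ∉ E) (fun _ t => t ∈ E)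
  have h3 := ES_split y T (fun s t => Adj t s ∧ t ∈ E) (fun s _ => s ∈ E)
  have h4 := ES_flip y T (fun s t => Adj s t ∧ s ∈ E)
  have h5 : ES y T (fun s t => (Adj s t ∧ s ∉ E) ∧ t ∉ E) = ES y (fl T (fun t => t ∉ E)) Adj := by
    rw [← ES_sub y (fl_subset T (fun t => t ∉ E))]
    exact ES_congr y T fun s hs t ht => by simp only [mem_fl]; tauto
  have h6 : ES y T (fun s t => (Adj t s ∧ t ∈ E) ∧ s ∈ E) = ES y E Adj := by
    rw [← ES_sub y hE]
    exact ES_congr y T fun s _ t _ => ⟨fun h => ⟨h.2, h.1.2, h.1.1.symm⟩,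
      fun h => ⟨⟨h.2.2.symm, h.2.1⟩, h.1⟩⟩
  have h7 : ES y T (fun s t => (Adj t s ∧ t ∈ E) ∧ s ∉ E)
      = ES y T (fun s t => (Adj s t ∧ s ∉ E) ∧ t ∈ E) :=
    ES_congr y T fun s _ t _ => ⟨fun h => ⟨⟨h.1.1.symm, h.2⟩, h.1.2⟩,
      fun h => ⟨⟨h.1.1.symm, h.2⟩, h.1.2⟩⟩
  have h8 : ES y T (fun s t => Adj s t ∧ s ∈ E) = Z - tr E y := by
    rw [hZ, tr_eq_wq, ← Finset.sum_sub_distrib]
    unfold ES
    symm
    refine Finset.sum_subset_zero_on_sdiff hE (fun s hs => ?_) fun s hs => ?_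
    · exact Finset.sum_eq_zero fun t ht => absurd (mem_fl.1 ht).2.2 (Finset.mem_sdiff.1 hs).2
    · rw [fl_congr (q := Adj s) (fun t _ => ⟨fun h => h.1, fun h => ⟨h, hs⟩⟩), wq,
        ← Finset.sum_sub_distrib]
      simp only [G, Finset.mul_sum]
      rw [Finset.sum_comm]
      refine Finset.sum_congr rfl fun i _ => ?_
      have a1 := h.2 i s (hE hs)
      unfold Mv at a1
      have a2 : ∑ t ∈ fl T (Adj s), aa s t * (y i s * y i t)
          = y i s * ∑ t ∈ fl T (Adj s), aa s t * y i t := by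
        rw [Finset.mul_sum]; exact Finset.sum_congr rfl fun _ _ => by ring
      rw [a2]
      linear_combination (- y i s) * a1
  have h9 := neg_ES_le_AS y E Adj
  have h10 := Sch1 E y Adj (Nat.cast_nonneg E.card) (fun _ _ => cn_le_card _ _)
    (fun _ _ => cn_le_card _ _)
  have h11 : ν0 * tr E y ≤ Z := by
    rw [hZ, tr_eq_wq, Finset.mul_sum]
    refine Finset.sum_le_sum fun t _ => ?_
    rw [wq, Finset.mul_sum]
    exact Finset.sum_le_sum fun i _ => mul_le_mul_of_nonneg_right (hν i) (sq_nonneg _)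
  have h12 : tr T y = tr E y + tr (fl T (fun t => t ∉ E)) y := by
    rw [tr_eq_wq, tr_eq_wq, tr_eq_wq, ← sum_fl_add_not T (fun t => t ∈ E)]
    congr 2
    ext t; simp only [mem_fl]; exact ⟨fun h => h.2, fun h => ⟨hE h, h⟩⟩
  have h13 := tr_nonneg E y
  have h14 := mul_le_mul_of_nonneg_right hc h13
  unfold QF
  linarith

lemma tb_arith {a b v p q x g k : ℝ} (ha : 0 ≤ a) (h1 : a ^ 2 + b ^ 2 = 1)
    (hv : v = a ^ 2 * p + b ^ 2 * q + 2 * (a * b * x)) (hx : x ^ 2 ≤ g) (hk : 0 < k)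
    (h : ¬ v ≤ q + k / 4) : v ≤ p + 4 * g / k := by
  have h2 := not_le.1 h
  rcases ha.eq_or_lt with h0 | h0
  · exfalso
    subst h0
    have : b ^ 2 = 1 := by linarith
    rw [this] at hv
    linarith
  · have h3 : a ^ 2 * (v - p) = 2 * (a * b * x) - b ^ 2 * (v - q) := by
      linear_combination hv + v * h1
    have h4 : b ^ 2 * (k / 4) ≤ b ^ 2 * (v - q) := mul_le_mul_of_nonneg_left (by linarith) (sq_nonneg _)
    have h5 : a ^ 2 * ((v - p) * k) ≤ a ^ 2 * (4 * g) := by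
      have e1 := mul_le_mul_of_nonneg_left hx (sq_nonneg a)
      have e2 := mul_le_mul_of_nonneg_right h4 hk.le
      have e3 : a ^ 2 * ((v - p) * k) = (2 * (a * b * x) - b ^ 2 * (v - q)) * k := by rw [← h3]; ring
      nlinarith [sq_nonneg (b * k / 2 - 2 * a * x)]
    have h6 := le_of_mul_le_mul_left h5 (by positivity)
    have h7 : v - p ≤ 4 * g / k := by rw [le_div_iff₀ hk]; exact h6
    linarith

lemma QF_union {A B : Finset (Finset α)} (hd : Disjoint A B) (v : Finset α → ℝ) :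
    QF (A ∪ B) (one v) = QF A (one v) + QF B (one v)
      + 2 * ∑ u ∈ B, v u * ∑ t ∈ fl A (Adj u), aa u t * v t := by
  have hA : A ⊆ A ∪ B := Finset.subset_union_left
  have hB : B ⊆ A ∪ B := Finset.subset_union_right
  have nA : ∀ s ∈ A ∪ B, s ∉ A ↔ s ∈ B := fun s hs =>
    ⟨fun h => (Finset.mem_union.1 hs).resolve_left h, fun h h' => Finset.disjoint_left.1 hd h' h⟩
  have h1 := ES_split (one v) (A ∪ B) Adj (fun s _ => s ∈ A)
  have h2 := ES_split (one v) (A ∪ B) (fun s t => Adj s t ∧ s ∈ A) (fun _ t => t ∈ A)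
  have h3 := ES_split (one v) (A ∪ B) (fun s t => Adj s t ∧ s ∉ A) (fun _ t => t ∈ A)
  have h4 := ES_flip (one v) (A ∪ B) (fun s t => (Adj s t ∧ s ∉ A) ∧ t ∈ A)
  have h5 : ES (one v) (A ∪ B) (fun s t => (Adj s t ∧ s ∈ A) ∧ t ∈ A) = ES (one v) A Adj := by
    rw [← ES_sub (one v) hA]
    exact ES_congr _ _ fun s _ t _ => by tauto
  have h6 : ES (one v) (A ∪ B) (fun s t => (Adj s t ∧ s ∉ A) ∧ t ∉ A) = ES (one v) B Adj := by
    rw [← ES_sub (one v) hB]
    exact ES_congr _ _ fun s hs t ht => by rw [nA s hs, nA t ht]; tauto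
  have h7 : ES (one v) (A ∪ B) (fun s t => (Adj s t ∧ s ∈ A) ∧ t ∉ A)
      = ES (one v) (A ∪ B) (fun s t => (Adj t s ∧ t ∉ A) ∧ s ∈ A) :=
    ES_congr _ _ fun s _ t _ => ⟨fun h => ⟨⟨h.1.1.symm, h.2⟩, h.1.2⟩,
      fun h => ⟨⟨h.1.1.symm, h.2⟩, h.1.2⟩⟩
  have h8 : ES (one v) (A ∪ B) (fun s t => (Adj s t ∧ s ∉ A) ∧ t ∈ A)
      = ∑ u ∈ B, v u * ∑ t ∈ fl A (Adj u), aa u t * v t := by
    unfold ES
    symm
    refine Finset.sum_subset_zero_on_sdiff hB (fun s hs => ?_) fun s hs => ?_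
    · exact Finset.sum_eq_zero fun t ht => absurd ((nA s (Finset.mem_sdiff.1 hs).1).1
        (mem_fl.1 ht).2.1.2) (Finset.mem_sdiff.1 hs).2
    · have : fl (A ∪ B) (fun t => (Adj s t ∧ s ∉ A) ∧ t ∈ A) = fl A (Adj s) := by
        ext t; simp only [mem_fl]
        exact ⟨fun h => ⟨h.2.2, h.2.1.1⟩, fun h => ⟨hA h.1, ⟨h.2, (nA s (hB hs)).2 hs⟩, h.1⟩⟩
      rw [this, Finset.mul_sum]
      exact Finset.sum_congr rfl fun t _ => by rw [G_one]; ring
  have h9 : tr (A ∪ B) (one v) = tr A (one v) + tr B (one v) := by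
    rw [tr_eq_wq, tr_eq_wq, tr_eq_wq, Finset.sum_union hd]
  unfold QF
  linarith

lemma eq_mul_div {β : Type} {A : Finset β} {w : β → ℝ} {c : ℝ} (h : nq A w ≤ c) :
    ∀ t ∈ A, w t = √c * (w t / √c) := by
  intro t ht
  by_cases h0 : √c = 0
  · have h1 : c ≤ 0 := Real.sqrt_eq_zero'.1 h0
    have h2 : w t ^ 2 ≤ nq A w := Finset.single_le_sum (f := fun t => w t ^ 2)
      (fun _ _ => sq_nonneg _) ht
    have h3 : w t = 0 := pow_eq_zero_iff two_ne_zero |>.1 (le_antisymm (by linarith) (sq_nonneg _))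
    rw [h3]; simp
  · field_simp

lemma two_blk {A B : Finset (Finset α)} (hd : Disjoint A B) {y : J → Finset α → ℝ}
    (hy : Bes (A ∪ B) y) {k Γ : ℝ} (hk : 0 < k)
    (hΓ : ∀ z : J → Finset α → ℝ, Bes A z →
      ∑ u ∈ B, ∑ i, (∑ t ∈ fl A (Adj u), aa u t * z i t) ^ 2 ≤ Γ) :
    ∃ (I : Finset J) (z z' : J → Finset α → ℝ), Bes A z ∧ Bes B z' ∧
      QF (A ∪ B) y ≤ ∑ i ∈ fl Finset.univ (fun i => i ∉ I), QF A (one (z i)) + 4 * Γ / k
        + ∑ i ∈ I, QF B (one (z' i)) + I.card * (k / 4) := by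
  obtain ⟨e, he, hO⟩ := exists_rot2 B y
  have hy' := he.bes hy
  set w := rt e y with hw
  have hsum : ∀ i, nq A (w i) + nq B (w i) ≤ 1 := fun i => by
    have := hy'.nq_le i
    unfold nq at this ⊢
    rwa [Finset.sum_union hd] at this
  have hb1 : ∀ i, 0 ≤ 1 - nq B (w i) := fun i => by linarith [hsum i, nq_nonneg A (w i)]
  let z : J → Finset α → ℝ := fun i t => w i t / √(1 - nq B (w i))
  let z' : J → Finset α → ℝ := fun i t => w i t / √(nq B (w i))
  have hz : Bes A z := by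
    intro c
    have a1 := hy' (fun i => c i / √(1 - nq B (w i)))
    rw [Finset.sum_union hd, hO.sum_sq] at a1
    have a2 : ∑ σ ∈ A, (∑ j, c j * z j σ) ^ 2
        = ∑ σ ∈ A, (∑ j, c j / √(1 - nq B (w j)) * w j σ) ^ 2 := by
      refine Finset.sum_congr rfl fun σ _ => ?_
      congr 1
      exact Finset.sum_congr rfl fun j _ => by simp only [z]; ring
    have a3 : ∑ j, (c j / √(1 - nq B (w j))) ^ 2 - ∑ j, (c j / √(1 - nq B (w j))) ^ 2 * nq B (w j)
        ≤ ∑ j, c j ^ 2 := by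
      rw [← Finset.sum_sub_distrib]
      refine Finset.sum_le_sum fun j _ => ?_
      rw [div_pow, Real.sq_sqrt (hb1 j)]
      calc _ = c j ^ 2 * ((1 - nq B (w j)) / (1 - nq B (w j))) := by ring
        _ ≤ c j ^ 2 * 1 := mul_le_mul_of_nonneg_left (div_self_le_one _) (sq_nonneg _)
        _ = _ := mul_one _
    linarith
  have hz'1 : ∀ i, nq B (z' i) ≤ 1 := fun i => nq_div_sqrt B (w i)
  have hz' : Bes B z' := by
    refine Orth.bes (fun i j hij => ?_) hz'1
    have : ∀ σ, z' i σ * z' j σ = w i σ * w j σ / (√(nq B (w i)) * √(nq B (w j))) := fun σ => by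
      simp only [z']; ring
    simp_rw [this]
    rw [← Finset.sum_div, hO i j hij, zero_div]
  let g : J → ℝ := fun i => ∑ u ∈ B, (∑ t ∈ fl A (Adj u), aa u t * z i t) ^ 2
  have hg0 : ∀ i, 0 ≤ g i := fun i => Finset.sum_nonneg fun _ _ => sq_nonneg _
  have hg : ∑ i, g i ≤ Γ := by
    have := hΓ z hz
    rwa [Finset.sum_comm] at this
  have key : ∀ i, ¬ QF (A ∪ B) (one (w i)) ≤ QF B (one (z' i)) + k / 4 →
      QF (A ∪ B) (one (w i)) ≤ QF A (one (z i)) + 4 * g i / k := by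
    intro i hi
    have a1 := eq_mul_div (A := A) (w := w i) (c := 1 - nq B (w i)) (by linarith [hsum i])
    have a2 := eq_mul_div (A := B) (w := w i) (c := nq B (w i)) le_rfl
    refine tb_arith (a := √(1 - nq B (w i))) (b := √(nq B (w i)))
      (x := ∑ u ∈ B, z' i u * ∑ t ∈ fl A (Adj u), aa u t * z i t) (Real.sqrt_nonneg _)
      (by rw [Real.sq_sqrt (hb1 i), Real.sq_sqrt (nq_nonneg _ _)]; ring) ?_ ?_ hk hi
    · rw [QF_union hd, QF_scale A a1, QF_scale B a2]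
      congr 2
      rw [Finset.mul_sum]
      refine Finset.sum_congr rfl fun u hu => ?_
      have b1 : ∑ t ∈ fl A (Adj u), aa u t * w i t
          = √(1 - nq B (w i)) * ∑ t ∈ fl A (Adj u), aa u t * z i t := by
        rw [Finset.mul_sum]
        refine Finset.sum_congr rfl fun t ht => ?_
        conv_lhs => rw [a1 t (mem_fl.1 ht).1]
        simp only [z]; ring
      rw [b1]
      conv_lhs => rw [a2 u hu]
      simp only [z']; ring
    · refine (Finset.sum_mul_sq_le_sq_mul_sq B _ _).trans ?_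
      exact mul_le_of_le_one_left (hg0 i) (hz'1 i)
  refine ⟨fl Finset.univ (fun i => QF (A ∪ B) (one (w i)) ≤ QF B (one (z' i)) + k / 4), z, z', hz,
    hz', ?_⟩
  set I := fl Finset.univ (fun i => QF (A ∪ B) (one (w i)) ≤ QF B (one (z' i)) + k / 4) with hI
  rw [← QF_rot he, QF_sum, ← sum_fl_add_not Finset.univ (fun i => i ∈ I)]
  have c1 : fl Finset.univ (fun i => i ∈ I) = I := by ext i; simp only [mem_fl]; simp
  rw [c1]
  have c2 : ∑ i ∈ I, QF (A ∪ B) (one (w i)) ≤ ∑ i ∈ I, (QF B (one (z' i)) + k / 4) :=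
    Finset.sum_le_sum fun i hi => (mem_fl.1 hi).2
  have c3 : ∑ i ∈ fl Finset.univ (fun i => i ∉ I), QF (A ∪ B) (one (w i))
      ≤ ∑ i ∈ fl Finset.univ (fun i => i ∉ I), (QF A (one (z i)) + 4 * g i / k) :=
    Finset.sum_le_sum fun i hi => key i fun h => (mem_fl.1 hi).2 (mem_fl.2 ⟨Finset.mem_univ _, h⟩)
  rw [Finset.sum_add_distrib, Finset.sum_const, nsmul_eq_mul] at c2
  rw [Finset.sum_add_distrib] at c3
  have c4 : ∑ i ∈ fl Finset.univ (fun i => i ∉ I), 4 * g i / k ≤ 4 * Γ / k := by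
    refine (Finset.sum_le_sum_of_subset_of_nonneg (fl_subset _ _) fun i _ _ => by
      have := hg0 i; positivity).trans ?_
    rw [← Finset.sum_div, ← Finset.mul_sum]
    exact div_le_div_of_nonneg_right (by linarith) hk.le
  linarith

end Pool.Agent.Lib.MP_468ee0_co
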