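import Pool.Agent.Lib.MP_468ee0_co.U5Z

set_option autoImplicit false
set_option linter.unusedSectionVars false

namespace Pool.Agent.Lib.MP_468ee0_co

open Finset

variable {α J : Type} [LinearOrder α] [Fintype α] [Fintype J]

lemma cnt_lines {n : ℕ} {T S : Finset (Finset α)} (hT : ∀ t ∈ T, t.card = n + 2)
    (hS : ∀ a ∈ S, a.card = n + 1) {L : ℝ} (h1 : ∀ a ∈ S, L ≤ cn T (fun t => a ⊆ t)) :
    S.card * L ≤ T.card - cn T (fun t => ¬ ∃ a ∈ S, a ⊆ t) + (S.card : ℝ) ^ 2 := by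
  have a1 := Finset.sum_le_sum h1
  rw [Finset.sum_const, nsmul_eq_mul, sum_cn_comm S T (fun a t => a ⊆ t)] at a1
  have a2 := I1r hT hS
  have a3 := cn_add_not T (fun t => ∃ a ∈ S, a ⊆ t)
  have a4 : ∑ t ∈ T, cn S (fun a => a ⊆ t) ≤ cn T (fun t => ∃ a ∈ S, a ⊆ t)
      + ∑ t ∈ T, cn S (fun a => a ⊆ t) * (cn S (fun a => a ⊆ t) - 1) := by
    rw [cn_eq_sum T, sum_fl, ← Finset.sum_add_distrib]
    refine Finset.sum_le_sum fun t _ => ?_
    split_ifs with h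
    · nlinarith [sq_nonneg (cn S (fun a => a ⊆ t) - 1)]
    · rw [cn_eq_zero fun a ha hat => h ⟨a, ha, hat⟩]; simp
  linarith

lemma s2_arith0 {k mU u0 U : ℝ} (hk : 10 ^ 16 ≤ k) (h0 : 0 ≤ mU) (h1 : mU ≤ k / 10 ^ 13)
    (h2 : 0 ≤ u0) (h : mU * (200 * k - 1) ≤ U - u0 + mU ^ 2) :
    4 * (3 * u0 + 6 * mU * k) / k + mU * k / 10 ^ 11 ≤ U := by
  have hk0 : 0 < k := by linarith [show (0 : ℝ) < 10 ^ 16 by norm_num]
  have e1 : 4 * (3 * u0 + 6 * mU * k) / k ≤ u0 + 24 * mU := by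
    rw [div_le_iff₀ hk0]; nlinarith
  nlinarith [mul_le_mul_of_nonneg_left h1 h0, mul_le_mul_of_nonneg_left hk h0]

lemma s2_arith1 {k mU u0 j Φ : ℝ} (hk : 10 ^ 16 ≤ k) (h0 : 0 ≤ mU) (h1 : mU ≤ k / 10 ^ 13)
    (h2 : 0 ≤ u0) (hj0 : 0 ≤ j) (hj : 20 * j ≤ mU)
    (h : Φ ≤ - u0 / 2 + 3 * j + 2 * mU ^ 2 - (200 * k - 1) * (mU - j) + 18 * j * mU
      + 16 * j * (200 * k + 18 * j)) :
    Φ + 4 * (3 * u0 + 6 * mU * k) / k + mU * k / 10 ^ 11 ≤ 0 := by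
  have hk0 : 0 < k := by linarith [show (0 : ℝ) < 10 ^ 16 by norm_num]
  have e1 : 4 * (3 * u0 + 6 * mU * k) / k ≤ u0 / 2 + 24 * mU := by
    rw [div_le_iff₀ hk0]; nlinarith
  have e2 := mul_le_mul_of_nonneg_left h1 h0
  have e3 := mul_le_mul_of_nonneg_left hk h0
  have e4 := mul_le_mul_of_nonneg_left hj hk0.le
  have e5 := mul_le_mul_of_nonneg_left hj h0
  have e6 := mul_le_mul_of_nonneg_left hj hj0
  nlinarith

lemma s2_arith2 {k mU u0 j Φ : ℝ} (hk : 10 ^ 16 ≤ k)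
    (h2 : u0 ≤ k ^ 2 / 10 ^ 13) (hj1 : 1 ≤ j) (hj : mU ≤ 20 * j) (hjk : j ≤ k / 11000)
    (h : Φ ≤ 4000 * j ^ 2) :
    Φ + 4 * (3 * u0 + 6 * mU * k) / k + mU * k / 10 ^ 11 ≤ 3 / 4 * j * k - j * (j + 1) / 2 := by
  have hk0 : 0 < k := by linarith [show (0 : ℝ) < 10 ^ 16 by norm_num]
  have e1 : 4 * (3 * u0 + 6 * mU * k) / k ≤ 12 * k / 10 ^ 13 + 24 * mU := by
    rw [div_le_iff₀ hk0]; nlinarith
  have hj0 : 0 ≤ j := by linarith
  have e2 := mul_le_mul_of_nonneg_left hjk hj0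
  have e3 := mul_le_mul_of_nonneg_left hk hj0
  have e4 := mul_le_mul_of_nonneg_left hj hk0.le
  have e5 := mul_le_mul_of_nonneg_left hj1 hk0.le
  have e6 := mul_le_mul_of_nonneg_left hj1 hj0
  nlinarith

lemma s2_arith3 {k mU u0 j Φ : ℝ} (hk : 10 ^ 16 ≤ k) (h0 : 0 ≤ mU) (h1 : mU ≤ k / 10 ^ 13)
    (h2 : u0 ≤ k ^ 2 / 10 ^ 13) (h3 : 0 ≤ u0) (hjk : k / 11000 ≤ j) (hj : j ≤ k)
    (h : Φ ≤ - u0 + 3 * j + 2 * mU ^ 2 - 0 * (mU - j) + 2 * j * mU + 2 * (2 * k ^ 2 / 10 ^ 13)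
      + u0 / 8 + k ^ 2 / 10 ^ 5) :
    Φ + 4 * (3 * u0 + 6 * mU * k) / k + mU * k / 10 ^ 11 ≤ 3 / 4 * j * k - j * (j + 1) / 2 := by
  have hk0 : 0 < k := by linarith [show (0 : ℝ) < 10 ^ 16 by norm_num]
  have e1 : 4 * (3 * u0 + 6 * mU * k) / k ≤ 12 * k / 10 ^ 13 + 24 * mU := by
    rw [div_le_iff₀ hk0]; nlinarith
  have hj0 : 0 ≤ j := by linarith [show 0 ≤ k / 11000 by positivity]
  have e2 := mul_le_mul_of_nonneg_left hj hj0
  have e3 := mul_le_mul_of_nonneg_left hk hk0.le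
  have e4 := mul_le_mul_of_nonneg_left hjk hk0.le
  have e5 := mul_le_mul_of_nonneg_left h1 hk0.le
  have e6 := mul_le_mul_of_nonneg_left h1 h0
  have e7 := mul_le_mul_of_nonneg_left hj h0
  nlinarith

lemma s2_cost {k m mU u0 Z : ℝ} (hk : 10 ^ 16 ≤ k) (h0 : 0 ≤ mU) (h1 : mU ≤ k / 10 ^ 13)
    (h2 : u0 ≤ k ^ 2 / 10 ^ 13) (h3 : 0 ≤ u0) (hm0 : 0 ≤ m) (hm : m ≤ 40 * k)
    (h : Z ≤ 2 * (3 * mU) * (1 + (m + (2 * (200 * k) + u0 + 2 * mU + 3)) / (k - 2))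
      + mU * (2 * (2 * (200 * k) + u0 + 2 * mU + 3) / (k - 2))) : 3 * Z ≤ mU * k / 10 ^ 11 := by
  have hk0 : 0 < k - 2 := by linarith [show (2 : ℝ) < 10 ^ 16 by norm_num]
  have e3 := mul_le_mul_of_nonneg_left hk (by linarith : 0 ≤ k)
  have e1 : (m + (2 * (200 * k) + u0 + 2 * mU + 3)) / (k - 2) ≤ 2 * k / 10 ^ 13 := by
    rw [div_le_iff₀ hk0]; nlinarith
  have e2 : 2 * (2 * (200 * k) + u0 + 2 * mU + 3) / (k - 2) ≤ 4 * k / 10 ^ 13 := by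
    rw [div_le_iff₀ hk0]; nlinarith
  have e4 := mul_le_mul_of_nonneg_left e1 h0
  have e5 := mul_le_mul_of_nonneg_left e2 h0
  have e6 := mul_le_mul_of_nonneg_left hk h0
  nlinarith

theorem stage2 {n : ℕ} {T S : Finset (Finset α)} (hT : ∀ t ∈ T, t.card = n + 2)
    (hS : ∀ a ∈ S, a.card = n + 1) {η : Finset α} (hη : η.card = n) {y : J → Finset α → ℝ}
    {ν : J → ℝ} (h : Eig T y ν) {k : ℝ} (hkJ : k = Fintype.card J) (hk : 10 ^ 16 ≤ k)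
    (hν : ∀ i, k - 2 ≤ ν i) (hm : (S.card : ℝ) ≤ 40 * k)
    (h1 : ∀ a ∈ S, 200 * k ≤ cn T (fun t => a ⊆ t))
    (h2 : ∀ ρ : Finset α, ρ.card = n + 1 → ρ ∉ S → cn T (fun t => ρ ⊆ t) ≤ 200 * k)
    (hB : cn S (fun a => ¬ η ⊆ a) ≤ k / 10 ^ 13)
    (hC : cn T (fun t => ¬ η ⊆ t ∧ ¬ ∃ a ∈ S, a ⊆ t) ≤ k ^ 2 / 10 ^ 13) :
    QF T y ≤ T.card + k * (k - 1) / 2 := by
  classical
  have hk0 : 0 < k := by linarith [show (0 : ℝ) < 10 ^ 16 by norm_num]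
  have hk2 : 0 < k - 2 := by linarith [show (2 : ℝ) < 10 ^ 16 by norm_num]
  set SU := fl S (fun a => ¬ η ⊆ a) with hSU
  set U := fl T (fun t => ¬ η ⊆ t) with hU
  set E := fl T (fun t => η ⊆ t ∧ ∃ a ∈ SU, a ⊆ t) with hE
  set A := fl T (fun t => η ⊆ t ∧ ¬ ∃ a ∈ SU, a ⊆ t) with hA
  set mU : ℝ := (SU.card : ℝ) with hmU
  set u0 := cn U (fun t => ¬ ∃ a ∈ SU, a ⊆ t) with hu0
  have hSU' : ∀ a ∈ SU, a.card = n + 1 := fun a ha => hS a (mem_fl.1 ha).1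
  have hU' : ∀ t ∈ U, t.card = n + 2 := fun t ht => hT t (mem_fl.1 ht).1
  have hmU0 : 0 ≤ mU := Nat.cast_nonneg _
  have hmU1 : mU ≤ k / 10 ^ 13 := hB
  have hu00 : 0 ≤ u0 := cn_nonneg _ _
  have hu01 : u0 ≤ k ^ 2 / 10 ^ 13 := le_trans (cn_mono fun t ht g => ⟨(mem_fl.1 ht).1,
    (mem_fl.1 ht).2, fun ⟨a, ha, hat⟩ =>
      g ⟨a, mem_fl.2 ⟨ha, fun g2 => (mem_fl.1 ht).2 (g2.trans hat)⟩, hat⟩⟩) hC
  have hone : ∀ a ∈ SU, cn T (fun t => a ⊆ t ∧ η ⊆ t) ≤ 1 := fun a ha =>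
    cn_le_one fun t ht t' ht' e e' => by
      rw [eq_union_of e.1 e.2 (mem_fl.1 ha).2 (by rw [hT t ht, hSU' a ha]),
        eq_union_of e'.1 e'.2 (mem_fl.1 ha).2 (by rw [hT t' ht', hSU' a ha])]
  -- degrees along rows outside S
  have hΔ : ∀ s ∈ T, cn T (fun t => Adj s t ∧ s ∩ t ∉ S) ≤ 2 * (200 * k) + u0 + 2 * mU + 3 := by
    intro s hs
    have a1 : cn T (fun t => Adj s t ∧ s ∩ t ∉ S) ≤ cn T (fun t => η ⊆ t ∧ Adj s t ∧ s ∩ t ∉ S)
        + cn T (fun t => (t ∈ U ∧ ¬ ∃ a ∈ SU, a ⊆ t) ∨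
          (Adj s t ∧ s ∩ t ∉ SU ∧ ∃ a ∈ SU, a ⊆ t)) := by
      refine cn_or_le fun t ht g => ?_
      by_cases g1 : η ⊆ t
      · exact Or.inl ⟨g1, g⟩
      · by_cases g2 : ∃ a ∈ SU, a ⊆ t
        · exact Or.inr (Or.inr ⟨g.1, fun g3 => g.2 (mem_fl.1 g3).1, g2⟩)
        · exact Or.inr (Or.inl ⟨mem_fl.2 ⟨ht, g1⟩, g2⟩)
    have a2 := cn_or_le (T := T) (p := fun t => (t ∈ U ∧ ¬ ∃ a ∈ SU, a ⊆ t) ∨
          (Adj s t ∧ s ∩ t ∉ SU ∧ ∃ a ∈ SU, a ⊆ t)) (fun _ _ h => h)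
    have a3 : cn T (fun t => t ∈ U ∧ ¬ ∃ a ∈ SU, a ⊆ t) ≤ u0 := cn_mono fun _ _ h => h
    have a4 := deg_lines (T := T) hSU' (hT s hs)
    have a5 : cn T (fun t => η ⊆ t ∧ Adj s t ∧ s ∩ t ∉ S) ≤ 2 * (200 * k) + 3 := by
      by_cases g : η ⊆ s
      · obtain ⟨x, x', -, hx, hx', -, hrow⟩ := two_rows g (by rw [hT s hs, hη])
        have b1 : cn T (fun t => η ⊆ t ∧ Adj s t ∧ s ∩ t ∉ S)
            ≤ cn T (fun t => insert x η ∉ S ∧ insert x η ⊆ t)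
              + cn T (fun t => insert x' η ∉ S ∧ insert x' η ⊆ t) := by
          refine cn_or_le fun t _ g1 => ?_
          rcases hrow (s ∩ t) (Finset.subset_inter g g1.1) Finset.inter_subset_left
            (by have := g1.2.1.2; have := hT s hs; omega) with e | e
          · exact Or.inl ⟨e ▸ g1.2.2, e ▸ Finset.inter_subset_right⟩
          · exact Or.inr ⟨e ▸ g1.2.2, e ▸ Finset.inter_subset_right⟩
        have b2 : ∀ z, z ∉ η → cn T (fun t => insert z η ∉ S ∧ insert z η ⊆ t) ≤ 200 * k :=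
          fun z hz => cn_le_of_ex (by linarith) fun t _ g1 =>
            le_trans (cn_mono fun t ht g2 => ⟨ht, g2.2⟩)
              (h2 _ (by rw [Finset.card_insert_of_notMem hz, hη]) g1.1)
        linarith [b2 x hx, b2 x' hx']
      · have := le_trans (cn_mono (T := T) (p := fun t => η ⊆ t ∧ Adj s t ∧ s ∩ t ∉ S)
          fun t ht g1 => ⟨ht, g1.1, g1.2.1⟩) (gm2 T (by rw [hT s hs, hη]) g)
        linarith
    linarith
  -- removing the faces of the pencil on foreign long rows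
  have hE1 : ∑ t ∈ E, cn SU (fun a => a ⊆ t) ≤ mU := by
    rw [sum_cn_comm E SU (fun t a => a ⊆ t)]
    refine (Finset.sum_le_sum (g := fun _ => 1) fun a ha => ?_).trans (by simp [hmU])
    exact le_trans (cn_mono fun t ht g => ⟨(mem_fl.1 ht).1, g, (mem_fl.1 ht).2.1⟩) (hone a ha)
  have hE2 : ∀ t ∈ E, 1 ≤ cn SU (fun a => a ⊆ t) := fun t ht => by
    obtain ⟨a, ha, hat⟩ := (mem_fl.1 ht).2.2
    unfold cn
    exact_mod_cast Finset.card_pos.2 ⟨a, mem_fl.2 ⟨ha, hat⟩⟩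
  have hE3 : (E.card : ℝ) ≤ mU := by
    have := Finset.sum_le_sum hE2
    rw [Finset.sum_const, nsmul_eq_mul, mul_one] at this
    linarith
  have hE4 : ∀ t ∈ E, cn S (fun a => a ⊆ t) ≤ 3 * cn SU (fun a => a ⊆ t) := by
    intro t ht
    have a1 : cn S (fun a => a ⊆ t) ≤ cn S (fun a => a ∈ SU ∧ a ⊆ t)
        + cn S (fun a => η ⊆ a ∧ a ⊆ t ∧ a.card = η.card + 1) := by
      refine cn_or_le fun a ha g => ?_
      by_cases g1 : η ⊆ a
      · exact Or.inr ⟨g1, g, by rw [hS a ha, hη]⟩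
      · exact Or.inl ⟨mem_fl.2 ⟨ha, g1⟩, g⟩
    have a2 : cn S (fun a => a ∈ SU ∧ a ⊆ t) ≤ cn SU (fun a => a ⊆ t) := cn_mono fun _ _ h => h
    have a3 := between_bot S η t
    rw [Finset.card_sdiff_of_subset (mem_fl.1 ht).2.1, hT t (mem_fl.1 ht).1,
      (by omega : n + 2 - η.card = 2)] at a3
    push_cast at a3
    linarith [hE2 t ht]
  have hΔ0 : 0 ≤ 2 * (200 * k) + u0 + 2 * mU + 3 := by linarith
  have hZ : 3 * ∑ t ∈ E, ∑ i, ν i * y i t ^ 2 ≤ mU * k / 10 ^ 11 := by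
    refine s2_cost hk hmU0 hmU1 hu01 hu00 (Nat.cast_nonneg S.card) hm ?_
    have a1 : ∀ t ∈ E, ∑ i, ν i * y i t ^ 2 ≤ 2 * (3 * cn SU (fun a => a ⊆ t))
        * (1 + (S.card + (2 * (200 * k) + u0 + 2 * mU + 3)) / (k - 2))
        + 2 * (2 * (200 * k) + u0 + 2 * mU + 3) / (k - 2) := by
      intro t ht
      refine (zbound hT hS hΔ0 hΔ h hk2 hν (mem_fl.1 ht).1 ((hE2 t ht).trans
        (cn_mono fun a ha g => ⟨(mem_fl.1 ha).1, g⟩))).trans ?_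
      have := hE4 t ht
      gcongr
    refine (Finset.sum_le_sum a1).trans ?_
    rw [Finset.sum_add_distrib, Finset.sum_const, nsmul_eq_mul, ← Finset.sum_mul, ← Finset.mul_sum,
      ← Finset.mul_sum]
    gcongr
  have hR := remove_faces (E := E) (fl_subset T _) h hν (by
    have : k / 10 ^ 13 ≤ k - 2 := by linarith [show (10 : ℝ) ^ 16 = 10000000000000000 by norm_num]
    linarith)
  have hW : fl T (fun t => t ∉ E) = A ∪ U := by
    ext t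
    simp only [hE, hA, hU, Finset.mem_union, mem_fl]
    by_cases g1 : t ∈ T <;> by_cases g2 : η ⊆ t <;> simp [g1, g2]
  have hd : Disjoint A U := Finset.disjoint_left.2 fun t h1 h2 => (mem_fl.1 h2).2 (mem_fl.1 h1).2.1
  rw [hW] at hR
  have hAU : A ∪ U ⊆ T := Finset.union_subset (fl_subset _ _) (fl_subset _ _)
  have hcard : (A.card : ℝ) + U.card ≤ T.card := by
    have := Finset.card_le_card hAU
    rw [Finset.card_union_of_disjoint hd] at this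
    exact_mod_cast this
  obtain ⟨I, z, z', hz, hz', hq⟩ := two_blk hd (h.bes.mono hAU) hk0 (Γ := 3 * u0 + 6 * mU * k) (by
    intro z hz
    have a0 : ∀ u ∈ U, cn A (Adj u) ≤ 3 := fun u hu =>
      le_trans (cn_mono fun t ht g => ⟨ht, (mem_fl.1 ht).2.1, g⟩)
        (gm2 A (by rw [hU' u hu, hη]) (mem_fl.1 hu).2)
    rw [← sum_fl_add_not U (fun u => ∃ a ∈ SU, a ⊆ u)]
    have a1 : ∑ u ∈ fl U (fun u => ¬ ∃ a ∈ SU, a ⊆ u), ∑ i, (∑ t ∈ fl A (Adj u), aa u t * z i t) ^ 2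
        ≤ 3 * u0 := by
      refine (Finset.sum_le_sum (g := fun _ => 3) fun u hu =>
        (d_le_cn hz _ (aa u) (aa_sq u)).trans (a0 u (mem_fl.1 hu).1)).trans ?_
      rw [Finset.sum_const, nsmul_eq_mul, mul_comm]; exact le_rfl
    have a2 : ∑ u ∈ fl U (fun u => ∃ a ∈ SU, a ⊆ u), ∑ i, (∑ t ∈ fl A (Adj u), aa u t * z i t) ^ 2
        ≤ 3 * ∑ u ∈ fl U (fun u => ∃ a ∈ SU, a ⊆ u), ∑ t ∈ fl A (Adj u), wq z t := by
      rw [Finset.mul_sum]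
      refine Finset.sum_le_sum fun u hu => (d_le_mul _ z (aa u) (aa_sq u)).trans ?_
      exact mul_le_mul_of_nonneg_right (a0 u (mem_fl.1 hu).1)
        (Finset.sum_nonneg fun _ _ => wq_nonneg _ _)
    rw [sum_fl_comm _ A (fun u t => Adj u t) (fun _ t => wq z t)] at a2
    have a3 : ∑ t ∈ A, ∑ _u ∈ fl (fl U (fun u => ∃ a ∈ SU, a ⊆ u)) (fun u => Adj u t), wq z t
        ≤ ∑ t ∈ A, 2 * mU * wq z t := by
      refine Finset.sum_le_sum fun t ht => ?_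
      rw [Finset.sum_const, nsmul_eq_mul]
      refine mul_le_mul_of_nonneg_right ?_ (wq_nonneg _ _)
      refine le_trans (cn_mono fun u hu g => ⟨(mem_fl.1 hu).1, g.symm, fun g2 =>
        (mem_fl.1 ht).2.2 ⟨_, g2, Finset.inter_subset_left⟩, (mem_fl.1 hu).2⟩)
        (deg_lines (T := U) hSU' (hT t (mem_fl.1 ht).1))
    rw [← Finset.mul_sum, ← tr_eq_wq] at a3
    have a4 := hz.tr_le
    rw [← hkJ] at a4
    have a5 := mul_le_mul_of_nonneg_left a4 hmU0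
    linarith)
  set j : ℝ := (I.card : ℝ) with hj
  have hjc : j = Fintype.card {i // i ∈ I} := by rw [Fintype.card_coe]
  have hj0 : 0 ≤ j := Nat.cast_nonneg _
  have hjk : j ≤ k := by rw [hkJ, hj]; exact_mod_cast Finset.card_le_univ I
  have k1 : ∑ i ∈ fl Finset.univ (fun i => i ∉ I), QF A (one (z i))
      ≤ A.card + (k - j) * (k - j - 1) / 2 := by
    have a1 := kt_face η A (fun t ht => ⟨(mem_fl.1 ht).2.1, by rw [hT t (mem_fl.1 ht).1, hη]⟩) _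
      (hz.sub (fl Finset.univ (fun i => i ∉ I)))
    have a2 := cn_add_not Finset.univ (fun i => i ∈ I)
    have a3 : fl Finset.univ (fun i => i ∈ I) = I := by ext i; simp only [mem_fl]; simp
    unfold cn at a2
    rw [a3, Finset.card_univ, ← hkJ, ← hj] at a2
    rw [Fintype.card_coe, (by linarith : ((fl Finset.univ (fun i => i ∉ I)).card : ℝ) = k - j)] at a1
    rwa [QF_sub]
  rw [QF_sub U z' I] at hq
  have hzI := hz'.sub I
  have l1 : ∀ a ∈ SU, 200 * k - 1 ≤ cn U (fun t => a ⊆ t) := by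
    intro a ha
    have a1 : cn T (fun t => a ⊆ t) ≤ cn T (fun t => t ∈ U ∧ a ⊆ t) + cn T (fun t => a ⊆ t ∧ η ⊆ t) := by
      refine cn_or_le fun t ht g => ?_
      by_cases g1 : η ⊆ t
      · exact Or.inr ⟨g, g1⟩
      · exact Or.inl ⟨mem_fl.2 ⟨ht, g1⟩, g⟩
    have a2 : cn T (fun t => t ∈ U ∧ a ⊆ t) ≤ cn U (fun t => a ⊆ t) := cn_mono fun _ _ h => h
    linarith [hone a ha, h1 a (mem_fl.1 ha).1]
  have l2 : ∀ ρ : Finset α, ρ.card = n + 1 → ρ ∉ SU → cn U (fun t => ρ ⊆ t) ≤ 200 * k := by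
    intro ρ g1 g2
    refine cn_le_of_ex (by linarith) fun t ht g3 => ?_
    refine le_trans (cn_mono fun t ht g => ⟨(mem_fl.1 ht).1, g⟩) (h2 ρ g1 fun g4 => g2 ?_)
    exact mem_fl.2 ⟨g4, fun g5 => (mem_fl.1 ht).2 (g5.trans g3)⟩
  have fin : QF U (fun i : {i // i ∈ I} => z' i) - U.card + 4 * (3 * u0 + 6 * mU * k) / k
      + mU * k / 10 ^ 11 ≤ 3 / 4 * j * k - j * (j + 1) / 2 := by
    rcases Nat.eq_zero_or_pos I.card with g | g
    · have a1 : j = 0 := by rw [hj, g]; simp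
      rw [QF_empty U _ (by rw [Fintype.card_coe, g]), a1]
      have := s2_arith0 hk hmU0 hmU1 hu00 (cnt_lines hU' hSU' l1)
      linarith
    have hj1 : 1 ≤ j := by rw [hj]; exact_mod_cast g
    by_cases g1 : 20 * j ≤ mU
    · have a1 := lemA hU' hSU' _ hzI hjc hj1 hmU hu0 (by linarith [show (1 : ℝ) ≤ 10 ^ 16 by norm_num])
        (by linarith) l1 l2
      have a2 := s2_arith1 (Φ := QF U (fun i : {i // i ∈ I} => z' i) - U.card) hk hmU0 hmU1 hu00 hj0 g1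
        (by linarith)
      have a3 := mul_le_mul_of_nonneg_left hjk hj0
      have a4 := mul_le_mul_of_nonneg_left hk hj0
      linarith
    · by_cases g2 : j ≤ k / 11000
      · have a1 := thmA hU' _ hzI
        rw [← hjc] at a1
        exact s2_arith2 hk hu01 hj1 (not_le.1 g1).le g2 (by linarith)
      · have hk3 : 0 ≤ k ^ 3 := by positivity
        have a0 : j * u0 ≤ k * (k ^ 2 / 10 ^ 13) := mul_le_mul hjk hu01 hu00 hk0.le
        have a1 := lemA0 hU' hSU' _ hzI hjc hj1 hmU hu0 (L1' := 0) le_rfl (by linarith)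
          (fun _ _ => cn_nonneg _ _) l2 (X1 := 2 * k ^ 2 / 10 ^ 13) (X3 := k ^ 2 / 10 ^ 5)
          (by positivity) (by
            have : mU * (j * u0) ≤ k / 10 ^ 13 * (k * (k ^ 2 / 10 ^ 13)) :=
              mul_le_mul hmU1 a0 (by positivity) (by positivity)
            have e : 0 ≤ k ^ 4 := by positivity
            linarith) (by positivity) (by
            have b1 : (j * u0) ^ 2 * u0 ≤ (k * (k ^ 2 / 10 ^ 13)) ^ 2 * (k ^ 2 / 10 ^ 13) :=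
              mul_le_mul (pow_le_pow_left₀ (by positivity) a0 2) hu01 hu00 (by positivity)
            have e : 0 ≤ k ^ 8 := by positivity
            linarith) (by
            have : (200 * k + 18 * j) * (j * u0) ≤ (218 * k) * (k * (k ^ 2 / 10 ^ 13)) :=
              mul_le_mul (by linarith) a0 (by positivity) (by positivity)
            have e : 0 ≤ k ^ 4 := by positivity
            linarith)
        exact s2_arith3 hk hmU0 hmU1 hu01 hu00 (not_le.1 g2).le hjk (by linarith)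
  linarith

end Pool.Agent.Lib.MP_468ee0_co
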