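import Pool.Agent.Lib.MP_468ee0_co.U4A

set_option autoImplicit false
set_option linter.unusedSectionVars false

namespace Pool.Agent.Lib.MP_468ee0_co

open Finset

variable {α J : Type} [LinearOrder α] [Fintype α] [Fintype J]

lemma deg_pencils {n : ℕ} {T BP : Finset (Finset α)} (hB : ∀ η ∈ BP, η.card = n) {t : Finset α}
    (ht : t.card = n + 2) :
    cn T (fun s => Adj s t ∧ ∃ η ∈ BP, η ⊆ s ∧ ¬ η ⊆ t) ≤ BP.card * 3 := by
  refine cn_le_mul BP (fun η s => ¬ η ⊆ t ∧ η ⊆ s ∧ Adj t s)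
    (fun s _ ⟨h1, η, h2, h3, h4⟩ => ⟨η, h2, h4, h3, h1.symm⟩) fun η hη => ?_
  by_cases h4 : η ⊆ t
  · rw [cn_eq_zero fun s _ h => h.1 h4]; norm_num
  · exact le_trans (cn_mono fun s hs h => ⟨hs, h.2⟩) (gm2 T (by rw [ht, hB η hη]) h4)

lemma cutXa {n : ℕ} {T P BP : Finset (Finset α)} (hT : ∀ t ∈ T, t.card = n + 2)
    (hB : ∀ η ∈ BP, η.card = n) {y : J → Finset α → ℝ} (hy : Bes T y) :
    AS y T (fun s t => t ∈ P ∧ Adj s t ∧ ∃ η ∈ BP, η ⊆ s ∧ ¬ η ⊆ t) ^ 2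
      ≤ Fintype.card J * (P.card * (BP.card * 3)) := by
  refine (L1 hy _).trans (mul_le_mul_of_nonneg_left ?_ (Nat.cast_nonneg _))
  rw [← NE_flip]
  exact NE_le_out T P _ (fun _ _ _ _ h => h.1) (by positivity) fun t ht =>
    le_trans (cn_mono fun s hs h => ⟨hs, h.2⟩) (deg_pencils hB (hT t ht))

lemma cutXb {n : ℕ} {T S BP : Finset (Finset α)} (hT : ∀ t ∈ T, t.card = n + 2)
    (hS : ∀ a ∈ S, a.card = n + 1) (hB : ∀ η ∈ BP, η.card = n) (y : J → Finset α → ℝ) :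
    AS y T (fun s t => (s ∩ t ∉ S ∧ ∃ a ∈ S, a ⊆ t) ∧ Adj s t ∧ ∃ η ∈ BP, η ⊆ s ∧ ¬ η ⊆ t) ^ 2
      ≤ 2 * S.card * (BP.card * 3) * tr T y ^ 2 :=
  Sch T y _ (fun s hs => le_trans (cn_mono fun t ht h => ⟨ht, h.2.1, h.1⟩) (deg_lines hS (hT s hs)))
    fun t ht => le_trans (cn_mono fun s hs h => ⟨hs, h.2⟩) (deg_pencils hB (hT t ht))

lemma short_row {n : ℕ} {T P H : Finset (Finset α)} (hT : ∀ t ∈ T, t.card = n + 2) {D : ℝ}
    (hD : 0 ≤ D) (hH : ∀ ρ : Finset α, ρ.card = n + 1 → ρ ∉ H → cn P (fun t => ρ ⊆ t) ≤ D)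
    (r : Finset α → Finset α → Prop) (hr : ∀ s t, r s t → Adj s t ∧ s ∈ P ∧ s ∩ t ∉ H) :
    ∀ t ∈ T, ∀ ρ, cn T (fun s => r s t ∧ s ∩ t = ρ) ≤ D := by
  intro t ht ρ
  refine cn_le_of_ex hD fun s hs h => ?_
  have h1 := hr s t h.1
  refine le_trans (cn_mono fun s' _ h' => ⟨(hr s' t h'.1).2.1, h'.2 ▸ Finset.inter_subset_left⟩)
    (hH ρ ?_ (h.2 ▸ h1.2.2))
  have := h1.1.2; have := hT s hs; rw [← h.2]; omega

lemma short_col {n : ℕ} {T P C : Finset (Finset α)} (hT : ∀ t ∈ T, t.card = n) {D : ℝ}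
    (hD : 0 ≤ D) (hC : ∀ γ : Finset α, γ.card = n + 1 → γ ∉ C → cn P (fun t => t ⊆ γ) ≤ D)
    (r : Finset α → Finset α → Prop) (hr : ∀ s t, r s t → Adj s t ∧ s ∈ P ∧ s ∪ t ∉ C) :
    ∀ t ∈ T, ∀ γ, cn T (fun s => r s t ∧ s ∪ t = γ) ≤ D := by
  intro t ht γ
  refine cn_le_of_ex hD fun s hs h => ?_
  have h1 := hr s t h.1
  refine le_trans (cn_mono fun s' _ h' => ⟨(hr s' t h'.1).2.1, h'.2 ▸ Finset.subset_union_left⟩)
    (hC γ ?_ (h.2 ▸ h1.2.2))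
  rw [← h.2, h1.1.card_union, hT s hs]

lemma in_sq {n : ℕ} {T P H C : Finset (Finset α)} (hT : ∀ t ∈ T, t.card = n + 2) {D : ℝ}
    (hD : 0 ≤ D) (hH : ∀ ρ : Finset α, ρ.card = n + 1 → ρ ∉ H → cn P (fun t => ρ ⊆ t) ≤ D)
    (hC : ∀ γ : Finset α, γ.card = n + 3 → γ ∉ C → cn P (fun t => t ⊆ γ) ≤ D)
    (r : Finset α → Finset α → Prop) (hr : ∀ s t, r s t → Adj s t ∧ s ∈ P ∧ s ∩ t ∉ H ∧ s ∪ t ∉ C) :
    ∑ t ∈ T, cn T (fun s => r s t) ^ 2 ≤ 4 * (P.card : ℝ) ^ 2 + 2 * D * NE T r := by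
  have h1 := short_row hT hD hH r fun s t h => ⟨(hr s t h).1, (hr s t h).2.1, (hr s t h).2.2.1⟩
  have h2 := short_col hT hD hC r fun s t h => ⟨(hr s t h).1, (hr s t h).2.1, (hr s t h).2.2.2⟩
  have := L3 T P (fun t s => r s t) (fun t _ s _ h => ⟨(hr s t h).1.symm, (hr s t h).2.1⟩) (D := D)
    (fun t ht ρ => by simpa only [Finset.inter_comm t] using h1 t ht ρ)
    (fun t ht ρ => by simpa only [Finset.union_comm t] using h2 t ht ρ)
  rwa [NE_flip T r] at this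

lemma W4c {n : ℕ} {T P H C : Finset (Finset α)} (hT : ∀ t ∈ T, t.card = n + 2) {D : ℝ}
    (hD : 0 ≤ D) (hH : ∀ ρ : Finset α, ρ.card = n + 1 → ρ ∉ H → cn P (fun t => ρ ⊆ t) ≤ D)
    (hC : ∀ γ : Finset α, γ.card = n + 3 → γ ∉ C → cn P (fun t => t ⊆ γ) ≤ D)
    (r : Finset α → Finset α → Prop) (hr : ∀ s t, r s t → Adj s t ∧ s ∈ P ∧ s ∩ t ∉ H ∧ s ∪ t ∉ C)
    {y : J → Finset α → ℝ} (hy : Bes T y) :
    AS y T r ^ 4 ≤ (Fintype.card J : ℝ) ^ 3 * (4 * (P.card : ℝ) ^ 2 + 2 * D * NE T r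
      + (2 * D + 4) * ∑ s ∈ T, cn T (r s) ^ 2) := by
  have h1 := short_row hT hD hH r fun s t h => ⟨(hr s t h).1, (hr s t h).2.1, (hr s t h).2.2.1⟩
  have h2 := short_col hT hD hC r fun s t h => ⟨(hr s t h).1, (hr s t h).2.1, (hr s t h).2.2.2⟩
  have h3 := sum_w_sq T r (B := 2 * D + 4) (by linarith)
    (codeg T r (fun s _ t _ h => (hr s t h).1) h1 h2)
  have h4 := in_sq hT hD hH hC r hr
  exact (W4 hy r).trans (mul_le_mul_of_nonneg_left (by linarith) (by positivity))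

lemma spor_half {n : ℕ} {S : Finset (Finset α)} {s t a a' : Finset α} (hs : s.card = n + 2)
    (ht : t.card = n + 2) (ha : a ∈ S) (hac : a.card = n + 1) (hac' : a'.card = n + 1)
    (has : a ⊆ s) (hat : a' ⊆ t) (h : Adj s t) (h1 : s ∩ t ∉ S) (h2 : s \ a ≠ t \ a') :
    a ⊆ s ∧ s ⊆ a ∪ a' ∧ s.card = a.card + 1 ∧ (a' \ a).card ≤ 2 := by
  obtain ⟨x, hx, hxa, -, e, d⟩ := exists_erase has (by rw [hs, hac])
  obtain ⟨x', -, -, -, e', d'⟩ := exists_erase hat (by rw [ht, hac'])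
  have hxt : x ∈ t := by
    by_contra hxt
    have e1 : s ∩ t ⊆ a := fun z hz => by
      have := (Finset.mem_inter.1 hz).1
      rw [e, Finset.mem_insert] at this
      rcases this with rfl | h3
      · exact absurd (Finset.mem_inter.1 hz).2 hxt
      · exact h3
    have e2 := Finset.eq_of_subset_of_card_le e1 (by have := h.2; omega)
    exact h1 (e2 ▸ ha)
  have hxa' : x ∈ a' := by
    rw [e', Finset.mem_insert] at hxt
    rcases hxt with rfl | h3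
    · exact absurd (d.trans d'.symm) h2
    · exact h3
  refine ⟨has, ?_, by rw [hs, hac], ?_⟩
  · rw [e]; exact Finset.insert_subset (Finset.mem_union_right _ hxa') Finset.subset_union_left
  · have e1 : a' \ a ⊆ (t \ s) ∪ (s \ a) := fun z hz => by
      rw [Finset.mem_union, Finset.mem_sdiff, Finset.mem_sdiff]
      rw [Finset.mem_sdiff] at hz
      by_cases hzs : z ∈ s
      · exact Or.inr ⟨hzs, hz.2⟩
      · exact Or.inl ⟨hat hz.1, hzs⟩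
    have e2 := (Finset.card_le_card e1).trans (Finset.card_union_le _ _)
    have e3 := Finset.card_sdiff_add_card_inter t s
    have := h.symm.2
    rw [d, Finset.card_singleton] at e2
    omega

lemma cutSp {n : ℕ} {T S : Finset (Finset α)} (hT : ∀ t ∈ T, t.card = n + 2)
    (hS : ∀ a ∈ S, a.card = n + 1) (la : Finset α → Finset α) (F : Finset α → Prop)
    (hla : ∀ s ∈ T, F s → la s ∈ S ∧ la s ⊆ s) :
    NE T (fun s t => Adj s t ∧ F s ∧ F t ∧ s ∩ t ∉ S ∧ s \ la s ≠ t \ la t)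
      ≤ 4 * (S.card : ℝ) ^ 2 := by
  have key : ∀ a a' : Finset α,
      cn T (fun s => a ⊆ s ∧ s ⊆ a ∪ a' ∧ s.card = a.card + 1 ∧ (a' \ a).card ≤ 2) ≤ 2 := by
    intro a a'
    refine cn_le_of_ex (by norm_num) fun s _ h => ?_
    refine le_trans (cn_mono fun s hs g => ⟨hs, g.1, g.2.1, g.2.2.1⟩) ((between_bot T a (a ∪ a')).trans ?_)
    rw [Finset.union_sdiff_left]
    exact_mod_cast h.2.2.2
  have := NE_le_key T (fun s t => Adj s t ∧ F s ∧ F t ∧ s ∩ t ∉ S ∧ s \ la s ≠ t \ la t) (S ×ˢ S)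
    (fun c s t => (c.1 ⊆ s ∧ s ⊆ c.1 ∪ c.2 ∧ s.card = c.1.card + 1 ∧ (c.2 \ c.1).card ≤ 2) ∧
      (c.2 ⊆ t ∧ t ⊆ c.2 ∪ c.1 ∧ t.card = c.2.card + 1 ∧ (c.1 \ c.2).card ≤ 2))
    (fun s hs t ht h => by
      have a1 := hla s hs h.2.1
      have a2 := hla t ht h.2.2.1
      exact ⟨(la s, la t), Finset.mem_product.2 ⟨a1.1, a2.1⟩,
        spor_half (hT s hs) (hT t ht) a1.1 (hS _ a1.1) (hS _ a2.1) a1.2 a2.2 h.1 h.2.2.2.1 h.2.2.2.2,
        spor_half (hT t ht) (hT s hs) a2.1 (hS _ a2.1) (hS _ a1.1) a2.2 a1.2 h.1.symm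
          (Finset.inter_comm s t ▸ h.2.2.2.1) h.2.2.2.2.symm⟩)
    (B := 2 * 2) (fun c _ => NE_le_prod T _ _ (key c.1 c.2) (key c.2 c.1))
  rw [Finset.card_product] at this
  push_cast at this
  linarith

lemma ov1 {n : ℕ} {T H C : Finset (Finset α)} (hH : ∀ a ∈ H, a.card = n + 1)
    (hC : ∀ γ ∈ C, γ.card = n + 3) :
    NE T (fun s t => Adj s t ∧ s ∩ t ∈ H ∧ s ∪ t ∈ C) ≤ 4 * (H.card : ℝ) * C.card := by
  have key : ∀ c ∈ H ×ˢ C, cn T (fun s => c.1 ⊆ s ∧ s ⊆ c.2 ∧ s.card = c.1.card + 1) ≤ 2 := by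
    intro c hc
    refine cn_le_of_ex (by norm_num) fun s _ h => (between_bot T c.1 c.2).trans ?_
    rw [Finset.card_sdiff_of_subset (h.1.trans h.2.1), hH _ (Finset.mem_product.1 hc).1,
      hC _ (Finset.mem_product.1 hc).2, (by omega : n + 3 - (n + 1) = 2)]
    norm_num
  have := NE_le_key T (fun s t => Adj s t ∧ s ∩ t ∈ H ∧ s ∪ t ∈ C) (H ×ˢ C)
    (fun c s t => (c.1 ⊆ s ∧ s ⊆ c.2 ∧ s.card = c.1.card + 1) ∧
      (c.1 ⊆ t ∧ t ⊆ c.2 ∧ t.card = c.1.card + 1))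
    (fun s _ t _ h => ⟨(s ∩ t, s ∪ t), Finset.mem_product.2 h.2,
      ⟨Finset.inter_subset_left, Finset.subset_union_left, h.1.2.symm⟩,
      ⟨Finset.inter_subset_right, Finset.subset_union_right, h.1.1 ▸ h.1.2.symm⟩⟩)
    (B := 2 * 2) (fun c hc => NE_le_prod T _ _ (key c hc) (key c hc))
  rw [Finset.card_product] at this
  push_cast at this
  linarith

/-- a small family with short rows has a small top eigenvalue -/
lemma lam {n : ℕ} {X : Finset (Finset α)} (hX : ∀ t ∈ X, t.card = n + 2) {m D Λ1 Λ2 : ℝ}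
    (hm : (X.card : ℝ) ≤ m) (hD : 0 < D) (hD' : 4 * m ≤ D ^ 2)
    (hrow : ∀ ρ : Finset α, ρ.card = n + 1 → cn X (fun t => ρ ⊆ t) ≤ D) (A : Finset α → Prop)
    (h1 : 0 ≤ Λ1) (h1' : m * (2 * D + 5) ≤ Λ1 ^ 2) (h2 : 2 * m ≤ Λ2 * D) (y : J → Finset α → ℝ) :
    ES y X (fun s t => Adj s t ∧ A (s ∪ t)) ≤ (Λ1 + Λ2) * tr X y := by
  set C := fl Finset.univ (fun γ : Finset α => γ.card = n + 3 ∧ A γ ∧ D ≤ cn X (fun t => t ⊆ γ))
    with hC
  have hC' : ∀ γ ∈ C, γ.card = n + 3 := fun γ h => (mem_fl.1 h).2.1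
  have a1 := pack X C (fun t γ => t ⊆ γ) (cols_one hX hC') hD.le (fun γ h => (mem_fl.1 h).2.2.2)
    (by linarith)
  have a2 : (C.card : ℝ) ≤ Λ2 := le_of_mul_le_mul_right (by linarith) hD
  have a3 := NC y hX hC' (fun _ => True)
  have a4 : ∑ t ∈ X, wq y t * cn C (fun γ => t ⊆ γ) ≤ Λ2 * tr X y := by
    rw [tr_eq_wq, Finset.mul_sum]
    refine Finset.sum_le_sum fun t _ => ?_
    rw [mul_comm]
    exact mul_le_mul_of_nonneg_right ((cn_le_card _ _).trans a2) (wq_nonneg _ _)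
  have a5 := ES_split y X (fun s t => Adj s t ∧ A (s ∪ t)) (fun s t => s ∪ t ∈ C)
  have a6 : ES y X (fun s t => (Adj s t ∧ A (s ∪ t)) ∧ s ∪ t ∈ C)
      = ES y X (fun s t => Adj s t ∧ True ∧ True ∧ s ∪ t ∈ C) :=
    ES_congr y X fun s _ t _ => ⟨fun h => ⟨h.1.1, trivial, trivial, h.2⟩,
      fun h => ⟨⟨h.1, (mem_fl.1 h.2.2.2).2.2.1⟩, h.2.2.2⟩⟩
  have a7 := ES_le_AS y X (fun s t => (Adj s t ∧ A (s ∪ t)) ∧ s ∪ t ∉ C)
  have a8 := Wsm X y (fun s t => (Adj s t ∧ A (s ∪ t)) ∧ s ∪ t ∉ C) (B := 2 * D + 4) (by linarith)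
    (codeg X _ (fun s _ t _ h => h.1.1) (fun t ht ρ => by
      refine cn_le_of_ex hD.le fun s hs h => ?_
      refine le_trans (cn_mono fun s' hs' h' => ⟨hs', h'.2 ▸ Finset.inter_subset_left⟩) (hrow ρ ?_)
      have := h.1.1.1.2; have := hX s hs; rw [← h.2]; omega) (fun t ht γ => by
      refine cn_le_of_ex hD.le fun s hs h => ?_
      refine le_trans (cn_mono (q := fun s => s ⊆ γ)
        fun s' hs' h' => ⟨hs', h'.2 ▸ Finset.subset_union_left⟩) (le_of_not_ge fun g => h.1.2 ?_)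
      rw [h.2]
      exact mem_fl.2 ⟨Finset.mem_univ _, by rw [← h.2, h.1.1.1.card_union, hX s hs], h.2 ▸ h.1.1.2, g⟩))
  have a9 := tr_nonneg X y
  have a10 : AS y X (fun s t => (Adj s t ∧ A (s ∪ t)) ∧ s ∪ t ∉ C) ≤ Λ1 * tr X y := by
    refine le_of_sq (a8.trans ?_) (mul_nonneg h1 a9)
    rw [mul_pow]
    refine mul_le_mul_of_nonneg_right (le_trans ?_ h1') (sq_nonneg _)
    have := mul_le_mul_of_nonneg_right hm (by linarith : 0 ≤ 2 * D + 5)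
    linarith
  linarith

lemma reg_row {n : ℕ} {T S H BP : Finset (Finset α)} (hT : ∀ t ∈ T, t.card = n + 2)
    (hS : ∀ a ∈ S, a.card = n + 1) (hSH : S ⊆ H) {D : ℝ} (hD : 1 ≤ D)
    (hB : ∀ η : Finset α, η.card = n → η ∉ BP → cn H (fun a => η ⊆ a) ≤ D)
    (la : Finset α → Finset α) (F : Finset α → Prop)
    (hla : ∀ s ∈ T, F s → la s ∈ S ∧ la s ⊆ s) (hF : ∀ s ∈ T, F s → ∀ η ∈ BP, ¬ η ⊆ s)
    (z ρ : Finset α) (hρ : ρ.card = n + 1) :
    cn T (fun t => (F t ∧ t \ la t = z) ∧ ρ ⊆ t) ≤ D := by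
  refine cn_le_of_ex (by linarith) fun t0 ht0 h0 => ?_
  have a0 := hla t0 ht0 h0.1.1
  obtain ⟨x, -, -, -, -, d⟩ := exists_erase a0.2 (by rw [hT t0 ht0, hS _ a0.1])
  have hz : z = {x} := h0.1.2.symm.trans d
  have hx : ∀ t : Finset α, t \ la t = z → x ∈ t := fun t h => by
    have : x ∈ t \ la t := by rw [h, hz]; exact Finset.mem_singleton_self x
    exact (Finset.mem_sdiff.1 this).1
  by_cases hxρ : x ∈ ρ
  · have a1 : (ρ.erase x).card = n := by rw [Finset.card_erase_of_mem hxρ, hρ]; rfl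
    have a2 : ρ.erase x ∉ BP := fun h =>
      hF t0 ht0 h0.1.1 _ h ((Finset.erase_subset _ _).trans h0.2)
    refine le_trans (cn_le_of_inj (Y := fl H (fun a => ρ.erase x ⊆ a)) la (fun t ht h => ?_)
      fun t ht t' ht' h h' e => ?_) (hB _ a1 a2)
    · refine mem_fl.2 ⟨hSH (hla t ht h.1.1).1, fun w hw => ?_⟩
      by_contra hw'
      have : w ∈ t \ la t := Finset.mem_sdiff.2 ⟨h.2 (Finset.mem_of_mem_erase hw), hw'⟩
      rw [h.1.2, hz, Finset.mem_singleton] at this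
      exact Finset.ne_of_mem_erase hw this
    · rw [← Finset.sdiff_union_of_subset (hla t ht h.1.1).2,
        ← Finset.sdiff_union_of_subset (hla t' ht' h'.1.1).2, h.1.2, h'.1.2, e]
  · refine le_trans (cn_le_one fun t ht t' ht' h h' => ?_) hD
    have e : ∀ t ∈ T, (F t ∧ t \ la t = z) ∧ ρ ⊆ t → t = ρ ∪ {x} := fun t ht h =>
      eq_union_of h.2 (Finset.singleton_subset_iff.2 (hx t h.1.2))
        (fun g => hxρ (Finset.singleton_subset_iff.1 g)) (by rw [hT t ht, hρ])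
    rw [e t ht h, e t' ht' h']

lemma cutReg {n : ℕ} {T S H BP : Finset (Finset α)} (hT : ∀ t ∈ T, t.card = n + 2)
    (hS : ∀ a ∈ S, a.card = n + 1) (hSH : S ⊆ H) {m D Λ1 Λ2 : ℝ} (hD : 1 ≤ D)
    (hB : ∀ η : Finset α, η.card = n → η ∉ BP → cn H (fun a => η ⊆ a) ≤ D)
    (la : Finset α → Finset α) (F : Finset α → Prop)
    (hla : ∀ s ∈ T, F s → la s ∈ S ∧ la s ⊆ s) (hF : ∀ s ∈ T, F s → ∀ η ∈ BP, ¬ η ⊆ s)
    (hm : (S.card : ℝ) ≤ m) (hD' : 4 * m ≤ D ^ 2) (A : Finset α → Prop)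
    (h1 : 0 ≤ Λ1) (h1' : m * (2 * D + 5) ≤ Λ1 ^ 2) (h2 : 2 * m ≤ Λ2 * D) (y : J → Finset α → ℝ) :
    ES y T (fun s t => Adj s t ∧ F s ∧ F t ∧ s \ la s = t \ la t ∧ A (s ∪ t))
      ≤ (Λ1 + Λ2) * tr T y := by
  have hm0 : 0 ≤ m := (Nat.cast_nonneg _).trans hm
  have hΛ2 : 0 ≤ Λ2 := by
    by_contra h
    have := mul_neg_of_neg_of_pos (not_le.1 h) (by linarith : 0 < D)
    linarith
  rw [ES_key y T _ (fun s _ => s \ la s) Finset.univ (fun _ _ _ _ _ => Finset.mem_univ _)]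
  have a1 : ∀ z ∈ (Finset.univ : Finset (Finset α)),
      ES y T (fun s t => (Adj s t ∧ F s ∧ F t ∧ s \ la s = t \ la t ∧ A (s ∪ t)) ∧ s \ la s = z)
      ≤ (Λ1 + Λ2) * ∑ t ∈ fl T (fun t => t \ la t = z), wq y t := by
    intro z _
    have b1 := lam (X := fl T (fun t => F t ∧ t \ la t = z)) (fun t ht => hT t (mem_fl.1 ht).1)
      (m := m) (D := D) (le_trans (cn_le_of_inj (T := T) (p := fun t => F t ∧ t \ la t = z) la
        (fun t ht h => (hla t ht h.1).1) fun t ht t' ht' h h' e => by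
          rw [← Finset.sdiff_union_of_subset (hla t ht h.1).2,
            ← Finset.sdiff_union_of_subset (hla t' ht' h'.1).2, h.2, h'.2, e]) hm) (by linarith) hD'
      (fun ρ hρ => by
        unfold cn; rw [fl_fl]; exact reg_row hT hS hSH hD hB la F hla hF z ρ hρ) A h1 h1' h2 y
    rw [← ES_sub y (fl_subset T _), tr_eq_wq] at b1
    refine le_trans (le_of_eq (ES_congr y T fun s hs t ht => ?_)) (b1.trans ?_)
    · simp only [mem_fl]
      constructor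
      · rintro ⟨⟨g1, g2, g3, g4, g5⟩, g6⟩
        exact ⟨⟨hs, g2, g6⟩, ⟨ht, g3, g4.symm.trans g6⟩, g1, g5⟩
      · rintro ⟨⟨-, g2, g6⟩, ⟨-, g3, g4⟩, g1, g5⟩
        exact ⟨⟨g1, g2, g3, g6.trans g4.symm, g5⟩, g6⟩
    · refine mul_le_mul_of_nonneg_left (Finset.sum_le_sum_of_subset_of_nonneg
        (fun t ht => mem_fl.2 ⟨(mem_fl.1 ht).1, (mem_fl.1 ht).2.2⟩) fun _ _ _ => wq_nonneg _ _)
        (by linarith)
  refine (Finset.sum_le_sum a1).trans ?_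
  rw [← Finset.mul_sum, sum_fl_comm Finset.univ T (fun z t => t \ la t = z) (fun _ t => wq y t),
    tr_eq_wq]
  refine mul_le_mul_of_nonneg_left (Finset.sum_le_sum fun t _ => ?_) (by linarith)
  rw [Finset.sum_const, nsmul_eq_mul]
  exact mul_le_of_le_one_left (wq_nonneg _ _)
    (cn_le_one (p := fun z => t \ la t = z) fun _ _ _ _ e e' => e.symm.trans e')

lemma ov2 {n : ℕ} {T S H BP : Finset (Finset α)} (hT : ∀ t ∈ T, t.card = n + 2)
    (hS : ∀ a ∈ S, a.card = n + 1) (hH : ∀ a ∈ H, a.card = n + 1) (hSH : S ⊆ H) {D : ℝ} (hD : 1 ≤ D)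
    (hB : ∀ η : Finset α, η.card = n → η ∉ BP → cn H (fun a => η ⊆ a) ≤ D)
    (la : Finset α → Finset α) (F : Finset α → Prop)
    (hla : ∀ s ∈ T, F s → la s ∈ S ∧ la s ⊆ s) (hF : ∀ s ∈ T, F s → ∀ η ∈ BP, ¬ η ⊆ s) :
    NE T (fun s t => Adj s t ∧ F s ∧ F t ∧ s \ la s = t \ la t ∧ s ∩ t ∈ H)
      ≤ (H.card : ℝ) * S.card * D := by
  have := NE_le_key T (fun s t => Adj s t ∧ F s ∧ F t ∧ s \ la s = t \ la t ∧ s ∩ t ∈ H) (H ×ˢ S)
    (fun c s t => s = c.2 ∪ c.1 ∧ ((F t ∧ t \ la t = (c.2 ∪ c.1) \ c.2) ∧ c.1 ⊆ t))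
    (fun s hs t ht h => by
      have a1 := hla s hs h.2.1
      obtain ⟨x, hx, hxa, -, -, d⟩ := exists_erase a1.2 (by rw [hT s hs, hS _ a1.1])
      have hxt : x ∈ t := by
        have : x ∈ t \ la t := by rw [← h.2.2.2.1, d]; exact Finset.mem_singleton_self x
        exact (Finset.mem_sdiff.1 this).1
      have e : s = la s ∪ s ∩ t := eq_union_of a1.2 Finset.inter_subset_left
        (fun g => hxa (g (Finset.mem_inter.2 ⟨hx, hxt⟩))) (by rw [hT s hs, hS _ a1.1])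
      refine ⟨(s ∩ t, la s), Finset.mem_product.2 ⟨h.2.2.2.2, a1.1⟩, e, ⟨h.2.2.1, ?_⟩,
        Finset.inter_subset_right⟩
      simp only
      rw [← e, h.2.2.2.1])
    (B := 1 * D) (fun c hc => NE_le_prod T _ _ (cn_le_one fun _ _ _ _ e e' => e.trans e'.symm)
      (reg_row hT hS hSH hD hB la F hla hF _ _ (hH _ (Finset.mem_product.1 hc).1)))
  rw [Finset.card_product] at this
  push_cast at this
  linarith

lemma long_count {β γ : Type} (P : Finset β) (B : Finset γ) (inc : β → γ → Prop) {D X : ℝ}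
    (hD : 4 ≤ D) (hX : 0 ≤ X) (h : ∀ b ∈ B, D ≤ cn P (fun t => inc t b))
    (h5 : (∑ t ∈ P, cn B (inc t) * (cn B (inc t) - 1)) * (D - 2) ^ 2 ≤ 4 * (P.card : ℝ) ^ 2)
    (hX' : 16 * (P.card : ℝ) ^ 3 ≤ X ^ 2 * D ^ 2) : B.card * D ≤ P.card + X := by
  have h2 := I2 P (fun t => cn B (inc t)) (fun t _ => cn_cases _ _) hX (by
    set W := ∑ t ∈ P, cn B (inc t) * (cn B (inc t) - 1)
    have hW : 0 ≤ W := Finset.sum_nonneg fun _ _ => cn_cc_nonneg _ _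
    have e1 : W * (D / 2) ^ 2 ≤ W * (D - 2) ^ 2 :=
      mul_le_mul_of_nonneg_left (pow_le_pow_left₀ (by linarith) (by linarith) 2) hW
    have e2 := mul_le_mul_of_nonneg_left (e1.trans h5) (Nat.cast_nonneg P.card : (0 : ℝ) ≤ P.card)
    refine le_of_mul_le_mul_right ?_ (by positivity : 0 < D ^ 2)
    linarith)
  rw [sum_cn_comm] at h2
  have h3 := Finset.sum_le_sum h
  rw [Finset.sum_const, nsmul_eq_mul] at h3
  linarith

lemma I1' {β γ : Type} (Z : Finset β) (B : Finset γ) (inc : β → γ → Prop) (r : γ → γ → Prop)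
    (h : ∀ b ∈ B, ∀ b' ∈ B, b ≠ b' → cn Z (fun t => inc t b ∧ inc t b') ≤ 1)
    (hr : ∀ t ∈ Z, ∀ b ∈ B, ∀ b' ∈ B, b ≠ b' → inc t b → inc t b' → r b b') :
    ∑ t ∈ Z, cn B (inc t) * (cn B (inc t) - 1) ≤ NE B r := by
  classical
  have h1 := sum_cn_sq Z B inc
  have h2 := sum_cn_comm Z B inc
  have h3 : ∑ t ∈ B, ∑ u ∈ B, cn Z (fun s => inc s t ∧ inc s u)
      ≤ ∑ t ∈ B, (cn Z (fun s => inc s t) + cn B (r t)) := by
    refine Finset.sum_le_sum fun t ht => ?_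
    rw [← Finset.add_sum_erase B _ ht]
    refine add_le_add (le_of_eq (by simp only [and_self])) ?_
    rw [cn_eq_sum B, sum_fl]
    refine le_trans (Finset.sum_le_sum fun u hu => ?_) (Finset.sum_le_sum_of_subset_of_nonneg
      (Finset.erase_subset t B) fun _ _ _ => by split_ifs <;> norm_num)
    have hu1 := Finset.mem_of_mem_erase hu
    have hu2 := (Finset.ne_of_mem_erase hu).symm
    split_ifs with g
    · exact h t ht u hu1 hu2
    · exact (cn_eq_zero fun s hs e => g (hr s hs t ht u hu1 hu2 e.1 e.2)).le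
  rw [Finset.sum_add_distrib] at h3
  have h4 : ∑ t ∈ Z, cn B (inc t) * (cn B (inc t) - 1)
      = ∑ t ∈ Z, cn B (inc t) ^ 2 - ∑ t ∈ Z, cn B (inc t) := by
    rw [← Finset.sum_sub_distrib]; exact Finset.sum_congr rfl fun _ _ => by ring
  rw [h4]; unfold NE; linarith

end Pool.Agent.Lib.MP_468ee0_co
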