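import Pool.Agent.Lib.MP_468ee0_co.U7C

set_option autoImplicit false
set_option linter.unusedSectionVars false

namespace Pool.Agent.Lib.MP_468ee0_co

open Finset

variable {α J : Type} [LinearOrder α] [Fintype α] [Fintype J]

/-- the big pencils inside a set -/
noncomputable def Bp (BP : Finset (Finset α)) (t : Finset α) : Finset (Finset α) :=
  fl BP (fun η => η ⊆ t)

/-- the rows that are kept -/
noncomputable def Ob (n : ℕ) (H BP : Finset (Finset α)) : Finset (Finset α) :=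
  fl Finset.univ (fun ρ => ρ.card = n + 1 ∧ (ρ ∈ H ∨ (Bp BP ρ).Nonempty))

/-- the faces kept on a row -/
def mm (H BP : Finset (Finset α)) (ρ t : Finset α) : Prop :=
  ρ ⊆ t ∧ (ρ ∈ H ∨ Bp BP t = Bp BP ρ)

/-- good faces -/
def good (H BP : Finset (Finset α)) (t : Finset α) : Prop :=
  (∀ a ∈ H, a ⊆ t → Bp BP a = Bp BP t) ∧ (Bp BP t = ∅ → cn H (fun a => a ⊆ t) ≤ 1)

lemma Bp_mono (BP : Finset (Finset α)) {s t : Finset α} (h : s ⊆ t) : Bp BP s ⊆ Bp BP t :=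
  fun _ hη => mem_fl.2 ⟨(mem_fl.1 hη).1, (mem_fl.1 hη).2.trans h⟩

lemma objs (y : J → Finset α → ℝ) {n : ℕ} {T : Finset (Finset α)} (H BP : Finset (Finset α))
    (hT : ∀ t ∈ T, t.card = n + 2) :
    ES y T (fun s t => Adj s t ∧ (s ∩ t ∈ Ob n H BP ∧ mm H BP (s ∩ t) s ∧ mm H BP (s ∩ t) t))
      ≤ ∑ ρ ∈ Ob n H BP, ∑ j, (∑ t ∈ fl T (mm H BP ρ), si t ρ * y j t) ^ 2 := by
  rw [ES_key y T _ (fun s t => s ∩ t) (Ob n H BP) (fun _ _ _ _ h => h.2.1)]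
  refine Finset.sum_le_sum fun ρ hρ => ?_
  have hc := (mem_fl.1 hρ).2.1
  rw [PC0 y T (mm H BP ρ) ρ (fun t ht h => ⟨h.1, by rw [hT t ht, hc]⟩) fun s hs t ht => ?_]
  · have : 0 ≤ ∑ t ∈ fl T (mm H BP ρ), wq y t := Finset.sum_nonneg fun _ _ => wq_nonneg _ _
    linarith
  · constructor
    · rintro ⟨⟨h1, -, h2, h3⟩, rfl⟩
      exact ⟨h2, h3, h1.ne⟩
    · rintro ⟨h1, h2, h3⟩
      have := adj_of_row (by rw [hT s hs, hc]) (by rw [hT t ht, hc]) h1.1 h2.1 h3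
      rw [this.2]
      exact ⟨⟨this.1, hρ, h1, h2⟩, rfl⟩

lemma decomp (y : J → Finset α → ℝ) {n : ℕ} {T S H C BP P : Finset (Finset α)}
    (hT : ∀ t ∈ T, t.card = n + 2) (hC : ∀ γ ∈ C, γ.card = n + 3) (hSH : S ⊆ H)
    (hP : ∀ t ∈ T, t ∉ P → ∃ a ∈ S, a ⊆ t) (la : Finset α → Finset α) :
    ES y T Adj ≤ ∑ ρ ∈ Ob n H BP, ∑ j, (∑ t ∈ fl T (mm H BP ρ), si t ρ * y j t) ^ 2
      + 2 * AS y T (fun s t => t ∈ P ∧ Adj s t ∧ ∃ η ∈ BP, η ⊆ s ∧ ¬ η ⊆ t)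
      + 2 * AS y T (fun s t => (s ∩ t ∉ S ∧ ∃ a ∈ S, a ⊆ t) ∧ Adj s t ∧ ∃ η ∈ BP, η ⊆ s ∧ ¬ η ⊆ t)
      + ∑ t ∈ T, wq y t * cn C (fun γ => t ⊆ γ)
      + AS y T (fun s t => Adj s t ∧ s ∩ t ∈ H ∧ s ∪ t ∈ C)
      + AS y T (fun s t => Adj s t ∧ s ∈ P ∧ s ∩ t ∉ H ∧ s ∪ t ∉ C ∧ t ∈ P)
      + 2 * AS y T (fun s t => Adj s t ∧ s ∈ P ∧ s ∩ t ∉ H ∧ s ∪ t ∉ C ∧ t ∉ P)
      + AS y T (fun s t => Adj s t ∧ (s ∉ P ∧ ∀ η ∈ BP, ¬ η ⊆ s) ∧ (t ∉ P ∧ ∀ η ∈ BP, ¬ η ⊆ t)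
          ∧ s ∩ t ∉ S ∧ s \ la s ≠ t \ la t)
      + ES y T (fun s t => Adj s t ∧ (s ∉ P ∧ ∀ η ∈ BP, ¬ η ⊆ s) ∧ (t ∉ P ∧ ∀ η ∈ BP, ¬ η ⊆ t)
          ∧ s \ la s = t \ la t ∧ s ∪ t ∉ C)
      + AS y T (fun s t => Adj s t ∧ (s ∉ P ∧ ∀ η ∈ BP, ¬ η ⊆ s) ∧ (t ∉ P ∧ ∀ η ∈ BP, ¬ η ⊆ t)
          ∧ s \ la s = t \ la t ∧ s ∩ t ∈ H) := by
  set R : Finset α → Prop := fun s => ∀ η ∈ BP, ¬ η ⊆ s with hR
  set OE : Finset α → Finset α → Prop :=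
    fun s t => s ∩ t ∈ Ob n H BP ∧ mm H BP (s ∩ t) s ∧ mm H BP (s ∩ t) t with hOE
  set X : Finset α → Finset α → Prop :=
    fun s t => s ∩ t ∉ S ∧ Adj s t ∧ ∃ η ∈ BP, η ⊆ s ∧ ¬ η ⊆ t with hX
  have hrow : ∀ s ∈ T, ∀ t, Adj s t → (s ∩ t).card = n + 1 := fun s hs t h => by
    have := h.2; have := hT s hs; omega
  have hub : ∀ s ∈ T, ∀ t, Adj s t → s ∩ t ∈ H → OE s t := fun s hs t h g =>
    ⟨mem_fl.2 ⟨Finset.mem_univ _, hrow s hs t h, Or.inl g⟩, ⟨Finset.inter_subset_left, Or.inl g⟩,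
      ⟨Finset.inter_subset_right, Or.inl g⟩⟩
  have a0 := objs y H BP hT
  have a1 := ES_split y T Adj OE
  have a2 := ES_split y T (fun s t => Adj s t ∧ ¬ OE s t) (fun s t => R s ∧ R t)
  have a3 := ES_le_AS y T (fun s t => (Adj s t ∧ ¬ OE s t) ∧ ¬ (R s ∧ R t))
  have a4 := AS_or y T (r := fun s t => (Adj s t ∧ ¬ OE s t) ∧ ¬ (R s ∧ R t)) X (fun s t => X t s)
    (fun s hs t _ h => by
      have g1 : s ∩ t ∉ S := fun g => h.1.2 (hub s hs t h.1.1 (hSH g))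
      by_contra g
      rw [not_or] at g
      have g2 : ∀ η ∈ BP, η ⊆ s → η ⊆ t := fun η hη e => by
        by_contra e'; exact g.1 ⟨g1, h.1.1, η, hη, e, e'⟩
      have g3 : ∀ η ∈ BP, η ⊆ t → η ⊆ s := fun η hη e => by
        by_contra e'; exact g.2 ⟨Finset.inter_comm s t ▸ g1, h.1.1.symm, η, hη, e, e'⟩
      have g4 : Bp BP s = Bp BP (s ∩ t) := Finset.Subset.antisymm
        (fun η hη => mem_fl.2 ⟨(mem_fl.1 hη).1, Finset.subset_inter (mem_fl.1 hη).2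
          (g2 η (mem_fl.1 hη).1 (mem_fl.1 hη).2)⟩) (Bp_mono BP Finset.inter_subset_left)
      have g5 : Bp BP t = Bp BP (s ∩ t) := Finset.Subset.antisymm
        (fun η hη => mem_fl.2 ⟨(mem_fl.1 hη).1, Finset.subset_inter
          (g3 η (mem_fl.1 hη).1 (mem_fl.1 hη).2) (mem_fl.1 hη).2⟩) (Bp_mono BP Finset.inter_subset_right)
      refine h.1.2 ⟨mem_fl.2 ⟨Finset.mem_univ _, hrow s hs t h.1.1, Or.inr ?_⟩,
        ⟨Finset.inter_subset_left, Or.inr g4⟩, ⟨Finset.inter_subset_right, Or.inr g5⟩⟩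
      by_contra g6
      refine h.2 ⟨fun η hη e => g6 ⟨η, g4 ▸ mem_fl.2 ⟨hη, e⟩⟩, fun η hη e => g6 ⟨η, g5 ▸ mem_fl.2 ⟨hη, e⟩⟩⟩)
  have a5 := AS_flip y T X
  have a6 := AS_or y T (r := X) (fun s t => t ∈ P ∧ Adj s t ∧ ∃ η ∈ BP, η ⊆ s ∧ ¬ η ⊆ t)
    (fun s t => (s ∩ t ∉ S ∧ ∃ a ∈ S, a ⊆ t) ∧ Adj s t ∧ ∃ η ∈ BP, η ⊆ s ∧ ¬ η ⊆ t)
    (fun s _ t ht h => by
      by_cases g : t ∈ P
      · exact Or.inl ⟨g, h.2⟩
      · exact Or.inr ⟨⟨h.1, hP t ht g⟩, h.2⟩)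
  have a7 : ES y T (fun s t => (Adj s t ∧ ¬ OE s t) ∧ R s ∧ R t)
      = ES y T (fun s t => Adj s t ∧ R s ∧ R t ∧ s ∩ t ∉ H) :=
    ES_congr y T fun s hs t _ => ⟨fun h => ⟨h.1.1, h.2.1, h.2.2, fun g => h.1.2 (hub s hs t h.1.1 g)⟩,
      fun h => ⟨⟨h.1, fun g => by
        rcases (mem_fl.1 g.1).2.2 with g1 | ⟨η, g1⟩
        · exact h.2.2.2 g1
        · exact h.2.1 η (mem_fl.1 g1).1 ((mem_fl.1 g1).2.trans Finset.inter_subset_left)⟩,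
        h.2.1, h.2.2.1⟩⟩
  have a8 := ES_split y T (fun s t => Adj s t ∧ R s ∧ R t ∧ s ∩ t ∉ H) (fun s t => s ∪ t ∈ C)
  have a9 := NC y hT hC R
  have a10 := ES_split y T (fun s t => Adj s t ∧ R s ∧ R t ∧ s ∪ t ∈ C) (fun s t => s ∩ t ∈ H)
  have a11 : ES y T (fun s t => (Adj s t ∧ R s ∧ R t ∧ s ∪ t ∈ C) ∧ s ∩ t ∉ H)
      = ES y T (fun s t => (Adj s t ∧ R s ∧ R t ∧ s ∩ t ∉ H) ∧ s ∪ t ∈ C) :=
    ES_congr y T fun s _ t _ => by tauto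
  have a12 := (neg_ES_le_AS y T (fun s t => (Adj s t ∧ R s ∧ R t ∧ s ∪ t ∈ C) ∧ s ∩ t ∈ H)).trans
    (AS_mono y T (r' := fun s t => Adj s t ∧ s ∩ t ∈ H ∧ s ∪ t ∈ C)
      fun s _ t _ h => ⟨h.1.1, h.2, h.1.2.2.2⟩)
  have a13 := ES_split y T (fun s t => (Adj s t ∧ R s ∧ R t ∧ s ∩ t ∉ H) ∧ s ∪ t ∉ C)
    (fun s t => s ∉ P ∧ t ∉ P ∧ s \ la s = t \ la t)
  have a14 := ES_split y T (fun s t => Adj s t ∧ (s ∉ P ∧ R s) ∧ (t ∉ P ∧ R t)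
          ∧ s \ la s = t \ la t ∧ s ∪ t ∉ C) (fun s t => s ∩ t ∈ H)
  have a15 : ES y T (fun s t => (Adj s t ∧ (s ∉ P ∧ R s) ∧ (t ∉ P ∧ R t)
          ∧ s \ la s = t \ la t ∧ s ∪ t ∉ C) ∧ s ∩ t ∉ H)
      = ES y T (fun s t => ((Adj s t ∧ R s ∧ R t ∧ s ∩ t ∉ H) ∧ s ∪ t ∉ C) ∧
        s ∉ P ∧ t ∉ P ∧ s \ la s = t \ la t) :=
    ES_congr y T fun s _ t _ => by tauto
  have a16 := (neg_ES_le_AS y T (fun s t => (Adj s t ∧ (s ∉ P ∧ R s) ∧ (t ∉ P ∧ R t)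
          ∧ s \ la s = t \ la t ∧ s ∪ t ∉ C) ∧ s ∩ t ∈ H)).trans
    (AS_mono y T (r' := fun s t => Adj s t ∧ (s ∉ P ∧ R s) ∧ (t ∉ P ∧ R t)
          ∧ s \ la s = t \ la t ∧ s ∩ t ∈ H)
      fun s _ t _ h => ⟨h.1.1, h.1.2.1, h.1.2.2.1, h.1.2.2.2.1, h.2⟩)
  have a17 := ES_le_AS y T (fun s t => ((Adj s t ∧ R s ∧ R t ∧ s ∩ t ∉ H) ∧ s ∪ t ∉ C) ∧
    ¬ (s ∉ P ∧ t ∉ P ∧ s \ la s = t \ la t))
  set PP : Finset α → Finset α → Prop :=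
    fun s t => Adj s t ∧ s ∈ P ∧ s ∩ t ∉ H ∧ s ∪ t ∉ C ∧ t ∈ P with hPP
  set PF : Finset α → Finset α → Prop :=
    fun s t => Adj s t ∧ s ∈ P ∧ s ∩ t ∉ H ∧ s ∪ t ∉ C ∧ t ∉ P with hPF
  set SP : Finset α → Finset α → Prop := fun s t => Adj s t ∧ (s ∉ P ∧ R s) ∧ (t ∉ P ∧ R t)
          ∧ s ∩ t ∉ S ∧ s \ la s ≠ t \ la t with hSP
  have a18 := AS_or y T (r := fun s t => ((Adj s t ∧ R s ∧ R t ∧ s ∩ t ∉ H) ∧ s ∪ t ∉ C) ∧
    ¬ (s ∉ P ∧ t ∉ P ∧ s \ la s = t \ la t)) (fun s t => PP s t ∨ PF s t)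
    (fun s t => PF t s ∨ SP s t) (fun s _ t _ h => by
      obtain ⟨⟨⟨h1, h2, h3, h4⟩, h5⟩, h6⟩ := h
      by_cases g1 : s ∈ P
      · by_cases g2 : t ∈ P
        · exact Or.inl (Or.inl ⟨h1, g1, h4, h5, g2⟩)
        · exact Or.inl (Or.inr ⟨h1, g1, h4, h5, g2⟩)
      · by_cases g2 : t ∈ P
        · exact Or.inr (Or.inl ⟨h1.symm, g2, Finset.inter_comm s t ▸ h4,
            Finset.union_comm s t ▸ h5, g1⟩)
        · exact Or.inr (Or.inr ⟨h1, ⟨g1, h2⟩, ⟨g2, h3⟩, fun g => h4 (hSH g),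
            fun g => h6 ⟨g1, g2, g⟩⟩))
  have a19 := AS_or y T (r := fun s t => PP s t ∨ PF s t) PP PF (fun _ _ _ _ h => h)
  have a20 := AS_or y T (r := fun s t => PF t s ∨ SP s t) (fun s t => PF t s) SP (fun _ _ _ _ h => h)
  have a21 := AS_flip y T PF
  linarith

lemma pencil_two {n : ℕ} (X : Finset (Finset α)) {η t : Finset α} (hη : η.card = n)
    (ht : t.card = n + 2) (h : η ⊆ t) :
    cn X (fun ρ => η ⊆ ρ ∧ ρ ⊆ t ∧ ρ.card = η.card + 1) ≤ 2 := by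
  have a3 := between_bot X η t
  rw [Finset.card_sdiff_of_subset h, ht, (by omega : n + 2 - η.card = 2)] at a3
  exact_mod_cast a3

lemma kap_le {n : ℕ} {H BP : Finset (Finset α)} (hB : ∀ η ∈ BP, η.card = n) {t : Finset α}
    (ht : t.card = n + 2) :
    cn (Ob n H BP) (fun ρ => mm H BP ρ t) ≤ cn H (fun a => a ⊆ t) + 2 := by
  have a1 : cn (Ob n H BP) (fun ρ => mm H BP ρ t) ≤ cn (Ob n H BP) (fun ρ => ρ ∈ H ∧ ρ ⊆ t)
      + cn (Ob n H BP) (fun ρ => ρ ∉ H ∧ mm H BP ρ t) := by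
    refine cn_or_le fun ρ _ h => ?_
    by_cases g : ρ ∈ H
    · exact Or.inl ⟨g, h.1⟩
    · exact Or.inr ⟨g, h⟩
  have a2 : cn (Ob n H BP) (fun ρ => ρ ∈ H ∧ ρ ⊆ t) ≤ cn H (fun a => a ⊆ t) := cn_mono fun _ _ h => h
  have a3 : cn (Ob n H BP) (fun ρ => ρ ∉ H ∧ mm H BP ρ t) ≤ 2 := by
    refine cn_le_of_ex (by norm_num) fun ρ0 h0 g0 => ?_
    obtain ⟨η, hη⟩ := (mem_fl.1 h0).2.2.resolve_left g0.1
    have b1 : η ∈ Bp BP t := Bp_mono BP g0.2.1 hη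
    refine le_trans (cn_mono fun ρ hρ g => ⟨hρ, ?_, g.2.1, ?_⟩)
      (pencil_two (Ob n H BP) (hB η (mem_fl.1 b1).1) ht (mem_fl.1 b1).2)
    · rw [g.2.2.resolve_left g.1] at b1
      exact (mem_fl.1 b1).2
    · rw [(mem_fl.1 hρ).2.1, hB η (mem_fl.1 b1).1]
  linarith

lemma good_lab {H BP : Finset (Finset α)} {t ρ : Finset α} (hg : good H BP t) (h : mm H BP ρ t) :
    Bp BP ρ = Bp BP t := by
  rcases h.2 with g | g
  · exact hg.1 ρ g h.1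
  · exact g.symm

lemma kap_empty {n : ℕ} {H BP : Finset (Finset α)} {t : Finset α} (hg : good H BP t)
    (h : Bp BP t = ∅) : cn (Ob n H BP) (fun ρ => mm H BP ρ t) ≤ 1 := by
  refine le_trans (cn_mono fun ρ hρ g => ⟨?_, g.1⟩) (hg.2 h)
  refine (mem_fl.1 hρ).2.2.resolve_right fun g1 => ?_
  rw [good_lab hg g, h] at g1
  exact Finset.not_nonempty_empty g1

lemma kap_good {n : ℕ} {H BP : Finset (Finset α)} (hB : ∀ η ∈ BP, η.card = n) {t : Finset α}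
    (ht : t.card = n + 2) (hg : good H BP t) : cn (Ob n H BP) (fun ρ => mm H BP ρ t) ≤ 2 := by
  rcases (Bp BP t).eq_empty_or_nonempty with h | ⟨η, b1⟩
  · linarith [kap_empty (n := n) hg h]
  · refine le_trans (cn_mono fun ρ hρ g => ⟨hρ, ?_, g.1, ?_⟩)
      (pencil_two (Ob n H BP) (hB η (mem_fl.1 b1).1) ht (mem_fl.1 b1).2)
    · rw [← good_lab hg g] at b1
      exact (mem_fl.1 b1).2
    · rw [(mem_fl.1 hρ).2.1, hB η (mem_fl.1 b1).1]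

lemma bad_count {n : ℕ} {T H BP : Finset (Finset α)} (hT : ∀ t ∈ T, t.card = n + 2)
    (hH : ∀ a ∈ H, a.card = n + 1) {D X1 X2 X3 : ℝ} (hD : 1 < D)
    (hB : ∀ η : Finset α, η.card = n → η ∉ BP → cn H (fun a => η ⊆ a) ≤ D)
    (h1 : 0 ≤ X1) (h1' : H.card * BP.card * (H.card : ℝ) ^ 2 ≤ X1 ^ 2)
    (h2 : 4 * D * H.card ≤ X2) (h2' : 8 * (H.card : ℝ) ^ 3 ≤ X2 ^ 2)
    (h3 : (H.card : ℝ) ^ 2 ≤ X3 * (D - 1)) :
    ∑ t ∈ fl T (fun t => ¬ good H BP t), (cn H (fun a => a ⊆ t) + 2)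
      ≤ 3 * (H.card * BP.card) + X1 + 2 * (X2 + X3) := by
  set c : Finset α → ℝ := fun t => cn H (fun a => a ⊆ t) with hc
  set p1 : Finset α → Prop := fun t => ∃ a ∈ H, ∃ η ∈ BP, a ⊆ t ∧ η ⊆ t ∧ ¬ η ⊆ a with hp1
  set p2 : Finset α → Prop := fun t => Bp BP t = ∅ ∧ 2 ≤ c t ∧ c t ≤ D with hp2
  set p3 : Finset α → Prop := fun t => 2 ≤ c t ∧ D ≤ c t with hp3
  have hc0 : ∀ t, 0 ≤ c t := fun t => cn_nonneg _ _
  have hI := I1r hT hH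
  have hsub : ∀ p : Finset α → Prop, ∑ t ∈ fl T p, c t * (c t - 1) ≤ (H.card : ℝ) ^ 2 := fun p =>
    le_trans (Finset.sum_le_sum_of_subset_of_nonneg (fl_subset _ _) fun _ _ _ => cn_cc_nonneg _ _) hI
  have a0 : ∑ t ∈ fl T (fun t => ¬ good H BP t), (c t + 2)
      ≤ ∑ t ∈ fl T p1, (c t + 2) + 2 * ∑ t ∈ fl T p2, c t + 2 * ∑ t ∈ fl T p3, c t := by
    rw [Finset.mul_sum, Finset.mul_sum, sum_fl, sum_fl, sum_fl, sum_fl, ← Finset.sum_add_distrib,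
      ← Finset.sum_add_distrib]
    refine Finset.sum_le_sum fun t _ => ?_
    have := hc0 t
    by_cases g : good H BP t
    · rw [if_neg (not_not.2 g)]; split_ifs <;> linarith
    rw [if_pos g]
    by_cases g1 : p1 t
    · rw [if_pos g1]; split_ifs <;> linarith
    have g2 : ∀ a ∈ H, a ⊆ t → Bp BP a = Bp BP t := fun a ha hat =>
      Finset.Subset.antisymm (Bp_mono BP hat) fun η hη => mem_fl.2 ⟨(mem_fl.1 hη).1, by
        by_contra e; exact g1 ⟨a, ha, η, (mem_fl.1 hη).1, hat, (mem_fl.1 hη).2, e⟩⟩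
    have g3 : Bp BP t = ∅ ∧ ¬ c t ≤ 1 := by
      by_contra e; exact g ⟨g2, fun e1 => by by_contra e2; exact e ⟨e1, e2⟩⟩
    have g4 : 2 ≤ c t := by
      have := not_le.1 g3.2
      simp only [hc, cn] at this ⊢
      exact_mod_cast this
    rw [if_neg g1]
    by_cases g5 : c t ≤ D
    · rw [if_pos (show p2 t from ⟨g3.1, g4, g5⟩)]; split_ifs <;> linarith
    · rw [if_pos (show p3 t from ⟨g4, (not_le.1 g5).le⟩)]; split_ifs <;> linarith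
  have a1 : cn T p1 ≤ H.card * BP.card := by
    have := cn_le_mul (T := T) (p := p1) (H ×ˢ BP) (fun x t => t = x.1 ∪ x.2)
      (fun t ht ⟨a, ha, η, hη, e1, e2, e3⟩ => ⟨(a, η), Finset.mem_product.2 ⟨ha, hη⟩,
        eq_union_of e1 e2 e3 (by rw [hT t ht, hH a ha])⟩) (B := 1)
      (fun _ _ => cn_le_one fun _ _ _ _ e e' => e.trans e'.symm)
    rw [Finset.card_product] at this
    push_cast at this
    linarith
  have a2 := I2 (fl T p1) c (fun t _ => cn_cases _ _) h1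
    (le_trans (mul_le_mul a1 (hsub p1) (Finset.sum_nonneg fun _ _ => cn_cc_nonneg _ _)
      (by positivity)) h1')
  have a3 : ∑ t ∈ fl T p1, (c t + 2) = ∑ t ∈ fl T p1, c t + 2 * cn T p1 := by
    rw [Finset.sum_add_distrib, Finset.sum_const, nsmul_eq_mul, mul_comm]; rfl
  have a4 : ∑ t ∈ fl T p3, c t ≤ X3 := by
    refine le_of_mul_le_mul_right (le_trans ?_ ((hsub p3).trans h3)) (by linarith)
    rw [Finset.sum_mul]
    exact Finset.sum_le_sum fun t ht =>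
      mul_le_mul_of_nonneg_left (by linarith [(mem_fl.1 ht).2.2]) (hc0 t)
  set r : Finset α → Finset α → Prop := fun a a' => Adj a a' ∧ a ∩ a' ∉ BP ∧ c (a ∪ a') ≤ D with hr
  have a5 : ∑ t ∈ fl T p2, c t ≤ NE H r := by
    refine le_trans (Finset.sum_le_sum fun t ht => ?_) (I1' (fl T p2) H (fun t a => a ⊆ t) r
      (rows_one (fun t ht => hT t (mem_fl.1 ht).1) hH) fun t ht a ha a' ha' hne e e' => ?_)
    · have := (mem_fl.1 ht).2.2.1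
      have := hc0 t
      change c t ≤ c t * (c t - 1)
      nlinarith
    · have := adj_of_col (γ := t) (by rw [hT t (mem_fl.1 ht).1, hH a ha])
        (by rw [hT t (mem_fl.1 ht).1, hH a' ha']) e e' hne
      refine ⟨this.1, fun g => ?_, this.2 ▸ (mem_fl.1 ht).2.2.2⟩
      have g1 : a ∩ a' ∈ Bp BP t := mem_fl.2 ⟨g, Finset.inter_subset_left.trans e⟩
      rw [(mem_fl.1 ht).2.1] at g1
      exact Finset.notMem_empty _ g1
  have a6 := L3 H H r (fun _ _ _ ht h => ⟨h.1, ht⟩) (D := D) (fun s hs ρ => by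
      refine cn_le_of_ex (by linarith) fun t _ h => ?_
      refine le_trans (cn_mono fun t ht g => ⟨ht, g.2 ▸ Finset.inter_subset_right⟩)
        (hB ρ ?_ (h.2 ▸ h.1.2.1))
      have := h.1.1.2; have := hH s hs; rw [← h.2]; omega) (fun s hs γ => by
      refine cn_le_of_ex (by linarith) fun t _ h => ?_
      exact le_trans (cn_mono fun t ht g => ⟨ht, g.2 ▸ Finset.subset_union_right⟩) (h.2 ▸ h.1.2.2))
  have a7 := NE_sq_le H H r (fun _ hs _ _ _ => hs)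
  have a8 : NE H r ≤ X2 := by
    have hX2 : 0 ≤ X2 := le_trans (by have : 0 ≤ D := by linarith
                                      positivity) h2
    rcases e_bound (NE_nonneg H r) (a7.trans (mul_le_mul_of_nonneg_left a6 (Nat.cast_nonneg _)))
      with g | g
    · linarith
    · exact le_of_sq (g.trans h2') hX2
  change (fl T p1).card + X1 ≥ _ at a2
  change ((fl T p1).card : ℝ) ≤ _ at a1
  change _ = _ + 2 * ((fl T p1).card : ℝ) at a3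
  linarith

lemma stab {n : ℕ} {T S H BP : Finset (Finset α)} (hT : ∀ t ∈ T, t.card = n + 2)
    (hH : ∀ a ∈ H, a.card = n + 1) (hB : ∀ η ∈ BP, η.card = n) (hSH : S ⊆ H) {k : ℝ}
    (hkJ : k = Fintype.card J) (hk : 0 < k)
    (h1 : ∀ a ∈ S, 200 * k ≤ cn T (fun t => a ⊆ t))
    (h2 : ∀ ρ : Finset α, ρ.card = n + 1 → ρ ∉ S → cn T (fun t => ρ ⊆ t) ≤ 200 * k)
    {u : J → Finset α → ℝ} (hu : Bes (Ob n H BP) u) {E0 EB : ℝ}
    (hbad : ∑ t ∈ fl T (fun t => ¬ good H BP t), (cn H (fun a => a ⊆ t) + 2) ≤ EB)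
    (h0 : T.card + k ^ 2 / 2 - E0
      ≤ ∑ t ∈ T, ∑ j, (∑ ρ ∈ fl (Ob n H BP) (fun ρ => mm H BP ρ t), si t ρ * u j ρ) ^ 2)
    (hE0 : 0 ≤ E0) (hE : E0 + EB + k / 2 ≤ k ^ 2 / 10 ^ 17) :
    ∃ η ∈ BP, cn S (fun a => ¬ η ⊆ a) ≤ k / 10 ^ 13 ∧
      cn T (fun t => ¬ η ⊆ t ∧ ¬ ∃ a ∈ S, a ⊆ t) ≤ k ^ 2 / 10 ^ 13 := by
  classical
  set O := Ob n H BP with hO
  set d : Finset α → ℝ :=
    fun t => ∑ j, (∑ ρ ∈ fl O (fun ρ => mm H BP ρ t), si t ρ * u j ρ) ^ 2 with hd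
  set Gd := fl T (good H BP) with hGd
  set W := ∑ t ∈ Gd, max (1 - d t) 0 with hW
  have hW0 : 0 ≤ W := Finset.sum_nonneg fun _ _ => le_max_right _ _
  have hdk : ∀ t, d t ≤ cn O (fun ρ => mm H BP ρ t) := fun t => d_le_cn hu _ (si t) (si_sq t)
  have hEB0 : ∑ t ∈ fl T (fun t => ¬ good H BP t), cn H (fun a => a ⊆ t)
      + 2 * cn T (fun t => ¬ good H BP t) ≤ EB := by
    rw [Finset.sum_add_distrib, Finset.sum_const, nsmul_eq_mul, mul_comm] at hbad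
    exact hbad
  have hEB1 : 0 ≤ ∑ t ∈ fl T (fun t => ¬ good H BP t), cn H (fun a => a ⊆ t) :=
    Finset.sum_nonneg fun _ _ => cn_nonneg _ _
  have hEB2 := cn_nonneg T (fun t => ¬ good H BP t)
  have a1 : ∑ t ∈ T, d t ≤ T.card + ∑ t ∈ Gd, max (d t - 1) 0 - W + EB := by
    rw [← sum_fl_add_not T (good H BP)]
    have b1 : ∑ t ∈ fl T (fun t => ¬ good H BP t), d t ≤ EB :=
      le_trans (Finset.sum_le_sum fun t ht => (hdk t).trans (kap_le hB (hT t (mem_fl.1 ht).1))) hbad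
    have b2 : ∑ t ∈ Gd, d t = ∑ t ∈ Gd, (1 + max (d t - 1) 0 - max (1 - d t) 0) :=
      Finset.sum_congr rfl fun t _ => by
        rcases le_total (d t) 1 with g | g
        · rw [max_eq_right (by linarith), max_eq_left (by linarith)]; ring
        · rw [max_eq_left (by linarith), max_eq_right (by linarith)]; ring
    rw [Finset.sum_sub_distrib, Finset.sum_add_distrib, Finset.sum_const, nsmul_eq_mul, mul_one] at b2
    have b3 : (Gd.card : ℝ) ≤ T.card := cn_le_card _ _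
    linarith
  set Lab := fl (Finset.univ : Finset (Finset (Finset α))) (fun β => β.Nonempty ∧ β ⊆ BP) with hLab
  set τ : Finset (Finset α) → ℝ := fun β => tr (fl O (fun ρ => Bp BP ρ = β)) u with hτ
  have hτ0 : ∀ β, 0 ≤ τ β := fun β => tr_nonneg _ _
  have htr : tr O u ≤ k := hkJ ▸ hu.tr_le
  have a2 : 2 * ∑ t ∈ Gd, max (d t - 1) 0 ≤ ∑ β ∈ Lab, τ β * (τ β + 1) := by
    rw [← sum_fl_add_not Gd (fun t => (Bp BP t).Nonempty)]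
    have b1 : ∑ t ∈ fl Gd (fun t => ¬ (Bp BP t).Nonempty), max (d t - 1) 0 = 0 :=
      Finset.sum_eq_zero fun t ht => max_eq_right (by
        have := (hdk t).trans (kap_empty (mem_fl.1 (mem_fl.1 ht).1).2
          (Finset.not_nonempty_iff_eq_empty.1 (mem_fl.1 ht).2))
        linarith)
    rw [b1, add_zero, ← Finset.sum_fiberwise_of_maps_to (t := Lab) (g := fun t => Bp BP t)
      (fun t ht => mem_fl.2 ⟨Finset.mem_univ _, (mem_fl.1 ht).2, fl_subset _ _⟩), Finset.mul_sum]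
    refine Finset.sum_le_sum fun β hβ => ?_
    obtain ⟨⟨η, hη⟩, hβ'⟩ := (mem_fl.1 hβ).2
    have hc := hB η (hβ' hη)
    refine le_trans (le_of_eq ?_) (kt_pencil η (fl O (fun ρ => Bp BP ρ = β)) (fun ρ hρ => ?_) u
      (hu.mono (fl_subset _ _))
      ((fl Gd (fun t => (Bp BP t).Nonempty)).filter (fun t => Bp BP t = β)) fun t ht => ?_)
    · congr 1
      refine Finset.sum_congr rfl fun t ht => ?_
      obtain ⟨g1, g2⟩ := Finset.mem_filter.1 ht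
      have g3 := (mem_fl.1 (mem_fl.1 g1).1).2
      have : fl (fl O (fun ρ => Bp BP ρ = β)) (fun ρ => ρ ⊆ t) = fl O (fun ρ => mm H BP ρ t) := by
        rw [fl_fl]
        exact fl_congr fun ρ _ => ⟨fun g => ⟨g.2, Or.inr (g2.trans g.1.symm)⟩,
          fun g => ⟨(good_lab g3 g).trans g2, g.1⟩⟩
      rw [this]
    · have : η ∈ Bp BP ρ := (mem_fl.1 hρ).2 ▸ hη
      exact ⟨(mem_fl.1 this).2, by rw [(mem_fl.1 (mem_fl.1 hρ).1).2.1, hc]⟩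
    · obtain ⟨g1, g2⟩ := Finset.mem_filter.1 ht
      have : η ∈ Bp BP t := g2 ▸ hη
      exact ⟨(mem_fl.1 this).2, by rw [hT t (mem_fl.1 (mem_fl.1 g1).1).1, hc]⟩
  have a3 : ∑ β ∈ Lab, τ β ≤ k := by
    refine le_trans ?_ htr
    simp only [hτ, tr_eq_wq]
    rw [sum_fl_comm Lab O (fun β ρ => Bp BP ρ = β) (fun _ ρ => wq u ρ)]
    refine Finset.sum_le_sum fun ρ _ => ?_
    rw [Finset.sum_const, nsmul_eq_mul]
    exact mul_le_of_le_one_left (wq_nonneg _ _)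
      (cn_le_one (p := fun β => Bp BP ρ = β) fun _ _ _ _ e e' => e.symm.trans e')
  have hk2 : 0 < k ^ 2 := by positivity
  have hne : Lab.Nonempty := by
    by_contra g
    rw [Finset.not_nonempty_iff_eq_empty.1 g, Finset.sum_empty] at a2
    linarith
  obtain ⟨β, hβ, hmax⟩ := Finset.exists_max_image Lab τ hne
  have a4 : ∑ β' ∈ Lab, τ β' * (τ β' + 1) ≤ k * (τ β + 1) := by
    refine le_trans (Finset.sum_le_sum fun β' h' =>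
      mul_le_mul_of_nonneg_left (add_le_add_left (hmax β' h') 1) (hτ0 β')) ?_
    rw [← Finset.sum_mul]
    exact mul_le_mul_of_nonneg_right a3 (by linarith [hτ0 β])
  obtain ⟨⟨η, hη⟩, hβ'⟩ := (mem_fl.1 hβ).2
  set Fo := fl O (fun ρ => ¬ Bp BP ρ = β) with hFo
  set σ := ∑ ρ ∈ Fo, wq u ρ with hσ
  have hσ0 : 0 ≤ σ := Finset.sum_nonneg fun _ _ => wq_nonneg _ _
  have a5 : τ β + σ ≤ k := by
    rw [tr_eq_wq, ← sum_fl_add_not O (fun ρ => Bp BP ρ = β)] at htr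
    simp only [hτ, tr_eq_wq]
    exact htr
  have a6 := mul_le_mul_of_nonneg_left a5 hk.le
  have a7 := mul_nonneg hk.le hσ0
  have hW1 : W ≤ k ^ 2 / 10 ^ 17 := by linarith
  have hσ1 : k * σ ≤ 2 * k ^ 2 / 10 ^ 17 := by linarith
  have hσ2 : σ ≤ 2 * k / 10 ^ 17 := le_of_mul_le_mul_left (by linarith) hk
  have hEB : EB ≤ k ^ 2 / 10 ^ 17 := by linarith
  have hfor : ∀ ρ ∈ O, ¬ η ⊆ ρ → ρ ∈ Fo := fun ρ hρ g => mem_fl.2 ⟨hρ, fun e => by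
    have : η ∈ Bp BP ρ := e ▸ hη
    exact g (mem_fl.1 this).2⟩
  have hd2 : ∀ t ∈ Gd, d t ≤ 2 * ∑ ρ ∈ fl O (fun ρ => mm H BP ρ t), wq u ρ := fun t ht =>
    (d_le_mul _ u (si t) (si_sq t)).trans (mul_le_mul_of_nonneg_right
      (kap_good hB (hT t (mem_fl.1 ht).1) (mem_fl.1 ht).2) (Finset.sum_nonneg fun _ _ => wq_nonneg _ _))
  have hSO : ∀ a ∈ S, a ∈ O := fun a ha =>
    mem_fl.2 ⟨Finset.mem_univ _, hH a (hSH ha), Or.inl (hSH ha)⟩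
  refine ⟨η, hβ' hη, ?_, ?_⟩
  · set S' := fl S (fun a => ¬ η ⊆ a ∧ wq u a ≤ 1 / 8) with hS'
    have b1 : cn S (fun a => ¬ η ⊆ a) ≤ S'.card + cn S (fun a => ¬ η ⊆ a ∧ 1 / 8 ≤ wq u a) := by
      refine cn_or_le fun a _ g => ?_
      rcases le_total (wq u a) (1 / 8) with g1 | g1
      · exact Or.inl ⟨g, g1⟩
      · exact Or.inr ⟨g, g1⟩
    have b2 : cn S (fun a => ¬ η ⊆ a ∧ 1 / 8 ≤ wq u a) * (1 / 8) ≤ σ := by
      refine le_trans ?_ (Finset.sum_le_sum_of_subset_of_nonneg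
        (s := fl S (fun a => ¬ η ⊆ a ∧ 1 / 8 ≤ wq u a))
        (fun a ha => hfor a (hSO a (mem_fl.1 ha).1) (mem_fl.1 ha).2.1) fun _ _ _ => wq_nonneg _ _)
      have := Finset.sum_le_sum fun a (ha : a ∈ fl S (fun a => ¬ η ⊆ a ∧ 1 / 8 ≤ wq u a)) =>
        (mem_fl.1 ha).2.2
      rwa [Finset.sum_const, nsmul_eq_mul] at this
    have b3 : ∀ a ∈ S', 3 / 4 * cn Gd (fun t => a ⊆ t) - 2 * σ
        ≤ ∑ t ∈ fl Gd (fun t => a ⊆ t), max (1 - d t) 0 := by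
      intro a ha
      obtain ⟨g1, g2, g3⟩ := mem_fl.1 ha
      have c1 : ∀ t ∈ fl Gd (fun t => a ⊆ t),
          3 / 4 - 2 * ∑ ρ ∈ fl Fo (fun ρ => ρ ≠ a ∧ a ⊆ t ∧ ρ ⊆ t), wq u ρ ≤ max (1 - d t) 0 := by
        intro t ht
        obtain ⟨e1, e2⟩ := mem_fl.1 ht
        have e3 := hd2 t e1
        have e4 : mm H BP a t := ⟨e2, Or.inl (hSH g1)⟩
        rw [← Finset.add_sum_erase _ _ (mem_fl.2 ⟨hSO a g1, e4⟩ : a ∈ fl O (fun ρ => mm H BP ρ t))]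
          at e3
        have e5 : ∑ ρ ∈ (fl O (fun ρ => mm H BP ρ t)).erase a, wq u ρ
            ≤ ∑ ρ ∈ fl Fo (fun ρ => ρ ≠ a ∧ a ⊆ t ∧ ρ ⊆ t), wq u ρ := by
          refine Finset.sum_le_sum_of_subset_of_nonneg (fun ρ hρ => ?_) fun _ _ _ => wq_nonneg _ _
          obtain ⟨f1, f2⟩ := mem_fl.1 (Finset.mem_of_mem_erase hρ)
          refine mem_fl.2 ⟨mem_fl.2 ⟨f1, ?_⟩, Finset.ne_of_mem_erase hρ, e2, f2.1⟩
          rw [good_lab (mem_fl.1 e1).2 f2, ← good_lab (mem_fl.1 e1).2 e4]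
          exact (mem_fl.1 (hfor a (hSO a g1) g2)).2
        linarith [le_max_left (1 - d t) 0]
      have c2 := Finset.sum_le_sum c1
      rw [Finset.sum_sub_distrib, Finset.sum_const, nsmul_eq_mul, ← Finset.mul_sum,
        sum_fl_comm _ Fo (fun t ρ => ρ ≠ a ∧ a ⊆ t ∧ ρ ⊆ t) (fun _ ρ => wq u ρ)] at c2
      have c3 : ∑ ρ ∈ Fo, ∑ _t ∈ fl (fl Gd (fun t => a ⊆ t)) (fun t => ρ ≠ a ∧ a ⊆ t ∧ ρ ⊆ t), wq u ρ
          ≤ σ := by
        refine Finset.sum_le_sum fun ρ hρ => ?_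
        rw [Finset.sum_const, nsmul_eq_mul]
        refine mul_le_of_le_one_left (wq_nonneg _ _) (cn_le_one fun t ht t' ht' e e' => ?_)
        have f1 : ¬ ρ ⊆ a := not_sub_of_ne (by rw [(mem_fl.1 (mem_fl.1 hρ).1).2.1, hH a (hSH g1)]) e.1
        rw [eq_union_of e.2.1 e.2.2 f1 (by rw [hT t (mem_fl.1 (mem_fl.1 ht).1).1, hH a (hSH g1)]),
          eq_union_of e'.2.1 e'.2.2 f1 (by rw [hT t' (mem_fl.1 (mem_fl.1 ht').1).1, hH a (hSH g1)])]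
      change cn Gd (fun t => a ⊆ t) * _ - _ ≤ _ at c2
      linarith
    have b4 := Finset.sum_le_sum b3
    rw [Finset.sum_sub_distrib, Finset.sum_const, nsmul_eq_mul, ← Finset.mul_sum,
      sum_fl_comm S' Gd (fun a t => a ⊆ t) (fun _ t => max (1 - d t) 0)] at b4
    have b5 : ∑ t ∈ Gd, ∑ _a ∈ fl S' (fun a => a ⊆ t), max (1 - d t) 0 ≤ 2 * W := by
      rw [hW, Finset.mul_sum]
      refine Finset.sum_le_sum fun t ht => ?_
      rw [Finset.sum_const, nsmul_eq_mul]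
      refine mul_le_mul_of_nonneg_right (le_trans (cn_mono fun a ha g =>
        ⟨hSO a (mem_fl.1 ha).1, g, Or.inl (hSH (mem_fl.1 ha).1)⟩)
        (kap_good hB (hT t (mem_fl.1 ht).1) (mem_fl.1 ht).2)) (le_max_right _ _)
    have b6 : S'.card * (200 * k) ≤ ∑ a ∈ S', cn Gd (fun t => a ⊆ t) + EB := by
      have c1 := Finset.sum_le_sum fun a (ha : a ∈ S') => h1 a (mem_fl.1 ha).1
      rw [Finset.sum_const, nsmul_eq_mul, sum_cn_comm S' T (fun a t => a ⊆ t),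
        ← sum_fl_add_not T (good H BP)] at c1
      rw [sum_cn_comm S' Gd (fun a t => a ⊆ t)]
      have c2 : ∑ t ∈ fl T (fun t => ¬ good H BP t), cn S' (fun a => a ⊆ t)
          ≤ ∑ t ∈ fl T (fun t => ¬ good H BP t), cn H (fun a => a ⊆ t) :=
        Finset.sum_le_sum fun t _ => cn_mono fun a ha g => ⟨hSH (mem_fl.1 ha).1, g⟩
      linarith
    have b7 : (0 : ℝ) ≤ S'.card := Nat.cast_nonneg _
    have b8 := mul_le_mul_of_nonneg_left hσ2 b7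
    have b9 := mul_nonneg b7 hk.le
    have b10 : (S'.card : ℝ) ≤ k / 10 ^ 17 := le_of_mul_le_mul_right (by linarith) hk
    linarith
  · have b1 : cn T (fun t => ¬ η ⊆ t ∧ ¬ ∃ a ∈ S, a ⊆ t) ≤ cn T (fun t => ¬ good H BP t)
        + cn T (fun t => t ∈ Gd ∧ ¬ η ⊆ t ∧ ¬ ∃ a ∈ S, a ⊆ t) := by
      refine cn_or_le fun t ht g => ?_
      by_cases g1 : good H BP t
      · exact Or.inr ⟨mem_fl.2 ⟨ht, g1⟩, g⟩
      · exact Or.inl g1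
    set Z := fl T (fun t => t ∈ Gd ∧ ¬ η ⊆ t ∧ ¬ ∃ a ∈ S, a ⊆ t) with hZ
    have b2 : ∀ t ∈ Z, 1 ≤ max (1 - d t) 0 + 2 * ∑ ρ ∈ fl Fo (fun ρ => ρ ∉ S ∧ ρ ⊆ t), wq u ρ := by
      intro t ht
      obtain ⟨-, g1, g2, g3⟩ := mem_fl.1 ht
      have e3 := hd2 t g1
      have e5 : ∑ ρ ∈ fl O (fun ρ => mm H BP ρ t), wq u ρ
          ≤ ∑ ρ ∈ fl Fo (fun ρ => ρ ∉ S ∧ ρ ⊆ t), wq u ρ := by
        refine Finset.sum_le_sum_of_subset_of_nonneg (fun ρ hρ => ?_) fun _ _ _ => wq_nonneg _ _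
        obtain ⟨f1, f2⟩ := mem_fl.1 hρ
        exact mem_fl.2 ⟨hfor ρ f1 fun e => g2 (e.trans f2.1), fun e => g3 ⟨ρ, e, f2.1⟩, f2.1⟩
      linarith [le_max_left (1 - d t) 0]
    have b3 := Finset.sum_le_sum b2
    rw [Finset.sum_add_distrib, Finset.sum_const, nsmul_eq_mul, mul_one, ← Finset.mul_sum,
      sum_fl_comm Z Fo (fun t ρ => ρ ∉ S ∧ ρ ⊆ t) (fun _ ρ => wq u ρ)] at b3
    have b4 : ∑ t ∈ Z, max (1 - d t) 0 ≤ W :=
      Finset.sum_le_sum_of_subset_of_nonneg (fun t ht => (mem_fl.1 ht).2.1) fun _ _ _ => le_max_right _ _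
    have b5 : ∑ ρ ∈ Fo, ∑ _t ∈ fl Z (fun t => ρ ∉ S ∧ ρ ⊆ t), wq u ρ ≤ 200 * k * σ := by
      rw [hσ, Finset.mul_sum]
      refine Finset.sum_le_sum fun ρ hρ => ?_
      rw [Finset.sum_const, nsmul_eq_mul]
      refine mul_le_mul_of_nonneg_right (cn_le_of_ex (by linarith) fun t _ g => ?_) (wq_nonneg _ _)
      exact le_trans (cn_mono fun t ht e => ⟨(mem_fl.1 ht).1, e.2⟩)
        (h2 ρ (mem_fl.1 (mem_fl.1 hρ).1).2.1 g.1)
    change _ ≤ _ + (Z.card : ℝ) at b1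
    linarith

end Pool.Agent.Lib.MP_468ee0_co
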