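import Pool.Agent.Lib.MP_468ee0_co.U8Ob
import Pool.Agent.Lib.MP_468ee0_co.U6S2

set_option autoImplicit false
set_option linter.unusedSectionVars false

namespace Pool.Agent.Lib.MP_468ee0_co

open Finset

/-- the large constant -/
def ww : ℝ := 100000000000000000000

lemma ww_pos : 0 < ww := by unfold ww; norm_num

lemma n3 {k X c : ℝ} (hk : ww ^ 60 ≤ k) (hc : c ≤ ww ^ 58) (h : X ^ 2 ≤ c * k ^ 3) :
    X ≤ k ^ 2 / 10 ^ 19 := by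
  have hk0 : 0 < k := lt_of_lt_of_le (pow_pos ww_pos _) hk
  refine le_of_sq (h.trans ?_) (by positivity)
  have h3 : 0 ≤ k ^ 3 := by positivity
  have e1 := mul_le_mul_of_nonneg_right hc h3
  have e2 := mul_le_mul_of_nonneg_right hk h3
  have e3 : 0 ≤ k ^ 4 := by positivity
  unfold ww at e1 e2
  linarith

lemma n3' {k c : ℝ} (hk : ww ^ 60 ≤ k) (hc : c ≤ ww ^ 58) : c * k ^ 3 ≤ (k ^ 2 / 10 ^ 19) ^ 2 := by
  have hk0 : 0 < k := lt_of_lt_of_le (pow_pos ww_pos _) hk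
  have h3 : 0 ≤ k ^ 3 := by positivity
  have e1 := mul_le_mul_of_nonneg_right hc h3
  have e2 := mul_le_mul_of_nonneg_right hk h3
  have e3 : 0 ≤ k ^ 4 := by positivity
  unfold ww at e1 e2
  linarith

lemma n1 {k c : ℝ} (hk : ww ^ 60 ≤ k) (hc : c ≤ ww ^ 58) : c * k ≤ k ^ 2 / 10 ^ 19 := by
  have hk0 : 0 < k := lt_of_lt_of_le (pow_pos ww_pos _) hk
  have e1 := mul_le_mul_of_nonneg_right hc hk0.le
  have e2 := mul_le_mul_of_nonneg_right hk hk0.le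
  have e3 : 0 ≤ k ^ 2 := by positivity
  unfold ww at e1 e2
  linarith

lemma n4 {k X f e Q : ℝ} (hk : ww ^ 60 ≤ k) (hf0 : 0 ≤ f) (hf : f ≤ 10 ^ 4 * k ^ 2)
    (he : e ≤ 10 ^ 7 * k ^ 3) (hQ : Q ≤ 10 ^ 9 * k ^ 4)
    (h : X ^ 4 ≤ k ^ 3 * (4 * f ^ 2 + 2 * (k / ww ^ 5) * e + (2 * (k / ww ^ 5) + 4) * Q)) :
    X ≤ k ^ 2 / 10 ^ 19 := by
  have hk0 : 0 < k := lt_of_lt_of_le (pow_pos ww_pos _) hk
  have hw := ww_pos
  refine le_of_four (h.trans ?_) (by positivity)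
  have e1 : 4 * f ^ 2 + 2 * (k / ww ^ 5) * e + (2 * (k / ww ^ 5) + 4) * Q
      ≤ 4 * (10 ^ 4 * k ^ 2) ^ 2 + 2 * (k / ww ^ 5) * (10 ^ 7 * k ^ 3)
        + (2 * (k / ww ^ 5) + 4) * (10 ^ 9 * k ^ 4) := by gcongr
  refine (mul_le_mul_of_nonneg_left e1 (by positivity)).trans ?_
  have h7 : 0 ≤ k ^ 7 := by positivity
  have h8 : 0 ≤ k ^ 8 := by positivity
  have e2 := mul_le_mul_of_nonneg_right hk h7
  unfold ww at e2 ⊢
  linarith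

lemma nh {k f h : ℝ} (hk : ww ^ 60 ≤ k) (hf : f ≤ 10 ^ 4 * k ^ 2)
    (h1 : h * (k / ww ^ 5) ≤ f + 4 * 10 ^ 6 * ww ^ 5 * k ^ 2) : h ≤ ww ^ 11 * k / 2 := by
  have hk0 : 0 < k := lt_of_lt_of_le (pow_pos ww_pos _) hk
  refine le_of_mul_le_mul_right ?_ hk0
  have e3 : 0 ≤ k ^ 2 := by positivity
  unfold ww at h1 ⊢
  linarith

variable {α J : Type} [LinearOrder α] [Fintype α] [Fintype J]

lemma s1_sets {n : ℕ} {T S P : Finset (Finset α)} (hT : ∀ t ∈ T, t.card = n + 2)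
    (hS : ∀ a ∈ S, a.card = n + 1) (hP' : ∀ t ∈ P, t.card = n + 2) {k : ℝ} (hk : ww ^ 60 ≤ k)
    (hm : (S.card : ℝ) ≤ 40 * k) (hf' : (P.card : ℝ) ≤ 10 ^ 4 * k ^ 2) :
    ∃ H C BP : Finset (Finset α), (∀ a ∈ H, a.card = n + 1) ∧ (∀ a ∈ C, a.card = n + 3) ∧
      (∀ a ∈ BP, a.card = n) ∧ S ⊆ H ∧
      (∀ ρ : Finset α, ρ.card = n + 1 → ρ ∉ H → cn P (fun t => ρ ⊆ t) ≤ k / ww ^ 5) ∧
      (∀ γ : Finset α, γ.card = n + 3 → γ ∉ C → cn P (fun t => t ⊆ γ) ≤ k / ww ^ 5) ∧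
      (∀ η : Finset α, η.card = n → η ∉ BP → cn H (fun a => η ⊆ a) ≤ k / ww ^ 13) ∧
      (H.card : ℝ) ≤ ww ^ 11 * k ∧ (C.card : ℝ) ≤ ww ^ 11 * k ∧ (BP.card : ℝ) ≤ 2 * ww ^ 24 ∧
      ∑ t ∈ T, cn C (fun γ => t ⊆ γ) * (cn C (fun γ => t ⊆ γ) - 1) ≤ 16 * 10 ^ 8 * ww ^ 10 * k ^ 2 := by
  classical
  have hw := ww_pos
  have hk0 : 0 < k := lt_of_lt_of_le (pow_pos ww_pos _) hk
  have kk : ww ^ 60 * k ≤ k * k := mul_le_mul_of_nonneg_right hk hk0.le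
  have f0 : (0 : ℝ) ≤ P.card := Nat.cast_nonneg _
  have hD1 : 4 ≤ k / ww ^ 5 := by unfold ww at hk ⊢; linarith only [hk]
  have hD2 : 4 ≤ k / ww ^ 13 := by unfold ww at hk ⊢; linarith only [hk]
  obtain ⟨H1, hH1⟩ : ∃ H1 : Finset (Finset α), ∀ ρ, ρ ∈ H1 ↔
      ρ.card = n + 1 ∧ k / ww ^ 5 ≤ cn P (fun t => ρ ⊆ t) :=
    ⟨fl Finset.univ _, fun ρ => by rw [mem_fl]; simp only [Finset.mem_univ, true_and]; rfl⟩
  obtain ⟨C, hC⟩ : ∃ C : Finset (Finset α), ∀ γ, γ ∈ C ↔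
      γ.card = n + 3 ∧ k / ww ^ 5 ≤ cn P (fun t => t ⊆ γ) :=
    ⟨fl Finset.univ _, fun ρ => by rw [mem_fl]; simp only [Finset.mem_univ, true_and]; rfl⟩
  obtain ⟨H, hH⟩ : ∃ H, H = S ∪ H1 := ⟨_, rfl⟩
  obtain ⟨BP, hBP⟩ : ∃ BP : Finset (Finset α), ∀ η, η ∈ BP ↔
      η.card = n ∧ k / ww ^ 13 ≤ cn H (fun a => η ⊆ a) :=
    ⟨fl Finset.univ _, fun ρ => by rw [mem_fl]; simp only [Finset.mem_univ, true_and]; rfl⟩
  have hH1' : ∀ a ∈ H1, a.card = n + 1 := fun a h => ((hH1 a).1 h).1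
  have hH' : ∀ a ∈ H, a.card = n + 1 := fun a h =>
    (Finset.mem_union.1 (hH ▸ h)).elim (hS a) (hH1' a)
  have hC' : ∀ a ∈ C, a.card = n + 3 := fun a h => ((hC a).1 h).1
  have hB' : ∀ a ∈ BP, a.card = n := fun a h => ((hBP a).1 h).1
  have hX : 16 * (P.card : ℝ) ^ 3 ≤ (4 * 10 ^ 6 * ww ^ 5 * k ^ 2) ^ 2 * (k / ww ^ 5) ^ 2 := by
    have := pow_le_pow_left₀ f0 hf' 3
    unfold ww
    linarith only [this]
  have c1 : (H1.card : ℝ) ≤ ww ^ 11 * k / 2 := nh hk hf' (long_count P H1 (fun t a => a ⊆ t) hD1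
    (by positivity) (fun a h => ((hH1 a).1 h).2)
    (L5r hP' hP' hH1' (by linarith only [hD1]) (fun a h => ((hH1 a).1 h).2)) hX)
  have c2 : (C.card : ℝ) ≤ ww ^ 11 * k := by
    have e1 := nh hk hf' (long_count P C (fun t a => t ⊆ a) hD1
      (by positivity) (fun a h => ((hC a).1 h).2)
      (L5c hP' hP' hC' (by linarith only [hD1]) (fun a h => ((hC a).1 h).2)) hX)
    have e2 : 0 ≤ ww ^ 11 * k := by positivity
    linarith only [e1, e2]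
  have c3 : (H.card : ℝ) ≤ ww ^ 11 * k := by
    have : (H.card : ℝ) ≤ S.card + H1.card := by rw [hH]; exact_mod_cast Finset.card_union_le S H1
    unfold ww at c1 ⊢
    linarith only [this, c1, hm, hk0]
  have c4 : (BP.card : ℝ) ≤ 2 * ww ^ 24 := by
    have := pack H BP (fun a η => η ⊆ a) (rows_one hH' hB') (D := k / ww ^ 13)
      (by linarith only [hD2])
      (fun a h => ((hBP a).1 h).2) (by unfold ww at c3 kk ⊢; linarith only [c3, kk, hk0])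
    refine le_of_mul_le_mul_right ?_ hk0
    unfold ww at c3 this ⊢
    linarith only [c3, this]
  refine ⟨H, C, BP, hH', hC', hB', hH ▸ Finset.subset_union_left,
    fun ρ g1 g2 => le_of_not_ge fun g => g2 (hH ▸ Finset.mem_union_right _ ((hH1 ρ).2 ⟨g1, g⟩)),
    fun γ g1 g2 => le_of_not_ge fun g => g2 ((hC γ).2 ⟨g1, g⟩),
    fun η g1 g2 => le_of_not_ge fun g => g2 ((hBP η).2 ⟨g1, g⟩), c3, c2, c4, ?_⟩
  have c5 := L5c hT hP' hC' (D := k / ww ^ 5) (by linarith only [hD1]) (fun a h => ((hC a).1 h).2)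
  have hW : 0 ≤ ∑ t ∈ T, cn C (fun γ => t ⊆ γ) * (cn C (fun γ => t ⊆ γ) - 1) :=
    Finset.sum_nonneg fun _ _ => cn_cc_nonneg _ _
  generalize ∑ t ∈ T, cn C (fun γ => t ⊆ γ) * (cn C (fun γ => t ⊆ γ) - 1) = W at c5 hW ⊢
  have e1 : W * (k / ww ^ 5 / 2) ^ 2 ≤ W * (k / ww ^ 5 - 2) ^ 2 :=
    mul_le_mul_of_nonneg_left
      (pow_le_pow_left₀ (by linarith only [hD1]) (by linarith only [hD1]) 2) hW
  have e2 := pow_le_pow_left₀ f0 hf' 2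
  refine le_of_mul_le_mul_right ?_ (by positivity : 0 < k ^ 2)
  unfold ww at e1 c5 ⊢
  linarith only [e1, e2, c5]

lemma s1_PP {n : ℕ} {T P H C : Finset (Finset α)} (hT : ∀ t ∈ T, t.card = n + 2)
    {y : J → Finset α → ℝ} (hy : Bes T y) {k : ℝ} (hkJ : k = Fintype.card J) (hk : ww ^ 60 ≤ k)
    (hf' : (P.card : ℝ) ≤ 10 ^ 4 * k ^ 2)
    (sH : ∀ ρ : Finset α, ρ.card = n + 1 → ρ ∉ H → cn P (fun t => ρ ⊆ t) ≤ k / ww ^ 5)
    (sC : ∀ γ : Finset α, γ.card = n + 3 → γ ∉ C → cn P (fun t => t ⊆ γ) ≤ k / ww ^ 5) :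
    AS y T (fun s t => Adj s t ∧ s ∈ P ∧ s ∩ t ∉ H ∧ s ∪ t ∉ C ∧ t ∈ P) ≤ k ^ 2 / 10 ^ 19 := by
  have hw := ww_pos
  have hk0 : 0 < k := lt_of_lt_of_le (pow_pos ww_pos _) hk
  have k3 : 0 ≤ k ^ 3 := by positivity
  have k4 : 0 ≤ k ^ 4 := by positivity
  have f0 : (0 : ℝ) ≤ P.card := Nat.cast_nonneg _
  have hD1 : 0 ≤ k / ww ^ 5 := by positivity
  have hD1' : k / ww ^ 5 ≤ k := by unfold ww; linarith only [hk0]
  obtain ⟨r, hr⟩ : ∃ r : Finset α → Finset α → Prop,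
    r = fun s t => Adj s t ∧ s ∈ P ∧ s ∩ t ∉ H ∧ s ∪ t ∉ C ∧ t ∈ P := ⟨_, rfl⟩
  have hr' : ∀ s t, r s t → Adj s t ∧ s ∈ P ∧ s ∩ t ∉ H ∧ s ∪ t ∉ C ∧ t ∈ P := fun s t g => by
    rwa [hr] at g
  rw [← hr]
  have e1 := W4c hT hD1 sH sC r
    (fun s t g => ⟨(hr' s t g).1, (hr' s t g).2.1, (hr' s t g).2.2.1, (hr' s t g).2.2.2.1⟩) hy
  have e2 := in_sq hT hD1 sH sC (fun t s => r s t) (fun t s g => ⟨(hr' s t g).1.symm,
    (hr' s t g).2.2.2.2, Finset.inter_comm s t ▸ (hr' s t g).2.2.1,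
    Finset.union_comm s t ▸ (hr' s t g).2.2.2.1⟩)
  rw [NE_flip T r] at e2
  have e3 := NE_sq_le T P r (fun s _ t _ g => (hr' s t g).2.1)
  have e4 := NE_nonneg T r
  have e5 : NE T r ≤ 10 ^ 7 * k ^ 3 := by
    rcases e_bound e4 (e3.trans (mul_le_mul_of_nonneg_left e2 f0)) with g | g
    · calc _ ≤ _ := g
        _ ≤ 4 * k * (10 ^ 4 * k ^ 2) := by gcongr
        _ ≤ _ := by linarith only [k3]
    · refine le_of_sq (g.trans ?_) (by positivity)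
      have a1 := pow_le_pow_left₀ f0 hf' 3
      have a2 : 0 ≤ k ^ 6 := by positivity
      linarith only [a1, a2]
  rw [← hkJ] at e1
  refine n4 hk f0 hf' e5 (e2.trans ?_) e1
  calc _ ≤ 4 * (10 ^ 4 * k ^ 2) ^ 2 + 2 * k * (10 ^ 7 * k ^ 3) := by gcongr
    _ ≤ _ := by linarith only [k4]

lemma s1_PF {n : ℕ} {T S P H C : Finset (Finset α)} (hT : ∀ t ∈ T, t.card = n + 2)
    (hS : ∀ a ∈ S, a.card = n + 1) (hSH : S ⊆ H) (hPF : ∀ t ∈ T, t ∉ P → ∃ a ∈ S, a ⊆ t)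
    {y : J → Finset α → ℝ} (hy : Bes T y) {k : ℝ} (hkJ : k = Fintype.card J) (hk : ww ^ 60 ≤ k)
    (hm : (S.card : ℝ) ≤ 40 * k) (hf' : (P.card : ℝ) ≤ 10 ^ 4 * k ^ 2)
    (sH : ∀ ρ : Finset α, ρ.card = n + 1 → ρ ∉ H → cn P (fun t => ρ ⊆ t) ≤ k / ww ^ 5)
    (sC : ∀ γ : Finset α, γ.card = n + 3 → γ ∉ C → cn P (fun t => t ⊆ γ) ≤ k / ww ^ 5) :
    AS y T (fun s t => Adj s t ∧ s ∈ P ∧ s ∩ t ∉ H ∧ s ∪ t ∉ C ∧ t ∉ P) ≤ k ^ 2 / 10 ^ 19 := by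
  have hw := ww_pos
  have hk0 : 0 < k := lt_of_lt_of_le (pow_pos ww_pos _) hk
  have k3 : 0 ≤ k ^ 3 := by positivity
  have k4 : 0 ≤ k ^ 4 := by positivity
  have f0 : (0 : ℝ) ≤ P.card := Nat.cast_nonneg _
  have hD1 : 0 ≤ k / ww ^ 5 := by positivity
  obtain ⟨r, hr⟩ : ∃ r : Finset α → Finset α → Prop,
    r = fun s t => Adj s t ∧ s ∈ P ∧ s ∩ t ∉ H ∧ s ∪ t ∉ C ∧ t ∉ P := ⟨_, rfl⟩
  have hr' : ∀ s t, r s t → Adj s t ∧ s ∈ P ∧ s ∩ t ∉ H ∧ s ∪ t ∉ C ∧ t ∉ P := fun s t g => by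
    rwa [hr] at g
  rw [← hr]
  have e1 := W4c hT hD1 sH sC r
    (fun s t g => ⟨(hr' s t g).1, (hr' s t g).2.1, (hr' s t g).2.2.1, (hr' s t g).2.2.2.1⟩) hy
  have e2 : ∀ s ∈ T, cn T (r s) ≤ 80 * k := fun s hs => by
    have := le_trans (cn_mono (T := T) (p := r s) fun t ht g =>
      ⟨ht, (hr' s t g).1, fun e => (hr' s t g).2.2.1 (hSH e), hPF t ht (hr' s t g).2.2.2.2⟩)
      (deg_lines hS (hT s hs))
    linarith only [this, hm]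
  have e3 := NE_le_out T P r (fun s _ t _ g => (hr' s t g).2.1) (by linarith only [hk0]) e2
  have e4 := sum_sq_le_out T P r (fun s _ t _ g => (hr' s t g).2.1) e2
  rw [← hkJ] at e1
  refine n4 hk f0 hf' (e3.trans ?_) (e4.trans ?_) e1
  · calc _ ≤ (10 ^ 4 * k ^ 2) * (80 * k) := by gcongr
      _ ≤ _ := by linarith only [k3]
  · calc _ ≤ (10 ^ 4 * k ^ 2) * (80 * k) ^ 2 := by gcongr
      _ ≤ _ := by linarith only [k4]

lemma s1_cut {n : ℕ} {T S P H C BP : Finset (Finset α)} (hT : ∀ t ∈ T, t.card = n + 2)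
    (hS : ∀ a ∈ S, a.card = n + 1) (hPF : ∀ t ∈ T, t ∉ P → ∃ a ∈ S, a ⊆ t)
    {y : J → Finset α → ℝ} (hy : Bes T y) {k : ℝ} (hkJ : k = Fintype.card J) (hk : ww ^ 60 ≤ k)
    (hm : (S.card : ℝ) ≤ 40 * k) (hf' : (P.card : ℝ) ≤ 10 ^ 4 * k ^ 2)
    (hH' : ∀ a ∈ H, a.card = n + 1) (hC' : ∀ a ∈ C, a.card = n + 3) (hB' : ∀ a ∈ BP, a.card = n)
    (hSH : S ⊆ H)
    (sH : ∀ ρ : Finset α, ρ.card = n + 1 → ρ ∉ H → cn P (fun t => ρ ⊆ t) ≤ k / ww ^ 5)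
    (sC : ∀ γ : Finset α, γ.card = n + 3 → γ ∉ C → cn P (fun t => t ⊆ γ) ≤ k / ww ^ 5)
    (sB : ∀ η : Finset α, η.card = n → η ∉ BP → cn H (fun a => η ⊆ a) ≤ k / ww ^ 13)
    (c3 : (H.card : ℝ) ≤ ww ^ 11 * k) (c2 : (C.card : ℝ) ≤ ww ^ 11 * k)
    (c4 : (BP.card : ℝ) ≤ 2 * ww ^ 24)
    (c5 : ∑ t ∈ T, cn C (fun γ => t ⊆ γ) * (cn C (fun γ => t ⊆ γ) - 1)
      ≤ 16 * 10 ^ 8 * ww ^ 10 * k ^ 2) :
    ES y T Adj ≤ ∑ ρ ∈ Ob n H BP, ∑ j, (∑ t ∈ fl T (mm H BP ρ), si t ρ * y j t) ^ 2 + k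
      + 13 * (k ^ 2 / 10 ^ 19) := by
  classical
  have hw := ww_pos
  have hk0 : 0 < k := lt_of_lt_of_le (pow_pos ww_pos _) hk
  have k2 : 0 ≤ k ^ 2 := by positivity
  have k4 : 0 ≤ k ^ 4 := by positivity
  have kk : ww ^ 60 * k ≤ k * k := mul_le_mul_of_nonneg_right hk hk0.le
  have hD2 : 1 ≤ k / ww ^ 13 := by unfold ww at hk ⊢; linarith only [hk]
  obtain ⟨la, hla⟩ : ∃ la : Finset α → Finset α,
      ∀ s ∈ T, (s ∉ P ∧ ∀ η ∈ BP, ¬ η ⊆ s) → la s ∈ S ∧ la s ⊆ s :=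
    ⟨fun s => if h : ∃ a ∈ S, a ⊆ s then h.choose else ∅, fun s hs g => by
      have e := hPF s hs g.1
      simp only [dif_pos e]
      exact e.choose_spec⟩
  have htr : tr T y ≤ k := hkJ ▸ hy.tr_le
  have htr0 := tr_nonneg T y
  have d0 := decomp y hT hC' hSH hPF la (BP := BP)
  have d1 := n3 hk (c := 6 * 10 ^ 4 * ww ^ 24) (by unfold ww; norm_num)
    ((cutXa (P := P) hT hB' hy).trans (by
      rw [← hkJ]
      calc _ ≤ k * ((10 ^ 4 * k ^ 2) * ((2 * ww ^ 24) * 3)) := by gcongr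
        _ = _ := by ring))
  have d2 := n3 hk (c := 480 * ww ^ 24) (by unfold ww; norm_num)
    ((cutXb hT hS hB' y).trans (by
      calc _ ≤ 2 * (40 * k) * ((2 * ww ^ 24) * 3) * k ^ 2 := by gcongr
        _ = _ := by ring))
  have d3 := I3 T (wq y) (fun t => cn C (fun γ => t ⊆ γ))
    (fun t ht => ⟨wq_nonneg _ _, hy.wq_le ht⟩) (fun t _ => cn_cases _ _) (X := k ^ 2 / 10 ^ 19)
    (by positivity) (by
      rw [← tr_eq_wq]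
      have hW : 0 ≤ ∑ t ∈ T, cn C (fun γ => t ⊆ γ) * (cn C (fun γ => t ⊆ γ) - 1) :=
        Finset.sum_nonneg fun _ _ => cn_cc_nonneg _ _
      refine le_trans ?_ (n3' hk (c := 16 * 10 ^ 8 * ww ^ 10) (by unfold ww; norm_num))
      calc _ ≤ k * (16 * 10 ^ 8 * ww ^ 10 * k ^ 2) := mul_le_mul htr c5 hW hk0.le
        _ = _ := by ring)
  rw [← tr_eq_wq] at d3
  have d4 := n3 hk (c := 4 * ww ^ 22) (by unfold ww; norm_num)
    ((L1 hy (fun s t => Adj s t ∧ s ∩ t ∈ H ∧ s ∪ t ∈ C)).trans (by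
      rw [← hkJ]
      calc _ ≤ k * (4 * (H.card : ℝ) * C.card) :=
            mul_le_mul_of_nonneg_left (ov1 (T := T) hH' hC') hk0.le
        _ ≤ k * (4 * (ww ^ 11 * k) * (ww ^ 11 * k)) := by gcongr
        _ = _ := by ring))
  have d5 := s1_PP hT hy hkJ hk hf' sH sC
  have d6 := s1_PF hT hS hSH hPF hy hkJ hk hm hf' sH sC
  have d7 := n3 hk (c := 6400) (by unfold ww; norm_num)
    ((L1 hy _).trans (by
      rw [← hkJ]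
      calc _ ≤ k * (4 * (S.card : ℝ) ^ 2) := mul_le_mul_of_nonneg_left
            (cutSp hT hS la (fun s => s ∉ P ∧ ∀ η ∈ BP, ¬ η ⊆ s) hla) hk0.le
        _ ≤ k * (4 * (40 * k) ^ 2) := by gcongr
        _ = _ := by ring))
  have d8 := cutReg hT hS hSH (D := k / ww ^ 13) hD2 sB la
    (fun s => s ∉ P ∧ ∀ η ∈ BP, ¬ η ⊆ s) hla (fun _ _ g => g.2) hm
    (by unfold ww at kk ⊢; linarith only [kk, hk0]) (fun γ => γ ∉ C) (Λ1 := k / 10 ^ 19)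
    (Λ2 := 80 * ww ^ 13) (by positivity) (by unfold ww at kk ⊢; linarith only [kk, hk0, k2])
    (by unfold ww; linarith only [hk0]) y
  have d8' : (k / 10 ^ 19 + 80 * ww ^ 13) * tr T y ≤ 2 * (k ^ 2 / 10 ^ 19) := by
    have := n1 hk (c := 80 * ww ^ 13) (by unfold ww; norm_num)
    calc _ ≤ (k / 10 ^ 19 + 80 * ww ^ 13) * k := mul_le_mul_of_nonneg_left htr (by positivity)
      _ ≤ _ := by linarith only [this]
  have d9 : AS y T (fun s t => Adj s t ∧ (s ∉ P ∧ ∀ η ∈ BP, ¬ η ⊆ s) ∧ (t ∉ P ∧ ∀ η ∈ BP, ¬ η ⊆ t)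
      ∧ s \ la s = t \ la t ∧ s ∩ t ∈ H) ≤ k ^ 2 / 10 ^ 19 := by
    refine le_of_sq ((L1 hy _).trans ?_) (by positivity)
    rw [← hkJ]
    calc _ ≤ k * ((H.card : ℝ) * S.card * (k / ww ^ 13)) := mul_le_mul_of_nonneg_left
          (ov2 hT hS hH' hSH (D := k / ww ^ 13) hD2 sB la
            (fun s => s ∉ P ∧ ∀ η ∈ BP, ¬ η ⊆ s) hla (fun _ _ g => g.2)) hk0.le
      _ ≤ k * ((ww ^ 11 * k) * (40 * k) * (k / ww ^ 13)) := by gcongr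
      _ ≤ _ := by unfold ww; linarith only [k4]
  linarith only [d0, d1, d2, d3, d4, d5, d6, d7, d8, d8', d9, htr]

lemma s1_bad {n : ℕ} {T H BP : Finset (Finset α)} (hT : ∀ t ∈ T, t.card = n + 2) {k : ℝ}
    (hk : ww ^ 60 ≤ k) (hH' : ∀ a ∈ H, a.card = n + 1)
    (sB : ∀ η : Finset α, η.card = n → η ∉ BP → cn H (fun a => η ⊆ a) ≤ k / ww ^ 13)
    (c3 : (H.card : ℝ) ≤ ww ^ 11 * k) (c4 : (BP.card : ℝ) ≤ 2 * ww ^ 24) :
    ∑ t ∈ fl T (fun t => ¬ good H BP t), (cn H (fun a => a ⊆ t) + 2) ≤ 6 * (k ^ 2 / 10 ^ 19) := by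
  have hw := ww_pos
  have hk0 : 0 < k := lt_of_lt_of_le (pow_pos ww_pos _) hk
  have k2 : 0 ≤ k ^ 2 := by positivity
  have hD2 : 1 < k / ww ^ 13 := by unfold ww at hk ⊢; linarith only [hk]
  have e0 := bad_count hT hH' (D := k / ww ^ 13) hD2 sB (X1 := k ^ 2 / 10 ^ 19)
    (X2 := k ^ 2 / 10 ^ 19) (X3 := k ^ 2 / 10 ^ 19) (by positivity) (by
      refine le_trans ?_ (n3' hk (c := 2 * ww ^ 57) (by unfold ww; norm_num))
      calc _ ≤ (ww ^ 11 * k) * (2 * ww ^ 24) * (ww ^ 11 * k) ^ 2 := by gcongr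
        _ = _ := by ring) (by
      calc _ ≤ 4 * (k / ww ^ 13) * (ww ^ 11 * k) := by gcongr
        _ ≤ _ := by unfold ww; linarith only [k2]) (by
      refine le_trans ?_ (n3' hk (c := 8 * ww ^ 33) (by unfold ww; norm_num))
      calc _ ≤ 8 * (ww ^ 11 * k) ^ 3 := by gcongr
        _ = _ := by ring) (by
      have := mul_le_mul_of_nonneg_right hk k2
      calc _ ≤ (ww ^ 11 * k) ^ 2 := by gcongr
        _ ≤ _ := by unfold ww at this ⊢; linarith only [this, k2])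
  have e1 : 3 * ((H.card : ℝ) * BP.card) ≤ k ^ 2 / 10 ^ 19 := by
    refine le_trans ?_ (n1 hk (c := 6 * ww ^ 35) (by unfold ww; norm_num))
    calc _ ≤ 3 * ((ww ^ 11 * k) * (2 * ww ^ 24)) := by gcongr
      _ = _ := by ring
  linarith only [e0, e1]

theorem stage1 {n : ℕ} {T S : Finset (Finset α)} (hT : ∀ t ∈ T, t.card = n + 2)
    (hS : ∀ a ∈ S, a.card = n + 1) {y : J → Finset α → ℝ} (hy : Bes T y) {k : ℝ}
    (hkJ : k = Fintype.card J) (hk : ww ^ 60 ≤ k) (hm : (S.card : ℝ) ≤ 40 * k)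
    (h1 : ∀ a ∈ S, 200 * k ≤ cn T (fun t => a ⊆ t))
    (h2 : ∀ ρ : Finset α, ρ.card = n + 1 → ρ ∉ S → cn T (fun t => ρ ⊆ t) ≤ 200 * k)
    (hf : cn T (fun t => ¬ ∃ a ∈ S, a ⊆ t) ≤ 10 ^ 4 * k ^ 2)
    (hQ : T.card + k ^ 2 / 2 - k ≤ QF T y) :
    ∃ η : Finset α, η.card = n ∧ cn S (fun a => ¬ η ⊆ a) ≤ k / 10 ^ 13 ∧
      cn T (fun t => ¬ η ⊆ t ∧ ¬ ∃ a ∈ S, a ⊆ t) ≤ k ^ 2 / 10 ^ 13 := by
  have hk0 : 0 < k := lt_of_lt_of_le (pow_pos ww_pos _) hk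
  have k2 : 0 ≤ k ^ 2 := by positivity
  have hP' : ∀ t ∈ fl T (fun t => ¬ ∃ a ∈ S, a ⊆ t), t.card = n + 2 :=
    fun t ht => hT t (mem_fl.1 ht).1
  have hPF : ∀ t ∈ T, t ∉ fl T (fun t => ¬ ∃ a ∈ S, a ⊆ t) → ∃ a ∈ S, a ⊆ t := fun t ht g => by
    by_contra e; exact g (mem_fl.2 ⟨ht, e⟩)
  obtain ⟨H, C, BP, hH', hC', hB', hSH, sH, sC, sB, c3, c2, c4, c5⟩ := s1_sets hT hS hP' hk hm hf
  have d0 := s1_cut hT hS hPF hy hkJ hk hm hf hH' hC' hB' hSH sH sC sB c3 c2 c4 c5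
  have e0 := s1_bad hT hk hH' sB c3 c4
  have e2 := n1 hk (c := 10) (by unfold ww; norm_num)
  have htr : tr T y ≤ k := hkJ ▸ hy.tr_le
  obtain ⟨u, j', -, g2, -, g4⟩ := RT T (Ob n H BP) (mm H BP) (fun ρ t => si t ρ) y hy
  have g5 : (0 : ℝ) ≤ j' := Nat.cast_nonneg _
  obtain ⟨η, hη, g6⟩ := stab hT hH' hB' hSH hkJ hk0 h1 h2 g2 (E0 := 20 * (k ^ 2 / 10 ^ 19))
    e0 (by unfold QF at hQ; linarith only [hQ, d0, g4, g5, e2, htr, k2]) (by positivity)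
    (by linarith only [e2, k2])
  exact ⟨η, hB' η hη, g6⟩

theorem core {n : ℕ} {T : Finset (Finset α)} (hT : ∀ t ∈ T, t.card = n + 2)
    {y : J → Finset α → ℝ} {ν : J → ℝ} (h : Eig T y ν) {k : ℝ} (hkJ : k = Fintype.card J)
    (hk : ww ^ 60 ≤ k) (hν : ∀ i, k - 2 ≤ ν i) : ∑ i, ν i ≤ T.card + k * (k - 1) / 2 := by
  have hk' : 10 ^ 16 ≤ k := le_trans (by unfold ww; norm_num) hk
  have hk1 : 1 ≤ k := le_trans (by norm_num) hk'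
  rw [← h.QF_eq]
  by_contra g
  have g1 := not_le.1 g
  have g2 : 0 ≤ k * (k - 1) := mul_nonneg (by linarith) (by linarith)
  have hm : ((sup' n T (200 * k)).card : ℝ) ≤ 40 * k := by
    by_contra e
    linarith [thmA_many hT y h.bes hkJ hk1 (not_le.1 e)]
  have a1 := thmA_few hT y h.bes hkJ hk1 hm
  have hS : ∀ a ∈ sup' n T (200 * k), a.card = n + 1 := fun a ha => (mem_fl.1 ha).2.1
  have h1 : ∀ a ∈ sup' n T (200 * k), 200 * k ≤ cn T (fun t => a ⊆ t) :=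
    fun a ha => (mem_fl.1 ha).2.2
  have h2 : ∀ ρ : Finset α, ρ.card = n + 1 → ρ ∉ sup' n T (200 * k) →
      cn T (fun t => ρ ⊆ t) ≤ 200 * k :=
    fun ρ e1 e2 => le_of_not_ge fun e => e2 (mem_fl.2 ⟨Finset.mem_univ _, e1, e⟩)
  obtain ⟨η, b1, b2, b3⟩ := stage1 hT hS h.bes hkJ hk hm h1 h2
    (by nlinarith [sq_nonneg k]) (by linarith)
  exact g (stage2 hT hS b1 h hkJ hk' hν hm h1 h2 b2 b3)

end Pool.Agent.Lib.MP_468ee0_co
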