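import Pool.Agent.Lib.MP_468ee0_co.U9S1

set_option autoImplicit false
set_option linter.unusedSectionVars false

namespace Pool.Agent.Lib.MP_468ee0_co

open Finset

variable {α : Type} [LinearOrder α] [Fintype α]

lemma final_ind : ∃ K0 : ℕ, ∀ (α : Type) [LinearOrder α] [Fintype α] (n : ℕ)
    (T : Finset (Finset α)), (∀ t ∈ T, t.card = n + 2) → ∀ (ι : Type) (y : ι → Finset α → ℝ)
    (ν : ι → ℝ), (∀ I : Finset ι, (∀ i ∈ I, 0 < ν i) →
      Eig T (fun i : {i // i ∈ I} => y i) (fun i => ν i)) → ∀ S : Finset ι,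
      ∑ i ∈ S, ν i ≤ T.card + if S.card < K0 then 4000 * (S.card : ℝ) ^ 2
        else (S.card : ℝ) * (S.card - 1) / 2 := by
  obtain ⟨K1, hK1⟩ := exists_nat_ge (ww ^ 60)
  refine ⟨K1 + 4000 * K1 ^ 2, fun α _ _ n T hT ι y ν hE => ?_⟩
  classical
  have hA : ∀ S : Finset ι, ∑ i ∈ S, ν i ≤ T.card + 4000 * (S.card : ℝ) ^ 2 := by
    intro S
    have h1 := hE (fl S (fun i => 0 < ν i)) (fun i hi => (mem_fl.1 hi).2)
    have h2 := thmA hT _ h1.bes
    rw [h1.QF_eq, Finset.sum_coe_sort (fl S (fun i => 0 < ν i)) ν, Fintype.card_coe] at h2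
    have h3 := sum_fl_add_not S (fun i => 0 < ν i) ν
    have h4 : ∑ i ∈ fl S (fun i => ¬ 0 < ν i), ν i ≤ 0 :=
      Finset.sum_nonpos fun i hi => not_lt.1 (mem_fl.1 hi).2
    have h5 : ((fl S (fun i => 0 < ν i)).card : ℝ) ≤ S.card := cn_le_card _ _
    have h6 := pow_le_pow_left₀ (Nat.cast_nonneg _) h5 2
    linarith
  have hB : ∀ k : ℕ, K1 ≤ k → ∀ S : Finset ι, S.card = k →
      ∑ i ∈ S, ν i ≤ T.card + (k : ℝ) * (k - 1) / 2 + max (4000 * (K1 : ℝ) ^ 2 - (k - K1)) 0 := by
    intro k hk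
    have h16 : (16 : ℝ) ≤ K1 := le_trans (by unfold ww; norm_num) hK1
    induction k, hk using Nat.le_induction with
    | base =>
      intro S hS
      have h1 := hA S
      rw [hS] at h1
      have h2 := le_max_left (4000 * (K1 : ℝ) ^ 2 - (K1 - K1)) 0
      have h3 : 0 ≤ (K1 : ℝ) * (K1 - 1) := mul_nonneg (by linarith) (by linarith)
      linarith
    | succ k hk ih =>
      intro S hS
      have hk' : (K1 : ℝ) ≤ k := by exact_mod_cast hk
      push_cast
      by_cases h : ∀ i ∈ S, (k : ℝ) + 1 - 2 ≤ ν i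
      · have h1 := hE S (fun i hi => by linarith [h i hi])
        have h2 := core hT h1 (k := (k : ℝ) + 1) (by rw [Fintype.card_coe, hS]; push_cast; rfl)
          (by linarith) (fun i => h i.1 i.2)
        rw [Finset.sum_coe_sort S ν] at h2
        linarith [le_max_right (4000 * (K1 : ℝ) ^ 2 - (k + 1 - K1)) 0]
      · push Not at h
        obtain ⟨i, hi, h1⟩ := h
        have h2 := ih (S.erase i) (by rw [Finset.card_erase_of_mem hi, hS]; rfl)
        rw [← Finset.add_sum_erase S ν hi]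
        have h3 : max (4000 * (K1 : ℝ) ^ 2 - (k - K1)) 0
            ≤ max (4000 * (K1 : ℝ) ^ 2 - (k + 1 - K1)) 0 + 1 :=
          max_le (by linarith [le_max_left (4000 * (K1 : ℝ) ^ 2 - (k + 1 - K1)) 0])
            (by linarith [le_max_right (4000 * (K1 : ℝ) ^ 2 - (k + 1 - K1)) 0])
        linarith
  intro S
  split_ifs with h
  · exact hA S
  · have h1 := hB S.card (by omega) S rfl
    have h2 : ((K1 + 4000 * K1 ^ 2 : ℕ) : ℝ) ≤ S.card := by exact_mod_cast not_lt.1 h
    push_cast at h2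
    rw [max_eq_right (by linarith)] at h1
    linarith

lemma si_eq (t σ : Finset α) :
    ((-1 : ℝ) ^ (∑ v ∈ t \ σ, (t.filter (fun w => w < v)).card)) = si t σ := by
  unfold si
  rw [← Finset.prod_pow_eq_pow_sum]
  refine Finset.prod_congr rfl fun x _ => ?_
  unfold sg
  rw [Finset.prod_ite]; simp

lemma eig_of {n : ℕ} {T R : Finset (Finset α)} (hT : ∀ t ∈ T, t.card = n + 2)
    (hR : ∀ a ∈ R, a.card = n + 1) (hd : ∀ t ∈ T, ∀ a, a ⊆ t → a.card = n + 1 → a ∈ R)
    {ι : Type} (e : ι → Finset α → ℝ) (lam : ι → ℝ)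
    (h0 : ∀ i j, i ≠ j → ∑ a ∈ R, e i a * e j a = 0) (h1 : ∀ i, ∑ a ∈ R, e i a * e i a = 1)
    (h2 : ∀ i, ∀ a ∈ R, ∑ u ∈ fl T (fun u => a ⊆ u),
      si u a * ∑ b ∈ fl R (fun b => b ⊆ u), si u b * e i b = lam i * e i a)
    (I : Finset ι) (hI : ∀ i ∈ I, 0 < lam i - (n + 1)) :
    Eig T (fun i : {i // i ∈ I} => fun t => (∑ b ∈ fl R (fun b => b ⊆ t), si t b * e i b) / √(lam i))
      (fun i => lam i - (n + 1)) := by
  set z : ι → Finset α → ℝ := fun i t => ∑ b ∈ fl R (fun b => b ⊆ t), si t b * e i b with hz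
  have hpos : ∀ i ∈ I, 0 < lam i := fun i hi => by
    have := hI i hi
    have : (0 : ℝ) ≤ n := Nat.cast_nonneg _
    linarith
  have hip : ∀ i j, ∑ t ∈ T, z i t * z j t = lam i * ∑ a ∈ R, e i a * e j a := by
    intro i j
    have : ∀ t, z i t * z j t = ∑ b ∈ fl R (fun b => b ⊆ t), e j b * (si t b * z i t) := fun t => by
      conv_lhs => rhs; rw [hz]
      simp only [Finset.mul_sum]
      exact Finset.sum_congr rfl fun _ _ => by ring
    simp_rw [this]
    rw [sum_fl_comm T R (fun t b => b ⊆ t) (fun t b => e j b * (si t b * z i t)), Finset.mul_sum]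
    refine Finset.sum_congr rfl fun a ha => ?_
    rw [← Finset.mul_sum, h2 i a ha]; ring
  constructor
  · intro i j
    have : ∀ t, z i t / √(lam i) * (z j t / √(lam j)) = z i t * z j t / (√(lam i) * √(lam j)) :=
      fun t => by ring
    change ∑ t ∈ T, z i t / √(lam i) * (z j t / √(lam j)) = _
    simp_rw [this]
    rw [← Finset.sum_div, hip]
    split_ifs with h
    · subst h
      rw [h1, Real.mul_self_sqrt (hpos i.1 i.2).le, mul_one, div_self (hpos i.1 i.2).ne']
    · rw [h0 i.1 j.1 (fun g => h (Subtype.ext g))]; simp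
  · intro i t ht
    have a1 := row_part hT hR ht (z i)
    have a2 : fl T (fun u => Adj t u ∧ t ∩ u ∈ R) = fl T (Adj t) :=
      fl_congr fun u _ => ⟨fun g => g.1, fun g => ⟨g, hd t ht _ Finset.inter_subset_left
        (by have := g.2; have := hT t ht; omega)⟩⟩
    have a3 : cn R (fun a => a ⊆ t) = n + 2 := by
      have : fl R (fun a => a ⊆ t) = powersetCard (n + 1) t := by
        ext a
        rw [mem_fl, Finset.mem_powersetCard]
        exact ⟨fun g => ⟨g.2, hR a g.1⟩, fun g => ⟨hd t ht a g.1 g.2, g.1⟩⟩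
      unfold cn
      rw [this, Finset.card_powersetCard, hT t ht, Nat.choose_succ_self_right]
      push_cast; ring
    have a4 : ∑ a ∈ fl R (fun a => a ⊆ t), si t a * ∑ u ∈ fl T (fun u => a ⊆ u), si u a * z i u
        = lam i * z i t := by
      conv_rhs => rw [hz]
      simp only [Finset.mul_sum (fl R (fun a => a ⊆ t))]
      refine Finset.sum_congr rfl fun a ha => ?_
      rw [h2 i a (mem_fl.1 ha).1]; ring
    rw [a2, a3, a4] at a1
    change Mv T (fun t => z i t / √(lam i)) t = (lam i - (n + 1)) * (z i t / √(lam i))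
    unfold Mv
    have a5 : ∑ u ∈ fl T (Adj t), aa t u * (z i u / √(lam i))
        = (∑ u ∈ fl T (Adj t), aa t u * z i u) / √(lam i) := by
      rw [Finset.sum_div]; exact Finset.sum_congr rfl fun _ _ => by ring
    rw [a5, a1]; ring

theorem umain : ∃ K0 : ℕ, ∀ (n : ℕ) (X : Finset (Finset (Fin n))),
    (∀ s ∈ X, ∀ t : Finset (Fin n), t ⊆ s → t.Nonempty → t ∈ X) →
    ∀ r : ℕ, 1 ≤ r → ∀ S : Finset {σ : Finset (Fin n) // σ ∈ X ∧ σ.card = r},
      ∑ i ∈ S, (Matrix.isHermitian_mul_conjTranspose_self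
        (Matrix.of (fun (σ : {σ : Finset (Fin n) // σ ∈ X ∧ σ.card = r})
            (τ : {τ : Finset (Fin n) // τ ∈ X ∧ τ.card = r + 1}) =>
            if σ.1 ⊆ τ.1 then
              ((-1 : ℝ) ^ (∑ v ∈ τ.1 \ σ.1, (τ.1.filter (fun w => w < v)).card))
            else 0))).eigenvalues i
      ≤ ((X.filter (fun s => s.card = r + 1)).card : ℝ)
          + (if S.card < K0 then 4000 * (S.card : ℝ) ^ 2 else ((S.card.choose 2 : ℕ) : ℝ))
          + (r : ℝ) * (S.card : ℝ) := by
  obtain ⟨K0, hK⟩ := final_ind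
  refine ⟨K0, fun n X hX r hr S => ?_⟩
  obtain ⟨m, rfl⟩ : ∃ m, r = m + 1 := ⟨r - 1, by omega⟩
  set B := (Matrix.of (fun (σ : {σ : Finset (Fin n) // σ ∈ X ∧ σ.card = m + 1})
            (τ : {τ : Finset (Fin n) // τ ∈ X ∧ τ.card = m + 1 + 1}) =>
            if σ.1 ⊆ τ.1 then
              ((-1 : ℝ) ^ (∑ v ∈ τ.1 \ σ.1, (τ.1.filter (fun w => w < v)).card))
            else 0)) with hB
  set hH := Matrix.isHermitian_mul_conjTranspose_self B
  set T := X.filter (fun s => s.card = m + 1 + 1) with hT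
  set R := X.filter (fun s => s.card = m + 1) with hR
  let e : {σ : Finset (Fin n) // σ ∈ X ∧ σ.card = m + 1} → Finset (Fin n) → ℝ :=
    fun i σ => if h : σ ∈ X ∧ σ.card = m + 1 then hH.eigenvectorBasis i ⟨σ, h⟩ else 0
  have he : ∀ i (σ : {σ : Finset (Fin n) // σ ∈ X ∧ σ.card = m + 1}),
      e i σ = hH.eigenvectorBasis i σ := fun i σ => dif_pos σ.2
  have sR : ∀ g : Finset (Fin n) → ℝ,
      ∑ σ ∈ R, g σ = ∑ σ : {σ : Finset (Fin n) // σ ∈ X ∧ σ.card = m + 1}, g σ :=
    fun g => Finset.sum_subtype R (fun σ => Finset.mem_filter) g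
  have sT : ∀ g : Finset (Fin n) → ℝ,
      ∑ σ ∈ T, g σ = ∑ σ : {σ : Finset (Fin n) // σ ∈ X ∧ σ.card = m + 1 + 1}, g σ :=
    fun g => Finset.sum_subtype T (fun σ => Finset.mem_filter) g
  have hip : ∀ i j, ∑ a ∈ R, e i a * e j a = if i = j then 1 else 0 := fun i j => by
    rw [sR]
    simp_rw [he]
    exact eig_row hH i j
  have hBe : ∀ σ τ (x : ℝ), B σ τ * x
      = @ite _ (σ.1 ⊆ τ.1) (Classical.propDecidable _) (si τ.1 σ.1 * x) 0 := by
    intro σ τ x
    rw [hB, Matrix.of_apply, si_eq]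
    split_ifs <;> simp
  have h := hK (Fin n) m T (fun t ht => (Finset.mem_filter.1 ht).2) _
    (fun i t => (∑ b ∈ fl R (fun b => b ⊆ t), si t b * e i b) / √(hH.eigenvalues i))
    (fun i => hH.eigenvalues i - (m + 1))
    (eig_of (T := T) (R := R) (fun t ht => (Finset.mem_filter.1 ht).2)
      (fun t ht => (Finset.mem_filter.1 ht).2)
      (fun t ht a g1 g2 => Finset.mem_filter.2 ⟨hX t (Finset.mem_filter.1 ht).1 a g1
        (Finset.card_pos.1 (by omega)), g2⟩) e hH.eigenvalues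
      (fun i j hij => by rw [hip, if_neg hij]) (fun i => by rw [hip, if_pos rfl])
      (fun i a ha => by
        have a1 := eig_app hH i ⟨a, Finset.mem_filter.1 ha⟩
        rw [← he i ⟨a, Finset.mem_filter.1 ha⟩] at a1
        refine Eq.trans ?_ a1
        rw [sum_fl, sT]
        simp_rw [Matrix.mul_apply, Matrix.conjTranspose_apply, star_trivial, Finset.sum_mul]
        rw [Finset.sum_comm]
        refine Finset.sum_congr rfl fun τ _ => ?_
        simp_rw [mul_assoc]
        rw [← Finset.mul_sum, hBe, sum_fl, sR]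
        simp_rw [hBe, he]
        congr
        funext x
        congr)) S
  rw [Finset.sum_sub_distrib, Finset.sum_const, nsmul_eq_mul] at h
  rw [Nat.cast_choose_two]
  push_cast
  linarith

end Pool.Agent.Lib.MP_468ee0_co
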